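import Pool.Agent.SEL.St
import Pool.Agent.VD.Disc

/-!
# SEL / Box: correlation with functions of small rank and the box norm
-/

set_option autoImplicit false

namespace Pool.Agent.SEL

open Finset Pool.Agent.VD

/-- Cauchy-Schwarz twice -/
private theorem box_op {X Y : Type} [Fintype X] [Fintype Y] (M : X → Y → ℝ) (e : X → ℝ) :
    ∑ y, (∑ x, e x * M x y) ^ 2 ≤
      Real.sqrt (∑ x, ∑ x', (∑ y, M x y * M x' y) ^ 2) * ∑ x, e x ^ 2 := by
  have h1 : ∑ y, (∑ x, e x * M x y) ^ 2 =
      ∑ p : X × X, (e p.1 * e p.2) * ∑ y, M p.1 y * M p.2 y := by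
    have h2 : ∀ y, (∑ x, e x * M x y) ^ 2 = ∑ p : X × X, e p.1 * e p.2 * (M p.1 y * M p.2 y) := by
      intro y
      rw [sq, Finset.sum_mul_sum, Fintype.sum_prod_type]
      exact Finset.sum_congr rfl fun x _ => Finset.sum_congr rfl fun x' _ => by ring
    rw [Finset.sum_congr rfl fun y _ => h2 y, Finset.sum_comm]
    exact Finset.sum_congr rfl fun p _ => (Finset.mul_sum _ _ _).symm
  have h3 : ∑ p : X × X, (e p.1 * e p.2) ^ 2 = (∑ x, e x ^ 2) ^ 2 := by
    rw [sq (∑ x, e x ^ 2), Finset.sum_mul_sum, Fintype.sum_prod_type]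
    exact Finset.sum_congr rfl fun x _ => Finset.sum_congr rfl fun x' _ => by ring
  have h4 : ∑ p : X × X, (∑ y, M p.1 y * M p.2 y) ^ 2 =
      ∑ x, ∑ x', (∑ y, M x y * M x' y) ^ 2 := Fintype.sum_prod_type _
  have h5 := Finset.sum_mul_sq_le_sq_mul_sq (univ : Finset (X × X)) (fun p => e p.1 * e p.2)
    (fun p => ∑ y, M p.1 y * M p.2 y)
  rw [← h1, h3, h4] at h5
  have he : 0 ≤ ∑ x, e x ^ 2 := Finset.sum_nonneg fun x _ => sq_nonneg _
  rw [← Real.sqrt_sq he, ← Real.sqrt_mul (Finset.sum_nonneg fun x _ =>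
    Finset.sum_nonneg fun x' _ => sq_nonneg _), mul_comm]
  exact Real.le_sqrt_of_sq_le h5

private theorem box_card (n : ℕ) : (Fintype.card (Cube n) : ℝ) = 2 ^ n := by
  rw [Fintype.card_fun, Fintype.card_fin, Fintype.card_bool]
  push_cast
  rfl

theorem thm_Box : St_Box := by
  intro n W w T S hT
  obtain ⟨u, v, hu, hv, hT⟩ := hT
  obtain ⟨N, hN⟩ : ∃ N : ℝ, N = 2 ^ n := ⟨_, rfl⟩
  have hN0 : 0 < N := by rw [hN]; positivity
  have hsp : ∀ F : Cube n → ℝ, ∑ x, ∑ y, F (S.piecewise x y) = N * ∑ z, F z := fun F => by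
    rw [hN]
    exact sum_piecewise S F
  have hav : ∀ F : Cube n → ℝ, ∑ z, F z = N * av F := fun F => by
    rw [av, box_card, ← hN]
    field_simp
  obtain ⟨G, hG⟩ : ∃ G : ℝ, G = ∑ x : Cube n, ∑ x' : Cube n,
      (∑ y : Cube n, w (S.piecewise x y) * w (S.piecewise x' y)) ^ 2 := ⟨_, rfl⟩
  have hG0 : 0 ≤ G := by
    rw [hG]
    exact Finset.sum_nonneg fun x _ => Finset.sum_nonneg fun x' _ => sq_nonneg _
  -- the box norm
  have hbox : G = N ^ 4 * box w S := by
    have e1 : ∑ p : Cube n × Cube n,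
        w p.1 * w (S.piecewise p.1 p.2) * w (S.piecewise p.2 p.1) * w p.2 =
        N ^ 2 * box w S := by
      rw [box, av, Fintype.card_prod]
      push_cast
      rw [box_card, ← hN]
      field_simp
    have e2 : N ^ 2 * ∑ p : Cube n × Cube n,
        w p.1 * w (S.piecewise p.1 p.2) * w (S.piecewise p.2 p.1) * w p.2 =
        ∑ x, ∑ y, ∑ x', ∑ y', w (S.piecewise x y) * w (S.piecewise x y') *
          w (S.piecewise x' y) * w (S.piecewise x' y') := by
      rw [Fintype.sum_prod_type]
      have e3 := hsp fun p => N * ∑ q : Cube n,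
        w p * w (S.piecewise p q) * w (S.piecewise q p) * w q
      have e4 : ∀ p : Cube n, N * ∑ q : Cube n,
          w p * w (S.piecewise p q) * w (S.piecewise q p) * w q = ∑ x', ∑ y',
          w p * w (S.piecewise p (S.piecewise x' y')) * w (S.piecewise (S.piecewise x' y') p) *
            w (S.piecewise x' y') := fun p =>
        (hsp fun q => w p * w (S.piecewise p q) * w (S.piecewise q p) * w q).symm
      have e5 : N ^ 2 * ∑ p : Cube n, ∑ q : Cube n,
          w p * w (S.piecewise p q) * w (S.piecewise q p) * w q =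
          N * ∑ p : Cube n, N * ∑ q : Cube n,
            w p * w (S.piecewise p q) * w (S.piecewise q p) * w q := by
        rw [← Finset.mul_sum]
        ring
      rw [e5, ← e3]
      refine Finset.sum_congr rfl fun x _ => Finset.sum_congr rfl fun y _ => ?_
      rw [e4]
      refine Finset.sum_congr rfl fun x' _ => Finset.sum_congr rfl fun y' _ => ?_
      rw [Finset.piecewise_idem_left, Finset.piecewise_idem_left, Finset.piecewise_idem_right,
        Finset.piecewise_idem_right]
    have e6 : G = ∑ x, ∑ y, ∑ x', ∑ y', w (S.piecewise x y) * w (S.piecewise x y') *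
          w (S.piecewise x' y) * w (S.piecewise x' y') := by
      rw [hG]
      refine Finset.sum_congr rfl fun x _ => ?_
      rw [Finset.sum_comm]
      refine Finset.sum_congr rfl fun x' _ => ?_
      rw [sq, Finset.sum_mul_sum]
      refine Finset.sum_congr rfl fun y _ => Finset.sum_congr rfl fun y' _ => ?_
      ring
    rw [e6, ← e2, e1]
    ring
  -- the discrepancy
  have hTs : ∀ x y : Cube n, T (S.piecewise x y) = ∑ k, u k x * v k y := by
    intro x y
    rw [hT]
    refine Finset.sum_congr rfl fun k _ => ?_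
    rw [hu k (S.piecewise x y) x fun i hi => Finset.piecewise_eq_of_mem _ _ _ hi,
      hv k (S.piecewise x y) y fun i hi =>
        Finset.piecewise_eq_of_notMem _ _ _ (Finset.mem_compl.1 hi)]
  have h1 := disc_rank (fun x y : Cube n => w (S.piecewise x y))
    (fun x y : Cube n => T (S.piecewise x y)) (Real.sqrt G) (Real.sqrt_nonneg _)
    (fun e => by
      rw [hG]
      exact box_op _ e) W u v hTs
  have h2 := hsp fun z => w z * T z
  have h3 := hsp fun z => T z ^ 2
  rw [h2, h3, hav, hav (fun z => T z ^ 2)] at h1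
  have h4 : 0 ≤ (N * (N * av fun z => w z * T z)) ^ 2 := sq_nonneg _
  have h5 := pow_le_pow_left₀ h4 h1 2
  have h6 : Real.sqrt G ^ 2 = N ^ 4 * box w S := by rw [Real.sq_sqrt hG0, hbox]
  have h7 : ((N * (N * av fun z => w z * T z)) ^ 2) ^ 2 =
      N ^ 8 * (av fun z => w z * T z) ^ 4 := by ring
  have h8 : (W * Real.sqrt G * (N * (N * av fun z => T z ^ 2))) ^ 2 =
      N ^ 8 * (W ^ 2 * box w S * (av fun z => T z ^ 2) ^ 2) := by
    have : (W * Real.sqrt G * (N * (N * av fun z => T z ^ 2))) ^ 2 =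
        W ^ 2 * Real.sqrt G ^ 2 * (N * (N * av fun z => T z ^ 2)) ^ 2 := by ring
    rw [this, h6]
    ring
  rw [h7, h8] at h5
  exact le_of_mul_le_mul_left h5 (by positivity)

end Pool.Agent.SEL
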