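import Pool.Agent.SEL.St

/-!
# SEL, module Clo: closure of a small set of variables
-/

set_option autoImplicit false

namespace Pool.Agent.SEL

open Finset Pool.Agent.VD

theorem thm_Clo : St_Clo := by
  intro k N₃ hk
  refine ⟨5 * N₃, ?_⟩
  intro n E hE hexp U₀ hU₀
  classical
  obtain ⟨I, hIF, hmax⟩ := (E.powerset.filter fun I =>
    2 * (U₀ ∪ I.biUnion id).card ≤ 2 * U₀.card + k * I.card ∧ N₃ * I.card ≤ n).exists_max_image
      card ⟨∅, by simp⟩
  rw [mem_filter, mem_powerset] at hIF
  obtain ⟨hIE, hI1, hI2⟩ := hIF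
  have h1 := hexp I hIE hI2
  have h2 : (I.biUnion id).card ≤ (U₀ ∪ I.biUnion id).card := card_le_card subset_union_right
  have h3 : k * I.card ≤ 4 * U₀.card := by
    rw [mul_assoc] at h1
    omega
  refine ⟨U₀ ∪ I.biUnion id, subset_union_left, by omega, ?_⟩
  intro C hC
  by_contra hcon
  rw [not_or, not_le] at hcon
  obtain ⟨hCU, hCk⟩ := hcon
  have hCI : C ∉ I := fun h => hCU fun v hv =>
    mem_union_right _ (mem_biUnion.mpr ⟨C, h, hv⟩)
  have hU₀pos : 1 ≤ U₀.card := by
    by_contra h
    have h0 : U₀.card = 0 := by omega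
    have hI0 : I.card = 0 := by
      rw [h0, mul_zero] at h3
      rcases Nat.mul_eq_zero.mp (Nat.le_zero.mp h3) with h' | h'
      · omega
      · exact h'
    rw [card_eq_zero] at h0 hI0
    rw [h0, hI0, biUnion_empty, empty_union, inter_empty, card_empty] at hCk
    omega
  have hIcard : I.card ≤ 4 * U₀.card := le_trans (Nat.le_mul_of_pos_left _ hk) h3
  have h4 := hmax (insert C I) (by
    rw [mem_filter, mem_powerset]
    refine ⟨insert_subset hC hIE, ?_, ?_⟩
    · have h5 : U₀ ∪ (insert C I).biUnion id = (U₀ ∪ I.biUnion id) ∪ C := by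
        rw [biUnion_insert, id]
        ext v
        simp only [mem_union]
        tauto
      rw [h5, card_insert_of_notMem hCI]
      have h6 := card_union_add_card_inter (U₀ ∪ I.biUnion id) C
      rw [inter_comm, hE C hC] at h6
      rw [mul_add, mul_one]
      omega
    · rw [card_insert_of_notMem hCI]
      calc N₃ * (I.card + 1) ≤ N₃ * (5 * U₀.card) := Nat.mul_le_mul_left _ (by omega)
        _ = 5 * N₃ * U₀.card := by ring
        _ ≤ n := hU₀)
  rw [card_insert_of_notMem hCI] at h4
  omega

end Pool.Agent.SEL
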