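import Pool.Agent.SEL.St

/-!
# SEL: the fraction of the models in a cube
-/

set_option autoImplicit false

namespace Pool.Agent.SEL

open Finset Pool.Agent.VD

/-- Greedy choice of a family without conflicts. -/
theorem Cub_greedy {X : Type} [DecidableEq X] (S : Finset X) (c : X → X → Prop)
    (hs : ∀ a b, c a b → c b a) (M : ℕ) (B : X → Finset X) (hB : ∀ a ∈ S, (B a).card ≤ M)
    (hc : ∀ a ∈ S, ∀ b ∈ S, c a b → b ∈ B a) (hr : ∀ a ∈ S, c a a) :
    ∃ J ⊆ S, (∀ a ∈ J, ∀ b ∈ J, a ≠ b → ¬ c a b) ∧ S.card ≤ M * J.card := by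
  classical
  have key : ∀ Ind : Finset X → Prop, Ind ∅ →
      ∃ J, J ⊆ S ∧ Ind J ∧ ∀ J', J' ⊆ S → Ind J' → J'.card ≤ J.card := by
    intro Ind h0
    obtain ⟨J, hJ, hmax⟩ := Finset.exists_max_image (S.powerset.filter Ind) Finset.card
      ⟨∅, mem_filter.mpr ⟨mem_powerset.mpr (empty_subset _), h0⟩⟩
    rw [mem_filter, mem_powerset] at hJ
    exact ⟨J, hJ.1, hJ.2, fun J' h1 h2 => hmax J' (mem_filter.mpr ⟨mem_powerset.mpr h1, h2⟩)⟩
  obtain ⟨J, hJS, hJi, hmax⟩ := key (fun J => ∀ a ∈ J, ∀ b ∈ J, a ≠ b → ¬ c a b) (by simp)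
  refine ⟨J, hJS, hJi, ?_⟩
  have hcov : S ⊆ J.biUnion B := by
    intro a ha
    rw [mem_biUnion]
    by_cases haJ : a ∈ J
    · exact ⟨a, haJ, hc a ha a ha (hr a ha)⟩
    · by_contra hcon
      push Not at hcon
      have hno : ∀ b ∈ J, ¬ c b a := fun b hb hba => hcon b hb (hc b (hJS hb) a ha hba)
      have hins : ∀ x ∈ insert a J, ∀ y ∈ insert a J, x ≠ y → ¬ c x y := by
        intro x hx y hy hxy
        rw [mem_insert] at hx hy
        rcases hx with rfl | hx <;> rcases hy with rfl | hy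
        · exact absurd rfl hxy
        · exact fun h => hno y hy (hs _ _ h)
        · exact hno x hx
        · exact hJi x hx y hy hxy
      have h1 := hmax _ (insert_subset ha hJS) hins
      rw [card_insert_of_notMem haJ] at h1
      omega
  refine (card_le_card hcov).trans ?_
  rw [mul_comm]
  exact card_biUnion_le_card_mul _ _ _ fun a ha => hB a (hJS ha)

/-- the models in the cube given by `J` and `r` -/
def Cub_mod {n : ℕ} (E : Finset (Finset (Fin n))) (J : Finset (Fin n)) (r : Cube n) :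
    Finset (Cube n) :=
  (cube J r).filter fun x => ∀ C ∈ E, ∃ v ∈ C, x v = true

theorem Cub_mem {n : ℕ} {E : Finset (Finset (Fin n))} {J : Finset (Fin n)} {r x : Cube n} :
    x ∈ Cub_mod E J r ↔ (∀ v ∈ J, x v = r v) ∧ ∀ C ∈ E, ∃ v ∈ C, x v = true := by
  rw [Cub_mod, mem_filter, cube, mem_filter]
  simp

theorem Cub_step {n : ℕ} (E : Finset (Finset (Fin n))) (J : Finset (Fin n)) (r : Cube n)
    (v : Fin n) (N : Finset (Fin n)) (D : ℕ) (hN : N.card ≤ D) (hvN : v ∉ N)
    (hg : ∀ C ∈ E, v ∈ C → ∃ w ∈ C, w ∈ N) (hNJ : Disjoint N J) (hvJ : v ∉ J) :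
    ((Cub_mod E J r).filter fun x => x v = r v).card ≤
      2 ^ D * ((Cub_mod E J r).filter fun x => x v ≠ r v).card := by
  classical
  set f : Cube n → Cube n := fun x w => if w = v then !(r v) else
    if w ∈ N then true else x w with hf
  apply card_le_mul_card_image_of_maps_to (f := f)
  · intro x hx
    rw [mem_filter, Cub_mem] at hx
    obtain ⟨⟨hx1, hx2⟩, -⟩ := hx
    rw [mem_filter, Cub_mem]
    refine ⟨⟨?_, ?_⟩, ?_⟩
    · intro u hu
      have hu1 : u ≠ v := fun h => hvJ (h ▸ hu)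
      have hu2 : u ∉ N := fun h => (Finset.disjoint_left.1 hNJ h) hu
      rw [hf]
      simp only
      rw [if_neg hu1, if_neg hu2]
      exact hx1 u hu
    · intro C hC
      by_cases hvC : v ∈ C
      · obtain ⟨w, hwC, hwN⟩ := hg C hC hvC
        refine ⟨w, hwC, ?_⟩
        rw [hf]
        simp only
        have hwv : w ≠ v := fun h => hvN (h ▸ hwN)
        rw [if_neg hwv, if_pos hwN]
      · obtain ⟨w, hw, hxw⟩ := hx2 C hC
        refine ⟨w, hw, ?_⟩
        have hwv : w ≠ v := fun h => hvC (h ▸ hw)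
        rw [hf]
        simp only
        rw [if_neg hwv, hxw]
        simp
    · rw [hf]
      simp
  · intro b hb
    have hinj : (((Cub_mod E J r).filter fun x => x v = r v).filter fun x => f x = b).card ≤
        N.powerset.card := by
      apply card_le_card_of_injOn (fun x => N.filter fun w => x w = true)
      · intro x hx
        rw [mem_coe, mem_powerset]
        exact filter_subset _ _
      · intro x hx y hy hxy
        rw [mem_coe, mem_filter, mem_filter] at hx hy
        have hx' := hx.2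
        have hy' := hy.2
        funext w
        by_cases hw : w ∈ N
        · have h := congrArg (fun s => w ∈ s) hxy
          simp only [mem_filter, hw, true_and, eq_iff_iff] at h
          cases hxw : x w <;> cases hyw : y w <;> simp_all
        · by_cases hwv : w = v
          · rw [hwv, hx.1.2, hy.1.2]
          · have h1 := congrFun hx' w
            have h2 := congrFun hy' w
            rw [hf] at h1 h2
            simp only at h1 h2
            rw [if_neg hwv, if_neg hw] at h1 h2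
            rw [h1, h2]
    rw [card_powerset] at hinj
    exact hinj.trans (Nat.pow_le_pow_right (by norm_num) hN)

theorem Cub_ins {n : ℕ} (E : Finset (Finset (Fin n))) (J : Finset (Fin n)) (r : Cube n)
    (v : Fin n) (N : Finset (Fin n)) (D : ℕ) (hN : N.card ≤ D) (hvN : v ∉ N)
    (hg : ∀ C ∈ E, v ∈ C → ∃ w ∈ C, w ∈ N) (hNJ : Disjoint N J) (hvJ : v ∉ J) :
    (2 ^ D + 1) * (Cub_mod E (insert v J) r).card ≤ 2 ^ D * (Cub_mod E J r).card := by
  classical
  have h := Cub_step E J r v N D hN hvN hg hNJ hvJ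
  have h1 : Cub_mod E (insert v J) r = (Cub_mod E J r).filter fun x => x v = r v := by
    ext x
    rw [mem_filter, Cub_mem, Cub_mem]
    simp only [mem_insert, forall_eq_or_imp]
    tauto
  have h2 := card_filter_add_card_filter_not (s := Cub_mod E J r) (fun x => x v = r v)
  rw [h1, ← h2]
  have h3 : ((Cub_mod E J r).filter fun x => x v ≠ r v).card =
      ((Cub_mod E J r).filter fun x => ¬ x v = r v).card := rfl
  rw [h3] at h
  calc (2 ^ D + 1) * ((Cub_mod E J r).filter fun x => x v = r v).card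
      = 2 ^ D * ((Cub_mod E J r).filter fun x => x v = r v).card +
          ((Cub_mod E J r).filter fun x => x v = r v).card := by ring
    _ ≤ 2 ^ D * ((Cub_mod E J r).filter fun x => x v = r v).card +
          2 ^ D * ((Cub_mod E J r).filter fun x => ¬ x v = r v).card := Nat.add_le_add_left h _
    _ = _ := by ring

theorem Cub_set {n : ℕ} (E : Finset (Finset (Fin n))) (r : Cube n) (D : ℕ)
    (N : Fin n → Finset (Fin n)) (hN : ∀ v, (N v).card ≤ D) (hvN : ∀ v, v ∉ N v)
    (hg : ∀ v, ∀ C ∈ E, v ∈ C → ∃ w ∈ C, w ∈ N v) (J : Finset (Fin n))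
    (hJ : ∀ u ∈ J, ∀ v ∈ J, u ≠ v → v ∉ N u) :
    (2 ^ D + 1) ^ J.card * (Cub_mod E J r).card ≤ (2 ^ D) ^ J.card * (Cub_mod E ∅ r).card := by
  classical
  induction J using Finset.induction_on with
  | empty => simp
  | insert v J hv ih =>
    have ih' := ih fun u hu w hw => hJ u (mem_insert_of_mem hu) w (mem_insert_of_mem hw)
    have h1 := Cub_ins E J r v (N v) D (hN v) (hvN v) (hg v) (by
      rw [Finset.disjoint_left]
      intro w hw hwJ
      exact hJ v (mem_insert_self _ _) w (mem_insert_of_mem hwJ) (fun h => hv (h ▸ hwJ)) hw) hv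
    rw [card_insert_of_notMem hv]
    calc (2 ^ D + 1) ^ (J.card + 1) * (Cub_mod E (insert v J) r).card
        = (2 ^ D + 1) ^ J.card * ((2 ^ D + 1) * (Cub_mod E (insert v J) r).card) := by ring
      _ ≤ (2 ^ D + 1) ^ J.card * (2 ^ D * (Cub_mod E J r).card) :=
          Nat.mul_le_mul_left _ h1
      _ = 2 ^ D * ((2 ^ D + 1) ^ J.card * (Cub_mod E J r).card) := by ring
      _ ≤ 2 ^ D * ((2 ^ D) ^ J.card * (Cub_mod E ∅ r).card) :=
          Nat.mul_le_mul_left _ ih'
      _ = _ := by ring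

theorem thm_Cub : St_Cub := by
  classical
  intro n k d E hk hd F r
  -- a second variable in each clause
  have hex : ∀ (v : Fin n) (C : Finset (Fin n)), ∃ w : Fin n, C ∈ E → v ∈ C → w ∈ C ∧ w ≠ v := by
    intro v C
    by_cases hC : C ∈ E
    · obtain ⟨w, hw, hwv⟩ := Finset.exists_mem_ne (lt_of_lt_of_le one_lt_two (hk C hC).1) v
      exact ⟨w, fun _ _ => ⟨hw, hwv⟩⟩
    · exact ⟨v, fun h => absurd h hC⟩
  choose g hgm using hex
  set N : Fin n → Finset (Fin n) := fun v => (E.filter fun C => v ∈ C).image (g v) with hNdef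
  have hNmem : ∀ v w, w ∈ N v ↔ ∃ C ∈ E, v ∈ C ∧ g v C = w := by
    intro v w
    rw [hNdef]
    simp only [mem_image, mem_filter]
    constructor
    · rintro ⟨C, ⟨h1, h2⟩, h3⟩
      exact ⟨C, h1, h2, h3⟩
    · rintro ⟨C, h1, h2, h3⟩
      exact ⟨C, ⟨h1, h2⟩, h3⟩
  have hN : ∀ v, (N v).card ≤ d := fun v => card_image_le.trans (hd v)
  have hvN : ∀ v, v ∉ N v := by
    intro v h
    obtain ⟨C, h1, h2, h3⟩ := (hNmem v v).1 h
    exact (hgm v C h1 h2).2 h3
  have hg : ∀ v, ∀ C ∈ E, v ∈ C → ∃ w ∈ C, w ∈ N v := fun v C hC hv =>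
    ⟨g v C, (hgm v C hC hv).1, (hNmem v _).2 ⟨C, hC, hv, rfl⟩⟩
  -- the neighbourhood
  set B : Fin n → Finset (Fin n) := fun v =>
    {v} ∪ N v ∪ (E.filter fun C => v ∈ C).biUnion id with hBdef
  have hB : ∀ v, (B v).card ≤ 1 + d + d * k := by
    intro v
    have h1 : ((E.filter fun C => v ∈ C).biUnion id).card ≤ d * k := by
      refine (card_biUnion_le_card_mul _ _ k fun C hC => (hk C (mem_filter.1 hC).1).2).trans ?_
      exact Nat.mul_le_mul_right _ (hd v)
    have h2 := card_union_le ({v} ∪ N v) ((E.filter fun C => v ∈ C).biUnion id)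
    have h3 := card_union_le {v} (N v)
    have h4 := hN v
    rw [card_singleton] at h3
    change (({v} ∪ N v) ∪ (E.filter fun C => v ∈ C).biUnion id).card ≤ _
    omega
  obtain ⟨J, hJF, hJ, hc⟩ := Cub_greedy F (fun u v => u = v ∨ v ∈ N u ∨ u ∈ N v) (by
      intro a b h
      rcases h with h | h | h
      · exact Or.inl h.symm
      · exact Or.inr (Or.inr h)
      · exact Or.inr (Or.inl h)) (1 + d + d * k) B (fun v _ => hB v) (by
      intro u _ v _ h
      change v ∈ {u} ∪ N u ∪ (E.filter fun C => u ∈ C).biUnion id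
      rw [mem_union, mem_union]
      rcases h with h | h | h
      · exact Or.inl (Or.inl (mem_singleton.2 h.symm))
      · exact Or.inl (Or.inr h)
      · right
        obtain ⟨C, h1, h2, h3⟩ := (hNmem v u).1 h
        rw [mem_biUnion]
        have h4 := (hgm v C h1 h2).1
        rw [h3] at h4
        exact ⟨C, mem_filter.2 ⟨h1, h4⟩, h2⟩) (fun _ _ => Or.inl rfl)
  refine ⟨J.card, hc, ?_⟩
  have h1 : (Cub_mod E F r).card ≤ (Cub_mod E J r).card := by
    apply card_le_card
    intro x hx
    rw [Cub_mem] at hx ⊢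
    exact ⟨fun v hv => hx.1 v (hJF hv), hx.2⟩
  have h2 : Cub_mod E ∅ r = univ.filter fun x : Cube n => ∀ C ∈ E, ∃ v ∈ C, x v = true := by
    ext x
    rw [Cub_mem, mem_filter]
    simp
  rw [← h2]
  exact (Nat.mul_le_mul_left _ h1).trans (Cub_set E r d N hN hvN hg J
    (fun u hu v hv huv h => hJ u hu v hv huv (Or.inr (Or.inl h))))

end Pool.Agent.SEL
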