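import Pool.Agent.SEL.St
import Pool.Agent.VD.ATerm

/-!
# SEL, module Dec: decomposition of a stable gate

Variants of `Arith.upper` and `Arith.small_term` (`Pool/Agent/VD/ATerm.lean`) for a set of points.
-/

set_option autoImplicit false

namespace Pool.Agent.SEL

open Finset Matrix Pool.Agent.VD
open scoped Classical

private theorem dec_pad {n : ℕ} (Q : Finset (Cube n)) {ε : ℝ} {W N : ℕ} {B : ℝ} (hB : 0 ≤ B) {ι : Type} [Fintype ι] (hc : Fintype.card ι ≤ N)
    (T : ι → Cube n → ℝ) (h0 : ∃ A : Finset (Fin n), Bal ε A)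
    (hT : ∀ i, (∑ x ∈ Q, T i x ^ 2 ≤ B) ∧ ∃ A : Finset (Fin n), Bal ε A ∧ RkLe A W (T i))
    (g : Cube n → ℝ) (hg : ∀ x, g x = ∑ i, T i x) :
    ∃ (T' : Fin N → Cube n → ℝ) (A : Fin N → Finset (Fin n)),
      (∀ i, Bal ε (A i)) ∧ (∀ i, ∑ x ∈ Q, T' i x ^ 2 ≤ B) ∧ (∀ i, RkLe (A i) W (T' i)) ∧
      ∀ x, g x = ∑ i, T' i x := by
  obtain ⟨A₀, hA₀⟩ := h0
  have e := (Fintype.equivFin ι).symm
  choose A hA1 hA2 using fun i => (hT i).2
  refine ⟨fun k => if h : (k : ℕ) < Fintype.card ι then T (e ⟨k, h⟩) else fun _ => 0,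
    fun k => if h : (k : ℕ) < Fintype.card ι then A (e ⟨k, h⟩) else A₀,
    fun k => ?_, fun k => ?_, fun k => ?_, fun x => ?_⟩
  · by_cases h : (k : ℕ) < Fintype.card ι
    · simp only [h, dif_pos]
      exact hA1 _
    · simp only [h, dif_neg, not_false_eq_true]
      exact hA₀
  · by_cases h : (k : ℕ) < Fintype.card ι
    · simp only [h, dif_pos]
      exact (hT _).1
    · simp only [h, dif_neg, not_false_eq_true]
      simpa using hB
  · by_cases h : (k : ℕ) < Fintype.card ι
    · simp only [h, dif_pos]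
      exact hA2 _
    · simp only [h, dif_neg, not_false_eq_true]
      refine ⟨fun _ _ => 0, fun _ _ => 0, fun _ _ _ _ => rfl, fun _ _ _ _ => rfl, fun x => ?_⟩
      simp
  · rw [hg x, ← e.sum_comp]
    obtain ⟨m, rfl⟩ := Nat.exists_eq_add_of_le hc
    rw [Fin.sum_univ_add]
    simp

variable {n : ℕ} {ε : ℝ} {W s : ℕ} (P : Arith n ε W s)

/-- the expansion of a large stable gate -/
private theorem dec_upper (hε0 : 0 < ε) (hε : ε ≤ 1 / 3) (hn : 2 ≤ n) (hW : 1 ≤ W) (Q : Finset (Cube n)) (K : ℝ)
    (r : Fin s) (hr : P.Large r) (hK : StableOn P Q r K) :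
    ∃ (T : Fin P.size → Cube n → ℝ) (A : Fin P.size → Finset (Fin n)),
      (∀ i, Bal ε (A i)) ∧ (∀ i, ∑ x ∈ Q, T i x ^ 2 ≤ K ^ 2 * Q.card) ∧
      (∀ i, RkLe (A i) W (T i)) ∧ ∀ x, P.f r x = ∑ i, T i x := by
  have hn1 : 1 ≤ n := by omega
  have huniv : (1 - ε) * n < (Finset.univ : Finset (Fin n)).card := by
    rw [Finset.card_univ, Fintype.card_fin]
    have : (2 : ℝ) ≤ n := by exact_mod_cast hn
    nlinarith
  have h0 : ∃ A : Finset (Fin n), Bal ε A := by
    obtain ⟨A, -, h⟩ := exists_bal' hε0 hε hn _ huniv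
    exact ⟨A, h⟩
  have hB0 : (0 : ℝ) ≤ K ^ 2 * Q.card := by positivity
  refine dec_pad Q hB0 (ι := Fin s ⊕ (Σ i : Fin s, {j // j ∈ P.L i})) (N := P.size) ?_
    (Sum.elim (fun i x => if P.Large i ∧ P.kind i ≠ .sum ∧
          (P.kind i = .prod → ¬ ∃ j ∈ P.L i, P.Large j) then P.D x r i * P.f i x else 0)
      (fun p x => if P.Large p.1 ∧ P.kind p.1 = .sum ∧ ¬ P.Large p.2.1 then
          P.D x r p.1 * (P.w p.1 p.2.1 * P.f p.2.1 x) else 0))
    h0 ?_ _ ?_
  · rw [Fintype.card_sum, Fintype.card_sigma, Fintype.card_fin]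
    unfold Arith.size
    simp
  · rintro (i | ⟨i, j, hj⟩)
    · by_cases h : P.Large i ∧ P.kind i ≠ .sum ∧
          (P.kind i = .prod → ¬ ∃ j ∈ P.L i, P.Large j)
      · simp only [Sum.elim_inl]
        have hp : P.Place (i, none) := by
          refine ⟨h.1, fun _ => ?_, fun j hj => absurd hj (by simp)⟩
          rcases hk : P.kind i with _ | _ | _
          · exact Or.inl rfl
          · exact Or.inr ⟨rfl, fun j hj hL => h.2.2 hk ⟨j, hj, hL⟩⟩
          · exact absurd hk h.2.1
        refine ⟨?_, ?_⟩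
        · obtain ⟨u, hu, hb⟩ := hK (i, none) hp
          refine le_trans (le_of_eq (Finset.sum_congr rfl fun x _ => ?_)) hb
          rw [if_pos h, (hu x).eff hε hn1 hp r]
          rfl
        · obtain ⟨A, hA1, hA2⟩ := P.term_gate hε0 hε hn hW r h.1 h.2.1 h.2.2
          refine ⟨A, hA1, ?_⟩
          simp only [if_pos h]
          exact hA2
      · simp only [Sum.elim_inl, if_neg h]
        refine ⟨by simpa using hB0, ?_⟩
        obtain ⟨A, hA⟩ := h0
        exact ⟨A, hA, fun _ _ => 0, fun _ _ => 0, fun _ _ _ _ => rfl, fun _ _ _ _ => rfl,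
          fun x => by simp⟩
    · by_cases h : P.Large i ∧ P.kind i = .sum ∧ ¬ P.Large j
      · simp only [Sum.elim_inr]
        have hp : P.Place (i, some j) := by
          refine ⟨h.1, fun hn => absurd hn (by simp), fun k hk => ?_⟩
          have : j = k := Option.some.inj hk
          rw [← this]
          exact ⟨h.2.1, hj, h.2.2⟩
        refine ⟨?_, ?_⟩
        · obtain ⟨u, hu, hb⟩ := hK (i, some j) hp
          refine le_trans (le_of_eq (Finset.sum_congr rfl fun x _ => ?_)) hb
          rw [if_pos h, (hu x).eff hε hn1 hp r]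
          rfl
        · obtain ⟨A, hA1, hA2⟩ := P.term_input hε0 hε hn hW r h.1 hj h.2.2
          refine ⟨A, hA1, ?_⟩
          simp only [if_pos h]
          exact hA2
      · simp only [Sum.elim_inr, if_neg h]
        refine ⟨by simpa using hB0, ?_⟩
        obtain ⟨A, hA⟩ := h0
        exact ⟨A, hA, fun _ _ => 0, fun _ _ => 0, fun _ _ _ _ => rfl, fun _ _ _ _ => rfl,
          fun x => by simp⟩
  · intro x
    have h1 := P.expand hε hn1 x r
    rw [Fintype.sum_sum_type, Fintype.sum_sigma, ← Finset.sum_add_distrib]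
    refine h1.trans (Finset.sum_congr rfl fun i _ => ?_)
    simp only [Sum.elim_inl, Sum.elim_inr]
    by_cases hi : P.Large i
    · rcases hk : P.kind i with _ | _ | _
      · have hcc : P.cc x i = P.f i x := by
          unfold Arith.cc
          rw [if_pos hi, hk]
        rw [if_pos ⟨hi, by simp, fun h => absurd h (by simp)⟩, hcc,
          Finset.sum_eq_zero, add_zero]
        intro j _
        rw [if_neg (fun h => absurd h.2.1 (by simp))]
      · have hcc : P.cc x i = if ∃ j ∈ P.L i, P.Large j then 0 else P.f i x := by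
          unfold Arith.cc
          rw [if_pos hi, hk]
        rw [hcc, Finset.sum_eq_zero, add_zero]
        · by_cases hex : ∃ j ∈ P.L i, P.Large j
          · rw [if_pos hex, if_neg (fun h => h.2.2 rfl hex), mul_zero]
          · rw [if_neg hex, if_pos ⟨hi, by simp, fun _ => hex⟩]
        · intro j _
          rw [if_neg (fun h => absurd h.2.1 (by simp))]
      · have hcc : P.cc x i = ∑ j ∈ P.L i, if P.Large j then 0 else P.w i j * P.f j x := by
          unfold Arith.cc
          rw [if_pos hi, hk]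
        rw [hcc, if_neg (fun h => h.2.1 rfl), zero_add, Finset.mul_sum,
          ← Finset.sum_coe_sort]
        refine Finset.sum_congr rfl fun j _ => ?_
        by_cases hj : P.Large j.1
        · rw [if_pos hj, mul_zero, if_neg (fun h => h.2.2 hj)]
        · rw [if_neg hj, if_pos ⟨hi, rfl, hj⟩]
    · have hne : r ≠ i := fun e => hi (by rw [← e]; exact hr)
      rw [P.D_small x hi hne, zero_mul, if_neg (fun h => hi h.1), Finset.sum_eq_zero, add_zero]
      intro j _
      rw [if_neg (fun h => hi h.1)]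

/-- a small gate can be replaced by one term with values in `[0, B]` -/
private theorem dec_small (hε0 : 0 < ε) (hε : ε ≤ 1 / 3) (hn : 2 ≤ n) (hW : 1 ≤ W) (B : ℝ) {r : Fin s}
    (hr : ¬ P.Large r) :
    ∃ A : Finset (Fin n), Bal ε A ∧ RkLe A W fun x => max 0 (min B (P.f r x)) := by
  have huniv : (1 - ε) * n < (Finset.univ : Finset (Fin n)).card := by
    rw [Finset.card_univ, Fintype.card_fin]
    have : (2 : ℝ) ≤ n := by exact_mod_cast hn
    nlinarith
  obtain ⟨A, -, hb, hsat⟩ := exists_bal hε0 hε hn Finset.univ huniv {r} P.S'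
    (fun _ _ => Finset.subset_univ _)
    (fun k hk => by
      rw [Finset.mem_singleton] at hk
      rw [hk]
      exact P.S'_small hε hr)
    (fun k hk l hl hne => by
      rw [Finset.mem_singleton] at hk hl
      exact absurd (hk.trans hl.symm) hne)
  refine ⟨A, hb, ?_⟩
  rcases hsat r (Finset.mem_singleton_self r) with h | h
  · refine RkLe.one_of hW (a := fun x => max 0 (min B (P.f r x))) (b := fun _ => 1)
      (fun x y hxy => ?_) (fun _ _ _ => rfl) (fun x => by rw [mul_one])
    simp only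
    rw [P.dep' r x y fun v hv => hxy v (h hv)]
  · refine RkLe.one_of hW (a := fun _ => 1) (b := fun x => max 0 (min B (P.f r x)))
      (fun _ _ _ => rfl) (fun x y hxy => ?_) (fun x => by rw [one_mul])
    simp only
    rw [P.dep' r x y fun v hv => hxy v (by
      rw [Finset.mem_compl]
      intro hv'
      exact Finset.disjoint_left.1 h hv hv')]

theorem thm_Dec : St_Dec := by
  intro n ε W s P g Q B f hε0 hε hn hW hB hst hf
  have huniv : (1 - ε) * n < (Finset.univ : Finset (Fin n)).card := by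
    rw [Finset.card_univ, Fintype.card_fin]
    have : (2 : ℝ) ≤ n := by exact_mod_cast hn
    nlinarith
  have h0 : ∃ A : Finset (Fin n), Bal ε A := by
    obtain ⟨A, -, h⟩ := exists_bal' hε0 hε hn _ huniv
    exact ⟨A, h⟩
  by_cases hL : P.Large g
  · obtain ⟨T, A, h1, h2, h3, h4⟩ := dec_upper P hε0 hε hn hW Q B g hL hst
    exact ⟨T, A, h1, h2, h3, fun x => by rw [h4 x]⟩
  · obtain ⟨A₀, hA₀, hr₀⟩ := dec_small P hε0 hε hn hW B hL
    have hB0 : (0 : ℝ) ≤ B ^ 2 * Q.card := by positivity
    obtain ⟨T, A, h1, h2, h3, h4⟩ := dec_pad (ε := ε) (W := W) (N := P.size) Q hB0 (ι := Unit)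
      (by
        rw [Fintype.card_unit]
        have : 1 ≤ s := Nat.one_le_iff_ne_zero.mpr (fun h => by
          subst h
          exact g.elim0)
        unfold Arith.size
        omega)
      (fun _ x => max 0 (min B (P.f g x))) h0 (fun _ => ⟨by
        calc ∑ x ∈ Q, (max 0 (min B (P.f g x))) ^ 2 ≤ ∑ _x ∈ Q, B ^ 2 := by
              refine Finset.sum_le_sum fun x _ => ?_
              have h5 : max 0 (min B (P.f g x)) ≤ B := max_le hB (min_le_left _ _)
              have h6 : 0 ≤ max 0 (min B (P.f g x)) := le_max_left _ _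
              exact pow_le_pow_left₀ h6 h5 2
          _ = B ^ 2 * Q.card := by rw [Finset.sum_const, nsmul_eq_mul, mul_comm], A₀, hA₀, hr₀⟩)
      (fun x => max 0 (min B (P.f g x))) (fun x => by simp)
    refine ⟨T, A, h1, h2, h3, fun x => ?_⟩
    rw [← h4 x]
    obtain ⟨hf0, hfB⟩ := hf x
    have e1 : f x = max 0 (min B (f x)) := by rw [min_eq_right hfB, max_eq_right hf0]
    calc |max 0 (min B (P.f g x)) - f x| = |max 0 (min B (P.f g x)) - max 0 (min B (f x))| := by
          rw [← e1]
      _ ≤ |min B (P.f g x) - min B (f x)| := by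
          have := abs_max_sub_max_le_abs (min B (P.f g x)) (min B (f x)) 0
          rwa [max_comm _ (0 : ℝ), max_comm _ (0 : ℝ)] at this
      _ ≤ |P.f g x - f x| := by
          have := abs_min_sub_min_le_max B (P.f g x) B (f x)
          rw [sub_self, abs_zero, max_eq_right (abs_nonneg _)] at this
          exact this

end Pool.Agent.SEL
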