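import Pool.Agent.SEL.Avg

/-!
# SEL: hardness of the partial counts, from the modules
-/

set_option autoImplicit false

namespace Pool.Agent.SEL

open Finset Pool.Agent.VD

/-- the factors of the lower bound are positive -/
theorem Fin_factor {p q e f : ℝ} (hp0 : 0 ≤ p) (hp : p ≤ 1 / 32) (hq : 0 ≤ q)
    (he : e ≤ 8 / 9) (hf : f ≤ 1 / 4) : 0 < 1 - 2 * p + q - (12 * e * p + f) := by
  have h1 : e * p ≤ 8 / 9 * (1 / 32) := mul_le_mul he hp hp0 (by norm_num)
  nlinarith

set_option maxHeartbeats 4000000 in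
theorem thm_Fin (hHG : St_HG) (hNum : St_Num) (hA : St_LowA) (hB : St_LowB) (hU : St_Upp)
    (hBox : St_Box) (hPar : St_Par) (hDec : St_Dec) : St_Fin := by
  classical
  intro e₀ he₀
  obtain ⟨y, hy⟩ := hHG e₀ (by omega)
  obtain ⟨L, M, Z, hN⟩ := hNum e₀ y (by omega)
  obtain ⟨k, d, κ, N₁, N₂, n₀, hd, hk, hZ, hZκ, hL, hE⟩ := hy L M Z
  obtain ⟨l, hl2, hyk, hlk, h2k, h9, c₀, hc₀, hnum⟩ := hN k d κ N₁ hd hk hZ hZκ hL
  have hk5 : 5 ≤ k := by
    by_contra hcon
    push Not at hcon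
    have h1 : 2 ^ k < 2 ^ (y + 5) := Nat.pow_lt_pow_right (by norm_num) (by omega)
    omega
  have hN₂ : (0 : ℝ) < N₂ + 1 := by positivity
  have hN₁ : (0 : ℝ) < 16 * e₀ * d * (N₁ + 1) := by
    have h1 : (0 : ℝ) < e₀ := by exact_mod_cast (by omega : 0 < e₀)
    have h2 : (0 : ℝ) < d := by exact_mod_cast hd
    positivity
  refine ⟨min c₀ (min (1 / (N₂ + 1)) (1 / (16 * e₀ * d * (N₁ + 1)))),
    lt_min hc₀ (lt_min (by positivity) (one_div_pos.2 hN₁)), 4 * (d + 2), k, d, max n₀ 2,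
    by omega, fun n hn => ?_⟩
  have hn2 : 2 ≤ n := le_trans (le_max_right _ _) hn
  obtain ⟨E, hG⟩ := hE n (le_trans (le_max_left _ _) hn)
  have hnR : (0 : ℝ) ≤ n := Nat.cast_nonneg n
  have hEpos : 0 < E.card := by
    have h1 := hG.many
    by_contra hcon
    have h2 : E.card = 0 := by omega
    rw [h2] at h1
    omega
  refine ⟨E, hG.size, hG.deg, hEpos, ?_⟩
  intro ε hε1 hε3 A Y hcl hA1 hA2 F r hF hr W s P g K hW hK happ hst
  have hε0 : 0 < ε := by
    by_contra hcon
    push Not at hcon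
    have h1 : (e₀ : ℝ) * ε ≤ 0 := mul_nonpos_of_nonneg_of_nonpos (Nat.cast_nonneg _) hcon
    linarith
  set c := min c₀ (min (1 / ((N₂ : ℝ) + 1)) (1 / (16 * e₀ * d * (N₁ + 1)))) with hc
  -- closure
  have hF1 : (F.card : ℝ) ≤ c₀ * n :=
    hF.trans (mul_le_mul_of_nonneg_right (min_le_left _ _) hnR)
  have hF2 : N₂ * F.card ≤ n := by
    have h1 : (F.card : ℝ) ≤ 1 / (N₂ + 1) * n :=
      hF.trans (mul_le_mul_of_nonneg_right ((min_le_right _ _).trans (min_le_left _ _)) hnR)
    have h2 : ((N₂ : ℝ) + 1) * F.card ≤ n := by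
      calc ((N₂ : ℝ) + 1) * F.card ≤ (N₂ + 1) * (1 / (N₂ + 1) * n) :=
            mul_le_mul_of_nonneg_left h1 hN₂.le
        _ = n := by field_simp
    have h3 : (N₂ : ℝ) * F.card ≤ n := by
      have : (0 : ℝ) ≤ F.card := Nat.cast_nonneg _
      linarith
    exact_mod_cast h3
  obtain ⟨U, hFU, hUc, hUcl⟩ := hG.clo F hF2
  have hUR : (U.card : ℝ) ≤ 4 * (c₀ * n) := by
    have h1 : (U.card : ℝ) ≤ 4 * F.card := by exact_mod_cast hUc
    linarith
  -- notation
  set ζ : Cube n := fun v => if v ∈ F then r v else true with hζ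
  set A₀ := A.filter (fun C => Disjoint C U) with hA₀
  set A' := A.filter (fun C => Disjoint C U ∧ (C ∩ Y).card ≤ y) with hA'
  have hA'' : A₀.filter (fun C => (C ∩ Y).card ≤ y) = A' := by
    rw [hA₀, hA', filter_filter]
  have hAE : A ⊆ E := hcl.1
  have hsz : ∀ C ∈ A, C.card = k := fun C hC => hG.size C (hAE hC)
  have hdg : ∀ B : Finset (Finset (Fin n)), B ⊆ E → ∀ v, (B.filter fun C => v ∈ C).card ≤ d :=
    fun B hBE v => (card_le_card (filter_subset_filter _ hBE)).trans (hG.deg v)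
  have hA₀A : A₀ ⊆ A := filter_subset _ _
  have hA'A : A' ⊆ A := filter_subset _ _
  set z : ℝ := 8 / 2 ^ κ with hz
  have hz0 : 0 < z := by positivity
  have hkd : 1 ≤ k * d := Nat.mul_pos (by omega) (by omega)
  have hkdR : (0 : ℝ) < k * d := by exact_mod_cast hkd
  have h9' : 9 * ((k : ℝ) * d) * z ≤ 1 := h9
  -- the lower bound
  set a := av (fun x : Cube n => wt A' Y x * ind A ((U \ Y).piecewise ζ x)) with ha
  set a₀ := av (fun x : Cube n => wt A' Y x * ind A₀ x) with ha₀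
  have hlowA : (1 / 2 : ℝ) ^ ((d + 1) * U.card) * a₀ ≤ a := by
    refine hA n k d κ y A Y U ζ z hz hkd h9' hk hyk hsz (hdg A hAE)
      (fun C hC => hUcl C (hAE hC)) ?_
    intro C hC
    obtain ⟨v, hv, hvv⟩ := part_ne hr C hC
    refine ⟨v, hv, ?_⟩
    rcases hvv with h | h
    · exact Or.inl h
    · refine Or.inr (Or.inr ?_)
      rw [hζ]
      simp only
      split_ifs
      · exact h
      · rfl
  obtain ⟨hlowB1, hlowB2⟩ := hB n k d κ l y A₀ Y z hz hkd h9' hk hl2 hyk hlk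
    (le_trans (Nat.pow_le_pow_right (by norm_num) (by omega)) h2k)
    (fun C hC => hsz C (hA₀A hC)) (hdg A₀ (hA₀A.trans hAE))
    (fun C hC C' hC' => hG.lin C (hAE (hA₀A hC)) C' (hAE (hA₀A hC')))
  rw [hA''] at hlowB1 hlowB2
  have hcnt : A₀.filter (fun C => y < (C ∩ Y).card) =
      A.filter (fun C => Disjoint C U ∧ y < (C ∩ Y).card) := by
    rw [hA₀, filter_filter]
  rw [hcnt] at hlowB1
  set Pr : ℝ := (∏ C ∈ A', (1 - 2 / 2 ^ (C \ Y).card + 1 / 2 ^ k -
        (12 * (k * d) * z / 2 ^ (C \ Y).card + 1 / 2 ^ l))) *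
      (1 - 1 / 2 ^ k - (6 * (k * d) * z / 2 ^ k + 1 / 2 ^ l)) ^
        (A.filter fun C => Disjoint C U ∧ y < (C ∩ Y).card).card with hPr
  set Low : ℝ := (1 / 2 : ℝ) ^ ((d + 1) * U.card) * Pr with hLow
  -- positivity
  have hl4 : (1 : ℝ) / 2 ^ l ≤ 1 / 4 := by
    have h1 : (4 : ℝ) ≤ 2 ^ l := by
      calc (4 : ℝ) = 2 ^ 2 := by norm_num
        _ ≤ 2 ^ l := pow_le_pow_right₀ (by norm_num) hl2
    exact one_div_le_one_div_of_le (by norm_num) h1
  have hk32 : (1 : ℝ) / 2 ^ k ≤ 1 / 32 := by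
    have h1 : (32 : ℝ) ≤ 2 ^ k := by
      calc (32 : ℝ) = 2 ^ 5 := by norm_num
        _ ≤ 2 ^ k := pow_le_pow_right₀ (by norm_num) hk5
    exact one_div_le_one_div_of_le (by norm_num) h1
  have hkdz : ((k : ℝ) * d) * z ≤ 8 / 9 := by linarith
  have hkdz0 : 0 ≤ ((k : ℝ) * d) * z := by positivity
  have hPrpos : 0 < Pr := by
    refine mul_pos (prod_pos fun C hC => ?_) (pow_pos ?_ _)
    · obtain ⟨hCA, -, hCy⟩ := mem_filter.1 hC
      have h1 : k ≤ (C \ Y).card + y := by
        have h2 := card_sdiff_add_card_inter C Y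
        have h3 := hsz C hCA
        omega
      have h2 : y + 5 ≤ k := (Nat.pow_le_pow_iff_right (by norm_num)).1 h2k
      have h3 : (1 : ℝ) / 2 ^ (C \ Y).card ≤ 1 / 32 := by
        have h4 : (32 : ℝ) ≤ 2 ^ (C \ Y).card := by
          calc (32 : ℝ) = 2 ^ 5 := by norm_num
            _ ≤ 2 ^ (C \ Y).card := pow_le_pow_right₀ (by norm_num) (by omega)
        exact one_div_le_one_div_of_le (by norm_num) h4
      have h5 := Fin_factor (p := 1 / 2 ^ (C \ Y).card) (q := 1 / 2 ^ k)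
        (e := (k : ℝ) * d * z) (f := 1 / 2 ^ l) (by positivity) h3 (by positivity) hkdz hl4
      have h6 : (1 : ℝ) - 2 / 2 ^ (C \ Y).card + 1 / 2 ^ k -
          (12 * (k * d) * z / 2 ^ (C \ Y).card + 1 / 2 ^ l) =
          1 - 2 * (1 / 2 ^ (C \ Y).card) + 1 / 2 ^ k -
          (12 * (k * d * z) * (1 / 2 ^ (C \ Y).card) + 1 / 2 ^ l) := by ring
      rw [h6]
      exact h5
    · have h1 : 6 * ((k : ℝ) * d) * z / 2 ^ k = 6 * (k * d * z) * (1 / 2 ^ k) := by ring
      have h2 : ((k : ℝ) * d * z) * (1 / 2 ^ k) ≤ 8 / 9 * (1 / 32) :=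
        mul_le_mul hkdz hk32 (by positivity) (by norm_num)
      rw [h1]
      nlinarith
  have hLowpos : 0 < Low := mul_pos (by positivity) hPrpos
  have hLowa : Low ≤ a :=
    (mul_le_mul_of_nonneg_left hlowB1 (by positivity)).trans hlowA
  have hapos : 0 < a := hLowpos.trans_le hLowa
  -- the pinned point
  set V' := U \ Y with hV'
  set π : Cube n → Cube n := fun x => (F ∪ V').piecewise ζ x with hπ
  have hVU : V'.card ≤ U.card := card_le_card sdiff_subset
  have hcubeζ : cube F ζ = cube F r := by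
    unfold cube
    refine filter_congr fun x _ => forall₂_congr fun v hv => ?_
    rw [hζ]
    simp only [if_pos hv]
  have havQ : ∀ h : Cube n → ℝ, (∀ x, 0 ≤ h x) →
      (av fun x => h (π x)) ≤ 2 ^ U.card * ((∑ x ∈ cube F r, h x) / (cube F r).card) := by
    intro h h0
    have h1 := av_union F V' ζ h h0
    rw [av_pw F ζ h, hcubeζ] at h1
    refine h1.trans (mul_le_mul_of_nonneg_right (pow_le_pow_right₀ (by norm_num) hVU) ?_)
    exact div_nonneg (sum_nonneg fun x _ => h0 x) (Nat.cast_nonneg _)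
  set f : Cube n → ℝ := fun x => part A Y x with hf
  have hfπ : ∀ x, f (π x) = part A Y ((U \ Y).piecewise ζ x) := by
    intro x
    rw [hf]
    simp only
    congr 1
    refine part_congr A Y fun v hv => ?_
    rw [hπ]
    simp only
    by_cases hvU : v ∈ U
    · have h1 : v ∈ U \ Y := mem_sdiff.2 ⟨hvU, hv⟩
      rw [piecewise_eq_of_mem _ _ _ (mem_union_right _ h1), piecewise_eq_of_mem _ _ _ h1]
    · have h1 : v ∉ U \ Y := fun h => hvU (mem_sdiff.1 h).1
      have h2 : v ∉ F ∪ (U \ Y) := by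
        rw [mem_union]
        rintro (h | h)
        · exact hvU (hFU h)
        · exact h1 h
      rw [piecewise_eq_of_notMem _ _ _ h2, piecewise_eq_of_notMem _ _ _ h1]
  have hdep : Dep (Y ∪ U)ᶜ (wt A' Y) := by
    intro x x' hxx
    refine wt_congr A' Y fun C hC v hv hvY => hxx v ?_
    rw [mem_compl, mem_union]
    rintro (h | h)
    · exact hvY h
    · exact disjoint_left.1 (mem_filter.1 hC).2.1 hv h
  have hwf : (av fun x => wt A' Y x * f (π x)) = 2 ^ Y.card * a := by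
    rw [ha, ← hPar n A Y U ζ (wt A' Y) hdep]
    exact av_congr fun x => by rw [hfπ x]
  -- the decomposition
  have hK0 : (0 : ℝ) < K := by linarith
  have hB0 : (0 : ℝ) ≤ K * 2 ^ Y.card := by positivity
  obtain ⟨T, S, hbal, hrms, hrk, happ2⟩ := hDec n ε W s P g (cube F r) (K * 2 ^ Y.card) f
    hε0 hε3 hn2 hW hB0 hst (fun x => ⟨Nat.cast_nonneg _, (part_le A Y x).trans
      (le_mul_of_one_le_left (by positivity) hK)⟩)
  -- the terms
  have hWR : (1 : ℝ) ≤ W := by exact_mod_cast hW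
  set D : ℝ := W * Low * (1 / (2 : ℝ) ^ (2 * (c₀ * n))) * (K * 2 ^ Y.card) with hD
  have hD0 : 0 < D := by positivity
  have hterm : ∀ i, |av fun x => wt A' Y x * T i (π x)| ≤ D := by
    intro i
    have h1 := hBox n W (wt A' Y) (fun x => T i (π x)) (S i) (rkLe_pw (hrk i) _ _)
    have h2 : (av fun x => T i (π x) ^ 2) ≤ 2 ^ U.card * (K * 2 ^ Y.card) ^ 2 := by
      refine (havQ (fun x => T i x ^ 2) fun x => sq_nonneg _).trans ?_
      refine mul_le_mul_of_nonneg_left ?_ (by positivity)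
      rw [div_le_iff₀ (cube_pos F r)]
      exact hrms i
    have h2' : 0 ≤ av fun x => T i (π x) ^ 2 := av_nonneg fun x => sq_nonneg _
    have hyUpp := hU n k d κ l y A' Y (S i) z hz hkd h9' hk hl2 hyk hlk h2k
      (fun C hC => hsz C (hA'A hC)) (hdg A' (hA'A.trans hAE))
      (fun C hC C' hC' => hG.lin C (hAE (hA'A hC)) C' (hAE (hA'A hC')))
      (fun C hC => (mem_filter.1 hC).2.2)
    have hbalS : n ≤ e₀ * (S i).card := by
      have h3 : (n : ℝ) ≤ e₀ * (S i).card := by
        calc (n : ℝ) = 1 * n := (one_mul _).symm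
          _ ≤ (e₀ * ε) * n := mul_le_mul_of_nonneg_right hε1 hnR
          _ = e₀ * (ε * n) := by ring
          _ ≤ e₀ * (S i).card := mul_le_mul_of_nonneg_left (hbal i).1 (Nat.cast_nonneg _)
      exact_mod_cast h3
    have hbalS' : n ≤ e₀ * (S i)ᶜ.card := by
      have h4 : ((S i)ᶜ.card : ℝ) = n - (S i).card := by
        have h5 := card_compl_add_card (S i)
        rw [Fintype.card_fin] at h5
        have h6 : (((S i)ᶜ.card + (S i).card : ℕ) : ℝ) = n := by rw [h5]
        push_cast at h6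
        linarith
      have h3 : (n : ℝ) ≤ e₀ * (S i)ᶜ.card := by
        have h7 : ε * n ≤ ((S i)ᶜ.card : ℝ) := by
          rw [h4]
          have := (hbal i).2
          linarith
        calc (n : ℝ) = 1 * n := (one_mul _).symm
          _ ≤ (e₀ * ε) * n := mul_le_mul_of_nonneg_right hε1 hnR
          _ = e₀ * (ε * n) := by ring
          _ ≤ e₀ * (S i)ᶜ.card := mul_le_mul_of_nonneg_left h7 (Nat.cast_nonneg _)
      exact_mod_cast h3
    have hfew : 16 * e₀ * (E.filter fun C => y < (C ∩ Y).card).card ≤ E.card := by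
      rcases hA2 with h | h
      · refine hG.few Y (h.trans (Nat.mul_le_mul_left _ (card_le_card ?_)))
        intro C hC
        obtain ⟨h1, h2⟩ := mem_sdiff.1 hC
        refine mem_filter.2 ⟨h1, disjoint_left.2 fun v hv hvY => h2 (hcl.2 C h1 v hv hvY)⟩
      · have h1 : (E.filter fun C => y < (C ∩ Y).card).card ≤ Y.card * d := by
          have h2 : (E.filter fun C => y < (C ∩ Y).card) ⊆
              Y.biUnion fun v => E.filter fun C => v ∈ C := by
            intro C hC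
            obtain ⟨h3, h4⟩ := mem_filter.1 hC
            have h5 : (C ∩ Y).Nonempty := card_pos.1 (by omega)
            obtain ⟨v, hv⟩ := h5
            rw [mem_inter] at hv
            exact mem_biUnion.2 ⟨v, hv.2, mem_filter.2 ⟨h3, hv.1⟩⟩
          exact (card_le_card h2).trans (card_biUnion_le_card_mul _ _ _ fun v _ => hG.deg v)
        have h6 : (16 * e₀ * d * (N₁ + 1) : ℝ) * Y.card ≤ n := by
          have h7 : (Y.card : ℝ) ≤ 1 / (16 * e₀ * d * (N₁ + 1)) * n :=
            h.trans (mul_le_mul_of_nonneg_right ((min_le_right _ _).trans (min_le_right _ _)) hnR)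
          calc (16 * e₀ * d * (N₁ + 1) : ℝ) * Y.card ≤
                (16 * e₀ * d * (N₁ + 1)) * (1 / (16 * e₀ * d * (N₁ + 1)) * n) :=
                mul_le_mul_of_nonneg_left h7 hN₁.le
            _ = n := by rw [← mul_assoc, mul_one_div_cancel hN₁.ne', one_mul]
        have h8 : 16 * e₀ * d * (N₁ + 1) * Y.card ≤ n := by exact_mod_cast h6
        have h9 : (N₁ + 1) * (16 * e₀ * (Y.card * d)) ≤ (N₁ + 1) * E.card := by
          calc (N₁ + 1) * (16 * e₀ * (Y.card * d)) = 16 * e₀ * d * (N₁ + 1) * Y.card := by ring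
            _ ≤ n := h8
            _ ≤ N₁ * E.card := hG.many
            _ ≤ (N₁ + 1) * E.card := Nat.mul_le_mul_right _ (Nat.le_succ _)
        exact (Nat.mul_le_mul_left _ h1).trans (Nat.le_of_mul_le_mul_left h9 (Nat.succ_pos _))
    have hnu := hnum n E A Y U (S i) hG.size hG.deg hG.many (hG.split (S i) hbalS hbalS') hfew
      hAE hA1 hUR
    rw [mul_assoc ((1 / 2 : ℝ) ^ ((d + 1) * U.card)), ← hPr, ← hLow] at hnu
    set Up : ℝ := ∏ C ∈ A', (1 - 8 / 2 ^ (C \ Y).card * (1 - 1 / 2 ^ ((C \ Y) ∩ S i).card) *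
          (1 - 1 / 2 ^ ((C \ Y) \ S i).card) +
        (48 * (k * d) * z / 2 ^ (C \ Y).card + 1 / 2 ^ l)) with hUp
    -- combine
    have h3 : (av fun x => wt A' Y x * T i (π x)) ^ 4 ≤ D ^ 4 := by
      have hX : (0 : ℝ) < 2 ^ (2 * (c₀ * n)) := Real.rpow_pos_of_pos (by norm_num) _
      have hX4 : (2 : ℝ) ^ (8 * (c₀ * n)) = ((2 : ℝ) ^ (2 * (c₀ * n))) ^ 4 := by
        rw [← Real.rpow_natCast, ← Real.rpow_mul (by norm_num)]
        congr 1
        push_cast
        ring
      rw [hX4] at hnu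
      set X : ℝ := (2 : ℝ) ^ (2 * (c₀ * n)) with hXdef
      have hbx : box (wt A' Y) (S i) ≤ Low ^ 4 * (1 / 2 : ℝ) ^ (2 * U.card) / X ^ 4 := by
        rw [le_div_iff₀ (by positivity)]
        calc box (wt A' Y) (S i) * X ^ 4 ≤ Up * X ^ 4 :=
              mul_le_mul_of_nonneg_right hyUpp (by positivity)
          _ = X ^ 4 * Up := mul_comm _ _
          _ ≤ _ := hnu
      have h4 : (av fun x => T i (π x) ^ 2) ^ 2 ≤ (2 ^ U.card * (K * 2 ^ Y.card) ^ 2) ^ 2 :=
        pow_le_pow_left₀ h2' h2 2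
      calc (av fun x => wt A' Y x * T i (π x)) ^ 4 ≤
            W ^ 2 * box (wt A' Y) (S i) * (av fun x => T i (π x) ^ 2) ^ 2 := h1
        _ ≤ W ^ 2 * (Low ^ 4 * (1 / 2 : ℝ) ^ (2 * U.card) / X ^ 4) *
            (av fun x => T i (π x) ^ 2) ^ 2 := by
            refine mul_le_mul_of_nonneg_right (mul_le_mul_of_nonneg_left hbx (by positivity))
              (sq_nonneg _)
        _ ≤ W ^ 2 * (Low ^ 4 * (1 / 2 : ℝ) ^ (2 * U.card) / X ^ 4) *
            (2 ^ U.card * (K * 2 ^ Y.card) ^ 2) ^ 2 :=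
            mul_le_mul_of_nonneg_left h4 (by positivity)
        _ = W ^ 2 * (Low * (1 / X) * (K * 2 ^ Y.card)) ^ 4 := by
            have h5 : ((1 / 2 : ℝ) ^ (2 * U.card)) * ((2 : ℝ) ^ U.card) ^ 2 = 1 := by
              rw [← pow_mul, mul_comm U.card 2, ← mul_pow]
              norm_num
            calc _ = W ^ 2 * (Low * (1 / X) * (K * 2 ^ Y.card)) ^ 4 *
                  (((1 / 2 : ℝ) ^ (2 * U.card)) * ((2 : ℝ) ^ U.card) ^ 2) := by
                  field_simp
              _ = _ := by rw [h5, mul_one]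
        _ ≤ W ^ 4 * (Low * (1 / X) * (K * 2 ^ Y.card)) ^ 4 :=
            mul_le_mul_of_nonneg_right (pow_le_pow_right₀ hWR (by norm_num)) (by positivity)
        _ = D ^ 4 := by rw [hD]; ring
    have h4 : |av fun x => wt A' Y x * T i (π x)| ^ 4 ≤ D ^ 4 := by
      rw [Even.pow_abs (by decide)]
      exact h3
    exact (pow_le_pow_iff_left₀ (abs_nonneg _) hD0.le (by norm_num)).1 h4
  -- the sum
  set g' : Cube n → ℝ := fun x => ∑ i, T i x with hg'
  have hsum : |av fun x => wt A' Y x * g' (π x)| ≤ P.size * D := by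
    have h1 : (av fun x => wt A' Y x * g' (π x)) =
        ∑ i, av fun x => wt A' Y x * T i (π x) := by
      rw [← av_sum]
      exact av_congr fun x => by rw [hg']; simp only; rw [mul_sum]
    rw [h1]
    refine (abs_sum_le_sum_abs _ _).trans ?_
    refine (sum_le_sum fun i _ => hterm i).trans ?_
    rw [sum_const, card_univ, Fintype.card_fin, nsmul_eq_mul]
  -- the error
  have hQ := cube_pos F r
  have herr : (av fun x => |g' (π x) - f (π x)|) ≤
      2 ^ U.card * ((∑ x ∈ cube F r, |P.f g x - f x|) / (cube F r).card) := by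
    refine (havQ (fun x => |g' x - f x|) fun x => abs_nonneg _).trans ?_
    refine mul_le_mul_of_nonneg_left ?_ (by positivity)
    exact div_le_div_of_nonneg_right (sum_le_sum fun x _ => happ2 x) hQ.le
  have hfQ : (∑ x ∈ cube F r, f x) / (cube F r).card ≤ 2 ^ Y.card * av (ind A₀) := by
    rw [← av_pw F r f]
    have h1 := hPar n A₀ Y F r (fun _ => 1) (fun _ _ _ => rfl)
    simp only [one_mul] at h1
    have h2 : (av fun x => ind A₀ ((F \ Y).piecewise r x)) = av (ind A₀) := by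
      refine av_congr fun x => ind_congr A₀ fun C hC v hv => ?_
      refine piecewise_eq_of_notMem _ _ _ fun h => ?_
      exact disjoint_left.1 (mem_filter.1 hC).2 hv (hFU (mem_sdiff.1 h).1)
    rw [h2] at h1
    rw [← h1]
    refine av_mono fun x => ?_
    have h3 : part A Y (F.piecewise r x) ≤ part A₀ Y ((F \ Y).piecewise r x) := by
      refine (part_mono hA₀A Y _).trans (le_of_eq (part_congr A₀ Y fun v hv => ?_))
      by_cases hvF : v ∈ F
      · rw [piecewise_eq_of_mem _ _ _ hvF, piecewise_eq_of_mem _ _ _ (mem_sdiff.2 ⟨hvF, hv⟩)]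
      · rw [piecewise_eq_of_notMem _ _ _ hvF,
          piecewise_eq_of_notMem _ _ _ fun h => hvF (mem_sdiff.1 h).1]
    have h4 : ((part A Y (F.piecewise r x) : ℕ) : ℝ) ≤
        (part A₀ Y ((F \ Y).piecewise r x) : ℕ) := by exact_mod_cast h3
    exact h4
  have hhalf : 2 * (av fun x => |g' (π x) - f (π x)|) ≤ 2 ^ Y.card * a := by
    have h1 : (∑ x ∈ cube F r, |P.f g x - f x|) / (cube F r).card ≤
        (1 / 2 : ℝ) ^ (1 + Y.card + 4 * (d + 2) * F.card) * (2 ^ Y.card * av (ind A₀)) := by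
      refine le_trans ?_ (mul_le_mul_of_nonneg_left hfQ (by positivity))
      rw [mul_div_assoc', div_le_div_iff_of_pos_right hQ]
      have h2 : (1 / 2 : ℝ) ^ (1 + Y.card + 4 * (d + 2) * F.card) *
          (2 : ℝ) ^ (1 + Y.card + 4 * (d + 2) * F.card) = 1 := by
        rw [← mul_pow]
        norm_num
      calc ∑ x ∈ cube F r, |P.f g x - f x| =
            (1 / 2 : ℝ) ^ (1 + Y.card + 4 * (d + 2) * F.card) *
            ((2 : ℝ) ^ (1 + Y.card + 4 * (d + 2) * F.card) *
              ∑ x ∈ cube F r, |P.f g x - f x|) := by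
            rw [← mul_assoc, h2, one_mul]
        _ ≤ _ := mul_le_mul_of_nonneg_left happ (by positivity)
    have hind : 0 ≤ av (ind A₀) := av_nonneg fun x => ind_nonneg A₀ x
    have h3 : (1 / 2 : ℝ) ^ ((d + 1) * U.card) * ((1 / 2 : ℝ) ^ Y.card * av (ind A₀)) ≤ a :=
      (mul_le_mul_of_nonneg_left hlowB2 (by positivity)).trans hlowA
    have h4 : 2 * ((2 : ℝ) ^ U.card * ((1 / 2 : ℝ) ^ (1 + Y.card + 4 * (d + 2) * F.card) *
        (2 ^ Y.card * av (ind A₀)))) ≤
        2 ^ Y.card * ((1 / 2 : ℝ) ^ ((d + 1) * U.card) * ((1 / 2 : ℝ) ^ Y.card *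
          av (ind A₀))) := by
      have h5 : (1 / 2 : ℝ) ^ (1 + Y.card + 4 * (d + 2) * F.card) ≤
          (1 / 2) * (1 / 2) ^ Y.card * (1 / 2) ^ ((d + 2) * U.card) := by
        rw [pow_add, pow_add, pow_one]
        refine mul_le_mul_of_nonneg_left ?_ (by positivity)
        refine pow_le_pow_of_le_one (by norm_num) (by norm_num) ?_
        calc (d + 2) * U.card ≤ (d + 2) * (4 * F.card) := Nat.mul_le_mul_left _ hUc
          _ = 4 * (d + 2) * F.card := by ring
      have h6 : (2 : ℝ) ^ U.card * (1 / 2) ^ ((d + 2) * U.card) =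
          (1 / 2) ^ ((d + 1) * U.card) := by
        have h7 : (d + 2) * U.card = U.card + (d + 1) * U.card := by ring
        rw [h7, pow_add, ← mul_assoc, ← mul_pow]
        norm_num
      calc 2 * ((2 : ℝ) ^ U.card * ((1 / 2 : ℝ) ^ (1 + Y.card + 4 * (d + 2) * F.card) *
            (2 ^ Y.card * av (ind A₀)))) ≤
            2 * ((2 : ℝ) ^ U.card * (((1 / 2) * (1 / 2) ^ Y.card *
              (1 / 2) ^ ((d + 2) * U.card)) * (2 ^ Y.card * av (ind A₀)))) := by
            gcongr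
        _ = 2 ^ Y.card * (((2 : ℝ) ^ U.card * (1 / 2) ^ ((d + 2) * U.card)) *
            ((1 / 2 : ℝ) ^ Y.card * av (ind A₀))) := by ring
        _ = _ := by rw [h6]
    calc 2 * (av fun x => |g' (π x) - f (π x)|) ≤
          2 * (2 ^ U.card * ((∑ x ∈ cube F r, |P.f g x - f x|) / (cube F r).card)) := by
          linarith
      _ ≤ 2 * ((2 : ℝ) ^ U.card * ((1 / 2 : ℝ) ^ (1 + Y.card + 4 * (d + 2) * F.card) *
        (2 ^ Y.card * av (ind A₀)))) := by
          gcongr
      _ ≤ _ := h4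
      _ ≤ 2 ^ Y.card * a := mul_le_mul_of_nonneg_left h3 (by positivity)
  -- conclusion
  have hdiff : (av fun x => wt A' Y x * f (π x)) - (av fun x => wt A' Y x * g' (π x)) ≤
      av fun x => |g' (π x) - f (π x)| := by
    rw [← av_sub]
    refine av_mono fun x => ?_
    have h1 : wt A' Y x * f (π x) - wt A' Y x * g' (π x) =
        wt A' Y x * (f (π x) - g' (π x)) := by ring
    rw [h1]
    refine (le_abs_self _).trans ?_
    rw [abs_mul, abs_wt, one_mul, abs_sub_comm]
  have hfin : 2 ^ Y.card * a ≤ 2 * (P.size * D) := by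
    rw [hwf] at hdiff
    have h1 := le_abs_self (av fun x => wt A' Y x * g' (π x))
    linarith
  have hX : (0 : ℝ) < 2 ^ (2 * (c₀ * n)) := Real.rpow_pos_of_pos (by norm_num) _
  have h1 : (2 : ℝ) ^ (2 * (c₀ * n)) ≤ 2 * P.size * W * K := by
    have h2 : 2 ^ Y.card * a ≤
        (2 * P.size * W * K) * (1 / (2 : ℝ) ^ (2 * (c₀ * n))) * (2 ^ Y.card * Low) := by
      refine hfin.trans (le_of_eq ?_)
      rw [hD]
      ring
    have h3 : 2 ^ Y.card * a ≤
        (2 * P.size * W * K) * (1 / (2 : ℝ) ^ (2 * (c₀ * n))) * (2 ^ Y.card * a) := by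
      refine h2.trans ?_
      gcongr
    have h4 : (0 : ℝ) < 2 ^ Y.card * a := by positivity
    have h5 : 1 ≤ (2 * P.size * W * K) * (1 / (2 : ℝ) ^ (2 * (c₀ * n))) := by
      by_contra hcon
      push Not at hcon
      nlinarith
    rwa [mul_one_div, le_div_iff₀ hX, one_mul] at h5
  refine le_trans ?_ h1
  refine Real.rpow_le_rpow_of_exponent_le (by norm_num) ?_
  have h2 : c * n ≤ c₀ * n := mul_le_mul_of_nonneg_right (min_le_left _ _) hnR
  have h3 : 0 ≤ c₀ * n := by positivity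
  linarith

end Pool.Agent.SEL
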