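import Pool.Agent.SEL.St

/-!
# [GT] the signed local lemma for families of functions on a product space
-/

set_option autoImplicit false

namespace Pool.Agent.SEL

open Finset Pool.Agent.VD

section indep

variable {V α : Type} [Fintype V] [DecidableEq V] [Fintype α]

omit [Fintype V] [Fintype α] in
private theorem gt_pw (S : Finset V) (x y : V → α) :
    S.piecewise (S.piecewise x y) (S.piecewise y x) = x := by
  funext v
  by_cases h : v ∈ S
  · rw [piecewise_eq_of_mem _ _ _ h, piecewise_eq_of_mem _ _ _ h]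
  · rw [piecewise_eq_of_notMem _ _ _ h, piecewise_eq_of_notMem _ _ _ h]

private theorem gt_indep [Nonempty α] (S T : Finset V) (hST : Disjoint S T)
    (f g : (V → α) → ℝ) (hf : ∀ x y : V → α, (∀ v ∈ S, x v = y v) → f x = f y)
    (hg : ∀ x y : V → α, (∀ v ∈ T, x v = y v) → g x = g y) :
    av (fun x => f x * g x) = av f * av g := by
  have hc : (0 : ℝ) < Fintype.card (V → α) := by exact_mod_cast Fintype.card_pos
  have h1 : (∑ x, f x) * ∑ y, g y = Fintype.card (V → α) * ∑ x, f x * g x := by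
    rw [sum_mul_sum, ← Fintype.sum_prod_type' (f := fun (x y : V → α) => f x * g y)]
    have h2 : ∑ p : (V → α) × (V → α), f p.1 * g p.2 =
        ∑ p : (V → α) × (V → α), f p.1 * g p.1 := by
      refine sum_bij' (fun p _ => (S.piecewise p.1 p.2, S.piecewise p.2 p.1))
        (fun p _ => (S.piecewise p.1 p.2, S.piecewise p.2 p.1)) (fun _ _ => mem_univ _)
        (fun _ _ => mem_univ _) ?_ ?_ ?_
      · rintro ⟨a, b⟩ _
        simp only [gt_pw]
      · rintro ⟨a, b⟩ _
        simp only [gt_pw]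
      · rintro ⟨a, b⟩ _
        have e1 : f (S.piecewise a b) = f a :=
          hf _ _ fun v hv => piecewise_eq_of_mem _ _ _ hv
        have e2 : g (S.piecewise a b) = g b :=
          hg _ _ fun v hv => piecewise_eq_of_notMem _ _ _ (Finset.disjoint_right.1 hST hv)
        show f a * g b = f (S.piecewise a b) * g (S.piecewise a b)
        rw [e1, e2]
    rw [h2, Fintype.sum_prod_type_right]
    show ∑ y : V → α, ∑ x : V → α, f x * g x = _
    rw [sum_const, card_univ, nsmul_eq_mul]
  unfold av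
  rw [div_mul_div_comm, h1, div_eq_div_iff hc.ne' (mul_pos hc hc).ne']
  ring

end indep

private theorem gt_abs_av {Ω : Type} [Fintype Ω] (f : Ω → ℝ) : |av f| ≤ av fun ω => |f ω| := by
  unfold av
  rw [abs_div, Nat.abs_cast]
  exact div_le_div_of_nonneg_right (abs_sum_le_sum_abs _ _) (Nat.cast_nonneg _)

section count

variable {V α I : Type} [Fintype V] [DecidableEq V] [Fintype α] [DecidableEq α] [DecidableEq I]

omit [DecidableEq I] in
/-- the number of points which satisfy fixed patterns -/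
private theorem gt_count (A : Finset I) (D : I → Finset V) {N : ℕ} (Gd : Fin N → V → Finset α)
    (half : ∀ τ v, 2 * (Gd τ v).card ≤ Fintype.card α) (τ : {i // i ∈ A} → Fin N) :
    (univ.filter fun x : V → α => ∀ i : {i // i ∈ A}, ∀ v ∈ D i, x v ∈ Gd (τ i) v).card *
      2 ^ (A.biUnion D).card ≤ Fintype.card (V → α) := by
  classical
  let P : V → Finset α := fun v =>
    if h : ∃ i : {i // i ∈ A}, v ∈ D i then Gd (τ h.choose) v else univ
  have h1 : (univ.filter fun x : V → α => ∀ i : {i // i ∈ A}, ∀ v ∈ D i, x v ∈ Gd (τ i) v) ⊆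
      Fintype.piFinset P := by
    intro x hx
    rw [mem_filter] at hx
    rw [Fintype.mem_piFinset]
    intro v
    show x v ∈ (if h : ∃ i : {i // i ∈ A}, v ∈ D i then Gd (τ h.choose) v else univ)
    split_ifs with h
    · exact hx.2 h.choose v h.choose_spec
    · exact mem_univ _
  have h2 : (2 : ℕ) ^ (A.biUnion D).card = ∏ v : V, if v ∈ A.biUnion D then 2 else 1 := by
    rw [prod_ite_mem, univ_inter, prod_const]
  have h3 : (Fintype.piFinset P).card * 2 ^ (A.biUnion D).card ≤ Fintype.card (V → α) := by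
    rw [Fintype.card_piFinset, h2, ← prod_mul_distrib, Fintype.card_fun, ← card_univ (α := V),
      ← prod_const]
    refine prod_le_prod' fun v _ => ?_
    show (if h : ∃ i : {i // i ∈ A}, v ∈ D i then Gd (τ h.choose) v else univ).card *
      (if v ∈ A.biUnion D then 2 else 1) ≤ Fintype.card α
    by_cases h : ∃ i : {i // i ∈ A}, v ∈ D i
    · rw [dif_pos h, if_pos]
      · have := half (τ h.choose) v
        omega
      · obtain ⟨i, hi⟩ := h
        exact mem_biUnion.2 ⟨i, i.2, hi⟩
    · rw [dif_neg h, if_neg]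
      · rw [card_univ]
        omega
      · intro h4
        obtain ⟨i, hi, hv⟩ := mem_biUnion.1 h4
        exact h ⟨⟨i, hi⟩, hv⟩
  exact (Nat.mul_le_mul_right _ (card_le_card h1)).trans h3

private theorem gt_mom [Nonempty α] {G : Finset I} {C D : I → Finset V} {k d N : ℕ}
    {Gd : Fin N → V → Finset α} {ψ : I → (V → α) → ℝ} (hF : Fam G C D k d N Gd ψ)
    (A : Finset I) (hA : A ⊆ G) :
    |Xi ψ A ∅| ≤ (2 * N) ^ A.card / 2 ^ (A.biUnion D).card := by
  classical
  have hc : (0 : ℝ) < Fintype.card (V → α) := by exact_mod_cast Fintype.card_pos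
  have h1 : ∀ x : V → α, |(∏ i ∈ A, ψ i x) * ∏ j ∈ (∅ : Finset I), (1 + ψ j x)| ≤
      ∑ τ : {i // i ∈ A} → Fin N,
        if ∀ i : {i // i ∈ A}, ∀ v ∈ D i, x v ∈ Gd (τ i) v then (2 : ℝ) ^ A.card else 0 := by
    intro x
    rw [prod_empty, mul_one]
    by_cases h : ∃ i ∈ A, ψ i x = 0
    · obtain ⟨i, hi, h0⟩ := h
      rw [prod_eq_zero hi h0, abs_zero]
      exact sum_nonneg fun τ _ => by split_ifs <;> positivity
    · push Not at h
      have h2 : ∀ i : {i // i ∈ A}, ∃ τ, ∀ v ∈ D i, x v ∈ Gd τ v := fun i =>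
        hF.supp i (hA i.2) x (h i i.2)
      choose τ hτ using h2
      have h3 : |∏ i ∈ A, ψ i x| ≤ 2 ^ A.card := by
        rw [abs_prod, ← prod_const]
        exact prod_le_prod (fun i _ => abs_nonneg _) fun i hi => hF.bd i (hA hi) x
      refine h3.trans ?_
      have h4 := single_le_sum (s := (univ : Finset ({i // i ∈ A} → Fin N)))
        (f := fun τ => if ∀ i : {i // i ∈ A}, ∀ v ∈ D i, x v ∈ Gd (τ i) v then
          (2 : ℝ) ^ A.card else 0) (fun τ _ => by positivity) (mem_univ τ)
      refine le_trans (le_of_eq ?_) h4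
      show (2 : ℝ) ^ A.card = if ∀ i : {i // i ∈ A}, ∀ v ∈ D i, x v ∈ Gd (τ i) v then
          (2 : ℝ) ^ A.card else 0
      rw [if_pos hτ]
  refine (gt_abs_av _).trans ?_
  unfold av
  rw [div_le_div_iff₀ hc (by positivity)]
  calc (∑ x, |(∏ i ∈ A, ψ i x) * ∏ j ∈ (∅ : Finset I), (1 + ψ j x)|) * 2 ^ (A.biUnion D).card
      ≤ (∑ x, ∑ τ : {i // i ∈ A} → Fin N,
        if ∀ i : {i // i ∈ A}, ∀ v ∈ D i, x v ∈ Gd (τ i) v then (2 : ℝ) ^ A.card else 0) *
          2 ^ (A.biUnion D).card :=
        mul_le_mul_of_nonneg_right (sum_le_sum fun x _ => h1 x) (by positivity)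
    _ = ∑ τ : {i // i ∈ A} → Fin N, 2 ^ A.card *
        (((univ.filter fun x : V → α => ∀ i : {i // i ∈ A}, ∀ v ∈ D i,
          x v ∈ Gd (τ i) v).card * 2 ^ (A.biUnion D).card : ℕ) : ℝ) := by
        rw [sum_comm, sum_mul]
        refine sum_congr rfl fun τ _ => ?_
        rw [← sum_filter, sum_const, nsmul_eq_mul]
        push_cast
        ring
    _ ≤ ∑ τ : {i // i ∈ A} → Fin N, 2 ^ A.card * (Fintype.card (V → α) : ℝ) := by
        refine sum_le_sum fun τ _ => ?_
        refine mul_le_mul_of_nonneg_left ?_ (by positivity)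
        exact_mod_cast gt_count A D Gd hF.half τ
    _ = (2 * N) ^ A.card * Fintype.card (V → α) := by
        rw [sum_const, card_univ, Fintype.card_fun, Fintype.card_fin, Fintype.card_coe,
          nsmul_eq_mul, mul_pow]
        push_cast
        ring

omit [DecidableEq I] in
private theorem gt_card {G : Finset I} {C D : I → Finset V} {k d N : ℕ}
    {Gd : Fin N → V → Finset α} {ψ : I → (V → α) → ℝ} (hF : Fam G C D k d N Gd ψ) (hd : 1 ≤ d)
    (m : ℕ) (A : Finset I) (hA : A ⊆ G) (hm : ∀ i ∈ A, d * m ≤ (D i).card) :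
    m * A.card ≤ (A.biUnion D).card := by
  classical
  have h1 : ∑ i ∈ A, (D i).card = ∑ v ∈ A.biUnion D, (A.filter fun i => v ∈ D i).card := by
    have e1 : ∀ i ∈ A, (D i).card = ∑ v ∈ A.biUnion D, if v ∈ D i then 1 else 0 := by
      intro i hi
      rw [sum_ite_mem, sum_const, smul_eq_mul, mul_one]
      congr 1
      exact (inter_eq_right.2 (subset_biUnion_of_mem D hi)).symm
    rw [sum_congr rfl e1, sum_comm]
    refine sum_congr rfl fun v _ => ?_
    rw [card_filter]
  have h2 : ∑ v ∈ A.biUnion D, (A.filter fun i => v ∈ D i).card ≤ (A.biUnion D).card * d := by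
    refine sum_le_card_nsmul _ _ _ fun v _ => ?_
    refine le_trans (card_le_card ?_) (hF.deg v)
    intro i hi
    rw [mem_filter] at hi ⊢
    exact ⟨hA hi.1, hF.sub i (hA hi.1) hi.2⟩
  have h3 : A.card * (d * m) ≤ ∑ i ∈ A, (D i).card := card_nsmul_le_sum _ _ _ hm
  have h4 : d * (m * A.card) ≤ d * (A.biUnion D).card := by
    calc d * (m * A.card) = A.card * (d * m) := by ring
      _ ≤ (A.biUnion D).card * d := h3.trans (h1.le.trans h2)
      _ = d * (A.biUnion D).card := by ring
  exact Nat.le_of_mul_le_mul_left h4 (by omega)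

end count

theorem thm_GT (h : St_SLL) : St_GT := by
  classical
  intro V α I _ _ _ _ _ _ G C D k d N κ Gd ψ z hF hz hkd hz9 hκ
  have hd : 1 ≤ d := by
    rcases Nat.eq_zero_or_pos d with h0 | h0
    · rw [h0, Nat.mul_zero] at hkd
      omega
    · exact h0
  have hz0 : 0 ≤ z := by rw [hz]; positivity
  have hkd' : (1 : ℝ) ≤ (k : ℝ) * d := by exact_mod_cast hkd
  have hz1 : 9 * z ≤ 1 := by nlinarith
  -- the number of neighbours
  have hnb : ∀ i ∈ G, (G.filter fun j => ¬ Disjoint (C i) (C j)).card ≤ k * d := by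
    intro i hi
    have h1 : (G.filter fun j => ¬ Disjoint (C i) (C j)) ⊆
        (C i).biUnion fun v => G.filter fun j => v ∈ C j := by
      intro j hj
      rw [mem_filter, Finset.not_disjoint_iff] at hj
      obtain ⟨hj, v, hv1, hv2⟩ := hj
      exact mem_biUnion.2 ⟨v, hv1, mem_filter.2 ⟨hj, hv2⟩⟩
    refine (card_le_card h1).trans (card_biUnion_le.trans ?_)
    refine (sum_le_card_nsmul _ _ d fun v _ => hF.deg v).trans ?_
    exact Nat.mul_le_mul_right _ (hF.size i hi)
  -- independence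
  have hind : ∀ A J, A ⊆ G → J ⊆ G → Disjoint A J →
      (∀ i ∈ A, ∀ j ∈ J, ¬ ¬ Disjoint (C i) (C j)) → Xi ψ A J = Xi ψ A ∅ * Xi ψ ∅ J := by
    intro A J hA hJ _ hd
    have h1 := gt_indep (A.biUnion C) (J.biUnion C) (by
        rw [disjoint_biUnion_left]
        intro i hi
        rw [disjoint_biUnion_right]
        intro j hj
        exact not_not.1 (hd i hi j hj))
      (fun x => ∏ i ∈ A, ψ i x) (fun x => ∏ j ∈ J, (1 + ψ j x))
      (fun x y hxy => prod_congr rfl fun i hi => hF.dep i (hA hi) x y fun v hv =>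
        hxy v (mem_biUnion.2 ⟨i, hi, hv⟩))
      (fun x y hxy => prod_congr rfl fun j hj => by
        rw [hF.dep j (hJ hj) x y fun v hv => hxy v (mem_biUnion.2 ⟨j, hj, hv⟩)])
    unfold Xi
    simp only [prod_empty, mul_one, one_mul]
    exact h1
  -- moments
  have hmom : ∀ A, A ⊆ G → A.Nonempty → |Xi ψ A ∅| ≤ z ^ A.card := by
    intro A hA _
    refine (gt_mom hF A hA).trans ?_
    rw [hz, div_pow, ← pow_mul]
    have h1 := gt_card hF hd κ A hA fun i hi => hκ i (hA hi)
    refine div_le_div_of_nonneg_left (by positivity) (by positivity) ?_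
    exact pow_le_pow_right₀ (by norm_num) h1
  have hDz : 9 * ((k * d : ℕ) : ℝ) * z ≤ 1 := by
    push_cast
    exact hz9
  refine ⟨?_, ?_⟩
  · have H := h I (V → α) (fun i j => ¬ Disjoint (C i) (C j)) G ψ (k * d) z 0 hkd hz0 hDz le_rfl
      hnb hind hmom
    intro J hJ
    refine ⟨(H J hJ).1, ?_⟩
    intro J' hJ'
    have h3z : 0 ≤ 1 - 3 * z := by linarith
    have key : ∀ K : Finset I, K ⊆ G → Disjoint K J' →
        (1 - 3 * z) ^ K.card * Xi ψ ∅ J' ≤ Xi ψ ∅ (K ∪ J') := by
      intro K
      induction K using Finset.induction_on with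
      | empty =>
        intro _ _
        rw [card_empty, pow_zero, one_mul, empty_union]
      | insert i K hi ih =>
        intro hK hd'
        rw [Finset.disjoint_insert_left] at hd'
        have hKG : K ⊆ G := (subset_insert _ _).trans hK
        have h1 := ih hKG hd'.2
        have hU : K ∪ J' ⊆ G := union_subset hKG (hJ'.trans hJ)
        have h2 := ((H (K ∪ J') hU).2 i (hK (mem_insert_self _ _)) (by
          rw [mem_union]
          rintro (h4 | h4)
          · exact hi h4
          · exact hd'.1 h4)).1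
        have h5 := (abs_le.1 h2).1
        rw [card_insert_of_notMem hi, insert_union, pow_succ]
        have h6 : (1 - 3 * z) ^ K.card * (1 - 3 * z) * Xi ψ ∅ J' ≤
            (1 - 3 * z) * Xi ψ ∅ (K ∪ J') := by
          calc (1 - 3 * z) ^ K.card * (1 - 3 * z) * Xi ψ ∅ J'
              = (1 - 3 * z) * ((1 - 3 * z) ^ K.card * Xi ψ ∅ J') := by ring
            _ ≤ _ := mul_le_mul_of_nonneg_left h1 h3z
        linarith
    have h7 := key (J \ J') (sdiff_subset.trans hJ) sdiff_disjoint
    rwa [sdiff_union_of_subset hJ'] at h7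
  · intro l hl h4 hpair h14
    have H := h I (V → α) (fun i j => ¬ Disjoint (C i) (C j)) G ψ (k * d) z (1 / 2 ^ l) hkd hz0
      hDz (by positivity) hnb hind hmom
    have hρ : ∀ A, A ⊆ G → 2 ≤ A.card → |Xi ψ A ∅| ≤ 1 / 2 ^ l * z ^ A.card := by
      intro A hA hA2
      refine (gt_mom hF A hA).trans ?_
      have h1 := gt_card hF hd (4 * κ) A hA fun i hi => by
        have := h4 i (hA hi)
        calc d * (4 * κ) = 4 * (d * κ) := by ring
          _ ≤ _ := this
      have h2 : 4 * l ≤ 3 * (A.biUnion D).card := by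
        obtain ⟨i, hi, j, hj, hij⟩ := one_lt_card.1 (show 1 < A.card by omega)
        refine (hpair i (hA hi) j (hA hj) hij).trans ?_
        refine Nat.mul_le_mul_left _ (card_le_card (union_subset ?_ ?_))
        · exact subset_biUnion_of_mem D hi
        · exact subset_biUnion_of_mem D hj
      have h3 : l + κ * A.card ≤ (A.biUnion D).card := by
        have h5 : 4 * (κ * A.card) ≤ (A.biUnion D).card := by
          calc 4 * (κ * A.card) = 4 * κ * A.card := by ring
            _ ≤ _ := h1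
        omega
      rw [hz, div_pow, ← pow_mul, div_mul_div_comm, one_mul, ← pow_add]
      refine div_le_div_of_nonneg_left (by positivity) (by positivity) ?_
      exact pow_le_pow_right₀ (by norm_num) h3
    have hl' : (1 : ℝ) / 2 ^ l ≤ 1 / 4 := by
      have h5 : (4 : ℝ) ≤ 2 ^ l := by
        calc (4 : ℝ) = 2 ^ 2 := by norm_num
          _ ≤ 2 ^ l := pow_le_pow_right₀ (by norm_num) hl
      exact one_div_le_one_div_of_le (by norm_num) h5
    have key : ∀ K : Finset I, K ⊆ G →
        ∏ i ∈ K, (1 + Xi ψ {i} ∅ - (6 * (k * d) * z * |Xi ψ {i} ∅| + 1 / 2 ^ l)) ≤ Xi ψ ∅ K ∧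
        Xi ψ ∅ K ≤ ∏ i ∈ K, (1 + Xi ψ {i} ∅ + (6 * (k * d) * z * |Xi ψ {i} ∅| + 1 / 2 ^ l)) := by
      intro K
      induction K using Finset.induction_on with
      | empty =>
        intro _
        have hc : (Fintype.card (V → α) : ℝ) ≠ 0 := by
          exact_mod_cast (Fintype.card_pos (α := V → α)).ne'
        have h1 : Xi ψ (∅ : Finset I) ∅ = 1 := by
          unfold Xi av
          simp only [prod_empty, mul_one]
          rw [sum_const, card_univ, nsmul_eq_mul, mul_one, div_self hc]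
        rw [h1, prod_empty, prod_empty]
        exact ⟨le_rfl, le_rfl⟩
      | insert i K hi ih =>
        intro hK
        have hiG : i ∈ G := hK (mem_insert_self _ _)
        have hKG : K ⊆ G := (subset_insert _ _).trans hK
        obtain ⟨ih1, ih2⟩ := ih hKG
        obtain ⟨hpos, H2⟩ := H K hKG
        have h2 := (H2 i hiG hi).2 hρ
        have h2' : |Xi ψ ∅ (insert i K) - (1 + Xi ψ {i} ∅) * Xi ψ ∅ K| ≤
            (6 * (k * d) * z * |Xi ψ {i} ∅| + 1 / 2 ^ l) * Xi ψ ∅ K := by
          have e : (6 * ((k * d : ℕ) : ℝ) * z * |Xi ψ {i} ∅| + 1 / 2 ^ l) =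
            (6 * (k * d) * z * |Xi ψ {i} ∅| + 1 / 2 ^ l) := by push_cast; ring
          rw [← e]
          exact h2
        obtain ⟨h5, h6⟩ := abs_le.1 h2'
        have h7 := h14 i hiG
        have h8 := abs_le.1 h7
        have h9 : 6 * (k * d) * z * |Xi ψ {i} ∅| ≤ 2 / 3 * (1 / 4) := by
          have e1 : 6 * ((k : ℝ) * d) * z ≤ 2 / 3 := by linarith
          exact mul_le_mul e1 h7 (abs_nonneg _) (by norm_num)
        have h10 : 0 ≤ 6 * ((k : ℝ) * d) * z * |Xi ψ {i} ∅| := by positivity
        have h11 : (0 : ℝ) < 1 / 2 ^ l := by positivity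
        rw [prod_insert hi, prod_insert hi]
        constructor
        · have h12 : (1 + Xi ψ {i} ∅ - (6 * (k * d) * z * |Xi ψ {i} ∅| + 1 / 2 ^ l)) *
              ∏ i ∈ K, (1 + Xi ψ {i} ∅ - (6 * (k * d) * z * |Xi ψ {i} ∅| + 1 / 2 ^ l)) ≤
              (1 + Xi ψ {i} ∅ - (6 * (k * d) * z * |Xi ψ {i} ∅| + 1 / 2 ^ l)) * Xi ψ ∅ K :=
            mul_le_mul_of_nonneg_left ih1 (by linarith [h8.1])
          linarith
        · have h12 : (1 + Xi ψ {i} ∅ + (6 * (k * d) * z * |Xi ψ {i} ∅| + 1 / 2 ^ l)) *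
              Xi ψ ∅ K ≤ (1 + Xi ψ {i} ∅ + (6 * (k * d) * z * |Xi ψ {i} ∅| + 1 / 2 ^ l)) *
              ∏ i ∈ K, (1 + Xi ψ {i} ∅ + (6 * (k * d) * z * |Xi ψ {i} ∅| + 1 / 2 ^ l)) :=
            mul_le_mul_of_nonneg_left ih2 (by linarith [h8.1])
          linarith
    exact key G (Subset.refl _)

end Pool.Agent.SEL
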