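import Pool.Agent.SEL.St

/-!
# SEL: existence of the formula
-/

set_option autoImplicit false

namespace Pool.Agent.SEL

open Finset

/-- choice of a configuration with all the properties -/
private theorem HG_pick {m k n : ℕ} (hn : 0 < n) (P : Fin 6 → Cfg m k n → Prop)
    (hP : ∀ j, Typ m k n (P j)) : ∃ c, ∀ j, P j c := by
  classical
  by_contra hno
  let Bad : Fin 6 → Finset (Cfg m k n) := fun j => univ.filter fun c => ¬ P j c
  have h1 : (univ : Finset (Cfg m k n)) ⊆ univ.biUnion Bad := by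
    intro c _
    by_contra hc
    apply hno
    refine ⟨c, fun j => ?_⟩
    by_contra hj
    exact hc (mem_biUnion.2 ⟨j, mem_univ _, mem_filter.2 ⟨mem_univ _, hj⟩⟩)
  have h2 : Fintype.card (Cfg m k n) ≤ ∑ j, (Bad j).card :=
    (card_le_card h1).trans card_biUnion_le
  have h3 : ∀ j, 7 * (Bad j).card ≤ (n ^ k) ^ m := fun j =>
    hP j (Bad j) fun c hc => (mem_filter.1 hc).2
  have h4 : ∑ j, 7 * (Bad j).card ≤ 6 * (n ^ k) ^ m := by
    refine (sum_le_card_nsmul _ _ _ (fun j _ => h3 j)).trans (le_of_eq ?_)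
    rw [card_univ, Fintype.card_fin, smul_eq_mul]
  rw [← mul_sum] at h4
  have h5 : Fintype.card (Cfg m k n) = (n ^ k) ^ m := by
    rw [Fintype.card_fun, Fintype.card_fun, Fintype.card_fin, Fintype.card_fin, Fintype.card_fin]
  have h6 : 0 < (n ^ k) ^ m := by positivity
  omega

private theorem HG_pow {q : ℕ} (hq : 16 ≤ q) : q ^ 4 ≤ 2 ^ q := by
  induction q, hq using Nat.le_induction with
  | base => norm_num
  | succ q hq ih =>
    have h1 : (q + 1) ^ 4 ≤ 2 * q ^ 4 := by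
      have h2 : 16 * (q + 1) ≤ 17 * q := by omega
      have h3 : (16 * (q + 1)) ^ 4 ≤ (17 * q) ^ 4 := Nat.pow_le_pow_left h2 4
      rw [mul_pow, mul_pow] at h3
      omega
    have h4 : 2 ^ (q + 1) = 2 * 2 ^ q := by ring
    omega

section

variable {m k n q : ℕ} (c : Cfg m k n)

/-- the clause number `i` -/
private def HG_f (i : Fin m) : Finset (Fin n) := univ.image (c i)

/-- the clause number `i` shares two variables with another clause -/
private def HG_two (i : Fin m) : Prop :=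
  ∃ i', i' ≠ i ∧ ∃ a b a' b', c i a ≠ c i b ∧ c i a = c i' a' ∧ c i b = c i' b'

/-- the clause number `i` has a variable which occurs often -/
private def HG_occ (q : ℕ) (i : Fin m) : Prop :=
  ∃ j, 16 * q < (univ.filter fun p : Fin m × Fin k => c p.1 p.2 = c i j).card

open Classical in
/-- the good clauses -/
private noncomputable def HG_G (q : ℕ) : Finset (Fin m) :=
  univ.filter fun i => Function.Injective (c i) ∧ ¬ HG_two c i ∧ ¬ HG_occ c q i

open Classical in
private noncomputable def HG_E (q : ℕ) : Finset (Finset (Fin n)) := (HG_G c q).image (HG_f c)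

private theorem HG_mem_G {i : Fin m} : i ∈ HG_G c q ↔
    Function.Injective (c i) ∧ ¬ HG_two c i ∧ ¬ HG_occ c q i := by
  classical
  rw [HG_G, mem_filter]
  exact ⟨fun h => h.2, fun h => ⟨mem_univ _, h⟩⟩

private theorem HG_mem_f {i : Fin m} {v : Fin n} : v ∈ HG_f c i ↔ ∃ j, c i j = v := by
  simp [HG_f]

private theorem HG_mem_E {C : Finset (Fin n)} :
    C ∈ HG_E c q ↔ ∃ i ∈ HG_G c q, HG_f c i = C := by
  rw [HG_E, mem_image]

private theorem HG_cardG (h1 : ∀ B : Finset (Fin m), (∀ i ∈ B, ¬ Function.Injective (c i)) →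
      16 * B.card ≤ m)
    (h2 : ∀ B : Finset (Fin m), (∀ i ∈ B, HG_two c i) → 16 * B.card ≤ m)
    (h3 : ∀ B : Finset (Fin m), (∀ i ∈ B, HG_occ c q i) → 16 * B.card ≤ m) :
    13 * m ≤ 16 * (HG_G c q).card := by
  classical
  have e1 := h1 (univ.filter fun i => ¬ Function.Injective (c i)) fun i hi => (mem_filter.1 hi).2
  have e2 := h2 (univ.filter fun i => HG_two c i) fun i hi => (mem_filter.1 hi).2
  have e3 := h3 (univ.filter fun i => HG_occ c q i) fun i hi => (mem_filter.1 hi).2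
  have h4 : (univ : Finset (Fin m)) ⊆ HG_G c q ∪
      ((univ.filter fun i => ¬ Function.Injective (c i)) ∪
        ((univ.filter fun i => HG_two c i) ∪ (univ.filter fun i => HG_occ c q i))) := by
    intro i _
    simp only [mem_union, mem_filter, mem_univ, true_and, HG_mem_G]
    tauto
  have h5 := card_le_card h4
  have h6 := card_union_le (HG_G c q) ((univ.filter fun i => ¬ Function.Injective (c i)) ∪
        ((univ.filter fun i => HG_two c i) ∪ (univ.filter fun i => HG_occ c q i)))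
  have h7 := card_union_le (univ.filter fun i => ¬ Function.Injective (c i))
        ((univ.filter fun i => HG_two c i) ∪ (univ.filter fun i => HG_occ c q i))
  have h8 := card_union_le (univ.filter fun i => HG_two c i) (univ.filter fun i => HG_occ c q i)
  rw [card_univ, Fintype.card_fin] at h5
  omega

private theorem HG_two_of {i i' : Fin m} (hne : i' ≠ i) {u v : Fin n} (huv : u ≠ v)
    (hu : u ∈ HG_f c i) (hv : v ∈ HG_f c i) (hu' : u ∈ HG_f c i') (hv' : v ∈ HG_f c i') :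
    HG_two c i := by
  obtain ⟨a, rfl⟩ := (HG_mem_f c).1 hu
  obtain ⟨b, rfl⟩ := (HG_mem_f c).1 hv
  obtain ⟨a', ha'⟩ := (HG_mem_f c).1 hu'
  obtain ⟨b', hb'⟩ := (HG_mem_f c).1 hv'
  exact ⟨i', hne, a, b, a', b', huv, ha'.symm, hb'.symm⟩

private theorem HG_cardf {i : Fin m} (hi : i ∈ HG_G c q) : (HG_f c i).card = k := by
  rw [HG_f, card_image_of_injective _ ((HG_mem_G c).1 hi).1, card_univ, Fintype.card_fin]

private theorem HG_inj (hk : 2 ≤ k) : Set.InjOn (HG_f c) (HG_G c q) := by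
  intro i hi i' hi' h
  by_contra hne
  have h1 : 1 < (HG_f c i).card := by
    rw [HG_cardf c hi]
    omega
  obtain ⟨u, hu, v, hv, huv⟩ := one_lt_card.1 h1
  exact ((HG_mem_G c).1 hi).2.1 (HG_two_of c (Ne.symm hne) huv hu hv (h ▸ hu) (h ▸ hv))

private theorem HG_cardE (hk : 2 ≤ k) : (HG_E c q).card = (HG_G c q).card := by
  classical
  exact card_image_of_injOn (HG_inj c hk)

private theorem HG_filter (Q : Finset (Fin n) → Prop) [DecidablePred Q] :
    ((HG_E c q).filter Q).card ≤ ((HG_G c q).filter fun i => Q (HG_f c i)).card := by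
  refine (card_le_card ?_).trans (card_image_le (f := HG_f c))
  intro C hC
  rw [mem_filter, HG_mem_E] at hC
  obtain ⟨⟨i, hi, rfl⟩, hQ⟩ := hC
  exact mem_image.2 ⟨i, mem_filter.2 ⟨hi, hQ⟩, rfl⟩

private theorem HG_deg (v : Fin n) : ((HG_E c q).filter fun C => v ∈ C).card ≤ 16 * q := by
  classical
  refine (HG_filter c (fun C => v ∈ C)).trans ?_
  rcases ((HG_G c q).filter fun i => v ∈ HG_f c i).eq_empty_or_nonempty with h | ⟨i, hi⟩
  · rw [h, card_empty]
    exact Nat.zero_le _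
  · obtain ⟨hiG, hv⟩ := mem_filter.1 hi
    obtain ⟨j, rfl⟩ := (HG_mem_f c).1 hv
    have h1 := ((HG_mem_G c).1 hiG).2.2
    have h2 : (univ.filter fun p : Fin m × Fin k => c p.1 p.2 = c i j).card ≤ 16 * q := by
      by_contra h3
      exact h1 ⟨j, not_le.1 h3⟩
    refine (card_le_card ?_).trans ((card_image_le (f := Prod.fst)).trans h2)
    intro i' hi'
    obtain ⟨_, hi'⟩ := mem_filter.1 hi'
    obtain ⟨j', hj'⟩ := (HG_mem_f c).1 hi'
    exact mem_image.2 ⟨(i', j'), mem_filter.2 ⟨mem_univ _, hj'⟩, rfl⟩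

private theorem HG_inter {i : Fin m} (hi : i ∈ HG_G c q) (p : Fin n → Prop) [DecidablePred p] :
    ((HG_f c i).filter p).card = (univ.filter fun j => p (c i j)).card := by
  rw [HG_f, filter_image, card_image_of_injective _ ((HG_mem_G c).1 hi).1]

end

private theorem HG_main {m n q e₀ L M N₃ N₂ : ℕ} (hq : 1 ≤ q) (he₀ : 1 ≤ e₀)
    (hm : n ≤ 256 * q * m) (c : Cfg m (128 * q ^ 2) n)
    (c1 : ∀ B : Finset (Fin m), (∀ i ∈ B, ¬ Function.Injective (c i)) → 16 * B.card ≤ m)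
    (c2 : ∀ B : Finset (Fin m), (∀ i ∈ B, HG_two c i) → 16 * B.card ≤ m)
    (c3 : ∀ B : Finset (Fin m), (∀ i ∈ B, HG_occ c q i) → 16 * B.card ≤ m)
    (c4 : ∀ S : Finset (Fin n), n ≤ e₀ * S.card → n ≤ e₀ * Sᶜ.card →
      2 * M * (univ.filter fun i => (univ.filter fun j => c i j ∈ S).card < L ∨
          (univ.filter fun j => c i j ∉ S).card < L).card ≤ m)
    (c5 : ∀ Y : Finset (Fin n), m ≤ 2 * e₀ * (univ.filter fun i => ∀ j, c i j ∉ Y).card →
      128 * q ^ 2 * Y.card ≤ 4 * e₀ * n)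
    (c6 : ∀ I : Finset (Fin m), N₃ * I.card ≤ n →
      3 * (128 * q ^ 2) * I.card ≤ 4 * (I.biUnion fun i => univ.image (c i)).card)
    (hclo : ∀ E : Finset (Finset (Fin n)), (∀ C ∈ E, C.card = 128 * q ^ 2) →
      (∀ I, I ⊆ E → N₃ * I.card ≤ n → 3 * (128 * q ^ 2) * I.card ≤ 4 * (I.biUnion id).card) →
      ∀ U₀ : Finset (Fin n), N₂ * U₀.card ≤ n → ∃ U, U₀ ⊆ U ∧ U.card ≤ 4 * U₀.card ∧
        ∀ C ∈ E, C ⊆ U ∨ 2 * (C ∩ U).card ≤ 128 * q ^ 2) :
    HG e₀ (10 ^ 4 * e₀ ^ 2) L M (128 * q ^ 2) (16 * q) (512 * q) N₂ n (HG_E c q) := by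
  classical
  have hk : 2 ≤ 128 * q ^ 2 := by
    have : 1 ≤ q ^ 2 := Nat.one_le_pow _ _ (by omega)
    omega
  have hG := HG_cardG c c1 c2 c3
  have hE := HG_cardE (q := q) c hk
  have hsize : ∀ C ∈ HG_E c q, C.card = 128 * q ^ 2 := by
    intro C hC
    obtain ⟨i, hi, rfl⟩ := (HG_mem_E c).1 hC
    exact HG_cardf c hi
  have hmany : n ≤ 512 * q * (HG_E c q).card := by
    rw [hE]
    have h1 : m ≤ 2 * (HG_G c q).card := by omega
    calc n ≤ 256 * q * m := hm
      _ ≤ 256 * q * (2 * (HG_G c q).card) := Nat.mul_le_mul_left _ h1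
      _ = 512 * q * (HG_G c q).card := by ring
  refine ⟨hsize, HG_deg c, ?_, hmany, ?_, ?_, ?_⟩
  · intro C hC C' hC' hne
    obtain ⟨i, hi, rfl⟩ := (HG_mem_E c).1 hC
    obtain ⟨i', hi', rfl⟩ := (HG_mem_E c).1 hC'
    by_contra hlt
    obtain ⟨u, hu, v, hv, huv⟩ := one_lt_card.1 (not_le.1 hlt)
    rw [mem_inter] at hu hv
    refine ((HG_mem_G c).1 hi).2.1 (HG_two_of c (i' := i') ?_ huv hu.1 hv.1 hu.2 hv.2)
    rintro rfl
    exact hne rfl
  · intro S hS hS'
    have h1 := c4 S hS hS'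
    have h2 := HG_filter (q := q) c (fun C => (C ∩ S).card < L ∨ (C \ S).card < L)
    have h3 : ((HG_G c q).filter fun i => ((HG_f c i) ∩ S).card < L ∨
        ((HG_f c i) \ S).card < L).card ≤
        (univ.filter fun i => (univ.filter fun j => c i j ∈ S).card < L ∨
          (univ.filter fun j => c i j ∉ S).card < L).card := by
      refine card_le_card ?_
      intro i hi
      obtain ⟨hiG, hi⟩ := mem_filter.1 hi
      refine mem_filter.2 ⟨mem_univ _, ?_⟩
      rw [← HG_inter c hiG (fun v => v ∈ S), ← HG_inter c hiG (fun v => v ∉ S),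
        filter_mem_eq_inter, filter_notMem_eq_sdiff]
      exact hi
    have h4 : 2 * (M * ((HG_E c q).filter fun C => (C ∩ S).card < L ∨
        (C \ S).card < L).card) ≤ m := by
      rw [← mul_assoc]
      exact (Nat.mul_le_mul_left _ (h2.trans h3)).trans h1
    omega
  · intro Y hY
    have h2 := HG_filter (q := q) c (fun C => Disjoint C Y)
    have h3 : ((HG_G c q).filter fun i => Disjoint (HG_f c i) Y).card ≤
        (univ.filter fun i => ∀ j, c i j ∉ Y).card := by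
      refine card_le_card ?_
      intro i hi
      obtain ⟨hiG, hi⟩ := mem_filter.1 hi
      refine mem_filter.2 ⟨mem_univ _, fun j => ?_⟩
      exact disjoint_left.1 hi ((HG_mem_f c).2 ⟨j, rfl⟩)
    have h4 : m ≤ 2 * e₀ * (univ.filter fun i => ∀ j, c i j ∉ Y).card := by
      have h5 : (HG_E c q).card ≤ e₀ * (univ.filter fun i => ∀ j, c i j ∉ Y).card :=
        hY.trans (Nat.mul_le_mul_left _ (h2.trans h3))
      rw [mul_assoc]
      omega
    have h5 := c5 Y h4
    have h6 := sum_card_inter_le (s := Y) (B := HG_E c q) (n := 16 * q) fun v _ => HG_deg c v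
    have h7 : ((HG_E c q).filter fun C => 10 ^ 4 * e₀ ^ 2 < (C ∩ Y).card).card *
        (10 ^ 4 * e₀ ^ 2) ≤ ∑ C ∈ HG_E c q, (Y ∩ C).card := by
      have h8 := card_nsmul_le_sum ((HG_E c q).filter fun C => 10 ^ 4 * e₀ ^ 2 < (C ∩ Y).card)
        (fun C => (Y ∩ C).card) (10 ^ 4 * e₀ ^ 2) (fun C hC => by
          rw [inter_comm]
          exact (mem_filter.1 hC).2.le)
      rw [smul_eq_mul] at h8
      exact h8.trans (sum_le_sum_of_subset (filter_subset _ _))
    set T := ((HG_E c q).filter fun C => 10 ^ 4 * e₀ ^ 2 < (C ∩ Y).card).card with hT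
    set N := (HG_E c q).card with hN
    have h8 : T * (10 ^ 4 * e₀ ^ 2) ≤ Y.card * (16 * q) := h7.trans h6
    have h9 : 128 * q ^ 2 * (T * (10 ^ 4 * e₀ ^ 2)) ≤ 128 * q ^ 2 * (256 * e₀ * N) := by
      calc 128 * q ^ 2 * (T * (10 ^ 4 * e₀ ^ 2)) ≤ 128 * q ^ 2 * (Y.card * (16 * q)) :=
            Nat.mul_le_mul_left _ h8
        _ = 128 * q ^ 2 * Y.card * (16 * q) := by ring
        _ ≤ 4 * e₀ * n * (16 * q) := Nat.mul_le_mul_right _ h5
        _ ≤ 4 * e₀ * (512 * q * N) * (16 * q) :=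
            Nat.mul_le_mul_right _ (Nat.mul_le_mul_left _ hmany)
        _ = 128 * q ^ 2 * (256 * e₀ * N) := by ring
    have h10 := Nat.le_of_mul_le_mul_left h9 (by omega)
    have h11 : 256 * e₀ * (16 * e₀ * T) ≤ 256 * e₀ * N := by
      refine le_trans ?_ h10
      calc 256 * e₀ * (16 * e₀ * T) = T * (4096 * e₀ ^ 2) := by ring
        _ ≤ T * (10 ^ 4 * e₀ ^ 2) :=
            Nat.mul_le_mul_left _ (Nat.mul_le_mul_right _ (by norm_num))
    exact Nat.le_of_mul_le_mul_left h11 (by omega)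
  · refine hclo _ hsize ?_
    intro I hI hIn
    have h1 : ∃ I' : Finset (Fin m), I' ⊆ HG_G c q ∧ I'.image (HG_f c) = I :=
      subset_image_iff.1 hI
    obtain ⟨I', hI', rfl⟩ := h1
    have h2 : (I'.image (HG_f c)).card = I'.card :=
      card_image_of_injOn fun i hi i' hi' h => HG_inj c hk (hI' hi) (hI' hi') h
    rw [h2] at hIn ⊢
    refine (c6 I' hIn).trans (le_of_eq ?_)
    rw [image_biUnion]
    rfl

theorem thm_HG (r1 : St_R1) (r2 : St_R2) (r3 : St_R3) (r4 : St_R4) (r5 : St_R5) (r6 : St_R6)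
    (hclo : St_Clo) : St_HG := by
  intro e₀ he₀
  refine ⟨10 ^ 4 * e₀ ^ 2, fun L M Z => ?_⟩
  obtain ⟨q4, hq4⟩ := r4 e₀ L M he₀
  obtain ⟨q5, hq5⟩ := r5 e₀ he₀
  obtain ⟨q6, hq6⟩ := r6
  obtain ⟨q, hq⟩ : ∃ q, q = q4 + q5 + q6 + L + 2048 * Z + 16 := ⟨_, rfl⟩
  obtain ⟨n1, h1⟩ := r1 (128 * q ^ 2) q (by omega)
  obtain ⟨n2, h2⟩ := r2 (128 * q ^ 2) q (by omega)
  obtain ⟨n4, h4⟩ := hq4 q (by omega)
  obtain ⟨n5, h5⟩ := hq5 q (by omega)
  obtain ⟨N₃, n6, h6⟩ := hq6 q (by omega)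
  have hk1 : 1 ≤ 128 * q ^ 2 := by
    have : 1 ≤ q ^ 2 := Nat.one_le_pow _ _ (by omega)
    omega
  have hqq : q ≤ q ^ 2 := by nlinarith
  obtain ⟨N₂, hN₂⟩ := hclo (128 * q ^ 2) N₃ hk1
  refine ⟨128 * q ^ 2, 16 * q, q, 512 * q, N₂, n1 + n2 + n4 + n5 + n6 + 256 * q, by omega,
    le_of_eq (by ring), ?_, by omega, by omega, ?_⟩
  · have e1 : Z * (128 * q ^ 2 * (16 * q)) = 2048 * Z * q ^ 3 := by ring
    rw [e1]
    refine le_trans ?_ (HG_pow (by omega : 16 ≤ q))
    have e2 : q ^ 4 = q * q ^ 3 := by ring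
    rw [e2]
    exact Nat.mul_le_mul_right _ (by omega)
  · intro n hn
    obtain ⟨c, hc⟩ := HG_pick (m := n / (128 * q)) (k := 128 * q ^ 2) (n := n) (by omega)
      ![_, _, _, _, _, _] (fun j => by
        fin_cases j
        · exact h1 n (by omega)
        · exact h2 n (by omega)
        · exact r3 q n (by omega)
        · exact h4 n (by omega)
        · exact h5 n (by omega)
        · exact h6 n (by omega))
    have c1 := hc 0
    have c2 := hc 1
    have c3 := hc 2
    have c4 := hc 3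
    have c5 := hc 4
    have c6 := hc 5
    refine ⟨HG_E c q, HG_main (by omega) he₀ ?_ c c1 c2 c3 c4 c5 c6 (hN₂ n)⟩
    have e1 := Nat.div_add_mod n (128 * q)
    have e2 := Nat.mod_lt n (by omega : 0 < 128 * q)
    have e3 : 256 * q * (n / (128 * q)) = 2 * (128 * q * (n / (128 * q))) := by ring
    omega

end Pool.Agent.SEL
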