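import Pool.Agent.SEL.St
import Pool.Agent.VD.ADst

/-!
# SEL: deterministic circuits with few nested negations and deterministic trees are stable on each
set of points (module Ins)
-/

set_option autoImplicit false

namespace Pool.Agent.SEL

open Finset Pool.Agent.VD Pool.Agent.VD.Arith
open scoped Classical

private theorem Ins_pat {n : ℕ} {ε : ℝ} {W s : ℕ} {P : Arith n ε W s} (hε : ε ≤ 1 / 3)
    (h : P.IsDD) (r : Fin s) (K : ℝ) (Q : Finset (Cube n))
    (hK : ∀ j, P.Large j → ∀ x, ((P.toC h).patterns Finset.univ x r j : ℝ) ≤ K) :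
    StableOn P Q r K := by
  intro p hp
  rcases Nat.eq_zero_or_pos n with hn | hn
  · exfalso
    subst hn
    have h1 := hp.1.1
    have h2 : (P.S p.1).card ≤ 0 := by
      have := Finset.card_le_univ (P.S p.1)
      rwa [Fintype.card_fin] at this
    have h3 : ((P.S p.1).card : ℝ) ≤ 0 := by exact_mod_cast h2
    simp only [Nat.cast_zero, mul_zero] at h1
    linarith
  choose u hu using fun x => P.exists_reset x p
  refine ⟨u, hu, ?_⟩
  have h5 : ∀ x, (P.f r x - u x r) ^ 2 ≤ K ^ 2 := by
    intro x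
    rw [(hu x).eff hε hn hp r]
    have h6 : |P.D x r p.1 * P.lost x p| ≤ K := by
      rw [abs_mul]
      calc |P.D x r p.1| * |P.lost x p| ≤ |P.D x r p.1| * 1 :=
            mul_le_mul_of_nonneg_left (abs_lost h x hp) (abs_nonneg _)
        _ = |P.D x r p.1| := mul_one _
        _ ≤ K := (abs_D_le_patterns hε hn h x r p.1 hp.1).trans (hK p.1 hp.1 x)
    rw [← sq_abs]
    exact pow_le_pow_left₀ (abs_nonneg _) h6 2
  refine (Finset.sum_le_card_nsmul Q _ _ fun x _ => h5 x).trans (le_of_eq ?_)
  rw [nsmul_eq_mul, mul_comm]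

theorem thm_Ins : St_Ins := by
  intro n ε W s P g Q _ hε h
  refine ⟨fun t hN => Ins_pat hε h g _ Q fun j hj x => ?_,
    fun hT => Ins_pat hε h g _ Q fun j hj x => ?_⟩
  · exact_mod_cast patterns_nested h g t hN x j hj
  · exact_mod_cast patterns_tree h g hT x j hj

end Pool.Agent.SEL
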