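import Pool.Agent.SEL.St

/-!
# [LowA] the correlation of the test function and the partial count with pinned variables
-/

set_option autoImplicit false

namespace Pool.Agent.SEL

open Finset Pool.Agent.VD

private theorem lowA_pw {n : ℕ} (S : Finset (Fin n)) (x y : Cube n) :
    S.piecewise (S.piecewise x y) (S.piecewise y x) = x := by
  funext v
  by_cases h : v ∈ S
  · rw [piecewise_eq_of_mem _ _ _ h, piecewise_eq_of_mem _ _ _ h]
  · rw [piecewise_eq_of_notMem _ _ _ h, piecewise_eq_of_notMem _ _ _ h]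

private theorem lowA_card (n : ℕ) : (0 : ℝ) < Fintype.card (Cube n) := by
  exact_mod_cast Fintype.card_pos

/-- resampling the coordinates in `S` -/
private theorem lowA_mix {n : ℕ} (S : Finset (Fin n)) (f : Cube n → ℝ) :
    av f = av fun η => av fun x => f (S.piecewise η x) := by
  have hc := lowA_card n
  have h1 : ∑ η : Cube n, ∑ x : Cube n, f (S.piecewise η x) =
      Fintype.card (Cube n) * ∑ x, f x := by
    rw [← Fintype.sum_prod_type' (f := fun (η x : Cube n) => f (S.piecewise η x))]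
    have h2 : ∑ p : Cube n × Cube n, f (S.piecewise p.1 p.2) = ∑ p : Cube n × Cube n, f p.1 := by
      refine sum_bij' (fun p _ => (S.piecewise p.1 p.2, S.piecewise p.2 p.1))
        (fun p _ => (S.piecewise p.1 p.2, S.piecewise p.2 p.1)) (fun _ _ => mem_univ _)
        (fun _ _ => mem_univ _) ?_ ?_ ?_
      · rintro ⟨a, b⟩ _
        simp only [lowA_pw]
      · rintro ⟨a, b⟩ _
        simp only [lowA_pw]
      · rintro ⟨a, b⟩ _
        rfl
    rw [h2, Fintype.sum_prod_type_right]
    show ∑ y : Cube n, ∑ x : Cube n, f x = _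
    rw [sum_const, card_univ, nsmul_eq_mul]
  unfold av
  rw [← sum_div, h1]
  field_simp

/-- the points which are true on `T` -/
private theorem lowA_true {n : ℕ} (T : Finset (Fin n)) (h : Cube n → ℝ) (m : ℝ) (hm : 0 ≤ m)
    (h0 : ∀ η, 0 ≤ h η) (h1 : ∀ η, (∀ v ∈ T, η v = true) → m ≤ h η) :
    (1 / 2 : ℝ) ^ T.card * m ≤ av h := by
  classical
  have hc := lowA_card n
  set P : Finset (Cube n) := univ.filter fun η : Cube n => ∀ v ∈ T, η v = true with hP
  have e1 : Fintype.card (Cube n) ≤ P.card * 2 ^ T.card := by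
    have e2 : Fintype.piFinset (fun v : Fin n => if v ∈ T then ({true} : Finset Bool) else univ) ⊆
        P := by
      intro η hη
      rw [Fintype.mem_piFinset] at hη
      rw [hP, mem_filter]
      refine ⟨mem_univ _, fun v hv => ?_⟩
      have := hη v
      rw [if_pos hv, mem_singleton] at this
      exact this
    have e3 : (2 : ℕ) ^ T.card = ∏ v : Fin n, if v ∈ T then 2 else 1 := by
      rw [prod_ite_mem, univ_inter, prod_const]
    have e4 : Fintype.card (Cube n) = ∏ v : Fin n, 2 := by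
      rw [Fintype.card_fun, Fintype.card_bool, prod_const, card_univ]
    refine le_trans ?_ (Nat.mul_le_mul_right _ (card_le_card e2))
    rw [Fintype.card_piFinset, e3, ← prod_mul_distrib, e4]
    refine prod_le_prod' fun v _ => ?_
    split_ifs <;> simp
  have e5 : (P.card : ℝ) * m ≤ ∑ η, h η := by
    calc (P.card : ℝ) * m = ∑ η ∈ P, m := by rw [sum_const, nsmul_eq_mul]
      _ ≤ ∑ η ∈ P, h η := sum_le_sum fun η hη => h1 η (by rw [hP, mem_filter] at hη; exact hη.2)
      _ ≤ ∑ η, h η := sum_le_univ_sum_of_nonneg h0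
  have e6 : (Fintype.card (Cube n) : ℝ) ≤ P.card * 2 ^ T.card := by exact_mod_cast e1
  unfold av
  rw [le_div_iff₀ hc, one_div, inv_pow]
  calc ((2 : ℝ) ^ T.card)⁻¹ * m * Fintype.card (Cube n)
      ≤ ((2 : ℝ) ^ T.card)⁻¹ * m * (P.card * 2 ^ T.card) :=
        mul_le_mul_of_nonneg_left e6 (by positivity)
    _ = P.card * m := by field_simp
    _ ≤ _ := e5

private theorem lowA_ind {n : ℕ} (A : Finset (Finset (Fin n))) (p : Cube n) :
    ind A p = ∏ C ∈ A, (1 - if ∀ v ∈ C, p v = false then (1 : ℝ) else 0) := by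
  unfold ind
  split_ifs with h
  · rw [prod_eq_one]
    intro C hC
    rw [if_neg, sub_zero]
    intro h2
    obtain ⟨v, hv, hv'⟩ := h C hC
    rw [h2 v hv] at hv'
    exact absurd hv' (by decide)
  · push Not at h
    obtain ⟨C, hC, h2⟩ := h
    rw [prod_eq_zero hC]
    rw [if_pos, sub_self]
    intro v hv
    have := h2 v hv
    simpa using this

/-- the functions -/
private noncomputable def lowPsi {n : ℕ} (A1 : Finset (Finset (Fin n))) (Y U : Finset (Fin n))
    (r : Cube n) (C : Finset (Fin n)) (x : Cube n) : ℝ :=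
  (if C ∈ A1 then (1 - if ∀ v ∈ C \ Y, x v = false then (2 : ℝ) else 0) else 1) *
    (1 - if (∀ v ∈ C \ U, x v = false) ∧ ∀ v ∈ C ∩ U, r v = false then (1 : ℝ) else 0) - 1

private theorem lowA_fam {n k d : ℕ} (A A1 : Finset (Finset (Fin n))) (Y U : Finset (Fin n))
    (hA1 : ∀ C ∈ A1, Disjoint C U)
    (hk : ∀ C ∈ A, C.card = k) (hd : ∀ v, (A.filter fun C => v ∈ C).card ≤ d) (r : Cube n) :
    Fam (A.filter fun C => ¬ C ⊆ U) (fun C => C \ U) (fun C => if C ∈ A1 then C \ Y else C \ U)
      k d 1 (fun _ _ => {false}) (lowPsi A1 Y U r) := by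
  have hCU : ∀ C ∈ A1, C \ U = C := fun C hC => sdiff_eq_self_of_disjoint (hA1 C hC)
  refine ⟨?_, ?_, ?_, ?_, ?_, ?_, ?_⟩
  · intro C _
    by_cases h : C ∈ A1
    · show (if C ∈ A1 then C \ Y else C \ U) ⊆ C \ U
      rw [if_pos h, hCU C h]
      exact sdiff_subset
    · show (if C ∈ A1 then C \ Y else C \ U) ⊆ C \ U
      rw [if_neg h]
  · intro C hC
    rw [mem_filter] at hC
    rw [← hk C hC.1]
    exact card_le_card sdiff_subset
  · intro v
    refine le_trans (card_le_card ?_) (hd v)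
    intro C hC
    rw [mem_filter, mem_filter] at hC
    rw [mem_filter]
    exact ⟨hC.1.1, (mem_sdiff.1 hC.2).1⟩
  · intro τ v
    simp
  · intro C _ x y hxy
    unfold lowPsi
    have h1 : (∀ v ∈ C \ U, x v = false) ↔ ∀ v ∈ C \ U, y v = false :=
      forall₂_congr fun v hv => by rw [hxy v hv]
    by_cases h : C ∈ A1
    · have h2 : (∀ v ∈ C \ Y, x v = false) ↔ ∀ v ∈ C \ Y, y v = false :=
        forall₂_congr fun v hv => by
          rw [hxy v (by rw [hCU C h]; exact (mem_sdiff.1 hv).1)]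
      simp only [h1, h2]
    · simp only [h1, if_neg h]
  · intro C _ x
    unfold lowPsi
    rw [abs_le]
    split_ifs <;> norm_num
  · intro C _ x hx
    refine ⟨0, ?_⟩
    show ∀ v ∈ (if C ∈ A1 then C \ Y else C \ U), x v ∈ ({false} : Finset Bool)
    by_contra hcon
    push Not at hcon
    obtain ⟨v, hv, hv'⟩ := hcon
    rw [mem_singleton] at hv'
    apply hx
    unfold lowPsi
    by_cases h : C ∈ A1
    · rw [if_pos h] at hv
      rw [if_pos h, if_neg, if_neg]
      · norm_num
      · rintro ⟨h2, -⟩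
        exact hv' (h2 v (by rw [hCU C h]; exact (mem_sdiff.1 hv).1))
      · intro h2
        exact hv' (h2 v hv)
    · rw [if_neg h] at hv
      rw [if_neg h, if_neg]
      · norm_num
      · rintro ⟨h2, -⟩
        exact hv' (h2 v hv)

theorem thm_LowA (hGT : St_GT) : St_LowA := by
  classical
  intro n k d κ y A Y U ζ z hz hkd hz9 hκ hy hk hd hU hζ
  set A1 := A.filter fun C => Disjoint C U ∧ (C ∩ Y).card ≤ y with hA1
  set A2 := A.filter fun C => Disjoint C U with hA2
  set G := A.filter fun C => ¬ C ⊆ U with hG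
  have hkpos : 1 ≤ k := by
    rcases Nat.eq_zero_or_pos k with h0 | h0
    · rw [h0, Nat.zero_mul] at hkd
      omega
    · exact h0
  have hdis : ∀ C ∈ A1, Disjoint C U := fun C hC => by
    rw [hA1, mem_filter] at hC
    exact hC.2.1
  have hA2G : A2 ⊆ G := by
    intro C hC
    rw [hA2, mem_filter] at hC
    rw [hG, mem_filter]
    refine ⟨hC.1, fun h => ?_⟩
    have h1 : C = ∅ := by
      have := hC.2.mono_right h
      rwa [disjoint_self, bot_eq_empty] at this
    have h2 := hk C hC.1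
    rw [h1, card_empty] at h2
    omega
  have hA12 : A1 ⊆ A2 := by
    intro C hC
    rw [hA1, mem_filter] at hC
    rw [hA2, mem_filter]
    exact ⟨hC.1, hC.2.1⟩
  have hkd' : (1 : ℝ) ≤ (k : ℝ) * d := by exact_mod_cast hkd
  -- the local lemma
  have hz' : (2 * ((1 : ℕ) : ℝ) / 2 ^ κ) ≤ z := by
    rw [hz]
    refine div_le_div_of_nonneg_right ?_ (by positivity)
    norm_num
  have hz0 : (0 : ℝ) ≤ 2 * ((1 : ℕ) : ℝ) / 2 ^ κ := by positivity
  set z' : ℝ := 2 * ((1 : ℕ) : ℝ) / 2 ^ κ with hz'd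
  have hz9' : 9 * ((k : ℝ) * d) * z' ≤ 1 := by
    refine le_trans ?_ hz9
    exact mul_le_mul_of_nonneg_left hz' (by positivity)
  have hz1 : z' ≤ 1 / 9 := by nlinarith
  have hGT' : ∀ r : Cube n, ∀ J, J ⊆ G → 0 < Xi (lowPsi A1 Y U r) ∅ J ∧ ∀ J', J' ⊆ J →
      (1 - 3 * z') ^ (J \ J').card * Xi (lowPsi A1 Y U r) ∅ J' ≤ Xi (lowPsi A1 Y U r) ∅ J := by
    intro r
    refine (hGT (Fin n) Bool (Finset (Fin n)) G _ _ k d 1 κ _ _ z'
      (lowA_fam A A1 Y U hdis hk hd r) hz'd hkd hz9' ?_).1
    intro C hC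
    rw [hG, mem_filter] at hC
    have h1 := hk C hC.1
    show d * κ ≤ (if C ∈ A1 then C \ Y else C \ U).card
    by_cases h : C ∈ A1
    · rw [if_pos h]
      rw [hA1, mem_filter] at h
      have h2 : (C \ Y).card + (C ∩ Y).card = C.card := card_sdiff_add_card_inter _ _
      have h3 := h.2.2
      omega
    · rw [if_neg h]
      have h2 : (C \ U).card + (C ∩ U).card = C.card := card_sdiff_add_card_inter _ _
      rcases hU C hC.1 with h3 | h3
      · exact absurd h3 hC.2
      · omega
  -- the formula for fixed values of the coordinates in `U ∩ Y`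
  have hform : ∀ η x : Cube n,
      wt A1 Y ((U ∩ Y).piecewise η x) * ind A ((U \ Y).piecewise ζ ((U ∩ Y).piecewise η x)) =
      (∏ C ∈ A.filter fun C => C ⊆ U,
        (1 - if ∀ v ∈ C, (U \ Y).piecewise ζ η v = false then (1 : ℝ) else 0)) *
      ((∏ C ∈ (∅ : Finset (Finset (Fin n))), lowPsi A1 Y U ((U \ Y).piecewise ζ η) C x) *
        ∏ C ∈ G, (1 + lowPsi A1 Y U ((U \ Y).piecewise ζ η) C x)) := by
    intro η x
    have hqU : ∀ v ∈ U, (U \ Y).piecewise ζ ((U ∩ Y).piecewise η x) v =
        (U \ Y).piecewise ζ η v := by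
      intro v hv
      by_cases h : v ∈ U \ Y
      · rw [piecewise_eq_of_mem _ _ _ h, piecewise_eq_of_mem _ _ _ h]
      · have hvY : v ∈ Y := by
          by_contra h2
          exact h (mem_sdiff.2 ⟨hv, h2⟩)
        rw [piecewise_eq_of_notMem _ _ _ h, piecewise_eq_of_notMem _ _ _ h,
          piecewise_eq_of_mem _ _ _ (mem_inter.2 ⟨hv, hvY⟩)]
    have hqx : ∀ v, v ∉ U → (U \ Y).piecewise ζ ((U ∩ Y).piecewise η x) v = x v := by
      intro v hv
      rw [piecewise_eq_of_notMem _ _ _ fun h => hv (mem_sdiff.1 h).1,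
        piecewise_eq_of_notMem _ _ _ fun h => hv (mem_inter.1 h).1]
    have hw : wt A1 Y ((U ∩ Y).piecewise η x) =
        ∏ C ∈ G, if C ∈ A1 then (1 - if ∀ v ∈ C \ Y, x v = false then (2 : ℝ) else 0) else 1 := by
      rw [prod_ite_mem, inter_eq_right.2 (hA12.trans hA2G)]
      unfold wt
      refine prod_congr rfl fun C hC => ?_
      have h2 : (∀ v ∈ C \ Y, (U ∩ Y).piecewise η x v = false) ↔ ∀ v ∈ C \ Y, x v = false :=
        forall₂_congr fun v hv => by
          rw [piecewise_eq_of_notMem _ _ _ fun h =>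
            Finset.disjoint_left.1 (hdis C hC) (mem_sdiff.1 hv).1 (mem_inter.1 h).1]
      simp only [h2]
    have hi : ind A ((U \ Y).piecewise ζ ((U ∩ Y).piecewise η x)) =
        (∏ C ∈ A.filter fun C => C ⊆ U,
          (1 - if ∀ v ∈ C, (U \ Y).piecewise ζ η v = false then (1 : ℝ) else 0)) *
        ∏ C ∈ G, (1 - if (∀ v ∈ C \ U, x v = false) ∧
          ∀ v ∈ C ∩ U, (U \ Y).piecewise ζ η v = false then (1 : ℝ) else 0) := by
      rw [lowA_ind, ← prod_filter_mul_prod_filter_not A (fun C => C ⊆ U)]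
      congr 1
      · refine prod_congr rfl fun C hC => ?_
        rw [mem_filter] at hC
        have h2 : (∀ v ∈ C, (U \ Y).piecewise ζ ((U ∩ Y).piecewise η x) v = false) ↔
            ∀ v ∈ C, (U \ Y).piecewise ζ η v = false :=
          forall₂_congr fun v hv => by rw [hqU v (hC.2 hv)]
        simp only [h2]
      · refine prod_congr rfl fun C _ => ?_
        have h2 : (∀ v ∈ C, (U \ Y).piecewise ζ ((U ∩ Y).piecewise η x) v = false) ↔
            ((∀ v ∈ C \ U, x v = false) ∧
              ∀ v ∈ C ∩ U, (U \ Y).piecewise ζ η v = false) := by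
          constructor
          · intro h
            refine ⟨fun v hv => ?_, fun v hv => ?_⟩
            · rw [← hqx v (mem_sdiff.1 hv).2]
              exact h v (mem_sdiff.1 hv).1
            · rw [← hqU v (mem_inter.1 hv).2]
              exact h v (mem_inter.1 hv).1
          · rintro ⟨h3, h4⟩ v hv
            by_cases h5 : v ∈ U
            · rw [hqU v h5]
              exact h4 v (mem_inter.2 ⟨hv, h5⟩)
            · rw [hqx v h5]
              exact h3 v (mem_sdiff.2 ⟨hv, h5⟩)
        simp only [h2]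
    have hg : ∏ C ∈ G, (1 + lowPsi A1 Y U ((U \ Y).piecewise ζ η) C x) =
        (∏ C ∈ G, if C ∈ A1 then (1 - if ∀ v ∈ C \ Y, x v = false then (2 : ℝ) else 0) else 1) *
        ∏ C ∈ G, (1 - if (∀ v ∈ C \ U, x v = false) ∧
          ∀ v ∈ C ∩ U, (U \ Y).piecewise ζ η v = false then (1 : ℝ) else 0) := by
      rw [← prod_mul_distrib]
      refine prod_congr rfl fun C _ => ?_
      unfold lowPsi
      ring
    rw [hw, hi, hg, prod_empty]
    ring
  have hav : ∀ η : Cube n,
      (av fun x => wt A1 Y ((U ∩ Y).piecewise η x) *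
        ind A ((U \ Y).piecewise ζ ((U ∩ Y).piecewise η x))) =
      (∏ C ∈ A.filter fun C => C ⊆ U,
        (1 - if ∀ v ∈ C, (U \ Y).piecewise ζ η v = false then (1 : ℝ) else 0)) *
      Xi (lowPsi A1 Y U ((U \ Y).piecewise ζ η)) ∅ G := by
    intro η
    simp only [hform η]
    unfold Xi av
    rw [← mul_sum, mul_div_assoc]
  -- the main comparison
  have hmain : Xi (lowPsi A1 Y U (fun _ => true)) ∅ A2 =
      av fun x : Cube n => wt A1 Y x * ind A2 x := by
    unfold Xi
    congr 1
    funext x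
    rw [prod_empty, one_mul, lowA_ind]
    have h1 : wt A1 Y x = ∏ C ∈ A2,
        if C ∈ A1 then (1 - if ∀ v ∈ C \ Y, x v = false then (2 : ℝ) else 0) else 1 := by
      rw [prod_ite_mem, inter_eq_right.2 hA12]
      rfl
    rw [h1, ← prod_mul_distrib]
    refine prod_congr rfl fun C hC => ?_
    rw [hA2, mem_filter] at hC
    have h2 : C \ U = C := sdiff_eq_self_of_disjoint hC.2
    have h3 : C ∩ U = ∅ := disjoint_iff_inter_eq_empty.1 hC.2
    unfold lowPsi
    rw [h2, h3]
    have h4 : ((∀ v ∈ C, x v = false) ∧ ∀ v ∈ (∅ : Finset (Fin n)), true = false) ↔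
        ∀ v ∈ C, x v = false :=
      ⟨fun h => h.1, fun h => ⟨h, fun v hv => absurd hv (notMem_empty v)⟩⟩
    simp only [h4]
    ring
  have hA2r : ∀ r : Cube n, Xi (lowPsi A1 Y U r) ∅ A2 = Xi (lowPsi A1 Y U (fun _ => true)) ∅ A2 := by
    intro r
    unfold Xi
    congr 1
    funext x
    congr 1
    refine prod_congr rfl fun C hC => ?_
    rw [hA2, mem_filter] at hC
    have h3 : C ∩ U = ∅ := disjoint_iff_inter_eq_empty.1 hC.2
    unfold lowPsi
    rw [h3]
    simp
  have hpos : 0 < av fun x : Cube n => wt A1 Y x * ind A2 x := by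
    rw [← hmain]
    exact (hGT' _ A2 hA2G).1
  have hrem : (G \ A2).card ≤ d * U.card := by
    have h1 : G \ A2 ⊆ U.biUnion fun v => A.filter fun C => v ∈ C := by
      intro C hC
      rw [mem_sdiff, hG, hA2, mem_filter, mem_filter] at hC
      obtain ⟨⟨h2, -⟩, h3⟩ := hC
      have h4 : ¬ Disjoint C U := fun h5 => h3 ⟨h2, h5⟩
      rw [Finset.not_disjoint_iff] at h4
      obtain ⟨v, hv1, hv2⟩ := h4
      exact mem_biUnion.2 ⟨v, hv2, mem_filter.2 ⟨h2, hv1⟩⟩
    refine (card_le_card h1).trans (card_biUnion_le.trans ?_)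
    refine (sum_le_card_nsmul _ _ d fun v _ => hd v).trans ?_
    rw [smul_eq_mul, mul_comm]
  -- conclusion
  rw [lowA_mix (U ∩ Y) (fun x : Cube n => wt A1 Y x * ind A ((U \ Y).piecewise ζ x))]
  have hm : 0 ≤ (1 / 2 : ℝ) ^ (d * U.card) * av fun x : Cube n => wt A1 Y x * ind A2 x := by
    positivity
  have hfin := lowA_true (U ∩ Y) (fun η => av fun x => wt A1 Y ((U ∩ Y).piecewise η x) *
        ind A ((U \ Y).piecewise ζ ((U ∩ Y).piecewise η x)))
      ((1 / 2 : ℝ) ^ (d * U.card) * av fun x : Cube n => wt A1 Y x * ind A2 x) hm ?_ ?_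
  · refine le_trans ?_ hfin
    rw [← mul_assoc, ← pow_add]
    refine mul_le_mul_of_nonneg_right ?_ hpos.le
    refine pow_le_pow_of_le_one (by norm_num) (by norm_num) ?_
    have h1 : (U ∩ Y).card ≤ U.card := card_le_card inter_subset_left
    rw [Nat.add_mul, Nat.one_mul]
    omega
  · intro η
    rw [hav η]
    refine mul_nonneg (prod_nonneg fun C _ => ?_) (hGT' _ G (Subset.refl _)).1.le
    split_ifs <;> norm_num
  · intro η hη
    rw [hav η, prod_eq_one, one_mul]
    · have h1 := (hGT' ((U \ Y).piecewise ζ η) G (Subset.refl _)).2 A2 hA2G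
      rw [hA2r, hmain] at h1
      refine le_trans (mul_le_mul_of_nonneg_right ?_ hpos.le) h1
      calc (1 / 2 : ℝ) ^ (d * U.card) ≤ (1 / 2) ^ (G \ A2).card :=
            pow_le_pow_of_le_one (by norm_num) (by norm_num) hrem
        _ ≤ (1 - 3 * z') ^ (G \ A2).card :=
            pow_le_pow_left₀ (by norm_num) (by linarith) _
    · intro C hC
      rw [mem_filter] at hC
      rw [if_neg, sub_zero]
      intro h2
      obtain ⟨v, hv, hv'⟩ := hζ C hC.1
      have h3 := h2 v hv
      have hvU := hC.2 hv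
      by_cases hvY : v ∈ Y
      · rw [piecewise_eq_of_notMem _ _ _ fun h => (mem_sdiff.1 h).2 hvY,
          hη v (mem_inter.2 ⟨hvU, hvY⟩)] at h3
        exact absurd h3 (by decide)
      · rw [piecewise_eq_of_mem _ _ _ (mem_sdiff.2 ⟨hvU, hvY⟩)] at h3
        rcases hv' with h4 | h4 | h4
        · exact hvY h4
        · exact h4 hvU
        · rw [h4] at h3
          exact absurd h3 (by decide)

end Pool.Agent.SEL
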