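import Pool.Agent.SEL.St

/-!
# SEL: lower bounds for the correlation of the test function and the count
-/

set_option autoImplicit false

namespace Pool.Agent.SEL

open Finset Pool.Agent.VD

private theorem LowB_av_add {Ω : Type} [Fintype Ω] (f g : Ω → ℝ) :
    av (fun x => f x + g x) = av f + av g := by
  unfold av; rw [Finset.sum_add_distrib, add_div]

private theorem LowB_av_mul {Ω : Type} [Fintype Ω] (c : ℝ) (f : Ω → ℝ) :
    av (fun x => c * f x) = c * av f := by
  unfold av; rw [← Finset.mul_sum, mul_div_assoc]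

private theorem LowB_av_mono {Ω : Type} [Fintype Ω] (f g : Ω → ℝ) (h : ∀ x, f x ≤ g x) :
    av f ≤ av g := by
  unfold av
  exact div_le_div_of_nonneg_right (Finset.sum_le_sum fun x _ => h x) (by positivity)

/-- all variables in `D` are false -/
private noncomputable def LowB_c {n : ℕ} (D : Finset (Fin n)) (x : Cube n) : ℝ :=
  if ∀ v ∈ D, x v = false then 1 else 0

private theorem LowB_c_01 {n : ℕ} (D : Finset (Fin n)) (x : Cube n) :
    LowB_c D x = 0 ∨ LowB_c D x = 1 := by
  unfold LowB_c; split_ifs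
  · right; rfl
  · left; rfl

private theorem LowB_c_sub {n : ℕ} (D D' : Finset (Fin n)) (h : D ⊆ D') (x : Cube n)
    (h0 : LowB_c D x = 0) : LowB_c D' x = 0 := by
  unfold LowB_c at h0 ⊢
  rw [if_neg]
  intro h1
  rw [if_pos fun v hv => h1 v (h hv)] at h0
  exact one_ne_zero h0

private theorem LowB_c_ne {n : ℕ} (D : Finset (Fin n)) (x : Cube n) (h : LowB_c D x ≠ 0) :
    ∀ v ∈ D, x v = false := by
  unfold LowB_c at h
  by_contra hc
  rw [if_neg hc] at h
  exact h rfl

private theorem LowB_c_congr {n : ℕ} (D : Finset (Fin n)) (x y : Cube n)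
    (h : ∀ v ∈ D, x v = y v) : LowB_c D x = LowB_c D y := by
  unfold LowB_c
  refine if_congr ?_ rfl rfl
  exact forall₂_congr fun v hv => by rw [h v hv]

/-- the average of the indicator function -/
private theorem LowB_pi {n : ℕ} (D : Finset (Fin n)) :
    av (LowB_c D) = 1 / 2 ^ D.card := by
  have h0 : LowB_c D = fun x : Cube n => if x ∈ Fintype.piFinset
      (fun v => if v ∈ D then ({false} : Finset Bool) else univ) then (1 : ℝ) else 0 := by
    funext x
    unfold LowB_c
    refine if_congr ?_ rfl rfl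
    rw [Fintype.mem_piFinset]
    constructor
    · intro h v
      by_cases hv : v ∈ D
      · rw [if_pos hv, Finset.mem_singleton]; exact h v hv
      · rw [if_neg hv]; exact Finset.mem_univ _
    · intro h v hv
      have := h v
      rwa [if_pos hv, Finset.mem_singleton] at this
  rw [h0]
  unfold av
  rw [Finset.sum_boole, Finset.filter_univ_mem, Fintype.card_piFinset, Fintype.card_fun,
    Nat.cast_prod, Nat.cast_pow, ← Finset.card_univ (α := Fin n),
    ← Finset.prod_const, ← Finset.prod_div_distrib, ← Finset.prod_subset (Finset.subset_univ D),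
    ← one_div_pow, ← Finset.prod_const]
  · refine Finset.prod_congr rfl fun v hv => ?_
    rw [if_pos hv, Finset.card_singleton, Fintype.card_bool]; norm_num
  · intro v _ hv
    rw [if_neg hv, Finset.card_univ, Fintype.card_bool]; norm_num

/-- the functions of the family -/
private noncomputable def LowB_psi {n : ℕ} (y : ℕ) (Y : Finset (Fin n)) (C : Finset (Fin n))
    (x : Cube n) : ℝ :=
  if (C ∩ Y).card ≤ y then -2 * LowB_c (C \ Y) x + LowB_c C x else -1 * LowB_c C x

private def LowB_D {n : ℕ} (y : ℕ) (Y : Finset (Fin n)) (C : Finset (Fin n)) : Finset (Fin n) :=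
  if (C ∩ Y).card ≤ y then C \ Y else C

private theorem LowB_D_sub {n : ℕ} (y : ℕ) (Y : Finset (Fin n)) (C : Finset (Fin n)) :
    LowB_D y Y C ⊆ C := by
  unfold LowB_D; split_ifs
  · exact Finset.sdiff_subset
  · exact Finset.Subset.refl _

private theorem LowB_D_card {n : ℕ} (y : ℕ) (Y : Finset (Fin n)) (C : Finset (Fin n)) :
    C.card ≤ (LowB_D y Y C).card + y := by
  unfold LowB_D
  have := Finset.card_inter_add_card_sdiff C Y
  split_ifs with h <;> omega

private theorem LowB_Xi {n : ℕ} (y : ℕ) (Y : Finset (Fin n)) (C : Finset (Fin n)) :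
    Xi (LowB_psi y Y) {C} ∅ = av (LowB_psi y Y C) := by
  unfold Xi
  congr 1
  funext ω
  rw [Finset.prod_singleton, Finset.prod_empty, mul_one]

private theorem LowB_Xi_pos {n : ℕ} (y : ℕ) (Y : Finset (Fin n)) (C : Finset (Fin n))
    (h : (C ∩ Y).card ≤ y) :
    Xi (LowB_psi y Y) {C} ∅ = -2 * (1 / 2 ^ (C \ Y).card) + 1 / 2 ^ C.card := by
  rw [LowB_Xi, ← LowB_pi, ← LowB_pi, ← LowB_av_mul, ← LowB_av_add]
  congr 1
  funext x
  unfold LowB_psi
  rw [if_pos h]

private theorem LowB_Xi_neg {n : ℕ} (y : ℕ) (Y : Finset (Fin n)) (C : Finset (Fin n))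
    (h : ¬ (C ∩ Y).card ≤ y) :
    Xi (LowB_psi y Y) {C} ∅ = -1 * (1 / 2 ^ C.card) := by
  rw [LowB_Xi, ← LowB_pi, ← LowB_av_mul]
  congr 1
  funext x
  unfold LowB_psi
  rw [if_neg h]

private theorem LowB_fam {n k d : ℕ} (y : ℕ) (A : Finset (Finset (Fin n))) (Y : Finset (Fin n))
    (hcard : ∀ C ∈ A, C.card = k) (hdeg : ∀ v, (A.filter fun C => v ∈ C).card ≤ d) :
    Fam A (fun C => C) (LowB_D y Y) k d 4 (fun _ _ => ({false} : Finset Bool))
      (LowB_psi y Y) := by
  refine ⟨fun C _ => LowB_D_sub y Y C, fun C hC => le_of_eq (hcard C hC), hdeg,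
    fun τ v => by rw [Finset.card_singleton, Fintype.card_bool],
    fun C _ x x' h => ?_, fun C _ x => ?_, fun C _ x hx => ⟨0, ?_⟩⟩
  · unfold LowB_psi
    rw [LowB_c_congr (C \ Y) x x' fun v hv => h v (Finset.mem_sdiff.1 hv).1,
      LowB_c_congr C x x' h]
  · unfold LowB_psi
    rcases LowB_c_01 (C \ Y) x with h1 | h1
    · rw [h1, LowB_c_sub (C \ Y) C Finset.sdiff_subset x h1]
      split_ifs <;> norm_num
    · rcases LowB_c_01 C x with h2 | h2 <;> rw [h1, h2] <;> split_ifs <;> norm_num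
  · intro v hv
    rw [Finset.mem_singleton]
    unfold LowB_D at hv
    unfold LowB_psi at hx
    split_ifs at hv hx with h
    · refine LowB_c_ne (C \ Y) x (fun h0 => hx ?_) v hv
      rw [h0, LowB_c_sub (C \ Y) C Finset.sdiff_subset x h0]; norm_num
    · refine LowB_c_ne C x (fun h0 => hx ?_) v hv
      rw [h0]; norm_num

private theorem LowB_ind {n : ℕ} (A : Finset (Finset (Fin n))) (x : Cube n) :
    ind A x = ∏ C ∈ A, (1 - LowB_c C x) := by
  unfold ind
  split_ifs with h
  · refine (Finset.prod_eq_one fun C hC => ?_).symm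
    obtain ⟨v, hv, hv'⟩ := h C hC
    unfold LowB_c
    rw [if_neg, sub_zero]
    intro h'
    rw [h' v hv] at hv'
    exact Bool.noConfusion hv'
  · push Not at h
    obtain ⟨C, hC, hC'⟩ := h
    refine (Finset.prod_eq_zero hC ?_).symm
    unfold LowB_c
    rw [if_pos, sub_self]
    intro v hv
    have := hC' v hv
    simpa using this

private theorem LowB_prod {n : ℕ} (y : ℕ) (A : Finset (Finset (Fin n))) (Y : Finset (Fin n))
    (x : Cube n) :
    wt (A.filter fun C => (C ∩ Y).card ≤ y) Y x * ind A x = ∏ C ∈ A, (1 + LowB_psi y Y C x) := by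
  rw [LowB_ind]
  unfold wt
  rw [Finset.prod_filter, ← Finset.prod_mul_distrib]
  refine Finset.prod_congr rfl fun C _ => ?_
  have h0 : (if ∀ v ∈ C \ Y, x v = false then (2 : ℝ) else 0) = 2 * LowB_c (C \ Y) x := by
    unfold LowB_c
    rw [mul_ite, mul_one, mul_zero]
  rw [h0]
  unfold LowB_psi
  split_ifs with h
  · rcases LowB_c_01 (C \ Y) x with h1 | h1
    · rw [h1, LowB_c_sub (C \ Y) C Finset.sdiff_subset x h1]; norm_num
    · rcases LowB_c_01 C x with h2 | h2 <;> rw [h1, h2] <;> norm_num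
  · ring

private theorem LowB_av {n : ℕ} (y : ℕ) (A : Finset (Finset (Fin n))) (Y : Finset (Fin n)) :
    (av fun x : Cube n => wt (A.filter fun C => (C ∩ Y).card ≤ y) Y x * ind A x) =
      Xi (LowB_psi y Y) ∅ A := by
  unfold Xi
  congr 1
  funext x
  rw [LowB_prod, Finset.prod_empty, one_mul]

theorem thm_LowB (hGT : St_GT) : St_LowB := by
  intro n k d κ l y A Y z hz hkd h9 h8 hl hy hly h2 hcard hdeg hlin
  have hD : ∀ C ∈ A, k ≤ (LowB_D y Y C).card + y := by
    intro C hC
    have h := LowB_D_card y Y C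
    rwa [hcard C hC] at h
  have hyk : y + 3 ≤ k := (Nat.pow_le_pow_iff_right (by norm_num)).1 h2
  have hz0 : 0 ≤ z := by rw [hz]; positivity
  have hkz : (k : ℝ) * d * z ≤ 1 / 9 := by nlinarith
  have hk8 : (8 : ℝ) ≤ 2 ^ k := by
    calc (8 : ℝ) = 2 ^ 3 := by norm_num
      _ ≤ _ := pow_le_pow_right₀ (by norm_num) (by omega)
  have hl4 : (1 : ℝ) / 2 ^ l ≤ 1 / 4 := by
    have : (4 : ℝ) ≤ 2 ^ l := by
      calc (4 : ℝ) = 2 ^ 2 := by norm_num
        _ ≤ _ := pow_le_pow_right₀ (by norm_num) hl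
    exact one_div_le_one_div_of_le (by norm_num) this
  have hk1 : (1 : ℝ) / 2 ^ k ≤ 1 / 8 := one_div_le_one_div_of_le (by norm_num) hk8
  have hk0 : (0 : ℝ) < 1 / 2 ^ k := by positivity
  obtain ⟨hc, h⟩ := hGT (Fin n) Bool (Finset (Fin n)) A (fun C => C)
    (LowB_D y Y) k d 4 κ (fun _ _ => {false}) (LowB_psi y Y) z (LowB_fam y A Y hcard hdeg)
    (by rw [hz]; norm_num) hkd h9
    (fun C hC => by
      have := hD C hC
      omega)
  -- bounds for the averages
  have hq : ∀ C ∈ A, (C ∩ Y).card ≤ y → (1 : ℝ) / 2 ^ (C \ Y).card ≤ 1 / 8 ∧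
      1 / (2 : ℝ) ^ k ≤ 1 / 2 ^ (C \ Y).card := by
    intro C hC hCy
    have h3 : 3 ≤ (C \ Y).card := by
      have := Finset.card_inter_add_card_sdiff C Y
      have := hcard C hC
      omega
    have h4 : (8 : ℝ) ≤ 2 ^ (C \ Y).card := by
      calc (8 : ℝ) = 2 ^ 3 := by norm_num
        _ ≤ _ := pow_le_pow_right₀ (by norm_num) h3
    refine ⟨one_div_le_one_div_of_le (by norm_num) h4,
      one_div_le_one_div_of_le (by positivity) (pow_le_pow_right₀ (by norm_num) ?_)⟩
    rw [← hcard C hC]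
    exact Finset.card_le_card Finset.sdiff_subset
  have hX : ∀ C ∈ A, (C ∩ Y).card ≤ y →
      |Xi (LowB_psi y Y) {C} ∅| ≤ 2 * (1 / 2 ^ (C \ Y).card) := by
    intro C hC hCy
    obtain ⟨q1, q2⟩ := hq C hC hCy
    rw [LowB_Xi_pos y Y C hCy, hcard C hC, abs_le]
    constructor <;> linarith
  have hX' : ∀ C ∈ A, ¬ (C ∩ Y).card ≤ y →
      |Xi (LowB_psi y Y) {C} ∅| = 1 / 2 ^ k := by
    intro C hC hCy
    rw [LowB_Xi_neg y Y C hCy, hcard C hC, neg_one_mul, abs_neg, abs_of_pos hk0]
  have hmain := (h l hl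
    (fun C hC => by
      have := hD C hC
      omega)
    (fun C hC C' hC' hne => by
      have h1 := hD C hC
      have h1' := hD C' hC'
      have h3 := hlin C hC C' hC' hne
      have h4 := Finset.card_union_add_card_inter (LowB_D y Y C) (LowB_D y Y C')
      have h5 : (LowB_D y Y C ∩ LowB_D y Y C').card ≤ (C ∩ C').card :=
        Finset.card_le_card (Finset.inter_subset_inter (LowB_D_sub y Y C) (LowB_D_sub y Y C'))
      omega)
    (fun C hC => by
      by_cases hCy : (C ∩ Y).card ≤ y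
      · have h1 := hX C hC hCy
        have h3 := (hq C hC hCy).1
        linarith
      · rw [hX' C hC hCy]
        linarith)).1
  rw [LowB_av]
  refine ⟨le_trans ?_ hmain, ?_⟩
  · rw [← Finset.prod_filter_mul_prod_filter_not A (fun C => (C ∩ Y).card ≤ y)]
    have hfn : (A.filter fun C => y < (C ∩ Y).card) = A.filter fun C => ¬ (C ∩ Y).card ≤ y :=
      Finset.filter_congr fun C _ => by rw [not_le]
    rw [hfn, ← Finset.prod_const]
    have hp0 : ∀ C ∈ A.filter (fun C => (C ∩ Y).card ≤ y),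
        0 ≤ 1 - 2 / 2 ^ (C \ Y).card + 1 / 2 ^ k -
          (12 * (k * d) * z / 2 ^ (C \ Y).card + 1 / (2 : ℝ) ^ l) := by
      intro C hC
      rw [Finset.mem_filter] at hC
      obtain ⟨q1, q2⟩ := hq C hC.1 hC.2
      have h3 : 12 * (k * d) * z / 2 ^ (C \ Y).card = 12 * (k * d * z) * (1 / 2 ^ (C \ Y).card) := by
        ring
      have h4 : 12 * (k * d * z) * (1 / (2 : ℝ) ^ (C \ Y).card) ≤ 12 * (1 / 9) * (1 / 8) := by
        refine mul_le_mul ?_ q1 (by positivity) (by norm_num)
        linarith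
      have h5 : (2 : ℝ) / 2 ^ (C \ Y).card = 2 * (1 / 2 ^ (C \ Y).card) := by ring
      rw [h3, h5]
      linarith
    have hp1 : ∀ C ∈ A.filter (fun C => (C ∩ Y).card ≤ y),
        1 - 2 / 2 ^ (C \ Y).card + 1 / 2 ^ k -
          (12 * (k * d) * z / 2 ^ (C \ Y).card + 1 / (2 : ℝ) ^ l) ≤
        1 + Xi (LowB_psi y Y) {C} ∅ -
          (6 * (k * d) * z * |Xi (LowB_psi y Y) {C} ∅| + 1 / 2 ^ l) := by
      intro C hC
      rw [Finset.mem_filter] at hC
      have h3 : 6 * (k * d) * z * |Xi (LowB_psi y Y) {C} ∅| ≤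
          6 * (k * d) * z * (2 * (1 / 2 ^ (C \ Y).card)) :=
        mul_le_mul_of_nonneg_left (hX C hC.1 hC.2) (by positivity)
      have h4 : 6 * (k * d) * z * (2 * (1 / 2 ^ (C \ Y).card)) =
        12 * (k * d) * z / 2 ^ (C \ Y).card := by ring
      rw [h4] at h3
      have h6 : (2 : ℝ) / 2 ^ (C \ Y).card = 2 * (1 / 2 ^ (C \ Y).card) := by ring
      rw [h6]
      have h5 := LowB_Xi_pos y Y C hC.2
      rw [hcard C hC.1] at h5
      linarith
    have hn0 : ∀ C ∈ A.filter (fun C => ¬ (C ∩ Y).card ≤ y),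
        0 ≤ 1 - 1 / 2 ^ k - (6 * (k * d) * z / 2 ^ k + 1 / (2 : ℝ) ^ l) := by
      intro C _
      have h3 : 6 * (k * d) * z / 2 ^ k = 6 * (k * d * z) * (1 / (2 : ℝ) ^ k) := by
        ring
      have h4 : 6 * (k * d * z) * (1 / (2 : ℝ) ^ k) ≤ 6 * (1 / 9) * (1 / 8) := by
        refine mul_le_mul ?_ hk1 (by positivity) (by norm_num)
        linarith
      rw [h3]
      linarith
    have hn1 : ∀ C ∈ A.filter (fun C => ¬ (C ∩ Y).card ≤ y),
        1 - 1 / 2 ^ k - (6 * (k * d) * z / 2 ^ k + 1 / (2 : ℝ) ^ l) ≤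
        1 + Xi (LowB_psi y Y) {C} ∅ -
          (6 * (k * d) * z * |Xi (LowB_psi y Y) {C} ∅| + 1 / 2 ^ l) := by
      intro C hC
      rw [Finset.mem_filter] at hC
      rw [hX' C hC.1 hC.2, LowB_Xi_neg y Y C hC.2, hcard C hC.1]
      have h3 : 6 * (k * d) * z * (1 / (2 : ℝ) ^ k) = 6 * (k * d) * z / 2 ^ k := by ring
      rw [h3]
      linarith
    refine mul_le_mul (Finset.prod_le_prod hp0 hp1) (Finset.prod_le_prod hn0 hn1)
      (Finset.prod_nonneg hn0) (Finset.prod_nonneg fun C hC => le_trans (hp0 C hC) (hp1 C hC))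
  · -- the crude bound
    obtain ⟨R, hR⟩ : ∃ R : Finset (Finset (Fin n)), R =
      A.filter fun C => (C ∩ Y).card ≤ y ∧ ¬ Disjoint C Y := ⟨_, rfl⟩
    have hRA : R ⊆ A := by rw [hR]; exact Finset.filter_subset _ _
    have hb := (hc A (Finset.Subset.refl _)).2 (A \ R) Finset.sdiff_subset
    rw [Finset.sdiff_sdiff_eq_self hRA] at hb
    -- the number of removed clauses
    have hRc : R.card ≤ d * Y.card := by
      have h1 : R ⊆ Y.biUnion fun v => A.filter fun C => v ∈ C := by
        intro C hC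
        rw [hR, Finset.mem_filter] at hC
        obtain ⟨v, hv, hv'⟩ := Finset.not_disjoint_iff.1 hC.2.2
        rw [Finset.mem_biUnion]
        exact ⟨v, hv', Finset.mem_filter.2 ⟨hC.1, hv⟩⟩
      calc R.card ≤ _ := Finset.card_le_card h1
        _ ≤ ∑ v ∈ Y, (A.filter fun C => v ∈ C).card := Finset.card_biUnion_le
        _ ≤ ∑ v ∈ Y, d := Finset.sum_le_sum fun v _ => hdeg v
        _ = d * Y.card := by rw [Finset.sum_const, smul_eq_mul, mul_comm]
    have hk1' : (1 : ℝ) ≤ k := by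
      have : 1 ≤ k := by omega
      exact_mod_cast this
    have hdz : 3 * ((d : ℝ) * z) ≤ 1 / 3 := by
      have h1 : (d : ℝ) * z ≤ k * (d * z) := by
        have : 0 ≤ (d : ℝ) * z := by positivity
        nlinarith
      nlinarith
    have hd1 : (1 : ℝ) ≤ d := by
      have : 1 ≤ d := by
        rcases Nat.eq_zero_or_pos d with h0 | h0
        · rw [h0, mul_zero] at hkd; omega
        · exact h0
      exact_mod_cast this
    have hz1 : 3 * z ≤ 1 / 3 := by
      have : z ≤ d * z := by nlinarith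
      linarith
    have hp : (1 / 2 : ℝ) ≤ (1 - 3 * z) ^ d := by
      have h1 := one_add_mul_le_pow (show (-2 : ℝ) ≤ -(3 * z) by linarith) d
      have h3 : (1 : ℝ) + -(3 * z) = 1 - 3 * z := by ring
      rw [h3] at h1
      have h4 : (1 / 2 : ℝ) ≤ 1 + d * -(3 * z) := by linarith
      linarith
    have hpow : (1 / 2 : ℝ) ^ Y.card ≤ (1 - 3 * z) ^ R.card := by
      calc (1 / 2 : ℝ) ^ Y.card ≤ ((1 - 3 * z) ^ d) ^ Y.card :=
            pow_le_pow_left₀ (by norm_num) hp _
        _ = (1 - 3 * z) ^ (d * Y.card) := by rw [pow_mul]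
        _ ≤ _ := pow_le_pow_of_le_one (by linarith) (by linarith) hRc
    have hav : av (ind A) ≤ Xi (LowB_psi y Y) ∅ (A \ R) := by
      unfold Xi
      refine LowB_av_mono _ _ fun x => ?_
      rw [Finset.prod_empty, one_mul, LowB_ind, ← Finset.prod_sdiff hRA]
      have h1 : ∀ C ∈ A \ R, 1 + LowB_psi y Y C x = 1 - LowB_c C x := by
        intro C hC
        rw [Finset.mem_sdiff, hR, Finset.mem_filter] at hC
        unfold LowB_psi
        split_ifs with h
        · have h3 : Disjoint C Y := by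
            by_contra h4
            exact hC.2 ⟨hC.1, h, h4⟩
          rw [Finset.sdiff_eq_self_of_disjoint h3]; ring
        · ring
      rw [Finset.prod_congr rfl h1]
      have h01 : ∀ C : Finset (Fin n), 0 ≤ 1 - LowB_c C x ∧ 1 - LowB_c C x ≤ 1 := by
        intro C
        rcases LowB_c_01 C x with h1 | h1 <;> rw [h1] <;> norm_num
      have h5 : 0 ≤ ∏ C ∈ A \ R, (1 - LowB_c C x) := Finset.prod_nonneg fun C _ => (h01 C).1
      have h6 : ∏ C ∈ R, (1 - LowB_c C x) ≤ 1 :=
        Finset.prod_le_one (fun C _ => (h01 C).1) fun C _ => (h01 C).2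
      exact mul_le_of_le_one_right h5 h6
    have hav0 : 0 ≤ av (ind A) := by
      unfold av
      refine div_nonneg (Finset.sum_nonneg fun x _ => ?_) (by positivity)
      unfold ind
      split_ifs <;> norm_num
    calc (1 / 2 : ℝ) ^ Y.card * av (ind A)
        ≤ (1 - 3 * z) ^ R.card * Xi (LowB_psi y Y) ∅ (A \ R) :=
          mul_le_mul hpow hav hav0 (pow_nonneg (by linarith) _)
      _ ≤ _ := hb

end Pool.Agent.SEL
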