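import Pool.Agent.SEL.St

/-!
# SEL, Num: the numerical estimate
-/

set_option autoImplicit false

namespace Pool.Agent.SEL

open Finset Pool.Agent.VD

private theorem num_exp1 {q : ℝ} (h0 : 0 ≤ q) (h1 : q ≤ 1 / 90) :
    Real.exp (3 * q) ≤ 1 + 39 / 10 * q := by
  have h2 : 1 - 3 * q ≤ Real.exp (-(3 * q)) := by
    have := Real.add_one_le_exp (-(3 * q))
    linarith
  have h3 : (0 : ℝ) < Real.exp (3 * q) := Real.exp_pos _
  have h4 : Real.exp (3 * q) * Real.exp (-(3 * q)) = 1 := by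
    rw [← Real.exp_add]
    simp
  have h5 : Real.exp (3 * q) * (1 - 3 * q) ≤ 1 :=
    (mul_le_mul_of_nonneg_left h2 h3.le).trans_eq h4
  have h6 : 1 ≤ (1 + 39 / 10 * q) * (1 - 3 * q) := by nlinarith
  have h7 : 0 < 1 - 3 * q := by linarith
  exact le_of_mul_le_mul_right (h5.trans h6) h7

private theorem num_exp2 {x : ℝ} (h0 : 0 ≤ x) (h1 : x ≤ 1 / 90) :
    Real.exp (-(10 * x)) ≤ 1 - 9 * x := by
  have h2 : 1 + 10 * x ≤ Real.exp (10 * x) := by
    have := Real.add_one_le_exp (10 * x)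
    linarith
  have h3 : (0 : ℝ) < Real.exp (-(10 * x)) := Real.exp_pos _
  have h4 : Real.exp (-(10 * x)) * Real.exp (10 * x) = 1 := by
    rw [← Real.exp_add]
    simp
  have h5 : Real.exp (-(10 * x)) * (1 + 10 * x) ≤ 1 :=
    (mul_le_mul_of_nonneg_left h2 h3.le).trans_eq h4
  have h6 : 1 ≤ (1 - 9 * x) * (1 + 10 * x) := by nlinarith
  have h7 : 0 < 1 + 10 * x := by linarith
  exact le_of_mul_le_mul_right (h5.trans h6) h7

private theorem num_exp3 {q : ℝ} (h0 : 0 ≤ q) (h1 : q ≤ 1 / 90) :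
    Real.exp (-(5 * q)) ≤ 1 - 404 / 100 * q := by
  have h2 : 1 + 5 * q ≤ Real.exp (5 * q) := by
    have := Real.add_one_le_exp (5 * q)
    linarith
  have h3 : (0 : ℝ) < Real.exp (-(5 * q)) := Real.exp_pos _
  have h4 : Real.exp (-(5 * q)) * Real.exp (5 * q) = 1 := by
    rw [← Real.exp_add]
    simp
  have h5 : Real.exp (-(5 * q)) * (1 + 5 * q) ≤ 1 :=
    (mul_le_mul_of_nonneg_left h2 h3.le).trans_eq h4
  have h6 : 1 ≤ (1 - 404 / 100 * q) * (1 + 5 * q) := by nlinarith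
  have h7 : 0 < 1 + 5 * q := by linarith
  exact le_of_mul_le_mul_right (h5.trans h6) h7

private theorem num_bern {x : ℝ} (h : -2 ≤ x) : 1 + 4 * x ≤ (1 + x) ^ 4 := by
  have := one_add_mul_le_pow h 4
  push_cast at this
  linarith

/-- one clause; `t = 2 ^ (-|C - Y|)`, `q = 2 ^ (-k)`, `w = 2 ^ y`, `e` and `4 e` are the errors -/
private theorem num_clause {q w t α β e δ : ℝ} (hq : 0 < q) (hw : 1 ≤ w) (hwq : w * q ≤ 1 / 100)
    (htq : q ≤ t) (htw : t ≤ w * q) (hα : 0 ≤ α) (hα1 : α ≤ 1) (hβ : 0 ≤ β) (hβ1 : β ≤ 1)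
    (he : 0 ≤ e) (heq : e ≤ q / 1000) (hδ : 0 ≤ δ) (hδq : δ ≤ q / 1000000) :
    0 ≤ 1 - 8 * t * (1 - α) * (1 - β) + (4 * e + δ) ∧ 0 ≤ 1 - 2 * t + q - (e + δ) ∧
    (α * (512 * w) ≤ 1 → β * (512 * w) ≤ 1 →
      (1 - 8 * t * (1 - α) * (1 - β) + (4 * e + δ)) * Real.exp (3 * q) ≤
        (1 - 2 * t + q - (e + δ)) ^ 4) ∧
    (1 - 8 * t * (1 - α) * (1 - β) + (4 * e + δ)) * Real.exp (-(10 * (w * q))) ≤
        (1 - 2 * t + q - (e + δ)) ^ 4 := by
  have ht0 : 0 < t := lt_of_lt_of_le hq htq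
  have hqw : q ≤ w * q := by nlinarith
  have hab : (1 - α) * (1 - β) ≤ 1 := by nlinarith
  have hab0 : 0 ≤ (1 - α) * (1 - β) := mul_nonneg (by linarith) (by linarith)
  have hm : 8 * t * ((1 - α) * (1 - β)) ≤ 8 * t * 1 :=
    mul_le_mul_of_nonneg_left hab (by linarith)
  have hm0 : 0 ≤ 8 * t * ((1 - α) * (1 - β)) := mul_nonneg (by linarith) hab0
  have hu : 8 * t * (1 - α) * (1 - β) = 8 * t * ((1 - α) * (1 - β)) := by ring
  rw [hu]
  have hU0 : 0 ≤ 1 - 8 * t * ((1 - α) * (1 - β)) + (4 * e + δ) := by linarith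
  have hL0 : 0 ≤ 1 - 2 * t + q - (e + δ) := by linarith
  have hb : 1 + 4 * (-2 * t + q - (e + δ)) ≤ (1 - 2 * t + q - (e + δ)) ^ 4 := by
    have h1 := num_bern (x := -2 * t + q - (e + δ)) (by linarith)
    have h2 : 1 + (-2 * t + q - (e + δ)) = 1 - 2 * t + q - (e + δ) := by ring
    rw [h2] at h1
    exact h1
  refine ⟨hU0, hL0, fun h1 h2 => ?_, ?_⟩
  · -- the split clauses
    have h3 : 8 * t * (α + β) ≤ q / 32 := by
      have h4 : t * α ≤ (w * q) * α := mul_le_mul_of_nonneg_right htw hα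
      have h5 : t * β ≤ (w * q) * β := mul_le_mul_of_nonneg_right htw hβ
      have h6 : q * (α * (512 * w)) ≤ q * 1 := mul_le_mul_of_nonneg_left h1 hq.le
      have h7 : q * (β * (512 * w)) ≤ q * 1 := mul_le_mul_of_nonneg_left h2 hq.le
      nlinarith
    have h4 : 1 - 8 * t * ((1 - α) * (1 - β)) ≤ 1 - 8 * t + q / 32 := by
      have h5 : 0 ≤ 8 * t * (α * β) := mul_nonneg (by linarith) (mul_nonneg hα hβ)
      nlinarith
    have h5 : 1 - 8 * t * ((1 - α) * (1 - β)) + (4 * e + δ) ≤ 1 - 8 * t + 4 / 100 * q := by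
      linarith
    have h6 : 1 - 8 * t * ((1 - α) * (1 - β)) + (4 * e + δ) ≤ 1 := by linarith
    calc _ ≤ (1 - 8 * t * ((1 - α) * (1 - β)) + (4 * e + δ)) * (1 + 39 / 10 * q) :=
          mul_le_mul_of_nonneg_left (num_exp1 hq.le (by linarith)) hU0
      _ = (1 - 8 * t * ((1 - α) * (1 - β)) + (4 * e + δ)) +
          (1 - 8 * t * ((1 - α) * (1 - β)) + (4 * e + δ)) * (39 / 10 * q) := by ring
      _ ≤ (1 - 8 * t + 4 / 100 * q) + 1 * (39 / 10 * q) :=
          add_le_add h5 (mul_le_mul_of_nonneg_right h6 (by linarith))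
      _ ≤ 1 + 4 * (-2 * t + q - (e + δ)) := by linarith
      _ ≤ _ := hb
  · have h5 : 1 - 8 * t * ((1 - α) * (1 - β)) + (4 * e + δ) ≤ 1 + 1 / 100 * q := by linarith
    have h6 : 0 ≤ 1 - 9 * (w * q) := by linarith
    calc _ ≤ (1 - 8 * t * ((1 - α) * (1 - β)) + (4 * e + δ)) * (1 - 9 * (w * q)) :=
          mul_le_mul_of_nonneg_left (num_exp2 (by positivity) (by linarith)) hU0
      _ ≤ (1 + 1 / 100 * q) * (1 - 9 * (w * q)) := mul_le_mul_of_nonneg_right h5 h6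
      _ = 1 + 1 / 100 * q - 9 * (w * q) - 9 / 100 * q * (w * q) := by ring
      _ ≤ 1 - 8 * (w * q) := by
          have : 0 ≤ 9 / 100 * q * (w * q) := by positivity
          linarith
      _ ≤ 1 + 4 * (-2 * t + q - (e + δ)) := by linarith
      _ ≤ _ := hb

/-- the clauses with many variables in `Y` -/
private theorem num_f {q e δ : ℝ} (hq : 0 < q) (hq1 : q ≤ 1 / 100)
    (heq : e ≤ q / 1000) (hδq : δ ≤ q / 1000000) :
    0 ≤ 1 - q - (e + δ) ∧ Real.exp (-(5 * q)) ≤ (1 - q - (e + δ)) ^ 4 := by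
  refine ⟨by linarith, ?_⟩
  have h1 := num_bern (x := - q - (e + δ)) (by linarith)
  have h2 : 1 + (-q - (e + δ)) = 1 - q - (e + δ) := by ring
  rw [h2] at h1
  refine le_trans (num_exp3 hq.le (by linarith)) (le_trans ?_ h1)
  linarith

private theorem num_half (m : ℕ) : Real.exp (-(m : ℝ)) ≤ (1 / 2 : ℝ) ^ m := by
  have h1 : (2 : ℝ) ≤ Real.exp 1 := by
    have := Real.add_one_le_exp (1 : ℝ)
    linarith
  have h2 : Real.exp (-(m : ℝ)) = (Real.exp 1)⁻¹ ^ m := by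
    rw [← Real.exp_neg, ← Real.exp_nat_mul]
    congr 1
    ring
  rw [h2, one_div]
  exact pow_le_pow_left₀ (by positivity) (inv_anti₀ (by norm_num) h1) m

private theorem num_two {x : ℝ} (hx : 0 ≤ x) : (2 : ℝ) ^ x ≤ Real.exp x := by
  have h1 : (2 : ℝ) ≤ Real.exp 1 := by
    have := Real.add_one_le_exp (1 : ℝ)
    linarith
  rw [← Real.exp_one_rpow]
  exact Real.rpow_le_rpow (by norm_num) h1 hx

/-- the clauses which contain a variable in `U` -/
private theorem num_meet {n d : ℕ} (E X : Finset (Finset (Fin n))) (U : Finset (Fin n))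
    (hd : ∀ v, (E.filter fun C => v ∈ C).card ≤ d) (hX : ∀ C ∈ X, C ∈ E ∧ ¬ Disjoint C U) :
    X.card ≤ U.card * d := by
  have h1 : X ⊆ U.biUnion fun v => E.filter fun C => v ∈ C := by
    intro C hC
    obtain ⟨h2, h3⟩ := hX C hC
    obtain ⟨v, h4, h5⟩ := Finset.not_disjoint_iff.1 h3
    exact Finset.mem_biUnion.2 ⟨v, h5, Finset.mem_filter.2 ⟨h2, h4⟩⟩
  exact (Finset.card_le_card h1).trans (Finset.card_biUnion_le_card_mul _ _ _ fun v _ => hd v)

/-- the numbers of the clauses -/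
private theorem num_key {q c n e₀ w s r b u d N E A : ℝ} (hq : 0 < q) (hq1 : q ≤ 1) (hw : 1 ≤ w)
    (he : 1 ≤ e₀) (hc0 : 0 ≤ c) (n0 : 0 ≤ n) (u0 : 0 ≤ u) (d0 : 0 ≤ d) (E0 : 0 ≤ E)
    (r0 : 0 ≤ r) (hc : c * (32 * (d + 1) * (N + 1) * e₀) = q)
    (r1 : w * 64 * e₀ * r ≤ E) (b1 : 16 * e₀ * b ≤ E) (A1 : A ≤ s + r + b + u * d)
    (A2 : E ≤ e₀ * A) (N1 : n ≤ N * E) (hU : u ≤ 4 * (c * n)) :
    8 * (c * n) + (4 * (d + 1) + 2) * u ≤ (3 * q * s - 10 * (w * q) * r) + -(5 * q) * b := by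
  have h1 : 32 * (d + 1) * (c * n) * e₀ ≤ q * E := by
    have h3 : n ≤ (N + 1) * E := by linarith
    have h5 : 0 ≤ c * (32 * (d + 1) * e₀) := by positivity
    calc 32 * (d + 1) * (c * n) * e₀ = (c * (32 * (d + 1) * e₀)) * n := by ring
      _ ≤ (c * (32 * (d + 1) * e₀)) * ((N + 1) * E) := mul_le_mul_of_nonneg_left h3 h5
      _ = (c * (32 * (d + 1) * (N + 1) * e₀)) * E := by ring
      _ = _ := by rw [hc]
  have h2 : 2 * E ≤ e₀ * (3 * s - 10 * w * r - 5 * b) + 3 * d * u * e₀ := by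
    have h3 : E ≤ e₀ * (s + r + b + u * d) :=
      A2.trans (mul_le_mul_of_nonneg_left A1 (by linarith))
    have h4 : 1 * (e₀ * r) ≤ w * (e₀ * r) :=
      mul_le_mul_of_nonneg_right hw (mul_nonneg (by linarith) r0)
    linarith
  have h3 : q * (2 * E) ≤ q * (e₀ * (3 * s - 10 * w * r - 5 * b) + 3 * d * u * e₀) :=
    mul_le_mul_of_nonneg_left h2 hq.le
  have h4 : (8 * (c * n) + (4 * (d + 1) + 2) * u) * e₀ ≤
      ((3 * q * s - 10 * (w * q) * r) + -(5 * q) * b) * e₀ := by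
    have h5 : q * (3 * d * u * e₀) ≤ 1 * (3 * d * u * e₀) :=
      mul_le_mul_of_nonneg_right hq1 (by positivity)
    have h6 : (4 * (d + 1) + 2 + 3 * d) * u ≤ (4 * (d + 1) + 2 + 3 * d) * (4 * (c * n)) :=
      mul_le_mul_of_nonneg_left hU (by positivity)
    have h7 : (8 * (c * n) + (4 * (d + 1) + 2) * u + 3 * d * u) * e₀ ≤
        (32 * (d + 1) * (c * n)) * e₀ := by
      refine mul_le_mul_of_nonneg_right ?_ (by linarith)
      have h8 : 0 ≤ d * (c * n) := by positivity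
      linarith
    have h8 : 0 ≤ q * E := by positivity
    linarith
  exact le_of_mul_le_mul_right h4 (by linarith)

theorem thm_Num : St_Num := by
  classical
  intro e₀ y he
  refine ⟨2 * y + 9, 2 ^ (y + 6) * e₀, 10 ^ 5 * 2 ^ y, ?_⟩
  intro k d κ N₁ hd hk hZ hκ hL
  have hy : y < 2 ^ y := Nat.lt_two_pow_self
  have hdκ : κ ≤ d * κ := Nat.le_mul_of_pos_left κ hd
  have hk1 : 800000 * (y + 1) ≤ k := by
    have h1 : 800000 * (y + 1) ≤ 800000 * 2 ^ y := Nat.mul_le_mul_left _ hy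
    have h2 : 8 * (10 ^ 5 * 2 ^ y) ≤ 8 * (d * κ) := Nat.mul_le_mul_left 8 (hκ.trans hdκ)
    have h3 : 8 * (10 ^ 5 * 2 ^ y) = 800000 * 2 ^ y := by ring
    omega
  -- the real parameters
  obtain ⟨q, hq⟩ : ∃ q : ℝ, q = 1 / 2 ^ k := ⟨_, rfl⟩
  obtain ⟨w, hw⟩ : ∃ w : ℝ, w = 2 ^ y := ⟨_, rfl⟩
  obtain ⟨η, hη⟩ : ∃ η : ℝ, η = (k * d) * (8 / 2 ^ κ) := ⟨_, rfl⟩
  have hq0 : 0 < q := by rw [hq]; positivity
  have hw1 : 1 ≤ w := by rw [hw]; exact one_le_pow₀ (by norm_num)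
  have hwq : w * q ≤ 1 / 100 := by
    have h1 : (2 : ℝ) ^ (y + 7) ≤ 2 ^ k := pow_le_pow_right₀ (by norm_num) (by omega)
    have h2 : w * 128 ≤ 2 ^ k := by
      rw [hw]
      calc (2 : ℝ) ^ y * 128 = 2 ^ (y + 7) := by rw [pow_add]; norm_num
        _ ≤ _ := h1
    rw [hq, mul_one_div, div_le_iff₀ (by positivity)]
    linarith
  have hη0 : 0 ≤ η := by rw [hη]; positivity
  have hηw : η * w ≤ 8 / 100000 := by
    have h1 : ((10 ^ 5 * 2 ^ y * (k * d) : ℕ) : ℝ) ≤ ((2 ^ κ : ℕ) : ℝ) := by exact_mod_cast hZ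
    push_cast at h1
    rw [hη, hw]
    have h2 : (0 : ℝ) < 2 ^ κ := by positivity
    have h3 : (k * d : ℝ) * (8 / 2 ^ κ) * 2 ^ y = 8 * (2 ^ y * (k * d)) / 2 ^ κ := by
      field_simp
    rw [h3, div_le_iff₀ h2]
    linarith
  have hη1 : η ≤ 8 / 100000 := by nlinarith
  have hδ : (1 / 2 ^ (k + y + 20) : ℝ) ≤ q / 1000000 := by
    have h1 : (1 / 2 ^ (k + y + 20) : ℝ) = q / (w * 2 ^ 20) := by
      rw [hq, hw, pow_add, pow_add]
      field_simp
    rw [h1, div_le_div_iff₀ (by positivity) (by norm_num)]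
    have h2 : (1000000 : ℝ) ≤ w * 2 ^ 20 := by nlinarith
    exact mul_le_mul_of_nonneg_left h2 hq0.le
  refine ⟨k + y + 20, by omega, by omega, by omega,
    Nat.pow_le_pow_right (by norm_num) (by omega), ?_, ?_⟩
  · have h1 : 9 * (k * d : ℝ) * (8 / 2 ^ κ) = 9 * η := by rw [hη]; ring
    rw [h1]
    linarith
  -- the constant
  refine ⟨q / (32 * (d + 1) * (N₁ + 1) * e₀), by positivity, ?_⟩
  intro n E A Y U S hEk hEd hN hsp hfew hAE hAe hU
  obtain ⟨c, hc⟩ : ∃ c : ℝ, c = q / (32 * (d + 1) * (N₁ + 1) * e₀) := ⟨_, rfl⟩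
  rw [← hc] at hU ⊢
  have he0 : (1 : ℝ) ≤ e₀ := by exact_mod_cast he
  have hc0 : 0 < c := by rw [hc]; positivity
  have hcn : 0 ≤ c * n := by positivity
  set P : Finset (Finset (Fin n)) := A.filter fun C => Disjoint C U ∧ (C ∩ Y).card ≤ y with hP
  set B : Finset (Finset (Fin n)) := A.filter fun C => Disjoint C U ∧ y < (C ∩ Y).card with hB
  -- the split clauses
  let sp : Finset (Fin n) → Prop := fun C =>
    ¬ ((C ∩ S).card < 2 * y + 9 ∨ (C \ S).card < 2 * y + 9)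
  let lo : Finset (Fin n) → ℝ := fun C => 1 - 2 / 2 ^ (C \ Y).card + 1 / 2 ^ k -
    (12 * (k * d) * (8 / 2 ^ κ) / 2 ^ (C \ Y).card + 1 / 2 ^ (k + y + 20))
  let hi : Finset (Fin n) → ℝ := fun C =>
    1 - 8 / 2 ^ (C \ Y).card * (1 - 1 / 2 ^ ((C \ Y) ∩ S).card) *
      (1 - 1 / 2 ^ ((C \ Y) \ S).card) +
      (48 * (k * d) * (8 / 2 ^ κ) / 2 ^ (C \ Y).card + 1 / 2 ^ (k + y + 20))
  let G : Finset (Fin n) → ℝ := fun C =>
    if sp C then Real.exp (3 * q) else Real.exp (-(10 * (w * q)))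
  have hcl : ∀ C ∈ P, 0 ≤ hi C ∧ 0 ≤ lo C ∧ hi C * G C ≤ lo C ^ 4 := by
    intro C hC
    obtain ⟨hCA, hCU, hCy⟩ := Finset.mem_filter.1 hC
    have hCk := hEk C (hAE hCA)
    have hm : (C \ Y).card + (C ∩ Y).card = k := by
      rw [← hCk]
      exact Finset.card_sdiff_add_card_inter C Y
    obtain ⟨t, ht⟩ : ∃ t : ℝ, t = 1 / 2 ^ (C \ Y).card := ⟨_, rfl⟩
    obtain ⟨α, hα⟩ : ∃ α : ℝ, α = 1 / 2 ^ ((C \ Y) ∩ S).card := ⟨_, rfl⟩
    obtain ⟨β, hβ⟩ : ∃ β : ℝ, β = 1 / 2 ^ ((C \ Y) \ S).card := ⟨_, rfl⟩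
    have hinv : ∀ a b : ℕ, a ≤ b → (1 / 2 ^ b : ℝ) ≤ 1 / 2 ^ a := fun a b hab =>
      one_div_le_one_div_of_le (by positivity) (pow_le_pow_right₀ (by norm_num) hab)
    have htq : q ≤ t := by
      rw [hq, ht]
      exact hinv _ _ (by omega)
    have htw : t ≤ w * q := by
      have h1 : w * q = 1 / 2 ^ (k - y) := by
        rw [hw, hq]
        have h2 : (2 : ℝ) ^ k = 2 ^ (k - y) * 2 ^ y := by
          rw [← pow_add]
          congr 1
          omega
        rw [h2]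
        field_simp
      rw [h1, ht]
      exact hinv _ _ (by omega)
    have hα1 : α ≤ 1 := by
      have := hinv 0 ((C \ Y) ∩ S).card (Nat.zero_le _)
      rw [hα]
      simpa using this
    have hβ1 : β ≤ 1 := by
      have := hinv 0 ((C \ Y) \ S).card (Nat.zero_le _)
      rw [hβ]
      simpa using this
    have hα0 : 0 ≤ α := by rw [hα]; positivity
    have hβ0 : 0 ≤ β := by rw [hβ]; positivity
    have ht0 : 0 < t := by rw [ht]; positivity
    have h0 := num_clause (q := q) (w := w) (t := t) (α := α) (β := β) (e := 12 * η * t)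
      (δ := 1 / 2 ^ (k + y + 20)) hq0 hw1 hwq htq htw hα0 hα1 hβ0 hβ1 (by positivity) (by
        have h1 : η * t ≤ η * (w * q) := mul_le_mul_of_nonneg_left htw hη0
        have h2 : η * (w * q) ≤ 8 / 100000 * q := by
          rw [← mul_assoc]
          exact mul_le_mul_of_nonneg_right hηw hq0.le
        linarith) (by positivity) hδ
    have e1 : hi C = 1 - 8 * t * (1 - α) * (1 - β) +
        (4 * (12 * η * t) + 1 / 2 ^ (k + y + 20)) := by
      show (1 - 8 / 2 ^ (C \ Y).card * (1 - 1 / 2 ^ ((C \ Y) ∩ S).card) *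
        (1 - 1 / 2 ^ ((C \ Y) \ S).card) + (48 * (k * d) * (8 / 2 ^ κ) / 2 ^ (C \ Y).card +
          1 / 2 ^ (k + y + 20)) : ℝ) = _
      rw [← hα, ← hβ, ht, hη]
      ring
    have e2 : lo C = 1 - 2 * t + q - (12 * η * t + 1 / 2 ^ (k + y + 20)) := by
      show (1 - 2 / 2 ^ (C \ Y).card + 1 / 2 ^ k -
        (12 * (k * d) * (8 / 2 ^ κ) / 2 ^ (C \ Y).card + 1 / 2 ^ (k + y + 20)) : ℝ) = _
      rw [ht, hη, hq]
      ring
    rw [e1, e2]
    refine ⟨h0.1, h0.2.1, ?_⟩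
    by_cases hs : sp C
    · have e3 : G C = Real.exp (3 * q) := if_pos hs
      rw [e3]
      have hs' : 2 * y + 9 ≤ (C ∩ S).card ∧ 2 * y + 9 ≤ (C \ S).card := by
        have h1 : ¬ ((C ∩ S).card < 2 * y + 9 ∨ (C \ S).card < 2 * y + 9) := hs
        omega
      have h1 : (C ∩ S).card ≤ ((C \ Y) ∩ S).card + (C ∩ Y).card := by
        refine (Finset.card_le_card fun v hv => ?_).trans (Finset.card_union_le _ _)
        obtain ⟨h2, h3⟩ := Finset.mem_inter.1 hv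
        by_cases h4 : v ∈ Y
        · exact Finset.mem_union_right _ (Finset.mem_inter.2 ⟨h2, h4⟩)
        · exact Finset.mem_union_left _ (Finset.mem_inter.2 ⟨Finset.mem_sdiff.2 ⟨h2, h4⟩, h3⟩)
      have h2 : (C \ S).card ≤ ((C \ Y) \ S).card + (C ∩ Y).card := by
        refine (Finset.card_le_card fun v hv => ?_).trans (Finset.card_union_le _ _)
        obtain ⟨h2, h3⟩ := Finset.mem_sdiff.1 hv
        by_cases h4 : v ∈ Y
        · exact Finset.mem_union_right _ (Finset.mem_inter.2 ⟨h2, h4⟩)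
        · exact Finset.mem_union_left _ (Finset.mem_sdiff.2 ⟨Finset.mem_sdiff.2 ⟨h2, h4⟩, h3⟩)
      have h512 : (1 / 2 ^ (y + 9) : ℝ) * (512 * w) = 1 := by
        rw [hw, pow_add]
        field_simp
        norm_num
      refine h0.2.2.1 ?_ ?_
      · rw [← h512, hα]
        exact mul_le_mul_of_nonneg_right (hinv _ _ (by omega)) (by positivity)
      · rw [← h512, hβ]
        exact mul_le_mul_of_nonneg_right (hinv _ _ (by omega)) (by positivity)
    · have e3 : G C = Real.exp (-(10 * (w * q))) := if_neg hs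
      rw [e3]
      exact h0.2.2.2
  -- the product over `P`
  obtain ⟨s, hs⟩ : ∃ s : ℕ, s = (P.filter sp).card := ⟨_, rfl⟩
  obtain ⟨r, hr⟩ : ∃ r : ℕ, r = (P.filter fun C => ¬ sp C).card := ⟨_, rfl⟩
  obtain ⟨b, hb⟩ : ∃ b : ℕ, b = B.card := ⟨_, rfl⟩
  have hprodG : ∏ C ∈ P, G C = Real.exp (3 * q * s - 10 * (w * q) * r) := by
    show ∏ C ∈ P, (if sp C then Real.exp (3 * q) else Real.exp (-(10 * (w * q)))) = _
    rw [Finset.prod_ite, Finset.prod_const, Finset.prod_const, ← hs, ← hr, ← Real.exp_nat_mul,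
      ← Real.exp_nat_mul, ← Real.exp_add]
    congr 1
    ring
  have hhi0 : 0 ≤ ∏ C ∈ P, hi C := Finset.prod_nonneg fun C hC => (hcl C hC).1
  have hlo0 : 0 ≤ ∏ C ∈ P, lo C := Finset.prod_nonneg fun C hC => (hcl C hC).2.1
  have hG0 : ∀ C, 0 ≤ G C := by
    intro C
    show 0 ≤ if sp C then Real.exp (3 * q) else Real.exp (-(10 * (w * q)))
    split_ifs
    · exact (Real.exp_pos _).le
    · exact (Real.exp_pos _).le
  have hprod : (∏ C ∈ P, hi C) * Real.exp (3 * q * s - 10 * (w * q) * r) ≤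
      (∏ C ∈ P, lo C) ^ 4 := by
    rw [← hprodG, ← Finset.prod_mul_distrib, ← Finset.prod_pow]
    exact Finset.prod_le_prod (fun C hC => mul_nonneg (hcl C hC).1 (hG0 C))
      fun C hC => (hcl C hC).2.2
  -- the product over `B`
  obtain ⟨f, hf⟩ : ∃ f : ℝ, f = 1 - 1 / 2 ^ k -
    (6 * (k * d) * (8 / 2 ^ κ) / 2 ^ k + 1 / 2 ^ (k + y + 20)) := ⟨_, rfl⟩
  have hf1 : 0 ≤ f ∧ Real.exp (-(5 * q)) ≤ f ^ 4 := by
    have h1 := num_f (q := q) (e := 6 * η * q) (δ := 1 / 2 ^ (k + y + 20)) hq0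
      (by nlinarith) (by
        have h2 : η * q ≤ 8 / 100000 * q := mul_le_mul_of_nonneg_right hη1 hq0.le
        linarith) hδ
    have e1 : f = 1 - q - (6 * η * q + 1 / 2 ^ (k + y + 20)) := by
      rw [hf, hη, hq]
      ring
    rw [e1]
    exact h1
  have hfb : Real.exp (-(5 * q) * b) ≤ (f ^ b) ^ 4 := by
    rw [← pow_mul, Nat.mul_comm, pow_mul]
    have h1 : Real.exp (-(5 * q) * b) = Real.exp (-(5 * q)) ^ b := by
      rw [← Real.exp_nat_mul]
      congr 1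
      ring
    rw [h1]
    exact pow_le_pow_left₀ (Real.exp_pos _).le hf1.2 b
  -- the pinned variables
  obtain ⟨u, hu⟩ : ∃ u : ℕ, u = U.card := ⟨_, rfl⟩
  rw [← hu] at hU ⊢
  have hhalf : Real.exp (-((4 * (d + 1) + 2) * u : ℝ)) ≤
      ((1 / 2 : ℝ) ^ ((d + 1) * u)) ^ 4 * (1 / 2) ^ (2 * u) := by
    have h1 := num_half ((d + 1) * u * 4 + 2 * u)
    rw [pow_add, pow_mul] at h1
    refine le_trans (le_of_eq ?_) h1
    congr 1
    push_cast
    ring
  -- the numbers of clauses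
  have hr1 : 2 ^ (y + 6) * e₀ * r ≤ E.card := by
    refine le_trans (Nat.mul_le_mul_left _ ?_) hsp
    rw [hr]
    refine Finset.card_le_card fun C hC => ?_
    obtain ⟨h1, h2⟩ := Finset.mem_filter.1 hC
    exact Finset.mem_filter.2 ⟨hAE (Finset.mem_filter.1 h1).1, not_not.1 h2⟩
  have hb1 : 16 * e₀ * b ≤ E.card := by
    refine le_trans (Nat.mul_le_mul_left _ ?_) hfew
    rw [hb]
    refine Finset.card_le_card fun C hC => ?_
    obtain ⟨h1, h2, h3⟩ := Finset.mem_filter.1 hC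
    exact Finset.mem_filter.2 ⟨hAE h1, h3⟩
  have hx1 : (A.filter fun C => ¬ Disjoint C U).card ≤ u * d := by
    rw [hu]
    exact num_meet E _ U hEd fun C hC =>
      ⟨hAE (Finset.mem_filter.1 hC).1, (Finset.mem_filter.1 hC).2⟩
  have hA1 : A.card ≤ s + r + b + u * d := by
    have h1 : P.card = s + r := by
      rw [hs, hr]
      exact (Finset.card_filter_add_card_filter_not _).symm
    have h2 : A.card ≤ (P ∪ B).card + (A.filter fun C => ¬ Disjoint C U).card := by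
      refine (Finset.card_le_card fun C hC => ?_).trans (Finset.card_union_le _ _)
      by_cases h3 : Disjoint C U
      · refine Finset.mem_union_left _ ?_
        rcases Nat.lt_or_ge y (C ∩ Y).card with h4 | h4
        · exact Finset.mem_union_right _ (Finset.mem_filter.2 ⟨hC, h3, h4⟩)
        · exact Finset.mem_union_left _ (Finset.mem_filter.2 ⟨hC, h3, h4⟩)
      · exact Finset.mem_union_right _ (Finset.mem_filter.2 ⟨hC, h3⟩)
    have h3 := Finset.card_union_le P B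
    omega
  -- the main inequality
  have key : 8 * (c * n) + (4 * (d + 1) + 2) * u ≤
      (3 * q * s - 10 * (w * q) * r) + -(5 * q) * b := by
    have r1 : w * 64 * e₀ * r ≤ E.card := by
      have h1 : ((2 ^ (y + 6) * e₀ * r : ℕ) : ℝ) ≤ (E.card : ℝ) := by exact_mod_cast hr1
      push_cast at h1
      rw [pow_add, ← hw] at h1
      norm_num at h1
      exact h1
    have b1 : 16 * (e₀ : ℝ) * b ≤ E.card := by exact_mod_cast hb1
    have A1 : (A.card : ℝ) ≤ s + r + b + u * d := by exact_mod_cast hA1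
    have A2 : (E.card : ℝ) ≤ e₀ * A.card := by exact_mod_cast hAe
    have N1 : (n : ℝ) ≤ N₁ * E.card := by exact_mod_cast hN
    have E0 : (0 : ℝ) ≤ E.card := Nat.cast_nonneg _
    have r0 : (0 : ℝ) ≤ r := Nat.cast_nonneg _
    have b0 : (0 : ℝ) ≤ b := Nat.cast_nonneg _
    have u0 : (0 : ℝ) ≤ u := Nat.cast_nonneg _
    have d0 : (0 : ℝ) ≤ d := Nat.cast_nonneg _
    have n0 : (0 : ℝ) ≤ n := Nat.cast_nonneg _
    have hq1 : q ≤ 1 := by nlinarith
    have h2 : c * (32 * (d + 1) * (N₁ + 1) * e₀) = q := by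
      rw [hc]
      field_simp
    exact num_key hq0 hq1 hw1 he0 hc0.le n0 u0 d0 E0 r0 h2 r1 b1 A1 A2 N1 hU
  -- assembly
  show (2 : ℝ) ^ (8 * (c * n)) * ∏ C ∈ P, hi C ≤
    ((1 / 2 : ℝ) ^ ((d + 1) * u) * (∏ C ∈ P, lo C) * (1 - 1 / 2 ^ k -
      (6 * (k * d) * (8 / 2 ^ κ) / 2 ^ k + 1 / 2 ^ (k + y + 20))) ^ B.card) ^ 4 *
      (1 / 2 : ℝ) ^ (2 * u)
  rw [← hf, ← hb]
  have h1 : (2 : ℝ) ^ (8 * (c * n)) ≤ Real.exp (-((4 * (d + 1) + 2) * u : ℝ)) *
      Real.exp (3 * q * s - 10 * (w * q) * r) * Real.exp (-(5 * q) * b) := by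
    refine (num_two (by positivity)).trans ?_
    rw [← Real.exp_add, ← Real.exp_add]
    exact Real.exp_le_exp.2 (by linarith)
  calc (2 : ℝ) ^ (8 * (c * n)) * ∏ C ∈ P, hi C
      ≤ (Real.exp (-((4 * (d + 1) + 2) * u : ℝ)) *
        Real.exp (3 * q * s - 10 * (w * q) * r) * Real.exp (-(5 * q) * b)) * ∏ C ∈ P, hi C :=
        mul_le_mul_of_nonneg_right h1 hhi0
    _ = Real.exp (-((4 * (d + 1) + 2) * u : ℝ)) *
        (((∏ C ∈ P, hi C) * Real.exp (3 * q * s - 10 * (w * q) * r)) *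
          Real.exp (-(5 * q) * b)) := by ring
    _ ≤ (((1 / 2 : ℝ) ^ ((d + 1) * u)) ^ 4 * (1 / 2) ^ (2 * u)) *
        ((∏ C ∈ P, lo C) ^ 4 * (f ^ b) ^ 4) := by
        refine mul_le_mul hhalf (mul_le_mul hprod hfb (Real.exp_pos _).le (by positivity))
          (mul_nonneg (mul_nonneg hhi0 (Real.exp_pos _).le) (Real.exp_pos _).le) (by positivity)
    _ = _ := by ring

end Pool.Agent.SEL
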