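import Pool.Agent.SEL.St

/-!
# SEL [Par]: elimination of the sum in the partial count
-/

set_option autoImplicit false

namespace Pool.Agent.SEL

open Finset Pool.Agent.VD

/-- the values of the coordinates in `T` are changed -/
def ParFlip {n : ℕ} (T : Finset (Fin n)) (x : Cube n) : Cube n :=
  fun v => if v ∈ T then !x v else x v

theorem ParFlip_invol {n : ℕ} (T : Finset (Fin n)) : Function.Involutive (ParFlip T) := by
  intro x
  funext v
  by_cases h : v ∈ T <;> simp [ParFlip, h]

theorem Par_part {n : ℕ} (A : Finset (Finset (Fin n))) (Y : Finset (Fin n)) (w : Cube n) :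
    (part A Y w : ℝ) = ∑ T ∈ Y.powerset, ind A (ParFlip T w) := by
  classical
  have h1 : (part A Y w : ℝ) =
      ∑ y ∈ univ.filter (fun y : Cube n => ∀ v, v ∉ Y → y v = w v), ind A y := by
    unfold part ind
    rw [Finset.sum_ite, Finset.sum_const_zero, add_zero, Finset.sum_const, nsmul_eq_mul, mul_one,
      Finset.filter_filter]
  rw [h1]
  refine Finset.sum_bij' (fun y _ => Y.filter fun v => y v ≠ w v) (fun T _ => ParFlip T w)
    ?_ ?_ ?_ ?_ ?_
  · intro y _
    exact Finset.mem_powerset.2 (Finset.filter_subset _ _)
  · intro T hT
    rw [Finset.mem_powerset] at hT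
    simp only [Finset.mem_filter, Finset.mem_univ, true_and]
    intro v hv
    have : v ∉ T := fun h => hv (hT h)
    simp [ParFlip, this]
  · intro y hy
    simp only [Finset.mem_filter, Finset.mem_univ, true_and] at hy
    funext v
    by_cases hv : v ∈ Y
    · by_cases h : y v = w v
      · simp [ParFlip, hv, h]
      · have h2 : (!w v) = y v := by
          revert h; cases y v <;> cases w v <;> simp
        simp [ParFlip, hv, h, h2]
    · simp [ParFlip, hv, hy v hv]
  · intro T hT
    rw [Finset.mem_powerset] at hT
    ext v
    simp only [Finset.mem_filter]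
    constructor
    · rintro ⟨_, h⟩
      by_contra hv
      exact h (by simp [ParFlip, hv])
    · intro hv
      refine ⟨hT hv, ?_⟩
      simp [ParFlip, hv]
  · intro y hy
    simp only [Finset.mem_filter, Finset.mem_univ, true_and] at hy
    congr 1
    funext v
    by_cases hv : v ∈ Y
    · by_cases h : y v = w v
      · simp [ParFlip, hv, h]
      · have h2 : (!w v) = y v := by
          revert h; cases y v <;> cases w v <;> simp
        simp [ParFlip, hv, h, h2]
    · simp [ParFlip, hv, hy v hv]

theorem thm_Par : St_Par := by
  intro n A Y U ζ g hg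
  classical
  have key : ∑ x : Cube n, g x * (part A Y ((U \ Y).piecewise ζ x) : ℝ) =
      2 ^ Y.card * ∑ x : Cube n, g x * ind A ((U \ Y).piecewise ζ x) := by
    calc ∑ x : Cube n, g x * (part A Y ((U \ Y).piecewise ζ x) : ℝ)
        = ∑ x : Cube n, ∑ T ∈ Y.powerset, g x * ind A (ParFlip T ((U \ Y).piecewise ζ x)) := by
          refine Finset.sum_congr rfl fun x _ => ?_
          rw [Par_part, Finset.mul_sum]
      _ = ∑ T ∈ Y.powerset, ∑ x : Cube n, g x * ind A (ParFlip T ((U \ Y).piecewise ζ x)) :=
          Finset.sum_comm
      _ = ∑ T ∈ Y.powerset, ∑ x : Cube n, g x * ind A ((U \ Y).piecewise ζ x) := by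
          refine Finset.sum_congr rfl fun T hT => ?_
          rw [Finset.mem_powerset] at hT
          rw [← Equiv.sum_comp (Function.Involutive.toPerm (ParFlip T) (ParFlip_invol T)) fun x => g x * ind A ((U \ Y).piecewise ζ x)]
          refine Finset.sum_congr rfl fun x _ => ?_
          have e1 : g (ParFlip T x) = g x := by
            refine hg _ _ ?_
            intro v hv
            have : v ∉ T := by
              intro h
              have := hT h
              simp [this] at hv
            simp [ParFlip, this]
          have e2 : (U \ Y).piecewise ζ (ParFlip T x) =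
              ParFlip T ((U \ Y).piecewise ζ x) := by
            funext v
            by_cases hv : v ∈ T
            · have h2 : v ∉ U \ Y := by
                simp [hT hv]
              simp [ParFlip, hv, Finset.piecewise, h2]
            · by_cases h2 : v ∈ U \ Y
              · simp [ParFlip, hv, Finset.piecewise]
              · simp [ParFlip, hv, Finset.piecewise]
          change _ = g (ParFlip T x) * ind A ((U \ Y).piecewise ζ (ParFlip T x))
          rw [e1, e2]
      _ = 2 ^ Y.card * ∑ x : Cube n, g x * ind A ((U \ Y).piecewise ζ x) := by
          rw [Finset.sum_const, Finset.card_powerset, nsmul_eq_mul]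
          push_cast
          ring
  unfold av
  rw [key, mul_div_assoc]

end Pool.Agent.SEL
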