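import Pool.Agent.SEL.St

/-!
# SEL: module R12

First moment bounds: few random clauses have a repeated variable, and few share two variables
with another clause.
-/

set_option autoImplicit false

namespace Pool.Agent.SEL

open Finset Pool.Agent.VD

/-- Markov -/
theorem R12_typ {m k n : ℕ} (bad : Fin m → Cfg m k n → Prop)
    (h : ∀ i, ∀ T : Finset (Cfg m k n), (∀ c ∈ T, bad i c) → 112 * T.card ≤ (n ^ k) ^ m) :
    Typ m k n fun c => ∀ B : Finset (Fin m), (∀ i ∈ B, bad i c) → 16 * B.card ≤ m := by
  classical
  intro Bad hBad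
  have h1 : ∀ c ∈ Bad, m ≤ 16 * (univ.filter fun i => bad i c).card := by
    intro c hc
    have h2 := hBad c hc
    push Not at h2
    obtain ⟨B, hB, hm⟩ := h2
    have h3 : B.card ≤ (univ.filter fun i => bad i c).card := by
      apply card_le_card
      intro i hi
      simp [hB i hi]
    omega
  rcases Nat.eq_zero_or_pos m with hm | hm
  · have h4 : Bad = ∅ := by
      apply eq_empty_of_forall_notMem
      intro c hc
      have h2 := hBad c hc
      push Not at h2
      obtain ⟨B, hB, hm'⟩ := h2
      have h5 : B.card ≤ m := by simpa using card_le_univ B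
      omega
    simp [h4]
  · have h5 : m * Bad.card ≤ 16 * ∑ i : Fin m, (Bad.filter fun c => bad i c).card := by
      calc m * Bad.card = ∑ c ∈ Bad, m := by simp [mul_comm]
        _ ≤ ∑ c ∈ Bad, 16 * (univ.filter fun i => bad i c).card := sum_le_sum h1
        _ = 16 * ∑ c ∈ Bad, (univ.filter fun i => bad i c).card := by rw [mul_sum]
        _ = 16 * ∑ i : Fin m, (Bad.filter fun c => bad i c).card := by
            congr 1
            simp only [card_filter]
            exact sum_comm
    have h6 : 7 * (16 * ∑ i : Fin m, (Bad.filter fun c => bad i c).card) ≤ m * (n ^ k) ^ m := by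
      calc 7 * (16 * ∑ i : Fin m, (Bad.filter fun c => bad i c).card)
          = ∑ i : Fin m, 112 * (Bad.filter fun c => bad i c).card := by
            rw [← mul_sum]; ring
        _ ≤ ∑ i : Fin m, (n ^ k) ^ m := by
            apply sum_le_sum
            intro i _
            exact h i _ fun c hc => (mem_filter.mp hc).2
        _ = m * (n ^ k) ^ m := by simp
    have h7 : m * (7 * Bad.card) ≤ m * (n ^ k) ^ m := by
      calc m * (7 * Bad.card) = 7 * (m * Bad.card) := by ring
        _ ≤ 7 * (16 * ∑ i : Fin m, (Bad.filter fun c => bad i c).card) :=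
            Nat.mul_le_mul_left _ h5
        _ ≤ _ := h6
    exact Nat.le_of_mul_le_mul_left h7 hm

theorem R12_card (m k n : ℕ) : Fintype.card (Cfg m k n) = (n ^ k) ^ m := by
  simp [Cfg]

/-- one repeated variable -/
theorem R12_one {m k n : ℕ} (i : Fin m) (a b : Fin k) (hab : a ≠ b) (T : Finset (Cfg m k n))
    (hT : ∀ c ∈ T, c i a = c i b) : T.card * n ≤ (n ^ k) ^ m := by
  classical
  have h1 : (T ×ˢ (univ : Finset (Fin n))).card ≤ (univ : Finset (Cfg m k n)).card := by
    apply card_le_card_of_injOn
      (fun p : Cfg m k n × Fin n => Function.update p.1 i (Function.update (p.1 i) a p.2))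
      (fun _ _ => by simp)
    rintro ⟨c, u⟩ hc ⟨c', u'⟩ hc' he
    simp only [coe_product, Set.mem_prod, mem_coe] at hc hc'
    have hc1 := hT c hc.1
    have hc2 := hT c' hc'.1
    have e1 : ∀ j x, Function.update c i (Function.update (c i) a u) j x =
        Function.update c' i (Function.update (c' i) a u') j x := by
      intro j x
      exact congrFun (congrFun he j) x
    have e2 : u = u' := by simpa using e1 i a
    have e3 : ∀ j, j ≠ i → ∀ x, c j x = c' j x := by
      intro j hj x
      simpa [hj] using e1 j x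
    have e4 : ∀ x, x ≠ a → c i x = c' i x := by
      intro x hx
      simpa [hx] using e1 i x
    have e5 : c = c' := by
      funext j x
      by_cases hj : j = i
      · subst hj
        by_cases hx : x = a
        · subst hx
          rw [hc1, hc2]
          exact e4 b hab.symm
        · exact e4 x hx
      · exact e3 j hj x
    rw [e2, e5]
  rw [card_product, card_univ, card_univ, R12_card, Fintype.card_fin] at h1
  exact h1

/-- two common variables -/
theorem R12_two {m k n : ℕ} (i i' : Fin m) (hi : i' ≠ i) (a b a' b' : Fin k) (hab : a ≠ b)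
    (T : Finset (Cfg m k n)) (hT : ∀ c ∈ T, c i a = c i' a' ∧ c i b = c i' b') :
    T.card * (n * n) ≤ (n ^ k) ^ m := by
  classical
  have h1 : (T ×ˢ (univ : Finset (Fin n × Fin n))).card ≤ (univ : Finset (Cfg m k n)).card := by
    apply card_le_card_of_injOn
      (fun p : Cfg m k n × (Fin n × Fin n) => Function.update p.1 i
        (Function.update (Function.update (p.1 i) a p.2.1) b p.2.2))
      (fun _ _ => by simp)
    rintro ⟨c, u, v⟩ hc ⟨c', u', v'⟩ hc' he
    simp only [coe_product, Set.mem_prod, mem_coe] at hc hc'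
    obtain ⟨hc1, hc2⟩ := hT c hc.1
    obtain ⟨hc3, hc4⟩ := hT c' hc'.1
    have e1 : ∀ j x, Function.update c i (Function.update (Function.update (c i) a u) b v) j x =
        Function.update c' i (Function.update (Function.update (c' i) a u') b v') j x := by
      intro j x
      exact congrFun (congrFun he j) x
    have e2 : u = u' := by simpa [hab] using e1 i a
    have e2' : v = v' := by simpa using e1 i b
    have e3 : ∀ j, j ≠ i → ∀ x, c j x = c' j x := by
      intro j hj x
      simpa [hj] using e1 j x
    have e4 : ∀ x, x ≠ a → x ≠ b → c i x = c' i x := by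
      intro x hx hx'
      simpa [hx, hx'] using e1 i x
    have e5 : c = c' := by
      funext j x
      by_cases hj : j = i
      · subst hj
        by_cases hx : x = a
        · subst hx
          rw [hc1, hc3]
          exact e3 _ hi _
        · by_cases hx' : x = b
          · subst hx'
            rw [hc2, hc4]
            exact e3 _ hi _
          · exact e4 x hx hx'
      · exact e3 j hj x
    rw [e2, e2', e5]
  rw [card_product, card_univ, card_univ, R12_card, Fintype.card_prod, Fintype.card_fin] at h1
  exact h1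

theorem thm_R1 : St_R1 := by
  classical
  intro k q hq
  refine ⟨112 * (k * k) + 1, fun n hn => R12_typ _ fun i T hT => ?_⟩
  have h1 : T ⊆ ((univ : Finset (Fin k × Fin k)).filter fun p => p.1 ≠ p.2).biUnion
      fun p => T.filter fun c => c i p.1 = c i p.2 := by
    intro c hc
    have h2 := hT c hc
    rw [Function.Injective] at h2
    push Not at h2
    obtain ⟨a, b, h3, h4⟩ := h2
    simp only [mem_biUnion, mem_filter, mem_univ, true_and]
    exact ⟨(a, b), h4, hc, h3⟩
  have h2 : T.card * n ≤ k * k * (n ^ k) ^ (n / (128 * q)) := by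
    calc T.card * n ≤ (∑ p ∈ (univ : Finset (Fin k × Fin k)).filter fun p => p.1 ≠ p.2,
          (T.filter fun c => c i p.1 = c i p.2).card) * n :=
          Nat.mul_le_mul_right _ ((card_le_card h1).trans card_biUnion_le)
      _ = ∑ p ∈ (univ : Finset (Fin k × Fin k)).filter fun p => p.1 ≠ p.2,
          (T.filter fun c => c i p.1 = c i p.2).card * n := by rw [sum_mul]
      _ ≤ ∑ p ∈ (univ : Finset (Fin k × Fin k)).filter fun p => p.1 ≠ p.2,
          (n ^ k) ^ (n / (128 * q)) := by
          apply sum_le_sum
          intro p hp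
          exact R12_one i p.1 p.2 (mem_filter.mp hp).2 _ fun c hc => (mem_filter.mp hc).2
      _ ≤ ∑ p : Fin k × Fin k, (n ^ k) ^ (n / (128 * q)) :=
          sum_le_sum_of_subset (filter_subset _ _)
      _ = _ := by simp
  have hn0 : 0 < n := by omega
  have h3 : 112 * T.card * n ≤ (n ^ k) ^ (n / (128 * q)) * n := by
    calc 112 * T.card * n = 112 * (T.card * n) := by ring
      _ ≤ 112 * (k * k * (n ^ k) ^ (n / (128 * q))) := Nat.mul_le_mul_left _ h2
      _ = (n ^ k) ^ (n / (128 * q)) * (112 * (k * k)) := by ring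
      _ ≤ (n ^ k) ^ (n / (128 * q)) * n := Nat.mul_le_mul_left _ (by omega)
  exact Nat.le_of_mul_le_mul_right h3 hn0

theorem thm_R2 : St_R2 := by
  classical
  intro k q hq
  refine ⟨112 * (k * k * (k * k)) + 1, fun n hn => R12_typ (fun i c => ∃ i', i' ≠ i ∧
      ∃ a b a' b', c i a ≠ c i b ∧ c i a = c i' a' ∧ c i b = c i' b') fun i T hT => ?_⟩
  have h1 : T ⊆ ((univ : Finset (Fin (n / (128 * q)) × ((Fin k × Fin k) × (Fin k × Fin k)))).filter
      fun p => p.1 ≠ i ∧ p.2.1.1 ≠ p.2.1.2).biUnion
      fun p => T.filter fun c => c i p.2.1.1 = c p.1 p.2.2.1 ∧ c i p.2.1.2 = c p.1 p.2.2.2 := by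
    intro c hc
    obtain ⟨i', hi, a, b, a', b', h2, h3, h4⟩ := hT c hc
    simp only [mem_biUnion, mem_filter, mem_univ, true_and]
    refine ⟨(i', (a, b), (a', b')), ⟨hi, ?_⟩, hc, h3, h4⟩
    intro h5
    simp only at h5
    rw [h5] at h2
    exact h2 rfl
  have h2 : T.card * (n * n) ≤ n / (128 * q) * (k * k * (k * k)) *
      (n ^ k) ^ (n / (128 * q)) := by
    calc T.card * (n * n) ≤ (∑ p ∈ (univ : Finset (Fin (n / (128 * q)) ×
          ((Fin k × Fin k) × (Fin k × Fin k)))).filter fun p => p.1 ≠ i ∧ p.2.1.1 ≠ p.2.1.2,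
          (T.filter fun c => c i p.2.1.1 = c p.1 p.2.2.1 ∧
            c i p.2.1.2 = c p.1 p.2.2.2).card) * (n * n) :=
          Nat.mul_le_mul_right _ ((card_le_card h1).trans card_biUnion_le)
      _ = ∑ p ∈ (univ : Finset (Fin (n / (128 * q)) ×
          ((Fin k × Fin k) × (Fin k × Fin k)))).filter fun p => p.1 ≠ i ∧ p.2.1.1 ≠ p.2.1.2,
          (T.filter fun c => c i p.2.1.1 = c p.1 p.2.2.1 ∧
            c i p.2.1.2 = c p.1 p.2.2.2).card * (n * n) := by rw [sum_mul]
      _ ≤ ∑ p ∈ (univ : Finset (Fin (n / (128 * q)) ×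
          ((Fin k × Fin k) × (Fin k × Fin k)))).filter fun p => p.1 ≠ i ∧ p.2.1.1 ≠ p.2.1.2,
          (n ^ k) ^ (n / (128 * q)) := by
          apply sum_le_sum
          intro p hp
          obtain ⟨h3, h4⟩ := (mem_filter.mp hp).2
          exact R12_two i p.1 h3 p.2.1.1 p.2.1.2 p.2.2.1 p.2.2.2 h4 _
            fun c hc => (mem_filter.mp hc).2
      _ ≤ ∑ p : Fin (n / (128 * q)) × ((Fin k × Fin k) × (Fin k × Fin k)),
          (n ^ k) ^ (n / (128 * q)) :=
          sum_le_sum_of_subset (filter_subset _ _)
      _ = _ := by simp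
  have hn0 : 0 < n * n := by
    have : 0 < n := by omega
    positivity
  have hm : n / (128 * q) ≤ n := Nat.div_le_self _ _
  have h3 : 112 * T.card * (n * n) ≤ (n ^ k) ^ (n / (128 * q)) * (n * n) := by
    calc 112 * T.card * (n * n) = 112 * (T.card * (n * n)) := by ring
      _ ≤ 112 * (n / (128 * q) * (k * k * (k * k)) * (n ^ k) ^ (n / (128 * q))) :=
          Nat.mul_le_mul_left _ h2
      _ = (n ^ k) ^ (n / (128 * q)) * (n / (128 * q) * (112 * (k * k * (k * k)))) := by ring
      _ ≤ (n ^ k) ^ (n / (128 * q)) * (n * n) :=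
          Nat.mul_le_mul_left _ (Nat.mul_le_mul hm (by omega))
  exact Nat.le_of_mul_le_mul_right h3 hn0

end Pool.Agent.SEL
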