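import Pool.Agent.SEL.St

/-!
# Most clauses have no variable which occurs often
-/

set_option autoImplicit false

namespace Pool.Agent.SEL

open Finset

/-- a numerical estimate -/
private theorem R3_num (q : ℕ) (hq : 1 ≤ q) :
    7 * (16 * (128 * q ^ 2)) * q ^ (16 * q) ≤ (16 * q).factorial := by
  have h1 : ((16 * q : ℕ) : ℝ) ^ (16 * q) / ((16 * q).factorial : ℕ) ≤ Real.exp ((16 * q : ℕ) : ℝ) :=
    Real.pow_div_factorial_le_exp _ (Nat.cast_nonneg _) _
  have h2 : Real.exp ((16 * q : ℕ) : ℝ) ≤ 3 ^ (16 * q) := by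
    rw [← Real.exp_one_pow]
    exact pow_le_pow_left₀ (Real.exp_pos 1).le (by linarith [Real.exp_one_lt_d9]) _
  have h3 : (16 * q) ^ (16 * q) ≤ 3 ^ (16 * q) * (16 * q).factorial := by
    have h4 := h1.trans h2
    rw [div_le_iff₀ (by exact_mod_cast Nat.factorial_pos _)] at h4
    exact_mod_cast h4
  have h5 : q ^ 2 ≤ 5 ^ (8 * q) := by
    have h6 : q ≤ 5 ^ q := (Nat.lt_pow_self (by norm_num)).le
    calc q ^ 2 ≤ (5 ^ q) ^ 2 := Nat.pow_le_pow_left h6 2
      _ = 5 ^ (q * 2) := by rw [← pow_mul]
      _ ≤ 5 ^ (8 * q) := Nat.pow_le_pow_right (by norm_num) (by omega)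
  have h7 : 7 * (16 * 128) ≤ 5 ^ (8 * q) := by
    calc 7 * (16 * 128) ≤ 5 ^ 8 := by norm_num
      _ ≤ 5 ^ (8 * q) := Nat.pow_le_pow_right (by norm_num) (by omega)
  have h8 : 7 * (16 * (128 * q ^ 2)) ≤ 5 ^ (16 * q) := by
    calc 7 * (16 * (128 * q ^ 2)) = (7 * (16 * 128)) * q ^ 2 := by ring
      _ ≤ 5 ^ (8 * q) * 5 ^ (8 * q) := Nat.mul_le_mul h7 h5
      _ = 5 ^ (16 * q) := by rw [← pow_add]; congr 1; ring
  have h9 : 3 ^ (16 * q) * (7 * (16 * (128 * q ^ 2)) * q ^ (16 * q)) ≤
      3 ^ (16 * q) * (16 * q).factorial := by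
    calc 3 ^ (16 * q) * (7 * (16 * (128 * q ^ 2)) * q ^ (16 * q))
        ≤ 3 ^ (16 * q) * (5 ^ (16 * q) * q ^ (16 * q)) :=
          Nat.mul_le_mul_left _ (Nat.mul_le_mul_right _ h8)
      _ = (3 * 5 * q) ^ (16 * q) := by rw [mul_pow, mul_pow]; ring
      _ ≤ (16 * q) ^ (16 * q) := Nat.pow_le_pow_left (Nat.mul_le_mul_right _ (by norm_num)) _
      _ ≤ _ := h3
  exact Nat.le_of_mul_le_mul_left h9 (by positivity)

/-- the functions which are constant on a set -/
private theorem R3_const {P α : Type} [Fintype P] [DecidableEq P] [Fintype α] [DecidableEq α]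
    (p₀ : P) (T : Finset P) (hT : p₀ ∉ T) :
    (univ.filter fun c : P → α => ∀ p ∈ T, c p = c p₀).card * Fintype.card α ^ T.card ≤
      Fintype.card α ^ Fintype.card P := by
  have h1 : (univ : Finset (T → α)).card = Fintype.card α ^ T.card := by
    rw [card_univ, Fintype.card_fun, Fintype.card_coe]
  have h2 : (univ : Finset (P → α)).card = Fintype.card α ^ Fintype.card P := by
    rw [card_univ, Fintype.card_fun]
  rw [← h1, ← h2, ← card_product]
  refine card_le_card_of_injOn (fun x p => if h : p ∈ T then x.2 ⟨p, h⟩ else x.1 p)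
    (fun _ _ => mem_coe.2 (mem_univ _)) ?_
  rintro ⟨c, f⟩ hc ⟨c', f'⟩ hc' h
  have hc1 := (mem_filter.1 (mem_product.1 (mem_coe.1 hc)).1).2
  have hc2 := (mem_filter.1 (mem_product.1 (mem_coe.1 hc')).1).2
  simp only at h hc1 hc2
  have h3 : ∀ p, p ∉ T → c p = c' p := fun p hp => by
    have := congrFun h p
    simpa [hp] using this
  have h4 : c = c' := by
    funext p
    by_cases hp : p ∈ T
    · rw [hc1 p hp, hc2 p hp, h3 p₀ hT]
    · exact h3 p hp
  have h5 : f = f' := by
    funext p
    have := congrFun h p.1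
    simpa [p.2] using this
  rw [h4, h5]

/-- the functions which take the value at a given place often -/
private theorem R3_heavy {P α : Type} [Fintype P] [DecidableEq P] [Fintype α] [DecidableEq α]
    (p₀ : P) (r q : ℕ) (hP : Fintype.card P ≤ q * Fintype.card α) (hα : 0 < Fintype.card α) :
    r.factorial * (univ.filter fun c : P → α => r < (univ.filter fun p => c p = c p₀).card).card ≤
      q ^ r * Fintype.card α ^ Fintype.card P := by
  have h1 : (univ.filter fun c : P → α => r < (univ.filter fun p => c p = c p₀).card) ⊆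
      (powersetCard r (univ.erase p₀)).biUnion
        fun T => univ.filter fun c : P → α => ∀ p ∈ T, c p = c p₀ := by
    intro c hc
    have hc1 := (mem_filter.1 hc).2
    have h2 : r ≤ ((univ.filter fun p => c p = c p₀).erase p₀).card := by
      have h3 : p₀ ∈ univ.filter fun p => c p = c p₀ := mem_filter.2 ⟨mem_univ _, rfl⟩
      rw [card_erase_of_mem h3]
      omega
    obtain ⟨T, hT1, hT2⟩ := exists_subset_card_eq h2
    refine mem_biUnion.2 ⟨T, mem_powersetCard.2 ⟨?_, hT2⟩, mem_filter.2 ⟨mem_univ _, ?_⟩⟩
    · exact hT1.trans (erase_subset_erase _ (filter_subset _ _))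
    · intro p hp
      exact (mem_filter.1 (mem_of_mem_erase (hT1 hp))).2
  have h2 : (univ.filter fun c : P → α => r < (univ.filter fun p => c p = c p₀).card).card *
      Fintype.card α ^ r ≤ (Fintype.card P - 1).choose r * Fintype.card α ^ Fintype.card P := by
    calc (univ.filter fun c : P → α => r < (univ.filter fun p => c p = c p₀).card).card *
          Fintype.card α ^ r
        ≤ (∑ T ∈ powersetCard r (univ.erase p₀),
            (univ.filter fun c : P → α => ∀ p ∈ T, c p = c p₀).card) * Fintype.card α ^ r :=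
          Nat.mul_le_mul_right _ ((card_le_card h1).trans card_biUnion_le)
      _ = ∑ T ∈ powersetCard r (univ.erase p₀),
            (univ.filter fun c : P → α => ∀ p ∈ T, c p = c p₀).card * Fintype.card α ^ r := by
          rw [sum_mul]
      _ ≤ ∑ T ∈ powersetCard r (univ.erase p₀), Fintype.card α ^ Fintype.card P := by
          apply sum_le_sum
          intro T hT
          obtain ⟨hT1, hT2⟩ := mem_powersetCard.1 hT
          have := R3_const (α := α) p₀ T fun h => notMem_erase _ _ (hT1 h)
          rwa [hT2] at this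
      _ = _ := by
          rw [sum_const, smul_eq_mul, card_powersetCard, card_erase_of_mem (mem_univ _), card_univ]
  have h3 : r.factorial * (Fintype.card P - 1).choose r ≤ (q * Fintype.card α) ^ r := by
    rw [← Nat.descFactorial_eq_factorial_mul_choose]
    exact (Nat.descFactorial_le_pow _ _).trans (Nat.pow_le_pow_left ((Nat.sub_le _ _).trans hP) _)
  have h4 : Fintype.card α ^ r * (r.factorial *
      (univ.filter fun c : P → α => r < (univ.filter fun p => c p = c p₀).card).card) ≤
      Fintype.card α ^ r * (q ^ r * Fintype.card α ^ Fintype.card P) := by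
    calc Fintype.card α ^ r * (r.factorial *
          (univ.filter fun c : P → α => r < (univ.filter fun p => c p = c p₀).card).card)
        = r.factorial *
          ((univ.filter fun c : P → α => r < (univ.filter fun p => c p = c p₀).card).card *
            Fintype.card α ^ r) := by ring
      _ ≤ r.factorial * ((Fintype.card P - 1).choose r * Fintype.card α ^ Fintype.card P) :=
          Nat.mul_le_mul_left _ h2
      _ = (r.factorial * (Fintype.card P - 1).choose r) * Fintype.card α ^ Fintype.card P := by ring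
      _ ≤ (q * Fintype.card α) ^ r * Fintype.card α ^ Fintype.card P := Nat.mul_le_mul_right _ h3
      _ = _ := by rw [mul_pow]; ring
  exact Nat.le_of_mul_le_mul_left h4 (pow_pos hα _)

private theorem R3_main (q n m k : ℕ) (hq : 1 ≤ q) (hm : 128 * q * m ≤ n) (hk : k = 128 * q ^ 2)
    (Bad : Finset (Cfg m k n)) (hBad : ∀ c ∈ Bad, ∃ B : Finset (Fin m), (∀ i ∈ B, ∃ j,
      16 * q < (univ.filter fun p : Fin m × Fin k => c p.1 p.2 = c i j).card) ∧
      m < 16 * B.card) : 7 * Bad.card ≤ (n ^ k) ^ m := by
  classical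
  rcases Nat.eq_zero_or_pos m with hm0 | hm0
  · -- no clauses
    have h1 : Bad = ∅ := by
      rw [eq_empty_iff_forall_notMem]
      intro c hc
      obtain ⟨B, -, hB⟩ := hBad c hc
      have h2 := card_le_univ B
      rw [Fintype.card_fin] at h2
      omega
    rw [h1, card_empty]
    exact Nat.zero_le _
  have hn0 : 0 < n := by
    have h1 : 0 < 128 * q * m := by positivity
    omega
  set H : Fin m × Fin k → Cfg m k n → Prop := fun p c =>
    16 * q < (univ.filter fun p' : Fin m × Fin k => c p'.1 p'.2 = c p.1 p.2).card with hH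
  -- the number of configurations with a given heavy place
  have h1 : ∀ p : Fin m × Fin k, (16 * q).factorial * (univ.filter (H p)).card ≤
      q ^ (16 * q) * n ^ (m * k) := by
    intro p
    have hmk : Fintype.card (Fin m × Fin k) ≤ q * Fintype.card (Fin n) := by
      rw [Fintype.card_prod, Fintype.card_fin, Fintype.card_fin, Fintype.card_fin]
      calc m * k = (128 * q * m) * q := by rw [hk]; ring
        _ ≤ n * q := Nat.mul_le_mul_right _ hm
        _ = q * n := mul_comm _ _
    have h2 := R3_heavy (P := Fin m × Fin k) (α := Fin n) p (16 * q) q hmk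
      (by rw [Fintype.card_fin]; exact hn0)
    rw [Fintype.card_prod, Fintype.card_fin, Fintype.card_fin, Fintype.card_fin] at h2
    refine le_trans (Nat.mul_le_mul_left _ ?_) h2
    refine card_le_card_of_injOn (fun c p => c p.1 p.2) ?_ ?_
    · intro c hc
      have hc1 := (mem_filter.1 (mem_coe.1 hc)).2
      exact mem_coe.2 (mem_filter.2 ⟨mem_univ _, hc1⟩)
    · intro c _ c' _ h
      funext i j
      exact congrFun h (i, j)
  -- a bad configuration has many heavy places
  have h2 : ∀ c ∈ Bad, m ≤ 16 * (univ.filter fun p => H p c).card := by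
    intro c hc
    obtain ⟨B, hB1, hB2⟩ := hBad c hc
    have h4 : B.card ≤ (univ.filter fun p => H p c).card := by
      choose j hj using hB1
      have h5 : B.attach.card ≤ (univ.filter fun p => H p c).card := by
        refine card_le_card_of_injOn (fun i => (i.1, j i.1 i.2)) ?_ ?_
        · intro i _
          exact mem_coe.2 (mem_filter.2 ⟨mem_univ _, hj i.1 i.2⟩)
        · intro i _ i' _ h
          exact Subtype.ext (congrArg Prod.fst h)
      rwa [card_attach] at h5
    omega
  have h3 : m * Bad.card ≤ 16 * ∑ p : Fin m × Fin k, (univ.filter (H p)).card := by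
    calc m * Bad.card = ∑ c ∈ Bad, m := by rw [sum_const, smul_eq_mul, mul_comm]
      _ ≤ ∑ c ∈ Bad, 16 * (univ.filter fun p => H p c).card := sum_le_sum h2
      _ ≤ ∑ c, 16 * (univ.filter fun p => H p c).card :=
          sum_le_sum_of_subset (subset_univ _)
      _ = 16 * ∑ c, (univ.filter fun p => H p c).card := by rw [mul_sum]
      _ = 16 * ∑ p : Fin m × Fin k, (univ.filter (H p)).card := by
          congr 1
          simp only [card_filter]
          rw [sum_comm]
  have h4 : m * ((16 * q).factorial * (7 * Bad.card)) ≤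
      m * ((16 * q).factorial * n ^ (m * k)) := by
    calc m * ((16 * q).factorial * (7 * Bad.card))
        = 7 * (16 * q).factorial * (m * Bad.card) := by ring
      _ ≤ 7 * (16 * q).factorial * (16 * ∑ p : Fin m × Fin k, (univ.filter (H p)).card) :=
          Nat.mul_le_mul_left _ h3
      _ = 7 * 16 * ∑ p : Fin m × Fin k, (16 * q).factorial * (univ.filter (H p)).card := by
          rw [← mul_sum]
          ring
      _ ≤ 7 * 16 * ∑ p : Fin m × Fin k, q ^ (16 * q) * n ^ (m * k) :=
          Nat.mul_le_mul_left _ (sum_le_sum fun p _ => h1 p)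
      _ = m * ((7 * (16 * (128 * q ^ 2)) * q ^ (16 * q)) * n ^ (m * k)) := by
          rw [sum_const, smul_eq_mul, card_univ, Fintype.card_prod, Fintype.card_fin,
            Fintype.card_fin, ← hk]
          ring
      _ ≤ m * ((16 * q).factorial * n ^ (m * k)) :=
          Nat.mul_le_mul_left _ (Nat.mul_le_mul_right _ (R3_num q hq))
  have h5 := Nat.le_of_mul_le_mul_left (Nat.le_of_mul_le_mul_left h4 hm0) (Nat.factorial_pos _)
  rw [← pow_mul, mul_comm k m]
  exact h5

theorem thm_R3 : St_R3 := by
  intro q n hq Bad hBad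
  refine R3_main q n _ _ hq (Nat.mul_div_le n (128 * q)) rfl Bad fun c hc => ?_
  have h3 := hBad c hc
  push Not at h3
  exact h3

end Pool.Agent.SEL
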