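import Pool.Agent.SEL.St

/-!
# SEL [R4]: each balanced set splits most clauses
-/

set_option autoImplicit false

namespace Pool.Agent.SEL

open Finset Pool.Agent.VD

theorem R4_pi {ι α : Type} [Fintype ι] [DecidableEq ι] [Fintype α] [DecidableEq α]
    (D : Finset ι) (U T : Finset α) :
    (Fintype.piFinset fun j => if j ∈ D then U else T).card =
      U.card ^ D.card * T.card ^ (Fintype.card ι - D.card) := by
  classical
  rw [Fintype.card_piFinset]
  have h1 : ∀ j, (if j ∈ D then U else T).card = if j ∈ D then U.card else T.card := by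
    intro j
    split_ifs <;> rfl
  simp only [h1]
  rw [prod_ite, prod_const, prod_const]
  congr 2
  · rw [filter_mem_eq_inter, univ_inter]
  · rw [← card_compl]
    congr 1
    ext j
    simp

theorem R4_row {k n L : ℕ} (hL : L ≤ k) (S : Finset (Fin n)) :
    (univ.filter fun a : Fin k → Fin n => (univ.filter fun j => a j ∈ S).card < L).card ≤
      k ^ L * (n ^ L * Sᶜ.card ^ (k - L)) := by
  classical
  have h1 : (univ.filter fun a : Fin k → Fin n => (univ.filter fun j => a j ∈ S).card < L) ⊆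
      (powersetCard L (univ : Finset (Fin k))).biUnion fun D =>
        Fintype.piFinset fun j => if j ∈ D then univ else Sᶜ := by
    intro a ha
    have ha := (mem_filter.1 ha).2
    obtain ⟨D, hD1, hD2⟩ := exists_superset_card_eq (n := L) ha.le
      (by rw [Fintype.card_fin]; exact hL)
    refine mem_biUnion.2 ⟨D, mem_powersetCard.2 ⟨subset_univ _, hD2⟩, ?_⟩
    rw [Fintype.mem_piFinset]
    intro j
    split_ifs with hj
    · exact mem_univ _
    · rw [mem_compl]
      exact fun h => hj (hD1 (mem_filter.2 ⟨mem_univ _, h⟩))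
  refine (card_le_card h1).trans (card_biUnion_le.trans ?_)
  have h2 : ∀ D ∈ powersetCard L (univ : Finset (Fin k)),
      (Fintype.piFinset fun j => if j ∈ D then univ else Sᶜ).card ≤
        n ^ L * Sᶜ.card ^ (k - L) := by
    intro D hD
    rw [mem_powersetCard] at hD
    rw [R4_pi, hD.2, card_univ, Fintype.card_fin, Fintype.card_fin]
  refine (sum_le_sum h2).trans ?_
  rw [sum_const, card_powersetCard, card_univ, Fintype.card_fin, smul_eq_mul]
  exact Nat.mul_le_mul_right _ (Nat.choose_le_pow k L)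

/-- the fraction of the rows with few entries in `S` -/
theorem R4_row' {k n L e₀ : ℕ} (hL : L ≤ k) (he : 1 ≤ e₀) (S : Finset (Fin n))
    (hS : n ≤ e₀ * S.card) :
    ((univ.filter fun a : Fin k → Fin n => (univ.filter fun j => a j ∈ S).card < L).card : ℝ) ≤
      (k : ℝ) ^ L * (1 - 1 / e₀) ^ (k - L) * (n : ℝ) ^ k := by
  have h1 : ((univ.filter fun a : Fin k → Fin n =>
      (univ.filter fun j => a j ∈ S).card < L).card : ℝ) ≤
      (k : ℝ) ^ L * ((n : ℝ) ^ L * (Sᶜ.card : ℝ) ^ (k - L)) := by exact_mod_cast R4_row hL S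
  refine h1.trans ?_
  have he0 : (0 : ℝ) < e₀ := by exact_mod_cast he
  have h2 : (Sᶜ.card : ℝ) ≤ (1 - 1 / e₀) * n := by
    have h3 : S.card + Sᶜ.card = n := by rw [card_add_card_compl, Fintype.card_fin]
    have h4 : (S.card : ℝ) + Sᶜ.card = n := by exact_mod_cast h3
    have h5 : (n : ℝ) ≤ e₀ * S.card := by exact_mod_cast hS
    have h6 : (n : ℝ) / e₀ ≤ S.card := by
      rw [div_le_iff₀ he0]
      linarith
    have h7 : (1 - 1 / (e₀ : ℝ)) * n = n - n / e₀ := by ring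
    rw [h7]
    linarith
  have h3 : (Sᶜ.card : ℝ) ^ (k - L) ≤ ((1 - 1 / e₀) * n) ^ (k - L) :=
    pow_le_pow_left₀ (Nat.cast_nonneg _) h2 _
  calc (k : ℝ) ^ L * ((n : ℝ) ^ L * (Sᶜ.card : ℝ) ^ (k - L))
      ≤ (k : ℝ) ^ L * ((n : ℝ) ^ L * ((1 - 1 / e₀) * n) ^ (k - L)) := by
        apply mul_le_mul_of_nonneg_left _ (by positivity)
        exact mul_le_mul_of_nonneg_left h3 (by positivity)
    _ = (k : ℝ) ^ L * (1 - 1 / e₀) ^ (k - L) * ((n : ℝ) ^ L * (n : ℝ) ^ (k - L)) := by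
        rw [mul_pow]
        ring
    _ = (k : ℝ) ^ L * (1 - 1 / e₀) ^ (k - L) * (n : ℝ) ^ k := by
        rw [← pow_add, Nat.add_sub_cancel' hL]

/-- the numerical estimate -/
theorem R4_num (e₀ L M : ℕ) (he : 1 ≤ e₀) : ∃ q₀ : ℕ, ∀ q ≥ q₀, 1 ≤ q ∧ L ≤ 128 * q ^ 2 ∧
    2 * (((128 * q ^ 2 : ℕ) : ℝ) ^ L * (1 - 1 / e₀) ^ (128 * q ^ 2 - L)) ≤
      (1 / 2 : ℝ) ^ (1024 * q * M) := by
  have he0 : (1 : ℝ) ≤ e₀ := by exact_mod_cast he
  obtain ⟨C, hC⟩ : ∃ C : ℝ, C = 2 * (128 ^ L * (2 * L).factorial) := ⟨_, rfl⟩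
  have hC1 : 1 ≤ C := by
    have h1 : (1 : ℝ) ≤ 128 ^ L := one_le_pow₀ (by norm_num)
    have h2 : (1 : ℝ) ≤ (2 * L).factorial := by exact_mod_cast Nat.succ_le_of_lt (Nat.factorial_pos _)
    rw [hC]
    nlinarith
  have hlC : 0 ≤ Real.log C := Real.log_nonneg hC1
  obtain ⟨A, hA⟩ : ∃ A : ℝ, A = Real.log C + 1 + 1024 * M + L := ⟨_, rfl⟩
  have hM0 : (0 : ℝ) ≤ M := Nat.cast_nonneg _
  have hL0 : (0 : ℝ) ≤ L := Nat.cast_nonneg _
  refine ⟨⌈A * e₀⌉₊ + L + 1, fun q hq => ?_⟩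
  have hq1 : 1 ≤ q := by omega
  have hqL : L ≤ 128 * q ^ 2 := by nlinarith
  refine ⟨hq1, hqL, ?_⟩
  have hq1' : (1 : ℝ) ≤ q := by exact_mod_cast hq1
  have hqA : A * e₀ ≤ q := by
    have h1 : A * e₀ ≤ ⌈A * e₀⌉₊ := Nat.le_ceil _
    have h2 : (⌈A * e₀⌉₊ : ℝ) ≤ q := by
      have : ⌈A * e₀⌉₊ ≤ q := by omega
      exact_mod_cast this
    linarith
  have h1 : (((128 * q ^ 2 : ℕ) : ℝ)) ^ L ≤ 128 ^ L * ((2 * L).factorial * Real.exp q) := by
    have h2 : (q : ℝ) ^ (2 * L) ≤ (2 * L).factorial * Real.exp q := by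
      have h3 := Real.pow_div_factorial_le_exp (q : ℝ) (by linarith) (2 * L)
      rw [div_le_iff₀ (by positivity)] at h3
      linarith
    have h4 : (((128 * q ^ 2 : ℕ) : ℝ)) ^ L = 128 ^ L * (q : ℝ) ^ (2 * L) := by
      push_cast
      rw [mul_pow, ← pow_mul]
    rw [h4]
    exact mul_le_mul_of_nonneg_left h2 (by positivity)
  have h2 : (1 - 1 / (e₀ : ℝ)) ^ (128 * q ^ 2 - L) ≤
      Real.exp (-((128 * (q : ℝ) ^ 2 - L) / e₀)) := by
    have h3 : 1 - 1 / (e₀ : ℝ) ≤ Real.exp (-(1 / e₀)) := by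
      have := Real.add_one_le_exp (-(1 / (e₀ : ℝ)))
      linarith
    have h4 : 0 ≤ 1 - 1 / (e₀ : ℝ) := by
      rw [sub_nonneg, div_le_one (by linarith)]
      exact he0
    refine (pow_le_pow_left₀ h4 h3 _).trans (le_of_eq ?_)
    rw [← Real.exp_nat_mul]
    congr 1
    rw [Nat.cast_sub hqL]
    push_cast
    ring
  have h3 : (1 / 2 : ℝ) ^ (1024 * q * M) = Real.exp (-(1024 * q * M * Real.log 2)) := by
    rw [← Real.exp_log (show (0 : ℝ) < 1 / 2 by norm_num), ← Real.exp_nat_mul]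
    congr 1
    rw [Real.log_div (by norm_num) (by norm_num), Real.log_one]
    push_cast
    ring
  rw [h3]
  have hl2 : Real.log 2 ≤ 1 := by
    have := Real.log_two_lt_d9
    linarith
  have hl20 : 0 ≤ Real.log 2 := Real.log_nonneg (by norm_num)
  calc 2 * (((128 * q ^ 2 : ℕ) : ℝ) ^ L * (1 - 1 / e₀) ^ (128 * q ^ 2 - L))
      ≤ 2 * ((128 ^ L * ((2 * L).factorial * Real.exp q)) *
          Real.exp (-((128 * (q : ℝ) ^ 2 - L) / e₀))) := by
        have h5 : 0 ≤ 1 - 1 / (e₀ : ℝ) := by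
          rw [sub_nonneg, div_le_one (by linarith)]
          exact he0
        apply mul_le_mul_of_nonneg_left _ (by norm_num)
        exact mul_le_mul h1 h2 (pow_nonneg h5 _) (by positivity)
    _ = C * Real.exp q * Real.exp (-((128 * (q : ℝ) ^ 2 - L) / e₀)) := by
        rw [hC]
        ring
    _ = Real.exp (Real.log C + q + -((128 * (q : ℝ) ^ 2 - L) / e₀)) := by
        rw [Real.exp_add, Real.exp_add, Real.exp_log (by linarith)]
    _ ≤ Real.exp (-(1024 * q * M * Real.log 2)) := by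
        apply Real.exp_le_exp.2
        have h6 : (128 * (q : ℝ) ^ 2 - L) / e₀ ≥ A * q - L := by
          rw [ge_iff_le, le_div_iff₀ (by linarith)]
          have h7 : A * q * e₀ ≤ q * q := by
            have : A * e₀ * q ≤ q * q := mul_le_mul_of_nonneg_right hqA (by linarith)
            linarith
          have h8 : (L : ℝ) ≤ L * e₀ := by nlinarith
          nlinarith
        have h9 : A * q = Real.log C * q + q + 1024 * M * q + L * q := by
          rw [hA]
          ring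
        have h10 : Real.log C ≤ Real.log C * q := by nlinarith
        have h11 : (L : ℝ) ≤ L * q := by nlinarith
        have h12 : 1024 * q * M * Real.log 2 ≤ 1024 * M * (q : ℝ) := by
          have : (0 : ℝ) ≤ 1024 * q * M := by positivity
          nlinarith
        linarith

theorem thm_R4 : St_R4 := by
  classical
  intro e₀ L M he
  obtain ⟨q₀, hq₀⟩ := R4_num e₀ L M he
  refine ⟨q₀, fun q hq => ⟨2, fun n hn => ?_⟩⟩
  obtain ⟨hq1, hLk, hp⟩ := hq₀ q hq
  obtain ⟨k, hk⟩ : ∃ k, k = 128 * q ^ 2 := ⟨_, rfl⟩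
  obtain ⟨m, hm⟩ : ∃ m, m = n / (128 * q) := ⟨_, rfl⟩
  rw [← hk] at hLk hp ⊢
  rw [← hm]
  intro Bad hBad
  obtain ⟨p, hp'⟩ : ∃ p : ℝ, p = 2 * ((k : ℝ) ^ L * (1 - 1 / e₀) ^ (k - L)) := ⟨_, rfl⟩
  rw [← hp'] at hp
  have he0 : (1 : ℝ) ≤ e₀ := by exact_mod_cast he
  have hp0 : 0 ≤ p := by
    have h5 : 0 ≤ 1 - 1 / (e₀ : ℝ) := by
      rw [sub_nonneg, div_le_one (by linarith)]
      exact he0
    rw [hp']
    positivity
  -- the bad rows
  let R : Finset (Fin n) → Finset (Fin k → Fin n) := fun S => univ.filter fun a =>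
    (univ.filter fun j => a j ∈ S).card < L ∨ (univ.filter fun j => a j ∉ S).card < L
  have hR : ∀ S : Finset (Fin n), n ≤ e₀ * S.card → n ≤ e₀ * Sᶜ.card →
      ((R S).card : ℝ) ≤ p * (n : ℝ) ^ k := by
    intro S hS hS'
    have h1 : (R S).card ≤
        (univ.filter fun a : Fin k → Fin n => (univ.filter fun j => a j ∈ S).card < L).card +
        (univ.filter fun a : Fin k → Fin n => (univ.filter fun j => a j ∈ Sᶜ).card < L).card := by
      refine le_trans (card_le_card ?_) (card_union_le _ _)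
      intro a ha
      rcases (mem_filter.1 ha).2 with h | h
      · exact mem_union_left _ (mem_filter.2 ⟨mem_univ _, h⟩)
      · refine mem_union_right _ (mem_filter.2 ⟨mem_univ _, ?_⟩)
        simp only [mem_compl]
        exact h
    have h2 : ((R S).card : ℝ) ≤
        ((univ.filter fun a : Fin k → Fin n =>
          (univ.filter fun j => a j ∈ S).card < L).card : ℝ) +
        ((univ.filter fun a : Fin k → Fin n =>
          (univ.filter fun j => a j ∈ Sᶜ).card < L).card : ℝ) := by exact_mod_cast h1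
    have h3 := R4_row' hLk he S hS
    have h4 := R4_row' hLk he Sᶜ hS'
    rw [hp']
    linarith
  -- the union bound
  let I : Finset (Finset (Fin n) × Finset (Fin m)) := univ.filter fun x =>
    n ≤ e₀ * x.1.card ∧ n ≤ e₀ * x.1ᶜ.card ∧ m < 2 * M * x.2.card
  let Q : Finset (Fin n) × Finset (Fin m) → Finset (Cfg m k n) := fun x =>
    Fintype.piFinset fun i => if i ∈ x.2 then R x.1 else univ
  have hsub : Bad ⊆ I.biUnion Q := by
    intro c hc
    have h1 := hBad c hc
    push Not at h1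
    obtain ⟨S, hS1, hS2, hS3⟩ := h1
    refine mem_biUnion.2 ⟨(S, univ.filter fun i => (univ.filter fun j => c i j ∈ S).card < L ∨
          (univ.filter fun j => c i j ∉ S).card < L), mem_filter.2 ⟨mem_univ _, hS1, hS2, hS3⟩, ?_⟩
    show c ∈ Fintype.piFinset _
    rw [Fintype.mem_piFinset]
    intro i
    split_ifs with hi
    · exact mem_filter.2 ⟨mem_univ _, (mem_filter.1 hi).2⟩
    · exact mem_univ _
  have hN : (0 : ℝ) < ((n : ℝ) ^ k) ^ m := by
    have : (0 : ℝ) < n := by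
      have : 0 < n := by omega
      exact_mod_cast this
    positivity
  have hQ : ∀ x ∈ I, ((Q x).card : ℝ) ≤ (1 / 2 : ℝ) ^ (4 * n) * ((n : ℝ) ^ k) ^ m := by
    intro x hx
    obtain ⟨hx1, hx2, hx3⟩ := (mem_filter.1 hx).2
    have h1 : (Q x).card = (R x.1).card ^ x.2.card * (n ^ k) ^ (m - x.2.card) := by
      show (Fintype.piFinset fun i => if i ∈ x.2 then R x.1 else univ).card = _
      rw [R4_pi, card_univ, Fintype.card_fun, Fintype.card_fin, Fintype.card_fin,
        Fintype.card_fin]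
    have hxm : x.2.card ≤ m := by
      have := card_le_univ x.2
      rwa [Fintype.card_fin] at this
    rw [h1]
    push_cast
    have h2 : ((R x.1).card : ℝ) ^ x.2.card ≤ (p * (n : ℝ) ^ k) ^ x.2.card :=
      pow_le_pow_left₀ (Nat.cast_nonneg _) (hR _ hx1 hx2) _
    have h3 : p ^ x.2.card ≤ (1 / 2 : ℝ) ^ (4 * n) := by
      calc p ^ x.2.card ≤ ((1 / 2 : ℝ) ^ (1024 * q * M)) ^ x.2.card :=
            pow_le_pow_left₀ hp0 hp _
        _ = (1 / 2 : ℝ) ^ (1024 * q * M * x.2.card) := by rw [← pow_mul]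
        _ ≤ (1 / 2 : ℝ) ^ (4 * n) := by
            apply pow_le_pow_of_le_one (by norm_num) (by norm_num)
            have h4 : n < (m + 1) * (128 * q) := by
              rw [hm]
              have := Nat.lt_div_mul_add (a := n) (b := 128 * q) (by omega)
              nlinarith
            have h5 : 1024 * q * M * x.2.card = 4 * ((2 * M * x.2.card) * (128 * q)) := by ring
            rw [h5]
            apply Nat.mul_le_mul_left
            refine h4.le.trans ?_
            exact Nat.mul_le_mul_right _ (by omega)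
    calc ((R x.1).card : ℝ) ^ x.2.card * ((n : ℝ) ^ k) ^ (m - x.2.card)
        ≤ (p * (n : ℝ) ^ k) ^ x.2.card * ((n : ℝ) ^ k) ^ (m - x.2.card) :=
          mul_le_mul_of_nonneg_right h2 (by positivity)
      _ = p ^ x.2.card * (((n : ℝ) ^ k) ^ x.2.card * ((n : ℝ) ^ k) ^ (m - x.2.card)) := by
          rw [mul_pow]
          ring
      _ = p ^ x.2.card * ((n : ℝ) ^ k) ^ m := by rw [← pow_add, Nat.add_sub_cancel' hxm]
      _ ≤ (1 / 2 : ℝ) ^ (4 * n) * ((n : ℝ) ^ k) ^ m := mul_le_mul_of_nonneg_right h3 hN.le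
  have hI : (I.card : ℝ) ≤ 2 ^ (2 * n) := by
    have h1 : I.card ≤ 2 ^ n * 2 ^ m := by
      refine (card_le_univ I).trans (le_of_eq ?_)
      rw [Fintype.card_prod, Fintype.card_finset, Fintype.card_finset, Fintype.card_fin,
        Fintype.card_fin]
    have h2 : m ≤ n := by
      rw [hm]
      exact Nat.div_le_self _ _
    have h3 : 2 ^ n * 2 ^ m ≤ 2 ^ (2 * n) := by
      rw [← pow_add]
      exact Nat.pow_le_pow_right (by norm_num) (by omega)
    exact_mod_cast h1.trans h3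
  have hB1 : (Bad.card : ℝ) ≤ ∑ x ∈ I, ((Q x).card : ℝ) := by
    exact_mod_cast (card_le_card hsub).trans card_biUnion_le
  have hB2 : ∑ x ∈ I, ((Q x).card : ℝ) ≤ I.card * ((1 / 2 : ℝ) ^ (4 * n) * ((n : ℝ) ^ k) ^ m) := by
    rw [← nsmul_eq_mul]
    exact sum_le_card_nsmul _ _ _ hQ
  have hB3 : (I.card : ℝ) * ((1 / 2 : ℝ) ^ (4 * n) * ((n : ℝ) ^ k) ^ m) ≤
      (1 / 8) * ((n : ℝ) ^ k) ^ m := by
    have h1 : (I.card : ℝ) * (1 / 2 : ℝ) ^ (4 * n) ≤ 1 / 8 := by
      calc (I.card : ℝ) * (1 / 2 : ℝ) ^ (4 * n) ≤ 2 ^ (2 * n) * (1 / 2 : ℝ) ^ (4 * n) :=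
            mul_le_mul_of_nonneg_right hI (by positivity)
        _ = (1 / 2 : ℝ) ^ (2 * n) := by
            rw [show 4 * n = 2 * n + 2 * n by ring, pow_add, ← mul_assoc, ← mul_pow]
            norm_num
        _ ≤ (1 / 2 : ℝ) ^ 3 := pow_le_pow_of_le_one (by norm_num) (by norm_num) (by omega)
        _ = 1 / 8 := by norm_num
    calc (I.card : ℝ) * ((1 / 2 : ℝ) ^ (4 * n) * ((n : ℝ) ^ k) ^ m)
        = (I.card : ℝ) * (1 / 2 : ℝ) ^ (4 * n) * ((n : ℝ) ^ k) ^ m := by ring
      _ ≤ (1 / 8) * ((n : ℝ) ^ k) ^ m := mul_le_mul_of_nonneg_right h1 hN.le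
  have hfin : (7 : ℝ) * Bad.card ≤ ((n : ℝ) ^ k) ^ m := by linarith
  exact_mod_cast hfin

end Pool.Agent.SEL
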