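import Pool.Agent.SEL.R4

/-!
# SEL [R5]: a set of variables which is disjoint from many clauses is small
-/

set_option autoImplicit false

namespace Pool.Agent.SEL

open Finset Pool.Agent.VD

/-- the numerical estimate for `q` -/
theorem R5_num (e₀ : ℕ) (he : 1 ≤ e₀) : ∀ q : ℕ, 1024 * e₀ ^ 2 + 80 * e₀ ≤ q →
    0 ≤ 1 + Real.log (32 * (q : ℝ) ^ 2) ∧ 8 * e₀ * (1 + Real.log (32 * (q : ℝ) ^ 2)) ≤ q := by
  intro q hq
  have he0 : (1 : ℝ) ≤ e₀ := by exact_mod_cast he
  have hq' : 1024 * (e₀ : ℝ) ^ 2 + 80 * e₀ ≤ q := by exact_mod_cast hq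
  have hq1 : (1 : ℝ) ≤ q := by nlinarith
  have h1 : Real.log (32 * (q : ℝ) ^ 2) = 5 * Real.log 2 + 2 * Real.log q := by
    rw [Real.log_mul (by norm_num) (by positivity), Real.log_pow,
      show (32 : ℝ) = 2 ^ 5 by norm_num, Real.log_pow]
    push_cast
    ring
  have hl2 : Real.log 2 ≤ 0.7 := by
    have := Real.log_two_lt_d9
    linarith
  have hl20 : 0 ≤ Real.log 2 := Real.log_nonneg (by norm_num)
  have hlq : 0 ≤ Real.log q := Real.log_nonneg hq1
  constructor
  · rw [h1]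
    linarith
  have h2 : Real.log q ≤ q / (32 * e₀) + 32 * e₀ := by
    have h3 : (q : ℝ) = q / (32 * e₀) * (32 * e₀) := by
      rw [div_mul_cancel₀]
      positivity
    have h4 : Real.log q = Real.log (q / (32 * e₀)) + Real.log (32 * e₀) := by
      rw [← Real.log_mul (by positivity) (by positivity), ← h3]
    have h5 := Real.log_le_sub_one_of_pos (show (0 : ℝ) < q / (32 * e₀) by positivity)
    have h6 := Real.log_le_sub_one_of_pos (show (0 : ℝ) < 32 * e₀ by positivity)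
    linarith
  rw [h1]
  have h7 : 16 * (e₀ : ℝ) * Real.log q ≤ q / 2 + 512 * (e₀ : ℝ) ^ 2 := by
    have h8 : 16 * (e₀ : ℝ) * Real.log q ≤ 16 * e₀ * (q / (32 * e₀) + 32 * e₀) :=
      mul_le_mul_of_nonneg_left h2 (by positivity)
    have h9 : 16 * (e₀ : ℝ) * (q / (32 * e₀) + 32 * e₀) = q / 2 + 512 * (e₀ : ℝ) ^ 2 := by
      field_simp
      ring
    linarith
  nlinarith

/-- the binomial coefficient -/
theorem R5_choose {n y : ℕ} {A : ℝ} (hy : 1 ≤ y) (hA : 0 < A)
    (hk : (n : ℝ) ≤ A * y) :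
    (n.choose y : ℝ) ≤ Real.exp (y * (1 + Real.log A)) := by
  have hy0 : (0 : ℝ) < y := by exact_mod_cast hy
  have h1 : (n.choose y : ℝ) ≤ (n : ℝ) ^ y / y.factorial := Nat.choose_le_pow_div y n
  have h2 : (n : ℝ) ^ y ≤ (A * y) ^ y := pow_le_pow_left₀ (Nat.cast_nonneg _) hk _
  have h3 := Real.pow_div_factorial_le_exp (y : ℝ) hy0.le y
  have hf : (0 : ℝ) < y.factorial := by exact_mod_cast Nat.factorial_pos y
  calc (n.choose y : ℝ) ≤ (n : ℝ) ^ y / y.factorial := h1
    _ ≤ (A * y) ^ y / y.factorial := by gcongr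
    _ = A ^ y * ((y : ℝ) ^ y / y.factorial) := by rw [mul_pow, mul_div_assoc]
    _ ≤ A ^ y * Real.exp y := mul_le_mul_of_nonneg_left h3 (by positivity)
    _ = Real.exp (y * (1 + Real.log A)) := by
        rw [mul_add, mul_one, add_comm, Real.exp_add, ← Real.log_pow, Real.exp_log (by positivity)]

theorem thm_R5 : St_R5 := by
  classical
  intro e₀ he
  refine ⟨1024 * e₀ ^ 2 + 80 * e₀, fun q hq => ?_⟩
  obtain ⟨hT0, hT⟩ := R5_num e₀ he q hq
  obtain ⟨T, hTdef⟩ : ∃ T, T = 1 + Real.log (32 * (q : ℝ) ^ 2) := ⟨_, rfl⟩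
  rw [← hTdef] at hT0 hT
  have he0 : (1 : ℝ) ≤ e₀ := by exact_mod_cast he
  have hq1 : 1 ≤ q := by nlinarith
  have hq1' : (1 : ℝ) ≤ q := by exact_mod_cast hq1
  refine ⟨⌈256 * q * (T + 4)⌉₊, fun n hn => ?_⟩
  have hn' : 256 * q * (T + 4) ≤ n := by
    have h1 : 256 * q * (T + 4) ≤ ⌈256 * q * (T + 4)⌉₊ := Nat.le_ceil _
    have h2 : (⌈256 * q * (T + 4)⌉₊ : ℝ) ≤ n := by exact_mod_cast hn
    linarith
  have hn0 : (0 : ℝ) < n := by
    have : (0 : ℝ) < 256 * q * (T + 4) := by positivity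
    linarith
  obtain ⟨k, hk⟩ : ∃ k, k = 128 * q ^ 2 := ⟨_, rfl⟩
  obtain ⟨m, hm⟩ : ∃ m, m = n / (128 * q) := ⟨_, rfl⟩
  rw [← hk, ← hm]
  have hk0 : 0 < k := by rw [hk]; positivity
  have hk0' : (0 : ℝ) < k := by exact_mod_cast hk0
  have hkr : (k : ℝ) = 128 * (q : ℝ) ^ 2 := by rw [hk]; push_cast; ring
  obtain ⟨y, hy⟩ : ∃ y, y = 4 * e₀ * n / k + 1 := ⟨_, rfl⟩
  have hy1 : 1 ≤ y := by
    rw [hy]
    exact Nat.le_add_left 1 _
  have hyk : 4 * e₀ * n < y * k := by
    rw [hy]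
    exact (Nat.div_lt_iff_lt_mul hk0).1 (Nat.lt_succ_self _)
  have hyk' : 4 * (e₀ : ℝ) * n ≤ y * k := by exact_mod_cast hyk.le
  have hyu : (y : ℝ) ≤ 4 * e₀ * n / k + 1 := by
    have h1 : ((4 * e₀ * n / k : ℕ) : ℝ) ≤ ((4 * e₀ * n : ℕ) : ℝ) / k := Nat.cast_div_le
    rw [hy]
    push_cast at h1 ⊢
    linarith
  have hml : (n : ℝ) / (128 * q) - 1 ≤ m := by
    have h1 : n < (m + 1) * (128 * q) := by
      rw [hm]
      have := Nat.lt_div_mul_add (a := n) (b := 128 * q) (by omega)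
      nlinarith
    have h2 : (n : ℝ) < (m + 1) * (128 * q) := by exact_mod_cast h1
    have h3 : (n : ℝ) / (128 * q) ≤ m + 1 := by
      rw [div_le_iff₀ (by positivity)]
      exact h2.le
    linarith
  intro Bad hBad
  -- the union bound
  let I : Finset (Finset (Fin n) × Finset (Fin m)) :=
    (powersetCard y univ) ×ˢ (univ.filter fun J => m ≤ 2 * e₀ * J.card)
  let Q : Finset (Fin n) × Finset (Fin m) → Finset (Cfg m k n) := fun x =>
    Fintype.piFinset fun i => if i ∈ x.2 then (Fintype.piFinset fun _ => x.1ᶜ) else univ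
  have hsub : Bad ⊆ I.biUnion Q := by
    intro c hc
    have h1 := hBad c hc
    push Not at h1
    obtain ⟨Y, hY1, hY2⟩ := h1
    have h3 : y ≤ Y.card := by
      rw [hy]
      apply Nat.succ_le_of_lt
      rw [Nat.div_lt_iff_lt_mul hk0, mul_comm Y.card]
      exact hY2
    obtain ⟨Y', hY', hY'c⟩ := exists_subset_card_eq h3
    refine mem_biUnion.2 ⟨(Y', univ.filter fun i => ∀ j, c i j ∉ Y), mem_product.2
      ⟨mem_powersetCard.2 ⟨subset_univ _, hY'c⟩, mem_filter.2 ⟨mem_univ _, hY1⟩⟩, ?_⟩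
    show c ∈ Fintype.piFinset _
    rw [Fintype.mem_piFinset]
    intro i
    split_ifs with hi
    · rw [Fintype.mem_piFinset]
      intro j
      rw [mem_compl]
      exact fun h => (mem_filter.1 hi).2 j (hY' h)
    · exact mem_univ _
  have hN : (0 : ℝ) < ((n : ℝ) ^ k) ^ m := by positivity
  have hQ : ∀ x ∈ I, ((Q x).card : ℝ) ≤ Real.exp (-(2 * m)) * ((n : ℝ) ^ k) ^ m := by
    intro x hx
    obtain ⟨hx1, hx2⟩ := mem_product.1 hx
    have hx1 := (mem_powersetCard.1 hx1).2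
    have hx2 := (mem_filter.1 hx2).2
    have h1 : (Q x).card = (x.1ᶜ.card ^ k) ^ x.2.card * (n ^ k) ^ (m - x.2.card) := by
      show (Fintype.piFinset fun i => if i ∈ x.2 then (Fintype.piFinset fun _ : Fin k => x.1ᶜ)
        else univ).card = _
      rw [R4_pi, card_univ, Fintype.card_fun, Fintype.card_fin, Fintype.card_fin,
        Fintype.card_fin, Fintype.card_piFinset, prod_const, card_univ, Fintype.card_fin]
    have hxm : x.2.card ≤ m := by
      have := card_le_univ x.2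
      rwa [Fintype.card_fin] at this
    have h2 : (x.1ᶜ.card : ℝ) ≤ Real.exp (-(y / n)) * n := by
      have h3 : x.1.card + x.1ᶜ.card = n := by rw [card_add_card_compl, Fintype.card_fin]
      have h4 : (y : ℝ) + x.1ᶜ.card = n := by
        rw [← hx1]
        exact_mod_cast h3
      have h5 : 1 - (y : ℝ) / n ≤ Real.exp (-(y / n)) := by
        have := Real.add_one_le_exp (-((y : ℝ) / n))
        linarith
      have h6 : (x.1ᶜ.card : ℝ) = (1 - (y : ℝ) / n) * n := by
        field_simp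
        linarith
      rw [h6]
      exact mul_le_mul_of_nonneg_right h5 hn0.le
    have h3 : ((x.1ᶜ.card : ℝ) ^ k) ^ x.2.card ≤
        Real.exp (-(2 * m)) * ((n : ℝ) ^ k) ^ x.2.card := by
      have h4 : ((x.1ᶜ.card : ℝ) ^ k) ^ x.2.card ≤ ((Real.exp (-(y / n)) * n) ^ k) ^ x.2.card :=
        pow_le_pow_left₀ (by positivity) (pow_le_pow_left₀ (Nat.cast_nonneg _) h2 _) _
      refine h4.trans ?_
      rw [mul_pow, mul_pow, ← Real.exp_nat_mul, ← Real.exp_nat_mul]
      apply mul_le_mul_of_nonneg_right _ (by positivity)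
      apply Real.exp_le_exp.2
      have h5 : (m : ℝ) ≤ 2 * e₀ * x.2.card := by exact_mod_cast hx2
      have h6 : 4 * (e₀ : ℝ) ≤ k * (y / n) := by
        rw [← mul_div_assoc, le_div_iff₀ hn0]
        linarith
      have h7 : (x.2.card : ℝ) * (4 * e₀) ≤ x.2.card * (k * (y / n)) :=
        mul_le_mul_of_nonneg_left h6 (Nat.cast_nonneg _)
      have h8 : (x.2.card : ℝ) * (k * -(y / n)) = -(x.2.card * (k * (y / n))) := by ring
      rw [h8]
      linarith
    rw [h1]
    push_cast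
    calc ((x.1ᶜ.card : ℝ) ^ k) ^ x.2.card * ((n : ℝ) ^ k) ^ (m - x.2.card)
        ≤ Real.exp (-(2 * m)) * ((n : ℝ) ^ k) ^ x.2.card * ((n : ℝ) ^ k) ^ (m - x.2.card) :=
          mul_le_mul_of_nonneg_right h3 (by positivity)
      _ = Real.exp (-(2 * m)) * (((n : ℝ) ^ k) ^ x.2.card * ((n : ℝ) ^ k) ^ (m - x.2.card)) := by
          ring
      _ = Real.exp (-(2 * m)) * ((n : ℝ) ^ k) ^ m := by rw [← pow_add, Nat.add_sub_cancel' hxm]
  have hI : (I.card : ℝ) ≤ Real.exp (y * T) * Real.exp (m * Real.log 2) := by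
    have h1 : I.card ≤ n.choose y * 2 ^ m := by
      show ((powersetCard y univ) ×ˢ (univ.filter fun J : Finset (Fin m) =>
        m ≤ 2 * e₀ * J.card)).card ≤ _
      rw [card_product, card_powersetCard, card_univ, Fintype.card_fin]
      apply Nat.mul_le_mul_left
      refine (card_le_univ _).trans (le_of_eq ?_)
      rw [Fintype.card_finset, Fintype.card_fin]
    have h2 : (n.choose y : ℝ) ≤ Real.exp (y * T) := by
      rw [hTdef]
      apply R5_choose hy1 (by positivity)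
      have h3 : 4 * (n : ℝ) ≤ 4 * e₀ * n := by nlinarith
      rw [hkr] at hyk'
      nlinarith
    have h3 : (2 : ℝ) ^ m = Real.exp (m * Real.log 2) := by
      rw [Real.exp_nat_mul, Real.exp_log (by norm_num)]
    rw [← h3]
    calc (I.card : ℝ) ≤ (n.choose y : ℝ) * 2 ^ m := by exact_mod_cast h1
      _ ≤ Real.exp (y * T) * 2 ^ m := mul_le_mul_of_nonneg_right h2 (by positivity)
  have hB1 : (Bad.card : ℝ) ≤ ∑ x ∈ I, ((Q x).card : ℝ) := by
    exact_mod_cast (card_le_card hsub).trans card_biUnion_le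
  have hB2 : ∑ x ∈ I, ((Q x).card : ℝ) ≤
      I.card * (Real.exp (-(2 * m)) * ((n : ℝ) ^ k) ^ m) := by
    rw [← nsmul_eq_mul]
    exact sum_le_card_nsmul _ _ _ hQ
  have hB3 : (I.card : ℝ) * Real.exp (-(2 * m)) ≤ 1 / 8 := by
    have h1 : (1 : ℝ) / 8 = Real.exp (-(3 * Real.log 2)) := by
      rw [show 3 * Real.log 2 = Real.log 8 by
        rw [show (8 : ℝ) = 2 ^ 3 by norm_num, Real.log_pow]; push_cast; ring,
        Real.exp_neg, Real.exp_log (by norm_num)]
      norm_num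
    rw [h1]
    refine (mul_le_mul_of_nonneg_right hI (Real.exp_pos _).le).trans ?_
    rw [← Real.exp_add, ← Real.exp_add]
    apply Real.exp_le_exp.2
    have hl2 : Real.log 2 ≤ 0.7 := by
      have := Real.log_two_lt_d9
      linarith
    have h2 : (y : ℝ) * T ≤ n / (256 * q) + T := by
      have h3 : (y : ℝ) * T ≤ (4 * e₀ * n / k + 1) * T := mul_le_mul_of_nonneg_right hyu hT0
      have h4 : 4 * (e₀ : ℝ) * n / k * T ≤ n / (256 * q) := by
        rw [hkr, div_mul_eq_mul_div, div_le_div_iff₀ (by positivity) (by positivity)]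
        have h5 : 8 * (e₀ : ℝ) * T * (n * (128 * q)) ≤ q * (n * (128 * q)) :=
          mul_le_mul_of_nonneg_right hT (by positivity)
        calc 4 * (e₀ : ℝ) * n * T * (256 * q) = 8 * (e₀ : ℝ) * T * (n * (128 * q)) := by ring
          _ ≤ q * (n * (128 * q)) := h5
          _ = n * (128 * (q : ℝ) ^ 2) := by ring
      linarith
    have h3 : T + 4 ≤ n / (256 * q) := by
      rw [le_div_iff₀ (by positivity)]
      linarith
    have h4 : (n : ℝ) / (128 * q) = 2 * (n / (256 * q)) := by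
      field_simp
      ring
    rw [h4] at hml
    have hm0 : (0 : ℝ) ≤ m := Nat.cast_nonneg _
    nlinarith
  have hfin : (7 : ℝ) * Bad.card ≤ ((n : ℝ) ^ k) ^ m := by
    have h1 : (I.card : ℝ) * (Real.exp (-(2 * m)) * ((n : ℝ) ^ k) ^ m) ≤
        1 / 8 * ((n : ℝ) ^ k) ^ m := by
      rw [← mul_assoc]
      exact mul_le_mul_of_nonneg_right hB3 hN.le
    linarith
  exact_mod_cast hfin

end Pool.Agent.SEL
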