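import Pool.Agent.SEL.St

/-!
# SEL, module SLL: the signed local lemma
-/

set_option autoImplicit false

namespace Pool.Agent.SEL

open Finset

section

variable {I Ω : Type} [DecidableEq I] [Fintype Ω] [Nonempty Ω]

omit [Nonempty Ω] in
private theorem SLL_split (ψ : I → Ω → ℝ) (A J : Finset I) (j : I) (hA : j ∉ A) (hJ : j ∉ J) :
    Xi ψ A (insert j J) = Xi ψ A J + Xi ψ (insert j A) J := by
  unfold Xi av
  rw [← add_div, ← Finset.sum_add_distrib]
  congr 1
  refine Finset.sum_congr rfl fun ω _ => ?_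
  beta_reduce
  rw [Finset.prod_insert hJ, Finset.prod_insert hA]
  ring

omit [DecidableEq I] in
private theorem SLL_empty (ψ : I → Ω → ℝ) : Xi ψ ∅ ∅ = 1 := by
  simp [Xi, av]

private theorem SLL_theta (Δ : ℕ) (hΔ : 1 ≤ Δ) : (1 + 1 / (Δ : ℝ)) ^ Δ ≤ 3 := by
  have h0 : (0 : ℝ) < Δ := by exact_mod_cast hΔ
  have h1 : 1 + 1 / (Δ : ℝ) ≤ Real.exp (1 / Δ) := by
    have := Real.add_one_le_exp (1 / (Δ : ℝ))
    linarith
  calc (1 + 1 / (Δ : ℝ)) ^ Δ ≤ Real.exp (1 / Δ) ^ Δ := pow_le_pow_left₀ (by positivity) h1 _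
    _ = Real.exp 1 := by
      rw [← Real.exp_nat_mul]
      congr 1
      field_simp
    _ ≤ 3 := by
      have := Real.exp_one_lt_d9
      linarith

private theorem SLL_X (adj : I → I → Prop) [DecidableRel adj] (G : Finset I) (ψ : I → Ω → ℝ)
    (Δ : ℕ) (z : ℝ) (hΔ : 1 ≤ Δ) (hz : 0 ≤ z) (hz9 : 9 * Δ * z ≤ 1)
    (hdeg : ∀ i ∈ G, (G.filter (adj i)).card ≤ Δ)
    (hind : ∀ A J, A ⊆ G → J ⊆ G → Disjoint A J → (∀ i ∈ A, ∀ j ∈ J, ¬ adj i j) →
      Xi ψ A J = Xi ψ A ∅ * Xi ψ ∅ J)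
    (B : ℕ → ℝ) (a₀ : ℕ) (hB0 : ∀ a, 0 ≤ B a) (hB1 : ∀ a, B (a + 1) ≤ z * B a)
    (hB : ∀ A, A ⊆ G → a₀ ≤ A.card → |Xi ψ A ∅| ≤ B A.card) (m : ℕ)
    (hR : ∀ J, J ⊆ G → J.card ≤ m → 0 < Xi ψ ∅ J ∧
      ∀ j ∈ J, (1 - 3 * z) * Xi ψ ∅ (J.erase j) ≤ Xi ψ ∅ J) :
    ∀ J, J ⊆ G → J.card ≤ m → ∀ A, A ⊆ G → a₀ ≤ A.card → Disjoint A J →
      |Xi ψ A J| ≤ B A.card * (1 + 1 / (Δ : ℝ)) ^ (J.filter fun j => ∃ i ∈ A, adj i j).card *
        Xi ψ ∅ J := by
  intro J
  induction J using Finset.strongInduction with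
  | H J ih =>
    intro hJG hJm A hAG hA hAJ
    obtain ⟨hpos, hR1⟩ := hR J hJG hJm
    by_cases hn : ∃ j ∈ J, ∃ i ∈ A, adj i j
    · obtain ⟨j, hj, hadj⟩ := hn
      have hjA : j ∉ A := fun h => (Finset.disjoint_left.1 hAJ h) hj
      have hJ'G : J.erase j ⊆ G := (Finset.erase_subset j J).trans hJG
      have hJ'm : (J.erase j).card ≤ m := (Finset.card_le_card (Finset.erase_subset j J)).trans hJm
      have hss : J.erase j ⊂ J := Finset.erase_ssubset hj
      have hAJ' : Disjoint A (J.erase j) := hAJ.mono_right (Finset.erase_subset j J)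
      have h1 := ih (J.erase j) hss hJ'G hJ'm A hAG hA hAJ'
      have hA1 : (insert j A).card = A.card + 1 := Finset.card_insert_of_notMem hjA
      have hdis : Disjoint (insert j A) (J.erase j) := by
        rw [Finset.disjoint_insert_left]
        exact ⟨Finset.notMem_erase j J, hAJ'⟩
      have h2 := ih (J.erase j) hss hJ'G hJ'm (insert j A)
        (Finset.insert_subset (hJG hj) hAG) (by omega) hdis
      rw [hA1] at h2
      have hpos' := (hR (J.erase j) hJ'G hJ'm).1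
      have hR' := hR1 j hj
      have hθ0 : (0 : ℝ) < 1 + 1 / (Δ : ℝ) := by positivity
      have hθ1 : (1 : ℝ) ≤ 1 + 1 / (Δ : ℝ) := by
        have : (0 : ℝ) ≤ 1 / (Δ : ℝ) := by positivity
        linarith
      set t := ((J.erase j).filter fun l => ∃ i ∈ A, adj i l).card with ht
      have hcard : (J.filter fun l => ∃ i ∈ A, adj i l).card = t + 1 := by
        have : (J.filter fun l => ∃ i ∈ A, adj i l) =
            insert j ((J.erase j).filter fun l => ∃ i ∈ A, adj i l) := by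
          ext l
          simp only [Finset.mem_filter, Finset.mem_insert, Finset.mem_erase]
          constructor
          · rintro ⟨h3, h4⟩
            by_cases hl : l = j
            · exact Or.inl hl
            · exact Or.inr ⟨⟨hl, h3⟩, h4⟩
          · rintro (rfl | ⟨⟨_, h3⟩, h4⟩)
            · exact ⟨hj, hadj⟩
            · exact ⟨h3, h4⟩
        rw [this, Finset.card_insert_of_notMem]
        simp
      have hcard2 : ((J.erase j).filter fun l => ∃ i ∈ insert j A, adj i l).card ≤ t + Δ := by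
        have hsub : ((J.erase j).filter fun l => ∃ i ∈ insert j A, adj i l) ⊆
            ((J.erase j).filter fun l => ∃ i ∈ A, adj i l) ∪ G.filter (adj j) := by
          intro l hl
          simp only [Finset.mem_filter, Finset.mem_insert, Finset.mem_union] at hl ⊢
          obtain ⟨h3, i, h4, h5⟩ := hl
          rcases h4 with rfl | h4
          · exact Or.inr ⟨hJ'G h3, h5⟩
          · exact Or.inl ⟨h3, i, h4, h5⟩
        calc _ ≤ _ := Finset.card_le_card hsub
          _ ≤ _ := Finset.card_union_le _ _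
          _ ≤ t + Δ := Nat.add_le_add_left (hdeg j (hJG hj)) _
      have h3 : (1 + 1 / (Δ : ℝ)) ^
          ((J.erase j).filter fun l => ∃ i ∈ insert j A, adj i l).card ≤
          (1 + 1 / (Δ : ℝ)) ^ t * 3 := by
        calc _ ≤ (1 + 1 / (Δ : ℝ)) ^ (t + Δ) := pow_le_pow_right₀ hθ1 hcard2
          _ = (1 + 1 / (Δ : ℝ)) ^ t * (1 + 1 / (Δ : ℝ)) ^ Δ := pow_add _ _ _
          _ ≤ _ := mul_le_mul_of_nonneg_left (SLL_theta Δ hΔ) (by positivity)
      have hBa := hB0 A.card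
      have hBa1 := hB1 A.card
      have h4 : |Xi ψ (insert j A) (J.erase j)| ≤
          3 * z * (B A.card * (1 + 1 / (Δ : ℝ)) ^ t * Xi ψ ∅ (J.erase j)) := by
        calc _ ≤ _ := h2
          _ ≤ z * B A.card * ((1 + 1 / (Δ : ℝ)) ^ t * 3) * Xi ψ ∅ (J.erase j) := by
            refine mul_le_mul_of_nonneg_right ?_ hpos'.le
            exact mul_le_mul hBa1 h3 (by positivity) (by positivity)
          _ = _ := by ring
      have h5 : Xi ψ A J = Xi ψ A (J.erase j) + Xi ψ (insert j A) (J.erase j) := by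
        conv_lhs => rw [← Finset.insert_erase hj]
        exact SLL_split ψ A (J.erase j) j hjA (Finset.notMem_erase j J)
      have h6 : 1 + 3 * z ≤ (1 + 1 / (Δ : ℝ)) * (1 - 3 * z) := by
        have hΔ0 : (1 : ℝ) ≤ Δ := by exact_mod_cast hΔ
        have h7 : z ≤ Δ * z := by nlinarith
        have h8 : 6 * z ≤ (1 - 3 * z) * (1 / (Δ : ℝ)) := by
          rw [mul_one_div, le_div_iff₀ (by linarith)]
          nlinarith
        linarith [h8]
      have hC : 0 ≤ B A.card * (1 + 1 / (Δ : ℝ)) ^ t := by positivity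
      calc |Xi ψ A J| ≤ |Xi ψ A (J.erase j)| + |Xi ψ (insert j A) (J.erase j)| := by
            rw [h5]
            exact abs_add_le _ _
        _ ≤ B A.card * (1 + 1 / (Δ : ℝ)) ^ t * Xi ψ ∅ (J.erase j) +
            3 * z * (B A.card * (1 + 1 / (Δ : ℝ)) ^ t * Xi ψ ∅ (J.erase j)) := add_le_add h1 h4
        _ = B A.card * (1 + 1 / (Δ : ℝ)) ^ t * ((1 + 3 * z) * Xi ψ ∅ (J.erase j)) := by ring
        _ ≤ B A.card * (1 + 1 / (Δ : ℝ)) ^ t *
            ((1 + 1 / (Δ : ℝ)) * (1 - 3 * z) * Xi ψ ∅ (J.erase j)) :=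
          mul_le_mul_of_nonneg_left (mul_le_mul_of_nonneg_right h6 hpos'.le) hC
        _ = B A.card * (1 + 1 / (Δ : ℝ)) ^ t * (1 + 1 / (Δ : ℝ)) *
            ((1 - 3 * z) * Xi ψ ∅ (J.erase j)) := by ring
        _ ≤ B A.card * (1 + 1 / (Δ : ℝ)) ^ t * (1 + 1 / (Δ : ℝ)) * Xi ψ ∅ J :=
          mul_le_mul_of_nonneg_left hR' (by positivity)
        _ = _ := by rw [hcard, pow_succ]; ring
    · have h0 : (J.filter fun j => ∃ i ∈ A, adj i j) = ∅ := by
        rw [Finset.filter_eq_empty_iff]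
        intro j hj h
        exact hn ⟨j, hj, h⟩
      rw [hind A J hAG hJG hAJ (fun i hi j hj h => hn ⟨j, hj, i, hi, h⟩), h0,
        Finset.card_empty, pow_zero, mul_one, abs_mul, abs_of_pos hpos]
      exact mul_le_mul_of_nonneg_right (hB A hAG hA) hpos.le

/-- one element of `J` -/
private theorem SLL_one (adj : I → I → Prop) [DecidableRel adj] (G : Finset I) (ψ : I → Ω → ℝ)
    (Δ : ℕ) (z : ℝ) (hΔ : 1 ≤ Δ) (hz : 0 ≤ z) (hz9 : 9 * Δ * z ≤ 1)
    (hdeg : ∀ i ∈ G, (G.filter (adj i)).card ≤ Δ)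
    (hind : ∀ A J, A ⊆ G → J ⊆ G → Disjoint A J → (∀ i ∈ A, ∀ j ∈ J, ¬ adj i j) →
      Xi ψ A J = Xi ψ A ∅ * Xi ψ ∅ J)
    (hB : ∀ A, A ⊆ G → A.Nonempty → |Xi ψ A ∅| ≤ z ^ A.card) (m : ℕ)
    (hR : ∀ J, J ⊆ G → J.card ≤ m → 0 < Xi ψ ∅ J ∧
      ∀ j ∈ J, (1 - 3 * z) * Xi ψ ∅ (J.erase j) ≤ Xi ψ ∅ J)
    (J : Finset I) (hJ : J ⊆ G) (hm : J.card ≤ m) (i : I) (hi : i ∈ G) (hiJ : i ∉ J) :
    |Xi ψ {i} J| ≤ 3 * z * Xi ψ ∅ J := by
  have h := SLL_X adj G ψ Δ z hΔ hz hz9 hdeg hind (fun a => z ^ a) 1 (fun a => by positivity)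
    (fun a => by simp only [pow_succ]; rw [mul_comm]) (fun A hA h1 => hB A hA (by
      rw [← Finset.card_pos]; omega)) m hR J hJ hm {i} (Finset.singleton_subset_iff.2 hi)
    (by simp) (Finset.disjoint_singleton_left.2 hiJ)
  have hpos := (hR J hJ hm).1
  have hcard : (J.filter fun j => ∃ l ∈ ({i} : Finset I), adj l j).card ≤ Δ := by
    refine le_trans (Finset.card_le_card ?_) (hdeg i hi)
    intro l hl
    simp only [Finset.mem_filter, Finset.mem_singleton, exists_eq_left] at hl ⊢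
    exact ⟨hJ hl.1, hl.2⟩
  have hθ1 : (1 : ℝ) ≤ 1 + 1 / (Δ : ℝ) := by
    have : (0 : ℝ) ≤ 1 / (Δ : ℝ) := by positivity
    linarith
  have h3 := (pow_le_pow_right₀ hθ1 hcard).trans (SLL_theta Δ hΔ)
  simp only [Finset.card_singleton, pow_one] at h
  calc |Xi ψ {i} J| ≤ _ := h
    _ ≤ z * 3 * Xi ψ ∅ J :=
      mul_le_mul_of_nonneg_right (mul_le_mul_of_nonneg_left h3 hz) hpos.le
    _ = _ := by ring

private theorem SLL_R (adj : I → I → Prop) [DecidableRel adj] (G : Finset I) (ψ : I → Ω → ℝ)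
    (Δ : ℕ) (z : ℝ) (hΔ : 1 ≤ Δ) (hz : 0 ≤ z) (hz9 : 9 * Δ * z ≤ 1)
    (hdeg : ∀ i ∈ G, (G.filter (adj i)).card ≤ Δ)
    (hind : ∀ A J, A ⊆ G → J ⊆ G → Disjoint A J → (∀ i ∈ A, ∀ j ∈ J, ¬ adj i j) →
      Xi ψ A J = Xi ψ A ∅ * Xi ψ ∅ J)
    (hB : ∀ A, A ⊆ G → A.Nonempty → |Xi ψ A ∅| ≤ z ^ A.card) (m : ℕ) :
    ∀ J, J ⊆ G → J.card ≤ m → 0 < Xi ψ ∅ J ∧
      ∀ j ∈ J, (1 - 3 * z) * Xi ψ ∅ (J.erase j) ≤ Xi ψ ∅ J := by
  induction m with
  | zero =>
    intro J _ hm
    have : J = ∅ := Finset.card_eq_zero.1 (by omega)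
    subst this
    rw [SLL_empty]
    exact ⟨one_pos, fun j hj => absurd hj (Finset.notMem_empty j)⟩
  | succ m ih =>
    intro J hJ hm
    rcases Nat.lt_or_ge J.card (m + 1) with h | h
    · exact ih J hJ (by omega)
    have key : ∀ j ∈ J, 0 < Xi ψ ∅ (J.erase j) ∧
        (1 - 3 * z) * Xi ψ ∅ (J.erase j) ≤ Xi ψ ∅ J := by
      intro j hj
      have hJ'G : J.erase j ⊆ G := (Finset.erase_subset j J).trans hJ
      have hc : (J.erase j).card ≤ m := by
        rw [Finset.card_erase_of_mem hj]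
        omega
      have h1 := SLL_one adj G ψ Δ z hΔ hz hz9 hdeg hind hB m ih (J.erase j) hJ'G hc j (hJ hj)
        (Finset.notMem_erase j J)
      have h2 : Xi ψ ∅ J = Xi ψ ∅ (J.erase j) + Xi ψ {j} (J.erase j) := by
        conv_lhs => rw [← Finset.insert_erase hj]
        exact SLL_split ψ ∅ (J.erase j) j (Finset.notMem_empty j) (Finset.notMem_erase j J)
      refine ⟨(ih (J.erase j) hJ'G hc).1, ?_⟩
      have h3 := (abs_le.1 h1).1
      rw [h2]
      linarith
    refine ⟨?_, fun j hj => (key j hj).2⟩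
    have hne : J.Nonempty := by
      rw [← Finset.card_pos]
      omega
    obtain ⟨j, hj⟩ := hne
    obtain ⟨h1, h2⟩ := key j hj
    have hz1 : 0 < 1 - 3 * z := by
      have hΔ0 : (1 : ℝ) ≤ Δ := by exact_mod_cast hΔ
      nlinarith
    exact lt_of_lt_of_le (mul_pos hz1 h1) h2

end

theorem thm_SLL : St_SLL := by
  intro I Ω _ _ _ adj _ G ψ Δ z ρ hΔ hz hz9 hρ hdeg hind hB J hJ
  have hR : ∀ J, J ⊆ G → 0 < Xi ψ ∅ J ∧
      ∀ j ∈ J, (1 - 3 * z) * Xi ψ ∅ (J.erase j) ≤ Xi ψ ∅ J := fun J hJ =>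
    SLL_R adj G ψ Δ z hΔ hz hz9 hdeg hind hB J.card J hJ le_rfl
  have hone : ∀ J, J ⊆ G → ∀ i ∈ G, i ∉ J → |Xi ψ {i} J| ≤ 3 * z * Xi ψ ∅ J :=
    fun J hJ i hi hiJ => SLL_one adj G ψ Δ z hΔ hz hz9 hdeg hind hB J.card
      (fun J hJ _ => hR J hJ) J hJ le_rfl i hi hiJ
  have hpos := (hR J hJ).1
  have hΔ0 : (1 : ℝ) ≤ Δ := by exact_mod_cast hΔ
  have hz1 : z ≤ Δ * z := by nlinarith
  refine ⟨hpos, fun i hi hiJ => ?_⟩
  have hsp : Xi ψ ∅ (insert i J) = Xi ψ ∅ J + Xi ψ {i} J :=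
    SLL_split ψ ∅ J i (Finset.notMem_empty i) hiJ
  refine ⟨?_, fun hρ2 => ?_⟩
  · rw [hsp, add_sub_cancel_left]
    exact hone J hJ i hi hiJ
  · -- the refined part
    have hX := SLL_X adj G ψ Δ z hΔ hz hz9 hdeg hind (fun a => ρ * z ^ a) 2
      (fun a => by positivity)
      (fun a => by simp only [pow_succ]; exact le_of_eq (by ring))
      (fun A hA h1 => hρ2 A hA h1) G.card (fun J hJ _ => hR J hJ)
    have hθ1 : (1 : ℝ) ≤ 1 + 1 / (Δ : ℝ) := by
      have : (0 : ℝ) ≤ 1 / (Δ : ℝ) := by positivity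
      linarith
    have hθ2 : (1 + 1 / (Δ : ℝ)) ^ (2 * Δ) ≤ 9 := by
      have h1 := SLL_theta Δ hΔ
      rw [two_mul, pow_add]
      have h2 : (0 : ℝ) ≤ (1 + 1 / (Δ : ℝ)) ^ Δ := by positivity
      nlinarith
    -- pairs
    have hpair : ∀ J', J' ⊆ G → ∀ j ∈ G, j ≠ i → j ∉ J' → i ∉ J' →
        |Xi ψ (insert j {i}) J'| ≤ 9 * ρ * z ^ 2 * Xi ψ ∅ J' := by
      intro J' hJ' j hj hji hjJ hiJ'
      have hc2 : (insert j ({i} : Finset I)).card = 2 := by
        rw [Finset.card_insert_of_notMem (by simpa using hji), Finset.card_singleton]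
      have h := hX J' hJ' (Finset.card_le_card hJ') (insert j {i})
        (Finset.insert_subset hj (Finset.singleton_subset_iff.2 hi)) (by omega)
        (by
          rw [Finset.disjoint_insert_left]
          exact ⟨hjJ, Finset.disjoint_singleton_left.2 hiJ'⟩)
      rw [hc2] at h
      have hcard : (J'.filter fun l => ∃ a ∈ insert j ({i} : Finset I), adj a l).card ≤
          2 * Δ := by
        have hsub : (J'.filter fun l => ∃ a ∈ insert j ({i} : Finset I), adj a l) ⊆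
            G.filter (adj j) ∪ G.filter (adj i) := by
          intro l hl
          simp only [Finset.mem_filter, Finset.mem_insert, Finset.mem_singleton,
            Finset.mem_union] at hl ⊢
          obtain ⟨h3, a, h4, h5⟩ := hl
          rcases h4 with rfl | rfl
          · exact Or.inl ⟨hJ' h3, h5⟩
          · exact Or.inr ⟨hJ' h3, h5⟩
        calc _ ≤ _ := Finset.card_le_card hsub
          _ ≤ _ := Finset.card_union_le _ _
          _ ≤ 2 * Δ := by
            have := hdeg j hj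
            have := hdeg i hi
            omega
      have h3 := (pow_le_pow_right₀ hθ1 hcard).trans hθ2
      calc _ ≤ _ := h
        _ ≤ ρ * z ^ 2 * 9 * Xi ψ ∅ J' :=
          mul_le_mul_of_nonneg_right (mul_le_mul_of_nonneg_left h3 (by positivity))
            (hR J' hJ').1.le
        _ = _ := by ring
    -- removal of neighbours
    have hrem : ∀ K, K ⊆ J.filter (adj i) →
        ((1 - 3 * z) ^ K.card * Xi ψ ∅ (J \ K) ≤ Xi ψ ∅ J ∧
          (1 - 3 * z) ^ K.card * Xi ψ ∅ J ≤ Xi ψ ∅ (J \ K)) ∧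
        |Xi ψ {i} J - Xi ψ {i} (J \ K)| ≤
          K.card * (9 * ρ * z ^ 2 * (3 / 2 * Xi ψ ∅ J)) := by
      have hbern : ∀ m : ℕ, m ≤ Δ → 2 / 3 ≤ (1 - 3 * z) ^ m := by
        intro m hm
        have h1 := one_add_mul_le_pow (a := -(3 * z)) (by nlinarith) m
        have h2 : (m : ℝ) * z ≤ Δ * z := mul_le_mul_of_nonneg_right (by exact_mod_cast hm) hz
        have h3 : 1 + -(3 * z) = 1 - 3 * z := by ring
        rw [h3] at h1
        nlinarith
      intro K
      induction K using Finset.induction_on with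
      | empty =>
        intro _
        simp
      | insert j K hjK ih =>
        intro hK
        have hKs : K ⊆ J.filter (adj i) := (Finset.subset_insert j K).trans hK
        have hj : j ∈ J := (Finset.mem_filter.1 (hK (Finset.mem_insert_self j K))).1
        obtain ⟨⟨ih1, ih2⟩, ih3⟩ := ih hKs
        have hJK : J \ K = insert j (J \ insert j K) := by
          ext l
          simp only [Finset.mem_sdiff, Finset.mem_insert, not_or]
          constructor
          · rintro ⟨h1, h2⟩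
            by_cases hl : l = j
            · exact Or.inl hl
            · exact Or.inr ⟨h1, hl, h2⟩
          · rintro (rfl | ⟨h1, h2, h3⟩)
            · exact ⟨hj, hjK⟩
            · exact ⟨h1, h3⟩
        have hjn : j ∉ J \ insert j K := by simp
        have hsubG : J \ insert j K ⊆ G := Finset.sdiff_subset.trans hJ
        have hin : i ∉ J \ insert j K := fun h => hiJ (Finset.mem_sdiff.1 h).1
        have hji : j ≠ i := fun h => hiJ (h ▸ hj)
        have hp' := (hR _ hsubG).1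
        have hs0 : Xi ψ ∅ (J \ K) = Xi ψ ∅ (J \ insert j K) + Xi ψ {j} (J \ insert j K) := by
          rw [hJK]
          exact SLL_split ψ ∅ _ j (Finset.notMem_empty j) hjn
        have hs1 : Xi ψ {i} (J \ K) = Xi ψ {i} (J \ insert j K) +
            Xi ψ (insert j {i}) (J \ insert j K) := by
          rw [hJK]
          exact SLL_split ψ {i} _ j (by simpa using hji) hjn
        have ho := abs_le.1 (hone _ hsubG j (hJ hj) hjn)
        have hpr := hpair _ hsubG j (hJ hj) hji hjn hin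
        have hz2 : 0 < 1 - 3 * z := by nlinarith
        have hcard : (insert j K).card = K.card + 1 := Finset.card_insert_of_notMem hjK
        have hcΔ : (insert j K).card ≤ Δ := by
          refine le_trans (Finset.card_le_card hK) (le_trans (Finset.card_le_card ?_) (hdeg i hi))
          exact Finset.filter_subset_filter _ hJ
        have hpk : 0 < (1 - 3 * z) ^ K.card := pow_pos hz2 _
        have c1 : (1 - 3 * z) ^ (insert j K).card * Xi ψ ∅ (J \ insert j K) ≤ Xi ψ ∅ J := by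
          rw [hcard, pow_succ, mul_assoc]
          refine le_trans (mul_le_mul_of_nonneg_left ?_ hpk.le) ih1
          rw [hs0]
          linarith [ho.1]
        have c2 : (1 - 3 * z) ^ (insert j K).card * Xi ψ ∅ J ≤ Xi ψ ∅ (J \ insert j K) := by
          rw [hcard, pow_succ']
          have h5 : (1 - 3 * z) * Xi ψ ∅ (J \ K) ≤ Xi ψ ∅ (J \ insert j K) := by
            rw [hs0]
            nlinarith [ho.2, mul_nonneg hz hp'.le, mul_nonneg (mul_nonneg hz hz) hp'.le]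
          calc _ = (1 - 3 * z) * ((1 - 3 * z) ^ K.card * Xi ψ ∅ J) := by ring
            _ ≤ (1 - 3 * z) * Xi ψ ∅ (J \ K) := mul_le_mul_of_nonneg_left ih2 hz2.le
            _ ≤ _ := h5
        refine ⟨⟨c1, c2⟩, ?_⟩
        have c3 : Xi ψ ∅ (J \ insert j K) ≤ 3 / 2 * Xi ψ ∅ J := by
          have h6 := hbern _ hcΔ
          nlinarith
        have c4 : |Xi ψ {i} (J \ K) - Xi ψ {i} (J \ insert j K)| ≤
            9 * ρ * z ^ 2 * (3 / 2 * Xi ψ ∅ J) := by
          rw [hs1, add_sub_cancel_left]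
          exact hpr.trans (mul_le_mul_of_nonneg_left c3 (by positivity))
        calc |Xi ψ {i} J - Xi ψ {i} (J \ insert j K)| ≤
            |Xi ψ {i} J - Xi ψ {i} (J \ K)| +
            |Xi ψ {i} (J \ K) - Xi ψ {i} (J \ insert j K)| := abs_sub_le _ _ _
          _ ≤ _ := add_le_add ih3 c4
          _ = _ := by
            rw [hcard]
            push_cast
            ring
    obtain ⟨⟨r1, r2⟩, r3⟩ := hrem (J.filter (adj i)) Finset.Subset.rfl
    set N := J.filter (adj i) with hN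
    have hNΔ : N.card ≤ Δ :=
      le_trans (Finset.card_le_card (Finset.filter_subset_filter _ hJ)) (hdeg i hi)
    have hindN : Xi ψ {i} (J \ N) = Xi ψ {i} ∅ * Xi ψ ∅ (J \ N) := by
      refine hind {i} (J \ N) (Finset.singleton_subset_iff.2 hi)
        (Finset.sdiff_subset.trans hJ)
        (Finset.disjoint_singleton_left.2 fun h => hiJ (Finset.mem_sdiff.1 h).1) ?_
      intro a ha j hj hadj
      rw [Finset.mem_singleton] at ha
      subst ha
      rw [Finset.mem_sdiff, hN, Finset.mem_filter] at hj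
      exact hj.2 ⟨hj.1, hadj⟩
    have hpw : 1 - 3 * (Δ * z) ≤ (1 - 3 * z) ^ N.card := by
      have h1 := one_add_mul_le_pow (a := -(3 * z)) (by nlinarith) N.card
      have h2 : (N.card : ℝ) * z ≤ Δ * z :=
        mul_le_mul_of_nonneg_right (by exact_mod_cast hNΔ) hz
      have h3 : 1 + -(3 * z) = 1 - 3 * z := by ring
      rw [h3] at h1
      nlinarith
    have hΔz : 0 ≤ Δ * z := by positivity
    have hΔz9 : 9 * (Δ * z) ≤ 1 := by linarith
    have hpN := (hR (J \ N) (Finset.sdiff_subset.trans hJ)).1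
    have hup : Xi ψ ∅ (J \ N) ≤ (1 + 6 * (Δ * z)) * Xi ψ ∅ J := by
      have h1 : (1 - 3 * (Δ * z)) * Xi ψ ∅ (J \ N) ≤ Xi ψ ∅ J :=
        (mul_le_mul_of_nonneg_right hpw hpN.le).trans r1
      have h2 : 1 ≤ (1 + 6 * (Δ * z)) * (1 - 3 * (Δ * z)) := by nlinarith
      calc Xi ψ ∅ (J \ N) = 1 * Xi ψ ∅ (J \ N) := (one_mul _).symm
        _ ≤ (1 + 6 * (Δ * z)) * (1 - 3 * (Δ * z)) * Xi ψ ∅ (J \ N) :=
          mul_le_mul_of_nonneg_right h2 hpN.le
        _ = (1 + 6 * (Δ * z)) * ((1 - 3 * (Δ * z)) * Xi ψ ∅ (J \ N)) := by ring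
        _ ≤ _ := mul_le_mul_of_nonneg_left h1 (by positivity)
    have hlo : (1 - 6 * (Δ * z)) * Xi ψ ∅ J ≤ Xi ψ ∅ (J \ N) := by
      refine le_trans ?_ r2
      refine mul_le_mul_of_nonneg_right ?_ hpos.le
      linarith
    have hd1 : |Xi ψ ∅ (J \ N) - Xi ψ ∅ J| ≤ 6 * (Δ * z) * Xi ψ ∅ J := by
      rw [abs_le]
      constructor
      · linarith
      · linarith
    have hd2 : |Xi ψ {i} J - Xi ψ {i} (J \ N)| ≤ ρ * Xi ψ ∅ J := by
      refine r3.trans ?_
      have h1 : (N.card : ℝ) * z ≤ Δ * z :=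
        mul_le_mul_of_nonneg_right (by exact_mod_cast hNΔ) hz
      have h2 : (N.card : ℝ) * z * z ≤ 1 / 81 := by
        have h3 : (N.card : ℝ) * z ≤ 1 / 9 := by linarith
        have h4 : z ≤ 1 / 9 := by linarith
        have h5 : (0 : ℝ) ≤ N.card * z := by positivity
        nlinarith
      have h3 : 0 ≤ ρ * Xi ψ ∅ J := by positivity
      calc (N.card : ℝ) * (9 * ρ * z ^ 2 * (3 / 2 * Xi ψ ∅ J)) =
          27 / 2 * (N.card * z * z) * (ρ * Xi ψ ∅ J) := by ring
        _ ≤ 27 / 2 * (1 / 81) * (ρ * Xi ψ ∅ J) := by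
          refine mul_le_mul_of_nonneg_right ?_ h3
          linarith
        _ ≤ _ := by linarith
    have hfin : Xi ψ ∅ (insert i J) - (1 + Xi ψ {i} ∅) * Xi ψ ∅ J =
        (Xi ψ {i} J - Xi ψ {i} (J \ N)) + Xi ψ {i} ∅ * (Xi ψ ∅ (J \ N) - Xi ψ ∅ J) := by
      rw [hsp, hindN]
      ring
    rw [hfin]
    calc _ ≤ |Xi ψ {i} J - Xi ψ {i} (J \ N)| +
        |Xi ψ {i} ∅ * (Xi ψ ∅ (J \ N) - Xi ψ ∅ J)| := abs_add_le _ _
      _ ≤ ρ * Xi ψ ∅ J + |Xi ψ {i} ∅| * (6 * (Δ * z) * Xi ψ ∅ J) := by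
        refine add_le_add hd2 ?_
        rw [abs_mul]
        exact mul_le_mul_of_nonneg_left hd1 (abs_nonneg _)
      _ = _ := by ring

end Pool.Agent.SEL
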