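import Pool.Agent.SEL.St

/-!
# SEL: the upper bound for the box norm of the test function
-/

set_option autoImplicit false

namespace Pool.Agent.SEL

open Finset Pool.Agent.VD

/-! ### averages -/

private theorem Upp_av_add {Ω : Type} [Fintype Ω] (f g : Ω → ℝ) :
    av (fun x => f x + g x) = av f + av g := by
  unfold av; rw [Finset.sum_add_distrib, add_div]

private theorem Upp_av_mul {Ω : Type} [Fintype Ω] (c : ℝ) (f : Ω → ℝ) :
    av (fun x => c * f x) = c * av f := by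
  unfold av; rw [← Finset.mul_sum, mul_div_assoc]

/-- the average of the indicator function of a box -/
private theorem Upp_pi {V α : Type} [Fintype V] [DecidableEq V] [Fintype α] [DecidableEq α]
    [Nonempty α] (D : Finset V) (T : V → Finset α)
    [∀ x : V → α, Decidable (∀ v ∈ D, x v ∈ T v)] :
    av (fun x : V → α => if ∀ v ∈ D, x v ∈ T v then (1 : ℝ) else 0) =
      ∏ v ∈ D, ((T v).card : ℝ) / Fintype.card α := by
  have hα : (Fintype.card α : ℝ) ≠ 0 := by exact_mod_cast Fintype.card_ne_zero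
  unfold av
  rw [Finset.sum_boole]
  have h1 : (univ.filter fun x : V → α => ∀ v ∈ D, x v ∈ T v) =
      Fintype.piFinset fun v => if v ∈ D then T v else univ := by
    ext x
    simp only [Finset.mem_filter, Finset.mem_univ, true_and, Fintype.mem_piFinset]
    constructor
    · intro h v
      by_cases hv : v ∈ D
      · rw [if_pos hv]; exact h v hv
      · rw [if_neg hv]; exact Finset.mem_univ _
    · intro h v hv
      have := h v
      rwa [if_pos hv] at this
  rw [h1, Fintype.card_piFinset, Fintype.card_fun, Nat.cast_prod, Nat.cast_pow, ← Finset.card_univ (α := V),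
    ← Finset.prod_const, ← Finset.prod_div_distrib, ← Finset.prod_subset (Finset.subset_univ D)]
  · refine Finset.prod_congr rfl fun v hv => ?_
    rw [if_pos hv]
  · intro v _ hv
    rw [if_neg hv, Finset.card_univ, div_self hα]

/-! ### the family -/

/-- first letter false -/
private def Upp_P (c : Bool) : Finset (Bool × Bool) :=
  univ.filter fun p => (if c then p.2 else p.1) = false

private def Upp_Q : Finset (Bool × Bool) := univ.filter fun p => p.1 = false ∧ p.2 = false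

private theorem Upp_cardP (c : Bool) : (Upp_P c).card = 2 := by cases c <;> decide

private theorem Upp_cardQ : Upp_Q.card = 1 := by decide

/-- the coordinates in `D ∩ S` are in `P` -/
private noncomputable def Upp_a {n : ℕ} (D : Finset (Fin n)) (P : Finset (Bool × Bool))
    (x : Fin n → Bool × Bool) : ℝ := if ∀ v ∈ D, x v ∈ P then 1 else 0

private theorem Upp_a_mul {n : ℕ} (D : Finset (Fin n)) (x : Fin n → Bool × Bool) :
    Upp_a D (Upp_P false) x * Upp_a D (Upp_P true) x = Upp_a D Upp_Q x := by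
  unfold Upp_a
  rw [ite_zero_mul_ite_zero, mul_one]
  refine if_congr ?_ rfl rfl
  simp only [Upp_P, Upp_Q, Finset.mem_filter, Finset.mem_univ, true_and]
  constructor
  · rintro ⟨h1, h2⟩ v hv
    exact ⟨by simpa using h1 v hv, by simpa using h2 v hv⟩
  · intro h
    exact ⟨fun v hv => by simpa using (h v hv).1, fun v hv => by simpa using (h v hv).2⟩

private theorem Upp_a_01 {n : ℕ} (D : Finset (Fin n)) (P : Finset (Bool × Bool))
    (x : Fin n → Bool × Bool) : Upp_a D P x = 0 ∨ Upp_a D P x = 1 := by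
  unfold Upp_a; split_ifs
  · right; rfl
  · left; rfl

/-- the joint average -/
private theorem Upp_joint {n : ℕ} (D S : Finset (Fin n)) (P Q : Finset (Bool × Bool)) :
    av (fun x => Upp_a (D ∩ S) P x * Upp_a (D \ S) Q x) =
      ((P.card : ℝ) / 4) ^ (D ∩ S).card * ((Q.card : ℝ) / 4) ^ (D \ S).card := by
  obtain ⟨T, hT, hT'⟩ : ∃ T : Fin n → Finset (Bool × Bool), (∀ v ∈ S, T v = P) ∧
      ∀ v, v ∉ S → T v = Q :=
    ⟨fun v => if v ∈ S then P else Q, fun v hv => if_pos hv, fun v hv => if_neg hv⟩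
  have h := Upp_pi (α := Bool × Bool) D T
  refine Eq.trans (congrArg av (funext fun x => ?_)) (h.trans ?_)
  · unfold Upp_a
    rw [ite_zero_mul_ite_zero, mul_one]
    refine if_congr ?_ rfl rfl
    constructor
    · rintro ⟨ha, hb⟩ v hv
      by_cases hs : v ∈ S
      · rw [hT v hs]; exact ha v (Finset.mem_inter.2 ⟨hv, hs⟩)
      · rw [hT' v hs]; exact hb v (Finset.mem_sdiff.2 ⟨hv, hs⟩)
    · intro h
      refine ⟨fun v hv => ?_, fun v hv => ?_⟩
      · rw [← hT v (Finset.mem_inter.1 hv).2]; exact h v (Finset.mem_inter.1 hv).1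
      · rw [← hT' v (Finset.mem_sdiff.1 hv).2]; exact h v (Finset.mem_sdiff.1 hv).1
  have h2 : ((Fintype.card (Bool × Bool) : ℕ) : ℝ) = 4 := by norm_num [Fintype.card_prod]
  rw [h2, ← Finset.prod_inter_mul_prod_sdiff D S]
  congr 1
  · rw [← Finset.prod_const]
    refine Finset.prod_congr rfl fun v hv => ?_
    rw [hT v (Finset.mem_inter.1 hv).2]
  · rw [← Finset.prod_const]
    refine Finset.prod_congr rfl fun v hv => ?_
    rw [hT' v (Finset.mem_sdiff.1 hv).2]

/-- the difference indicator -/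
private noncomputable def Upp_u {n : ℕ} (D : Finset (Fin n)) (x : Fin n → Bool × Bool) : ℝ :=
  Upp_a D (Upp_P false) x + Upp_a D (Upp_P true) x - 2 * Upp_a D Upp_Q x

private theorem Upp_u_01 {n : ℕ} (D : Finset (Fin n)) (x : Fin n → Bool × Bool) :
    Upp_u D x = 0 ∨ Upp_u D x = 1 := by
  unfold Upp_u
  rw [← Upp_a_mul]
  rcases Upp_a_01 D (Upp_P false) x with h | h <;> rcases Upp_a_01 D (Upp_P true) x with h' | h' <;>
    rw [h, h'] <;> norm_num

private theorem Upp_u_ne {n : ℕ} (D : Finset (Fin n)) (x : Fin n → Bool × Bool)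
    (h : Upp_u D x ≠ 0) : ∃ c : Bool, ∀ v ∈ D, x v ∈ Upp_P c := by
  by_contra hc
  push Not at hc
  have h0 : ∀ c, Upp_a D (Upp_P c) x = 0 := by
    intro c
    unfold Upp_a
    rw [if_neg]
    intro h'
    obtain ⟨v, hv, hv'⟩ := hc c
    exact hv' (h' v hv)
  apply h
  unfold Upp_u
  rw [← Upp_a_mul, h0, h0]; norm_num

/-- the functions of the family -/
private noncomputable def Upp_psi {n : ℕ} (Y S : Finset (Fin n)) (C : Finset (Fin n))
    (x : Fin n → Bool × Bool) : ℝ :=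
  -2 * (Upp_u ((C \ Y) ∩ S) x * Upp_u ((C \ Y) \ S) x)

/-- the average of the function -/
private theorem Upp_avpsi {n : ℕ} (Y S : Finset (Fin n)) (C : Finset (Fin n)) :
    av (Upp_psi Y S C) = -(8 / 2 ^ (C \ Y).card * (1 - 1 / 2 ^ ((C \ Y) ∩ S).card) *
      (1 - 1 / 2 ^ ((C \ Y) \ S).card)) := by
  set D := C \ Y
  have hJ : ∀ P Q : Finset (Bool × Bool), av (fun x => Upp_a (D ∩ S) P x * Upp_a (D \ S) Q x) =
      ((P.card : ℝ) / 4) ^ (D ∩ S).card * ((Q.card : ℝ) / 4) ^ (D \ S).card := Upp_joint D S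
  have h1 : Upp_psi Y S C = fun x =>
      (-2) * (Upp_a (D ∩ S) (Upp_P false) x * Upp_a (D \ S) (Upp_P false) x) +
      ((-2) * (Upp_a (D ∩ S) (Upp_P false) x * Upp_a (D \ S) (Upp_P true) x) +
      ((-2) * (Upp_a (D ∩ S) (Upp_P true) x * Upp_a (D \ S) (Upp_P false) x) +
      ((-2) * (Upp_a (D ∩ S) (Upp_P true) x * Upp_a (D \ S) (Upp_P true) x) +
      (4 * (Upp_a (D ∩ S) (Upp_P false) x * Upp_a (D \ S) Upp_Q x) +
      (4 * (Upp_a (D ∩ S) (Upp_P true) x * Upp_a (D \ S) Upp_Q x) +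
      (4 * (Upp_a (D ∩ S) Upp_Q x * Upp_a (D \ S) (Upp_P false) x) +
      (4 * (Upp_a (D ∩ S) Upp_Q x * Upp_a (D \ S) (Upp_P true) x) +
      (-8) * (Upp_a (D ∩ S) Upp_Q x * Upp_a (D \ S) Upp_Q x)))))))) := by
    funext x
    show -2 * (Upp_u (D ∩ S) x * Upp_u (D \ S) x) = _
    unfold Upp_u
    ring
  rw [h1]
  simp only [Upp_av_add, Upp_av_mul, hJ, Upp_cardP, Upp_cardQ]
  have h2 : (C \ Y).card = (D ∩ S).card + (D \ S).card := by
    rw [Finset.card_inter_add_card_sdiff]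
  have h3 : ((2 : ℕ) : ℝ) / 4 = 1 / 2 := by norm_num
  have h4 : ((1 : ℕ) : ℝ) / 4 = 1 / 2 * (1 / 2) := by norm_num
  have h5 : ∀ m : ℕ, ((1 : ℝ) / 2) ^ m = 1 / 2 ^ m := fun m => by rw [one_div_pow]
  rw [h3, h4]
  simp only [mul_pow, h5]
  have h6 : (8 : ℝ) / 2 ^ D.card = 8 * (1 / 2 ^ (D ∩ S).card) * (1 / 2 ^ (D \ S).card) := by
    rw [show D.card = (D ∩ S).card + (D \ S).card from h2, pow_add]
    field_simp
  rw [h6]
  ring

private theorem Upp_Xi {n : ℕ} (Y S : Finset (Fin n)) (C : Finset (Fin n)) :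
    Xi (Upp_psi Y S) {C} ∅ = -(8 / 2 ^ (C \ Y).card * (1 - 1 / 2 ^ ((C \ Y) ∩ S).card) *
      (1 - 1 / 2 ^ ((C \ Y) \ S).card)) := by
  rw [← Upp_avpsi]
  unfold Xi
  congr 1
  funext ω
  rw [Finset.prod_singleton, Finset.prod_empty, mul_one]

private theorem Upp_absXi {n : ℕ} (Y S : Finset (Fin n)) (C : Finset (Fin n)) :
    |Xi (Upp_psi Y S) {C} ∅| ≤ 8 / 2 ^ (C \ Y).card := by
  rw [Upp_Xi, abs_neg]
  have h0 : ∀ m : ℕ, 0 ≤ 1 - 1 / (2 : ℝ) ^ m ∧ 1 - 1 / (2 : ℝ) ^ m ≤ 1 := by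
    intro m
    have h1 : (1 : ℝ) ≤ 2 ^ m := one_le_pow₀ (by norm_num)
    have h2 : 1 / (2 : ℝ) ^ m ≤ 1 := by
      rw [div_le_one (by positivity)]; exact h1
    have h3 : 0 < 1 / (2 : ℝ) ^ m := by positivity
    constructor <;> linarith
  have hq : (0 : ℝ) ≤ 8 / 2 ^ (C \ Y).card := by positivity
  obtain ⟨a0, a1⟩ := h0 ((C \ Y) ∩ S).card
  obtain ⟨b0, b1⟩ := h0 ((C \ Y) \ S).card
  rw [abs_of_nonneg (mul_nonneg (mul_nonneg hq a0) b0)]
  calc _ ≤ (8 : ℝ) / 2 ^ (C \ Y).card * 1 * 1 := by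
        refine mul_le_mul (mul_le_mul_of_nonneg_left a1 hq) b1 b0 (by positivity)
    _ = _ := by ring

/-! ### the box norm -/

private theorem Upp_ite {n : ℕ} (D S : Finset (Fin n)) (x x' : Cube n)
    (w : Cube n) (c c' : Bool)
    (h1 : ∀ v ∈ S, w v = if c then x' v else x v) (h2 : ∀ v, v ∉ S → w v = if c' then x' v else x v) :
    (if ∀ v ∈ D, w v = false then (2 : ℝ) else 0) =
      2 * (Upp_a (D ∩ S) (Upp_P c) (fun v => (x v, x' v)) *
        Upp_a (D \ S) (Upp_P c') (fun v => (x v, x' v))) := by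
  unfold Upp_a
  rw [ite_zero_mul_ite_zero, mul_one, mul_ite, mul_one, mul_zero]
  refine if_congr ?_ rfl rfl
  simp only [Upp_P, Finset.mem_filter, Finset.mem_univ, true_and, Finset.mem_inter,
    Finset.mem_sdiff]
  constructor
  · intro h
    refine ⟨fun v hv => ?_, fun v hv => ?_⟩
    · rw [← h1 v hv.2]; exact h v hv.1
    · rw [← h2 v hv.2]; exact h v hv.1
  · rintro ⟨ha, hb⟩ v hv
    by_cases hs : v ∈ S
    · rw [h1 v hs]; exact ha v ⟨hv, hs⟩
    · rw [h2 v hs]; exact hb v ⟨hv, hs⟩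

private theorem Upp_fac {n : ℕ} (Y S C : Finset (Fin n)) (x x' : Cube n) :
    (1 - if ∀ v ∈ C \ Y, x v = false then (2 : ℝ) else 0) *
      (1 - if ∀ v ∈ C \ Y, (S.piecewise x x') v = false then (2 : ℝ) else 0) *
      (1 - if ∀ v ∈ C \ Y, (S.piecewise x' x) v = false then (2 : ℝ) else 0) *
      (1 - if ∀ v ∈ C \ Y, x' v = false then (2 : ℝ) else 0) =
    1 + Upp_psi Y S C (fun v => (x v, x' v)) := by
  rw [Upp_ite (C \ Y) S x x' x false false (fun v _ => rfl) (fun v _ => rfl),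
    Upp_ite (C \ Y) S x x' (S.piecewise x x') false true
      (fun v hv => by rw [Finset.piecewise_eq_of_mem _ _ _ hv]; rfl)
      (fun v hv => by rw [Finset.piecewise_eq_of_notMem _ _ _ hv]; rfl),
    Upp_ite (C \ Y) S x x' (S.piecewise x' x) true false
      (fun v hv => by rw [Finset.piecewise_eq_of_mem _ _ _ hv]; rfl)
      (fun v hv => by rw [Finset.piecewise_eq_of_notMem _ _ _ hv]; rfl),
    Upp_ite (C \ Y) S x x' x' true true (fun v _ => rfl) (fun v _ => rfl)]
  unfold Upp_psi Upp_u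
  rw [← Upp_a_mul, ← Upp_a_mul]
  rcases Upp_a_01 (C \ Y ∩ S) (Upp_P false) (fun v => (x v, x' v)) with h1 | h1 <;>
  rcases Upp_a_01 (C \ Y ∩ S) (Upp_P true) (fun v => (x v, x' v)) with h2 | h2 <;>
  rcases Upp_a_01 ((C \ Y) \ S) (Upp_P false) (fun v => (x v, x' v)) with h3 | h3 <;>
  rcases Upp_a_01 ((C \ Y) \ S) (Upp_P true) (fun v => (x v, x' v)) with h4 | h4 <;>
  rw [h1, h2, h3, h4] <;> norm_num

private theorem Upp_box {n : ℕ} (A' : Finset (Finset (Fin n))) (Y S : Finset (Fin n)) :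
    box (wt A' Y) S = Xi (Upp_psi Y S) ∅ A' := by
  unfold box Xi av
  have hc : (Fintype.card (Cube n × Cube n) : ℝ) = Fintype.card (Fin n → Bool × Bool) := by
    have := Fintype.card_congr (Equiv.arrowProdEquivProdArrow (Fin n) (fun _ => Bool) (fun _ => Bool))
    exact_mod_cast this.symm
  rw [hc]
  congr 1
  refine Fintype.sum_equiv
    (Equiv.arrowProdEquivProdArrow (Fin n) (fun _ => Bool) (fun _ => Bool)).symm _ _ fun p => ?_
  unfold wt
  rw [Finset.prod_empty, one_mul, ← Finset.prod_mul_distrib, ← Finset.prod_mul_distrib,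
    ← Finset.prod_mul_distrib]
  refine Finset.prod_congr rfl fun C _ => ?_
  rw [Upp_fac]
  rfl

/-! ### the family is admissible -/

private def Upp_Gd {n : ℕ} (S : Finset (Fin n)) (τ : Fin 4) (v : Fin n) : Finset (Bool × Bool) :=
  if v ∈ S then Upp_P (decide (2 ≤ (τ : ℕ))) else Upp_P (decide ((τ : ℕ) % 2 = 1))

private theorem Upp_pat (c c' : Bool) : ∃ τ : Fin 4, decide (2 ≤ (τ : ℕ)) = c ∧
    decide ((τ : ℕ) % 2 = 1) = c' := by
  cases c <;> cases c' <;> decide

private theorem Upp_a_congr {n : ℕ} (D : Finset (Fin n)) (P : Finset (Bool × Bool))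
    (x x' : Fin n → Bool × Bool) (h : ∀ v ∈ D, x v = x' v) : Upp_a D P x = Upp_a D P x' := by
  unfold Upp_a
  refine if_congr ?_ rfl rfl
  exact forall₂_congr fun v hv => by rw [h v hv]

private theorem Upp_u_congr {n : ℕ} (D : Finset (Fin n))
    (x x' : Fin n → Bool × Bool) (h : ∀ v ∈ D, x v = x' v) : Upp_u D x = Upp_u D x' := by
  unfold Upp_u
  rw [Upp_a_congr D _ x x' h, Upp_a_congr D _ x x' h, Upp_a_congr D _ x x' h]

private theorem Upp_fam {n k d : ℕ} (A' : Finset (Finset (Fin n))) (Y S : Finset (Fin n))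
    (hcard : ∀ C ∈ A', C.card = k) (hdeg : ∀ v, (A'.filter fun C => v ∈ C).card ≤ d) :
    Fam A' (fun C => C \ Y) (fun C => C \ Y) k d 4 (Upp_Gd S) (Upp_psi Y S) := by
  refine ⟨fun C _ => Finset.Subset.refl _, fun C hC => ?_, fun v => ?_, fun τ v => ?_,
    fun C _ x x' h => ?_, fun C _ x => ?_, fun C _ x hx => ?_⟩
  · rw [← hcard C hC]; exact Finset.card_le_card Finset.sdiff_subset
  · refine le_trans (Finset.card_le_card fun C hC => ?_) (hdeg v)
    rw [Finset.mem_filter] at hC ⊢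
    exact ⟨hC.1, (Finset.mem_sdiff.1 hC.2).1⟩
  · unfold Upp_Gd
    split_ifs <;> rw [Upp_cardP] <;> norm_num [Fintype.card_prod]
  · unfold Upp_psi
    rw [Upp_u_congr (C \ Y ∩ S) x x' fun v hv => h v (Finset.mem_inter.1 hv).1,
      Upp_u_congr ((C \ Y) \ S) x x' fun v hv => h v (Finset.mem_sdiff.1 hv).1]
  · unfold Upp_psi
    rcases Upp_u_01 (C \ Y ∩ S) x with h1 | h1 <;> rcases Upp_u_01 ((C \ Y) \ S) x with h2 | h2 <;>
      rw [h1, h2] <;> norm_num
  · have h1 : Upp_u (C \ Y ∩ S) x ≠ 0 := fun h => hx (by unfold Upp_psi; rw [h]; ring)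
    have h2 : Upp_u ((C \ Y) \ S) x ≠ 0 := fun h => hx (by unfold Upp_psi; rw [h]; ring)
    obtain ⟨c, hc⟩ := Upp_u_ne _ x h1
    obtain ⟨c', hc'⟩ := Upp_u_ne _ x h2
    obtain ⟨τ, hτ, hτ'⟩ := Upp_pat c c'
    refine ⟨τ, fun v hv => ?_⟩
    unfold Upp_Gd
    by_cases hs : v ∈ S
    · rw [if_pos hs, hτ]; exact hc v (Finset.mem_inter.2 ⟨hv, hs⟩)
    · rw [if_neg hs, hτ']; exact hc' v (Finset.mem_sdiff.2 ⟨hv, hs⟩)

theorem thm_Upp (hGT : St_GT) : St_Upp := by
  intro n k d κ l y A' Y S z hz hkd h9 h8 hl hy hly h2 hcard hdeg hlin hY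
  have hD : ∀ C ∈ A', k ≤ (C \ Y).card + y := by
    intro C hC
    have h := Finset.card_inter_add_card_sdiff C Y
    have h' := hY C hC
    have h'' := hcard C hC
    omega
  have hyk : y + 5 ≤ k := (Nat.pow_le_pow_iff_right (by norm_num)).1 h2
  have hz0 : 0 ≤ z := by rw [hz]; positivity
  obtain ⟨_, h⟩ := hGT (Fin n) (Bool × Bool) (Finset (Fin n)) A' (fun C => C \ Y)
    (fun C => C \ Y) k d 4 κ (Upp_Gd S) (Upp_psi Y S) z (Upp_fam A' Y S hcard hdeg)
    (by rw [hz]; norm_num) hkd h9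
    (fun C hC => by
      have := hD C hC
      show d * κ ≤ (C \ Y).card
      omega)
  have hsm : ∀ C ∈ A', (8 : ℝ) / 2 ^ (C \ Y).card ≤ 1 / 4 := by
    intro C hC
    have h5 : 5 ≤ (C \ Y).card := by
      have := hD C hC
      omega
    have h6 : (32 : ℝ) ≤ 2 ^ (C \ Y).card := by
      calc (32 : ℝ) = 2 ^ 5 := by norm_num
        _ ≤ _ := pow_le_pow_right₀ (by norm_num) h5
    rw [div_le_div_iff₀ (by positivity) (by norm_num)]
    linarith
  have h' := (h l hl
    (fun C hC => by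
      have := hD C hC
      show 4 * (d * κ) ≤ (C \ Y).card
      omega)
    (fun C hC C' hC' hne => by
      have h1 := hD C hC
      have h1' := hD C' hC'
      have h3 := hlin C hC C' hC' hne
      have h4 := Finset.card_union_add_card_inter (C \ Y) (C' \ Y)
      have h5 : ((C \ Y) ∩ (C' \ Y)).card ≤ (C ∩ C').card :=
        Finset.card_le_card (Finset.inter_subset_inter Finset.sdiff_subset Finset.sdiff_subset)
      show 4 * l ≤ 3 * ((C \ Y) ∪ (C' \ Y)).card
      omega)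
    (fun C hC => le_trans (Upp_absXi Y S C) (hsm C hC))).2
  rw [Upp_box]
  refine le_trans h' (Finset.prod_le_prod (fun C hC => ?_) fun C hC => ?_)
  · have h1 := le_trans (Upp_absXi Y S C) (hsm C hC)
    have h3 := neg_le_of_abs_le h1
    have h4 : 0 ≤ 6 * (k * d) * z * |Xi (Upp_psi Y S) {C} ∅| := by positivity
    have h5 : (0 : ℝ) ≤ 1 / 2 ^ l := by positivity
    linarith
  · have h1 := Upp_absXi Y S C
    have h3 : 6 * (k * d) * z * |Xi (Upp_psi Y S) {C} ∅| ≤
        6 * (k * d) * z * (8 / 2 ^ (C \ Y).card) :=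
      mul_le_mul_of_nonneg_left h1 (by positivity)
    have h4 : 6 * (k * d) * z * (8 / 2 ^ (C \ Y).card) = 48 * (k * d) * z / 2 ^ (C \ Y).card := by
      ring
    rw [h4] at h3
    rw [Upp_Xi] at h3 ⊢
    linarith

end Pool.Agent.SEL
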