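import Pool.Agent.SEL.Main
import Pool.Agent.SEL.Fin
import Pool.Agent.SEL.HG
import Pool.Agent.SEL.Num
import Pool.Agent.SEL.SLL
import Pool.Agent.SEL.GT
import Pool.Agent.SEL.LowA
import Pool.Agent.SEL.LowB
import Pool.Agent.SEL.Upp
import Pool.Agent.SEL.Box
import Pool.Agent.SEL.Par
import Pool.Agent.SEL.Dec
import Pool.Agent.SEL.Ins
import Pool.Agent.SEL.Cub
import Pool.Agent.SEL.R12
import Pool.Agent.SEL.R3
import Pool.Agent.SEL.R4
import Pool.Agent.SEL.R5
import Pool.Agent.SEL.R6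
import Pool.Agent.SEL.Clo

/-!
# SEL: the main theorem
-/

set_option autoImplicit false

namespace Pool.Agent.SEL

theorem Main_all : St_Main :=
  thm_Main (thm_Fin (thm_HG thm_R1 thm_R2 thm_R3 thm_R4 thm_R5 thm_R6 thm_Clo) thm_Num
    (thm_LowA (thm_GT thm_SLL)) (thm_LowB (thm_GT thm_SLL)) (thm_Upp (thm_GT thm_SLL)) thm_Box
    thm_Par thm_Dec) thm_Cub

end Pool.Agent.SEL
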