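import Pool.Agent.SEL.St

/-!
# SEL: averages over subcubes, dependence of the partial counts on the variables
-/

set_option autoImplicit false

namespace Pool.Agent.SEL

open Finset Pool.Agent.VD

section av

variable {Ω : Type} [Fintype Ω]

theorem av_mono {f g : Ω → ℝ} (h : ∀ x, f x ≤ g x) : av f ≤ av g := by
  unfold av
  gcongr with x _
  exact h x

theorem av_nonneg {f : Ω → ℝ} (h : ∀ x, 0 ≤ f x) : 0 ≤ av f :=
  div_nonneg (sum_nonneg fun x _ => h x) (Nat.cast_nonneg _)

theorem av_mul_left (a : ℝ) (f : Ω → ℝ) : (av fun x => a * f x) = a * av f := by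
  unfold av
  rw [← mul_sum, mul_div_assoc]

theorem av_sub (f g : Ω → ℝ) : (av fun x => f x - g x) = av f - av g := by
  unfold av
  rw [sum_sub_distrib, sub_div]

theorem av_add (f g : Ω → ℝ) : (av fun x => f x + g x) = av f + av g := by
  unfold av
  rw [sum_add_distrib, add_div]

theorem av_sum {ι : Type} (s : Finset ι) (f : ι → Ω → ℝ) :
    (av fun x => ∑ i ∈ s, f i x) = ∑ i ∈ s, av (f i) := by
  unfold av
  rw [sum_comm, sum_div]

theorem abs_av_le (f : Ω → ℝ) : |av f| ≤ av fun x => |f x| := by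
  unfold av
  rw [abs_div, Nat.abs_cast]
  gcongr
  exact abs_sum_le_sum_abs _ _

theorem av_congr {f g : Ω → ℝ} (h : ∀ x, f x = g x) : av f = av g := by
  rw [funext h]

end av

variable {n : ℕ}

theorem card_agree (F : Finset (Fin n)) (y : Cube n) :
    (univ.filter fun x : Cube n => ∀ v, v ∉ F → x v = y v).card = 2 ^ F.card := by
  have h1 : (univ.filter fun x : Cube n => ∀ v, v ∉ F → x v = y v) =
      Fintype.piFinset fun v => if v ∈ F then (univ : Finset Bool) else {y v} := by
    ext x
    simp only [mem_filter, mem_univ, true_and, Fintype.mem_piFinset]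
    refine forall_congr' fun v => ?_
    by_cases hv : v ∈ F
    · simp [hv]
    · simp [hv]
  rw [h1, Fintype.card_piFinset]
  have h2 : ∀ v, (if v ∈ F then (univ : Finset Bool) else {y v}).card = if v ∈ F then 2 else 1 := by
    intro v
    split_ifs <;> simp
  simp only [h2]
  rw [prod_ite, prod_const_one, mul_one, prod_const, filter_mem_eq_inter, univ_inter]

theorem cube_self (F : Finset (Fin n)) (r : Cube n) (x : Cube n) :
    F.piecewise r x ∈ cube F r := by
  unfold cube
  refine mem_filter.2 ⟨mem_univ _, fun v hv => ?_⟩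
  rw [piecewise_eq_of_mem _ _ _ hv]

/-- sums over a cube -/
theorem sum_pw (F : Finset (Fin n)) (r : Cube n) (h : Cube n → ℝ) :
    ∑ x, h (F.piecewise r x) = 2 ^ F.card * ∑ x ∈ cube F r, h x := by
  classical
  rw [← sum_fiberwise_of_maps_to (s := univ) (t := cube F r) (g := fun x => F.piecewise r x)
    (fun x _ => cube_self F r x), mul_sum]
  refine sum_congr rfl fun y hy => ?_
  have h1 : ∀ x ∈ univ.filter (fun x : Cube n => F.piecewise r x = y),
      h (F.piecewise r x) = h y := by
    intro x hx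
    rw [(mem_filter.1 hx).2]
  rw [sum_congr rfl h1, sum_const, nsmul_eq_mul]
  congr 1
  have h2 : (univ.filter fun x : Cube n => F.piecewise r x = y) =
      univ.filter fun x : Cube n => ∀ v, v ∉ F → x v = y v := by
    ext x
    simp only [mem_filter, mem_univ, true_and]
    constructor
    · intro hx v hv
      rw [← hx, piecewise_eq_of_notMem _ _ _ hv]
    · intro hx
      funext v
      by_cases hv : v ∈ F
      · rw [piecewise_eq_of_mem _ _ _ hv]
        exact ((mem_filter.1 hy).2 v hv).symm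
      · rw [piecewise_eq_of_notMem _ _ _ hv, hx v hv]
  rw [h2, card_agree]
  push_cast
  ring

theorem card_cube (F : Finset (Fin n)) (r : Cube n) :
    (2 : ℝ) ^ F.card * (cube F r).card = 2 ^ n := by
  have h := sum_pw F r fun _ => 1
  simp only [sum_const, card_univ, Fintype.card_fun, Fintype.card_bool, Fintype.card_fin,
    nsmul_eq_mul, mul_one] at h
  rw [← h]
  push_cast
  ring

theorem cube_pos (F : Finset (Fin n)) (r : Cube n) : (0 : ℝ) < (cube F r).card := by
  have h := card_cube F r
  have h2 : (0 : ℝ) < 2 ^ n := by positivity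
  rw [← h] at h2
  exact (mul_pos_iff_of_pos_left (by positivity)).1 h2

theorem av_pw (F : Finset (Fin n)) (r : Cube n) (h : Cube n → ℝ) :
    (av fun x => h (F.piecewise r x)) = (∑ x ∈ cube F r, h x) / (cube F r).card := by
  unfold av
  rw [sum_pw, Fintype.card_fun, Fintype.card_bool, Fintype.card_fin]
  push_cast
  rw [← card_cube F r, mul_div_mul_left _ _ (by positivity)]

/-- one more fixed variable -/
theorem av_insert (R : Finset (Fin n)) (v : Fin n) (hv : v ∉ R) (ζ : Cube n) (h : Cube n → ℝ)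
    (h0 : ∀ x, 0 ≤ h x) :
    (av fun x => h ((insert v R).piecewise ζ x)) ≤ 2 * av fun x => h (R.piecewise ζ x) := by
  rw [av_pw, av_pw]
  have h1 := card_cube R ζ
  have h2 := card_cube (insert v R) ζ
  rw [card_insert_of_notMem hv, pow_succ] at h2
  have h3 : ((cube R ζ).card : ℝ) = 2 * (cube (insert v R) ζ).card := by
    have h4 : (0 : ℝ) < 2 ^ R.card := by positivity
    have h5 : (2 : ℝ) ^ R.card * (cube R ζ).card =
        2 ^ R.card * (2 * (cube (insert v R) ζ).card) := by rw [h1, ← h2]; ring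
    exact mul_left_cancel₀ h4.ne' h5
  have h6 := cube_pos (insert v R) ζ
  rw [h3, div_le_iff₀ h6]
  have h7 : ∑ x ∈ cube (insert v R) ζ, h x ≤ ∑ x ∈ cube R ζ, h x := by
    refine sum_le_sum_of_subset_of_nonneg ?_ fun x _ _ => h0 x
    intro x hx
    refine mem_filter.2 ⟨mem_univ _, fun w hw => (mem_filter.1 hx).2 w (mem_insert_of_mem hw)⟩
  refine h7.trans (le_of_eq ?_)
  field_simp

theorem av_union (R V' : Finset (Fin n)) (ζ : Cube n) (h : Cube n → ℝ) (h0 : ∀ x, 0 ≤ h x) :
    (av fun x => h ((R ∪ V').piecewise ζ x)) ≤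
      2 ^ V'.card * av fun x => h (R.piecewise ζ x) := by
  classical
  induction V' using Finset.induction_on with
  | empty =>
    rw [card_empty, pow_zero, one_mul, union_empty]
  | insert v V' hv ih =>
    rw [card_insert_of_notMem hv, pow_succ]
    have hnn : 0 ≤ av fun x => h (R.piecewise ζ x) := av_nonneg fun x => h0 _
    by_cases hR : v ∈ R ∪ V'
    · have h1 : R ∪ insert v V' = R ∪ V' := by
        rw [union_insert, insert_eq_of_mem hR]
      rw [h1]
      refine ih.trans ?_
      have : (0 : ℝ) ≤ 2 ^ V'.card * av fun x => h (R.piecewise ζ x) :=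
        mul_nonneg (by positivity) hnn
      nlinarith
    · rw [union_insert]
      refine (av_insert _ v hR ζ h h0).trans ?_
      calc 2 * (av fun x => h ((R ∪ V').piecewise ζ x)) ≤
          2 * (2 ^ V'.card * av fun x => h (R.piecewise ζ x)) := by linarith
        _ = _ := by ring

/-! ### dependence -/

theorem part_congr (A : Finset (Finset (Fin n))) (Y : Finset (Fin n)) {x y : Cube n}
    (h : ∀ v, v ∉ Y → x v = y v) : part A Y x = part A Y y := by
  unfold part
  congr 1
  ext z
  simp only [mem_filter, mem_univ, true_and]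
  refine and_congr_left fun _ => forall_congr' fun v => ?_
  exact ⟨fun hz hv => (hz hv).trans (h v hv), fun hz hv => (hz hv).trans (h v hv).symm⟩

theorem part_mono {A A' : Finset (Finset (Fin n))} (hA : A' ⊆ A) (Y : Finset (Fin n))
    (x : Cube n) : part A Y x ≤ part A' Y x := by
  unfold part
  refine card_le_card fun z hz => ?_
  obtain ⟨-, h1, h2⟩ := mem_filter.1 hz
  exact mem_filter.2 ⟨mem_univ _, h1, fun C hC => h2 C (hA hC)⟩

theorem part_le (A : Finset (Finset (Fin n))) (Y : Finset (Fin n)) (x : Cube n) :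
    (part A Y x : ℝ) ≤ 2 ^ Y.card := by
  have h : part A Y x ≤ 2 ^ Y.card := by
    rw [← card_agree Y x]
    unfold part
    refine card_le_card fun z hz => ?_
    obtain ⟨-, h1, -⟩ := mem_filter.1 hz
    exact mem_filter.2 ⟨mem_univ _, h1⟩
  exact_mod_cast h

theorem part_ne {A : Finset (Finset (Fin n))} {Y : Finset (Fin n)} {x : Cube n}
    (h : part A Y x ≠ 0) : ∀ C ∈ A, ∃ v ∈ C, v ∈ Y ∨ x v = true := by
  intro C hC
  unfold part at h
  obtain ⟨z, hz⟩ := card_ne_zero.1 h
  obtain ⟨-, h1, h2⟩ := mem_filter.1 hz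
  obtain ⟨v, hv, hzv⟩ := h2 C hC
  refine ⟨v, hv, ?_⟩
  by_cases hY : v ∈ Y
  · exact Or.inl hY
  · exact Or.inr (by rw [← h1 v hY, hzv])

theorem ind_nonneg (A : Finset (Finset (Fin n))) (x : Cube n) : 0 ≤ ind A x := by
  unfold ind
  split_ifs <;> norm_num

theorem ind_congr (A : Finset (Finset (Fin n))) {x y : Cube n}
    (h : ∀ C ∈ A, ∀ v ∈ C, x v = y v) : ind A x = ind A y := by
  unfold ind
  congr 1
  refine propext (forall₂_congr fun C hC => ?_)
  exact ⟨fun ⟨v, hv, hx⟩ => ⟨v, hv, by rw [← h C hC v hv, hx]⟩,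
    fun ⟨v, hv, hx⟩ => ⟨v, hv, by rw [h C hC v hv, hx]⟩⟩

theorem wt_congr (A : Finset (Finset (Fin n))) (Y : Finset (Fin n)) {x y : Cube n}
    (h : ∀ C ∈ A, ∀ v ∈ C, v ∉ Y → x v = y v) : wt A Y x = wt A Y y := by
  unfold wt
  refine prod_congr rfl fun C hC => ?_
  congr 2
  refine propext (forall₂_congr fun v hv => ?_)
  rw [mem_sdiff] at hv
  rw [h C hC v hv.1 hv.2]

theorem abs_wt (A : Finset (Finset (Fin n))) (Y : Finset (Fin n)) (x : Cube n) :
    |wt A Y x| = 1 := by
  unfold wt
  rw [abs_prod]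
  refine prod_eq_one fun C _ => ?_
  split_ifs <;> norm_num

theorem rkLe_pw {S : Finset (Fin n)} {W : ℕ} {T : Cube n → ℝ} (h : RkLe S W T)
    (R : Finset (Fin n)) (ζ : Cube n) : RkLe S W fun x => T (R.piecewise ζ x) := by
  obtain ⟨u, v, hu, hv, hT⟩ := h
  have key : ∀ x y : Cube n, ∀ i, x i = y i →
      (R.piecewise ζ x : Cube n) i = (R.piecewise ζ y : Cube n) i := by
    intro x y i hi
    by_cases hR : i ∈ R
    · rw [piecewise_eq_of_mem _ _ _ hR, piecewise_eq_of_mem _ _ _ hR]
    · rw [piecewise_eq_of_notMem _ _ _ hR, piecewise_eq_of_notMem _ _ _ hR, hi]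
  exact ⟨fun k x => u k (R.piecewise ζ x), fun k x => v k (R.piecewise ζ x),
    fun k x y hxy => hu k _ _ fun i hi => key x y i (hxy i hi),
    fun k x y hxy => hv k _ _ fun i hi => key x y i (hxy i hi), fun x => hT _⟩

end Pool.Agent.SEL
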