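import Pool.Agent.SEL.St

/-!
# SEL: assembly
-/

set_option autoImplicit false

namespace Pool.Agent.SEL

open Finset Pool.Agent.VD

theorem Main_mono {n : ℕ} {ε c c' : ℝ} {b C : ℕ} (hc : c' ≤ c) (hb : b ≤ C)
    {A : Finset (Finset (Fin n))} {Y F : Finset (Fin n)} {r : Cube n}
    (h : HardOn ε c b A Y F r) : HardOn ε c' C A Y F r := by
  intro W s P g K hW hK h1 h2
  refine le_trans ?_ (h W s P g K hW hK ?_ h2)
  · exact Real.rpow_le_rpow_of_exponent_le (by norm_num)
      (mul_le_mul_of_nonneg_right hc (Nat.cast_nonneg _))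
  · refine le_trans ?_ h1
    refine mul_le_mul_of_nonneg_right ?_ (sum_nonneg fun x _ => abs_nonneg _)
    refine pow_le_pow_right₀ (by norm_num) ?_
    have := Nat.mul_le_mul_right F.card hb
    omega

theorem Main_small {n : ℕ} {ε c : ℝ} {C : ℕ} (hc : c * n ≤ 1) (A : Finset (Finset (Fin n)))
    (Y F : Finset (Fin n)) (r : Cube n) : HardOn ε c C A Y F r := by
  intro W s P g K hW hK _ _
  have hs : (1 : ℝ) ≤ P.size := by
    have h1 : 1 ≤ s := by have := g.2; omega
    have h2 : 1 ≤ P.size := h1.trans (Nat.le_add_right _ _)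
    exact_mod_cast h2
  have hW' : (1 : ℝ) ≤ W := by exact_mod_cast hW
  calc (2 : ℝ) ^ (c * n) ≤ (2 : ℝ) ^ (1 : ℝ) :=
        Real.rpow_le_rpow_of_exponent_le (by norm_num) hc
    _ = 2 := Real.rpow_one 2
    _ ≤ 2 * P.size * W * K := by
        have h1 : (1 : ℝ) ≤ P.size * W := one_le_mul_of_one_le_of_one_le hs hW'
        have h2 : (1 : ℝ) ≤ P.size * W * K := one_le_mul_of_one_le_of_one_le h1 hK
        linarith

/-- the support of the partial count -/
theorem Main_supp {n : ℕ} {A : Finset (Finset (Fin n))} {Y : Finset (Fin n)} {x : Cube n}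
    (h : ∀ C ∈ A, ∃ v ∈ C, x v = true) : part A Y x ≠ 0 := by
  unfold part
  rw [card_ne_zero]
  exact ⟨x, mem_filter.2 ⟨mem_univ _, fun _ _ => rfl, h⟩⟩

/-- the hardness on a cube depends only on the cube -/
theorem Main_cube {n : ℕ} {ε c : ℝ} {C : ℕ} {A : Finset (Finset (Fin n))} {Y F : Finset (Fin n)}
    {x r : Cube n} (hx : ∀ v ∈ F, x v = r v) (h : HardOn ε c C A Y F x) :
    HardOn ε c C A Y F r := by
  have h1 : cube F x = cube F r := by
    unfold cube
    ext y
    simp only [mem_filter, mem_univ, true_and]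
    exact forall₂_congr fun v hv => by rw [hx v hv]
  unfold HardOn at h ⊢
  rw [h1] at h
  exact h

private abbrev Main_mod {n : ℕ} (E : Finset (Finset (Fin n))) (F : Finset (Fin n)) (r : Cube n) :
    Finset (Cube n) :=
  (cube F r).filter fun x => ∀ C ∈ E, ∃ v ∈ C, x v = true

theorem Main_run (hC : St_Cub) {n N : ℕ} {E : Finset (Finset (Fin n))} {k d : ℕ}
    (hcard : ∀ C ∈ E, C.card = k) (hk2 : 2 ≤ k)
    (hdeg : ∀ v, (E.filter fun C => v ∈ C).card ≤ d) {t e₀ b : ℕ} {c₁ c₂ ε : ℝ} (hε : 0 < 1 - ε)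
    (hε1 : 0 < ε) (ht : (1 : ℝ) ≤ t) (he₁ : (t : ℝ) ≤ e₀ * (1 - ε)) (he₂ : 2 ≤ e₀ * ε)
    (hc : c₂ ≤ c₁ / (1 + d + d * k) * Real.logb 2 ((2 ^ d + 1) / (2 : ℝ) ^ d))
    (core : ∀ (A : Finset (Finset (Fin n))) (Y : Finset (Fin n)), Closed E A Y →
        E.card ≤ e₀ * A.card → (E.card ≤ e₀ * (E \ A).card ∨ (Y.card : ℝ) ≤ c₁ * n) →
        Hard ε c₁ b A Y)
    (A : Fin N → Finset (Finset (Fin n))) (Y F : Fin N → Finset (Fin n)) (r : Fin N → Cube n)
    (hrun : Run E t ((1 - ε) * E.card) (ε / 2 * E.card) A Y F r) (i₀ : Fin N) (hi₀ : A i₀ = E)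
    (hF₀ : F i₀ = ∅) (hE : 0 < E.card) :
    (2 : ℝ) ^ (c₂ * n) ≤ N ∨ ∃ i, HardOn ε c₁ b (A i) (Y i) (F i) (r i) := by
  classical
  by_contra hcon
  push Not at hcon
  obtain ⟨hN, hno⟩ := hcon
  have hE0 : (0 : ℝ) < E.card := by exact_mod_cast hE
  have ht0 : (0 : ℝ) < t := by linarith
  -- each model lies in a small cube
  have key : ∀ x ∈ (univ.filter fun x : Cube n => ∀ C ∈ E, ∃ v ∈ C, x v = true),
      ∃ i, c₁ * n < ((F i).card : ℝ) ∧ x ∈ Main_mod E (F i) (r i) := by
    intro x hx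
    have hxE : ∀ C ∈ E, ∃ v ∈ C, x v = true := (mem_filter.1 hx).2
    have hne : (univ.filter fun i : Fin N => (1 - ε) * E.card < t * ((A i).card : ℝ) ∧
        ∀ v ∈ F i, x v = r i v).Nonempty := by
      refine ⟨i₀, mem_filter.2 ⟨mem_univ _, ?_, ?_⟩⟩
      · rw [hi₀]
        nlinarith
      · rw [hF₀]
        simp
    set i := (univ.filter fun i : Fin N => (1 - ε) * E.card < t * ((A i).card : ℝ) ∧
        ∀ v ∈ F i, x v = r i v).min' hne with hi
    have him := (mem_filter.1 (min'_mem _ hne)).2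
    rw [← hi] at him
    obtain ⟨him1, him2⟩ := him
    have hlt : ∀ j < i, (∀ v ∈ F j, x v = r j v) → t * ((A j).card : ℝ) ≤ (1 - ε) * E.card := by
      intro j hj hxj
      by_contra hcon
      push Not at hcon
      have hj' : j ∈ univ.filter fun i : Fin N => (1 - ε) * E.card < t * ((A i).card : ℝ) ∧
          ∀ v ∈ F i, x v = r i v := mem_filter.2 ⟨mem_univ _, hcon, hxj⟩
      exact absurd hj (not_lt.2 (min'_le _ j hj'))
    obtain ⟨hcl, hstep⟩ := hrun i
    refine ⟨i, ?_, mem_filter.2 ⟨mem_filter.2 ⟨mem_univ _, him2⟩, hxE⟩⟩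
    by_contra hFi
    push Not at hFi
    have hA1 : (E.card : ℝ) ≤ e₀ * (A i).card := by
      have e1 : (t : ℝ) * E.card ≤ e₀ * (1 - ε) * E.card :=
        mul_le_mul_of_nonneg_right he₁ hE0.le
      have e2 : (e₀ : ℝ) * ((1 - ε) * E.card) ≤ e₀ * (t * (A i).card) :=
        mul_le_mul_of_nonneg_left him1.le (Nat.cast_nonneg _)
      have e3 : (t : ℝ) * E.card ≤ t * (e₀ * (A i).card) := by linarith
      exact le_of_mul_le_mul_left e3 ht0
    have hA2 : ((A i).card : ℝ) ≤ (1 - ε / 2) * E.card := by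
      rcases hstep with h | h
      · exact absurd him1 (not_lt.2 h)
      · obtain ⟨J, hJt, hJi, hJA⟩ := h x him2 fun e he => hxE e (hcl.1 he)
        have e0 : A i ⊆ (A i \ J.biUnion A) ∪ J.biUnion A := by
          intro C hC
          by_cases h : C ∈ J.biUnion A
          · exact mem_union_right _ h
          · exact mem_union_left _ (mem_sdiff.2 ⟨hC, h⟩)
        have e1 : (A i).card ≤ (A i \ J.biUnion A).card + ∑ j ∈ J, (A j).card :=
          (card_le_card e0).trans ((card_union_le _ _).trans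
            (Nat.add_le_add_left card_biUnion_le _))
        have e2 : ((A i).card : ℝ) ≤ ((A i \ J.biUnion A).card : ℝ) +
            ∑ j ∈ J, ((A j).card : ℝ) := by exact_mod_cast e1
        have e3 : ∑ j ∈ J, ((A j).card : ℝ) ≤ ∑ _j ∈ J, (1 - ε) * E.card / t := by
          apply sum_le_sum
          intro j hj
          rw [le_div_iff₀ ht0]
          linarith [hlt j (hJi j hj).1 (hJi j hj).2]
        rw [sum_const, nsmul_eq_mul] at e3
        have e4 : (J.card : ℝ) ≤ t := by exact_mod_cast hJt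
        have e5 : (J.card : ℝ) * ((1 - ε) * E.card / t) ≤ t * ((1 - ε) * E.card / t) :=
          mul_le_mul_of_nonneg_right e4 (div_nonneg (mul_nonneg hε.le hE0.le) ht0.le)
        have e6 : (t : ℝ) * ((1 - ε) * E.card / t) = (1 - ε) * E.card := by
          field_simp
        linarith
    have hA3 : (E.card : ℝ) ≤ e₀ * (E \ A i).card := by
      have e1 : ((E \ A i).card : ℝ) = E.card - (A i).card := by
        have := card_sdiff_add_card_eq_card hcl.1
        have h2 : (((E \ A i).card + (A i).card : ℕ) : ℝ) = E.card := by rw [this]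
        push_cast at h2
        linarith
      rw [e1]
      have e2 : (e₀ : ℝ) * (ε / 2 * E.card) ≤ e₀ * (E.card - (A i).card) :=
        mul_le_mul_of_nonneg_left (by linarith) (Nat.cast_nonneg _)
      have e3 : 1 * (E.card : ℝ) ≤ e₀ * ε / 2 * E.card :=
        mul_le_mul_of_nonneg_right (by linarith) hE0.le
      linarith
    have hh := core (A i) (Y i) hcl (by exact_mod_cast hA1) (Or.inl (by exact_mod_cast hA3))
      (F i) x hFi (Main_supp fun C hC => hxE C (hcl.1 hC))
    exact hno i (Main_cube him2 hh)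
  -- the number of models
  set M := (univ.filter fun x : Cube n => ∀ C ∈ E, ∃ v ∈ C, x v = true).card with hM
  have hM0 : 0 < M := by
    rw [hM, card_pos]
    refine ⟨fun _ => true, mem_filter.2 ⟨mem_univ _, fun C hCE => ?_⟩⟩
    have h1 : C.Nonempty := by
      rw [← card_pos, hcard C hCE]
      omega
    exact ⟨h1.choose, h1.choose_spec, rfl⟩
  have h2d : (0 : ℝ) < 2 ^ d := by positivity
  set q : ℝ := (2 ^ d + 1) / (2 : ℝ) ^ d with hq
  have hq1 : 1 < q := by
    rw [hq, lt_div_iff₀ h2d]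
    linarith
  have hq0 : 0 < q := by linarith
  set l := Real.logb 2 q with hl
  have hl0 : 0 < l := Real.logb_pos (by norm_num) hq1
  have h2l : (2 : ℝ) ^ l = q := by
    rw [hl, Real.rpow_logb (by norm_num) (by norm_num) hq0]
  have hcube : ∀ i, c₁ * n < ((F i).card : ℝ) →
      ((Main_mod E (F i) (r i)).card : ℝ) ≤ (2 : ℝ) ^ (-(c₂ * n)) * M := by
    intro i hi
    obtain ⟨m, hm1, hm2⟩ := hC n k d E (fun C hCE => by rw [hcard C hCE]; exact ⟨hk2, le_rfl⟩)
      hdeg (F i) (r i)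
    have e1 : ((2 : ℝ) ^ d + 1) ^ m * (Main_mod E (F i) (r i)).card ≤ ((2 : ℝ) ^ d) ^ m * M := by
      exact_mod_cast hm2
    have e2 : ((2 : ℝ) ^ d + 1) = q * 2 ^ d := by
      rw [hq]
      field_simp
    rw [e2, mul_pow] at e1
    have e3 : q ^ m * (Main_mod E (F i) (r i)).card ≤ M := by
      have h4 : (0 : ℝ) < ((2 : ℝ) ^ d) ^ m := by positivity
      have h5 : ((2 : ℝ) ^ d) ^ m * (q ^ m * (Main_mod E (F i) (r i)).card) ≤
          ((2 : ℝ) ^ d) ^ m * M := by
        calc _ = _ := by ring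
          _ ≤ _ := e1
      exact le_of_mul_le_mul_left h5 h4
    have hm3 : ((F i).card : ℝ) ≤ (1 + d + d * k) * m := by exact_mod_cast hm1
    have hC1 : (0 : ℝ) < 1 + d + d * k := by positivity
    have e5 : c₁ / (1 + d + d * k) * n ≤ m := by
      rw [div_mul_eq_mul_div, div_le_iff₀ hC1]
      linarith
    have e6 : c₂ * n ≤ c₁ / (1 + d + d * k) * l * n :=
      mul_le_mul_of_nonneg_right hc (Nat.cast_nonneg _)
    have e7 : c₁ / (1 + d + d * k) * n * l ≤ m * l := mul_le_mul_of_nonneg_right e5 hl0.le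
    have e8 : c₂ * n ≤ l * m := by linarith
    have e9 : (2 : ℝ) ^ (c₂ * n) ≤ q ^ m := by
      rw [← h2l, ← Real.rpow_natCast, ← Real.rpow_mul (by norm_num)]
      exact Real.rpow_le_rpow_of_exponent_le (by norm_num) e8
    rw [Real.rpow_neg (by norm_num), ← div_eq_inv_mul, le_div_iff₀ (by positivity)]
    calc ((Main_mod E (F i) (r i)).card : ℝ) * (2 : ℝ) ^ (c₂ * n)
        ≤ ((Main_mod E (F i) (r i)).card : ℝ) * q ^ m :=
          mul_le_mul_of_nonneg_left e9 (Nat.cast_nonneg _)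
      _ = q ^ m * (Main_mod E (F i) (r i)).card := mul_comm _ _
      _ ≤ M := e3
  have hsub : (univ.filter fun x : Cube n => ∀ C ∈ E, ∃ v ∈ C, x v = true) ⊆
      (univ.filter fun i : Fin N =>
        c₁ * n < ((F i).card : ℝ)).biUnion fun i => Main_mod E (F i) (r i) := by
    intro x hx
    obtain ⟨i, hi1, hi2⟩ := key x hx
    exact mem_biUnion.2 ⟨i, mem_filter.2 ⟨mem_univ _, hi1⟩, hi2⟩
  have h1 : (M : ℝ) ≤ ∑ i ∈ univ.filter (fun i : Fin N => c₁ * n < ((F i).card : ℝ)),
      ((Main_mod E (F i) (r i)).card : ℝ) := by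
    have := (card_le_card hsub).trans card_biUnion_le
    rw [← hM] at this
    exact_mod_cast this
  have h2 : ∑ i ∈ univ.filter (fun i : Fin N => c₁ * n < ((F i).card : ℝ)),
      ((Main_mod E (F i) (r i)).card : ℝ) ≤ N * ((2 : ℝ) ^ (-(c₂ * n)) * M) := by
    refine (sum_le_card_nsmul _ _ _ fun i hi => hcube i (mem_filter.1 hi).2).trans ?_
    rw [nsmul_eq_mul]
    apply mul_le_mul_of_nonneg_right _ (by positivity)
    have : (univ.filter (fun i : Fin N => c₁ * n < ((F i).card : ℝ))).card ≤ N := by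
      refine (card_le_univ _).trans ?_
      rw [Fintype.card_fin]
    exact_mod_cast this
  have h3 : (M : ℝ) ≤ N * ((2 : ℝ) ^ (-(c₂ * n)) * M) := h1.trans h2
  have hM1 : (0 : ℝ) < M := by exact_mod_cast hM0
  have h4 : (N : ℝ) * (2 : ℝ) ^ (-(c₂ * n)) < 1 := by
    rw [Real.rpow_neg (by norm_num), ← div_eq_mul_inv, div_lt_one (by positivity)]
    exact hN
  nlinarith

theorem thm_Main (hF : St_Fin) (hC : St_Cub) : St_Main := by
  classical
  intro ε hε0 hε3 t ht
  have h1ε : 0 < 1 - ε := by linarith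
  have ht' : (1 : ℝ) ≤ t := by exact_mod_cast ht
  obtain ⟨e₀, he₀⟩ := exists_nat_ge (max 3 (max (2 / ε) (t / (1 - ε))))
  have he3 : (3 : ℝ) ≤ e₀ := (le_max_left _ _).trans he₀
  have he1 : 2 / ε ≤ e₀ := ((le_max_left _ _).trans (le_max_right _ _)).trans he₀
  have he2 : t / (1 - ε) ≤ e₀ := ((le_max_right _ _).trans (le_max_right _ _)).trans he₀
  have he1' : 2 ≤ e₀ * ε := by rwa [div_le_iff₀ hε0] at he1
  have he2' : t ≤ e₀ * (1 - ε) := by rwa [div_le_iff₀ h1ε] at he2
  have he0 : (0 : ℝ) < e₀ := by linarith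
  have he3' : 3 ≤ e₀ := by exact_mod_cast he3
  obtain ⟨c, hc, b, k, d, n₀, hk2, H⟩ := hF e₀ he3'
  have hn₀ : (0 : ℝ) < n₀ + 1 := by positivity
  have h2d : (0 : ℝ) < 2 ^ d := by positivity
  set l := Real.logb 2 ((2 ^ d + 1) / (2 : ℝ) ^ d) with hl
  have hl0 : 0 < l := by
    apply Real.logb_pos (by norm_num)
    rw [lt_div_iff₀ h2d]
    linarith
  set c₂ := c / (1 + d + d * k) * l with hc₂
  have hc₂0 : 0 < c₂ := mul_pos (div_pos hc (by positivity)) hl0
  set c' := min (min c c₂) (1 / (n₀ + 1)) with hc'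
  have hc'c : c' ≤ c := (min_le_left _ _).trans (min_le_left _ _)
  have hc'c₂ : c' ≤ c₂ := (min_le_left _ _).trans (min_le_right _ _)
  have hc'n : c' ≤ 1 / (n₀ + 1) := min_le_right _ _
  refine ⟨c', lt_min (lt_min hc hc₂0) (by positivity), max b d, k, by omega, ?_⟩
  intro n
  rcases lt_or_ge n n₀ with hn | hn
  · have hsm : c' * n ≤ 1 := by
      have h1 : c' * n ≤ 1 / (n₀ + 1) * n := mul_le_mul_of_nonneg_right hc'n (Nat.cast_nonneg _)
      refine h1.trans ?_
      rw [one_div_mul_eq_div, div_le_one hn₀]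
      have : (n : ℝ) < n₀ := by exact_mod_cast hn
      linarith
    refine ⟨∅, by simp, by simp, fun A Y _ _ _ F r _ _ => Main_small hsm A Y F r, ?_⟩
    rintro N A Y F r - ⟨i, -⟩
    exact Or.inr ⟨i, Main_small hsm _ _ _ _⟩
  · obtain ⟨E, hE1, hE2, hE3, hE4⟩ := H n hn
    have core := hE4 ε (by linarith) hε3
    refine ⟨E, hE1, fun v => (hE2 v).trans (le_max_right _ _), ?_, ?_⟩
    · intro A Y hcl h1 h2 F r hF hr
      refine Main_mono hc'c (le_max_left _ _) (core A Y hcl ?_ ?_ F r ?_ hr)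
      · have e1 : (e₀ : ℝ) * (ε * E.card) ≤ e₀ * A.card := mul_le_mul_of_nonneg_left h1 he0.le
        have e2 : (2 : ℝ) * E.card ≤ e₀ * ε * E.card :=
          mul_le_mul_of_nonneg_right he1' (Nat.cast_nonneg _)
        have e3 : (0 : ℝ) ≤ E.card := Nat.cast_nonneg _
        have e4 : (E.card : ℝ) ≤ e₀ * A.card := by linarith
        exact_mod_cast e4
      · rcases h2 with h2 | h2
        · left
          have e1 : ((E \ A).card : ℝ) = E.card - A.card := by
            have := card_sdiff_add_card_eq_card hcl.1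
            have h2 : (((E \ A).card + A.card : ℕ) : ℝ) = E.card := by rw [this]
            push_cast at h2
            linarith
          have e2 : (e₀ : ℝ) * (ε * E.card) ≤ e₀ * (E.card - A.card) :=
            mul_le_mul_of_nonneg_left (by linarith) (Nat.cast_nonneg _)
          have e3 : (2 : ℝ) * E.card ≤ e₀ * ε * E.card :=
            mul_le_mul_of_nonneg_right he1' (Nat.cast_nonneg _)
          have e5 : (0 : ℝ) ≤ E.card := Nat.cast_nonneg _
          have e4 : (E.card : ℝ) ≤ e₀ * (E \ A).card := by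
            rw [e1]
            linarith
          exact_mod_cast e4
        · exact Or.inr (h2.trans (mul_le_mul_of_nonneg_right hc'c (Nat.cast_nonneg _)))
      · exact hF.trans (mul_le_mul_of_nonneg_right hc'c (Nat.cast_nonneg _))
    · rintro N A Y F r hrun ⟨i₀, hi₀, hF₀⟩
      rcases Main_run hC hE1 hk2 hE2 h1ε hε0 ht' he2' he1' le_rfl core A Y F r hrun i₀ hi₀ hF₀
        hE3 with h | h
      · left
        refine le_trans ?_ h
        exact Real.rpow_le_rpow_of_exponent_le (by norm_num)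
          (mul_le_mul_of_nonneg_right hc'c₂ (Nat.cast_nonneg _))
      · obtain ⟨i, hi⟩ := h
        exact Or.inr ⟨i, Main_mono hc'c (le_max_left _ _) hi⟩

end Pool.Agent.SEL
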