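import Pool.Agent.VD.ADef

/-!
# Partial model counts of monotone CNF formulas, stored as arithmetic circuits: definitions

The arithmetic circuits (`Arith`, `Place`, `Reset`, `size`) are defined in
`Pool/Agent/VD/ADef.lean`. A monotone CNF formula is a set `E` of clauses, a clause is a set of
variables, it is satisfied if one of its variables has the value `true`.
-/

set_option autoImplicit false

namespace Pool.Agent.SEL

open Finset Pool.Agent.VD

/-- The partial count: the number of assignments which agree with `x` outside `Y` and satisfy all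
clauses in `A`, as a function of the values of `x` outside `Y`. -/
def part {n : ℕ} (A : Finset (Finset (Fin n))) (Y : Finset (Fin n)) (x : Cube n) : ℕ :=
  (univ.filter fun y : Cube n =>
    (∀ v, v ∉ Y → y v = x v) ∧ ∀ C ∈ A, ∃ v ∈ C, y v = true).card

/-- `A` is a set of clauses of `E` which contains all clauses of `E` with a variable in `Y`. -/
def Closed {n : ℕ} (E A : Finset (Finset (Fin n))) (Y : Finset (Fin n)) : Prop :=
  A ⊆ E ∧ ∀ C ∈ E, ∀ v ∈ C, v ∈ Y → C ∈ A

/-- The cube of all points which agree with `r` on `F`. -/
def cube {n : ℕ} (F : Finset (Fin n)) (r : Cube n) : Finset (Cube n) :=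
  univ.filter fun x => ∀ v ∈ F, x v = r v

/-- The reset of any place of the circuit changes the value of the gate `g` by at most `B` in root
mean square over the points of `Q`. -/
def StableOn {n : ℕ} {ε : ℝ} {W s : ℕ} (P : Arith n ε W s) (Q : Finset (Cube n)) (g : Fin s)
    (B : ℝ) : Prop :=
  ∀ p, P.Place p → ∃ u : Cube n → Fin s → ℝ, (∀ x, P.Reset x p (u x)) ∧
    ∑ x ∈ Q, (P.f g x - u x g) ^ 2 ≤ B ^ 2 * Q.card

/-- The partial count `part A Y` is hard on the cube given by `F` and `r`: each arithmetic circuit
which computes it on the cube, up to the relative error `2 ^ (-1 - |Y| - C |F|)` in the sum over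
the cube, and in which the reset of a place changes the result by at most `K * 2 ^ |Y|` in root
mean square over the cube, has `2 ^ (c n) ≤ 2 * size * W * K`. -/
def HardOn {n : ℕ} (ε c : ℝ) (C : ℕ) (A : Finset (Finset (Fin n))) (Y F : Finset (Fin n))
    (r : Cube n) : Prop :=
  ∀ (W s : ℕ) (P : Arith n ε W s) (g : Fin s) (K : ℝ), 1 ≤ W → 1 ≤ K →
    (2 : ℝ) ^ (1 + Y.card + C * F.card) * ∑ x ∈ cube F r, |P.f g x - part A Y x| ≤
      ∑ x ∈ cube F r, (part A Y x : ℝ) →
    StableOn P (cube F r) g (K * 2 ^ Y.card) →
    (2 : ℝ) ^ (c * n) ≤ 2 * P.size * W * K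

/-- The partial count `part A Y` is hard on each cube which is given by at most `c n` fixed
variables and on which it is not zero. -/
def Hard {n : ℕ} (ε c : ℝ) (C : ℕ) (A : Finset (Finset (Fin n))) (Y : Finset (Fin n)) : Prop :=
  ∀ (F : Finset (Fin n)) (r : Cube n), (F.card : ℝ) ≤ c * n → part A Y r ≠ 0 →
    HardOn ε c C A Y F r

/-- The list of the subproblems `i < N`, given by the clauses `A i`, the eliminated variables `Y i`
and the cube of all `x` which agree with `r i` on `F i`, is a run of a counting algorithm which
computes the partial count `part (A i) (Y i)` on its cube for each `i`: each subproblem has at most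
`b / t` clauses (these are free), or each model `x` of `A i` in its cube lies in the cubes of at
most `t` earlier subproblems which contain together all but `δ` clauses of `A i`. -/
def Run {n N : ℕ} (E : Finset (Finset (Fin n))) (t : ℕ) (b δ : ℝ)
    (A : Fin N → Finset (Finset (Fin n))) (Y F : Fin N → Finset (Fin n))
    (r : Fin N → Cube n) : Prop :=
  ∀ i, Closed E (A i) (Y i) ∧ (t * ((A i).card : ℝ) ≤ b ∨
    ∀ x : Cube n, (∀ v ∈ F i, x v = r i v) → (∀ C ∈ A i, ∃ v ∈ C, x v = true) →
      ∃ J : Finset (Fin N), J.card ≤ t ∧ (∀ j ∈ J, j < i ∧ ∀ v ∈ F j, x v = r j v) ∧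
        ((A i \ J.biUnion A).card : ℝ) ≤ δ)

end Pool.Agent.SEL
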