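import Pool.Agent.SEL.St

/-!
# SEL: small sets of random clauses expand
-/

set_option autoImplicit false

namespace Pool.Agent.SEL

open Finset Pool.Agent.VD

/-- the number of configurations with given positions of the repetitions -/
private lemma R6_count {m k n : ℕ} (hn : 0 < n) (P R : Finset (Fin m × Fin k)) :
    (univ.filter fun c : Cfg m k n =>
      ∀ p ∈ R, ∃ p' ∈ P \ R, c p.1 p.2 = c p'.1 p'.2).card ≤
      n ^ (m * k - R.card) * P.card ^ R.card := by
  classical
  let Φ : ({x // x ∈ Rᶜ} → Fin n) × ({x // x ∈ R} → {x // x ∈ P}) → Cfg m k n := fun d i j =>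
    if h : (i, j) ∈ R then
      if h' : (d.2 ⟨(i, j), h⟩ : Fin m × Fin k) ∈ Rᶜ then d.1 ⟨_, h'⟩ else ⟨0, hn⟩
    else d.1 ⟨(i, j), Finset.mem_compl.2 h⟩
  have h1 : (univ.filter fun c : Cfg m k n =>
      ∀ p ∈ R, ∃ p' ∈ P \ R, c p.1 p.2 = c p'.1 p'.2) ⊆ univ.image Φ := by
    intro c hc
    have hc' := (Finset.mem_filter.1 hc).2
    choose! f hf hf' using hc'
    refine Finset.mem_image.2 ⟨(fun x => c x.1.1 x.1.2,
      fun x => ⟨f x.1, (Finset.mem_sdiff.1 (hf x.1 x.2)).1⟩), Finset.mem_univ _, ?_⟩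
    funext i j
    by_cases h : (i, j) ∈ R
    · have h2 : f (i, j) ∈ Rᶜ := Finset.mem_compl.2 (Finset.mem_sdiff.1 (hf _ h)).2
      change (if h : (i, j) ∈ R then _ else _) = _
      rw [dif_pos h]
      change (if h' : f (i, j) ∈ Rᶜ then _ else _) = _
      rw [dif_pos h2]
      exact (hf' (i, j) h).symm
    · change (if h : (i, j) ∈ R then _ else _) = _
      rw [dif_neg h]
  refine (Finset.card_le_card h1).trans (Finset.card_image_le.trans ?_)
  rw [Finset.card_univ, Fintype.card_prod, Fintype.card_fun, Fintype.card_fun, Fintype.card_fin,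
    Fintype.card_coe, Fintype.card_coe, Fintype.card_coe, Finset.card_compl, Fintype.card_prod,
    Fintype.card_fin, Fintype.card_fin]

/-- the repetitions -/
private lemma R6_ex {m k n : ℕ} (c : Cfg m k n) (I : Finset (Fin m)) (r : ℕ)
    (hr : 4 * r = k * I.card)
    (h : 4 * (I.biUnion fun i => univ.image (c i)).card < 3 * k * I.card) :
    ∃ R ⊆ I ×ˢ (univ : Finset (Fin k)), R.card = r ∧
      ∀ p ∈ R, ∃ p' ∈ (I ×ˢ (univ : Finset (Fin k))) \ R, c p.1 p.2 = c p'.1 p'.2 := by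
  classical
  have hT : (I.biUnion fun i => univ.image (c i)) =
      (I ×ˢ (univ : Finset (Fin k))).image fun p => c p.1 p.2 := by
    ext v
    simp only [Finset.mem_biUnion, Finset.mem_image, Finset.mem_product, Finset.mem_univ, true_and,
      and_true, Prod.exists]
    constructor
    · rintro ⟨i, hi, j, hj⟩
      exact ⟨i, j, hi, hj⟩
    · rintro ⟨i, j, hi, hj⟩
      exact ⟨i, hi, j, hj⟩
  rw [hT] at h
  set P := I ×ˢ (univ : Finset (Fin k)) with hP
  set T := P.image fun p => c p.1 p.2 with hTT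
  have hPc : P.card = 4 * r := by
    rw [hP, Finset.card_product, Finset.card_univ, Fintype.card_fin, hr, mul_comm]
  have hPn : P.Nonempty := by
    rw [← Finset.card_pos, hPc]
    have h2 : 3 * k * I.card = 3 * (4 * r) := by rw [hr]; ring
    omega
  have : Nonempty (Fin m × Fin k) := ⟨hPn.choose⟩
  have hex : ∀ v ∈ T, ∃ p ∈ P, c p.1 p.2 = v := fun v hv => Finset.mem_image.1 hv
  choose! g hg hg' using hex
  have hS : (T.image g).card ≤ T.card := Finset.card_image_le
  have hSP : T.image g ⊆ P := by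
    intro p hp
    obtain ⟨v, hv, rfl⟩ := Finset.mem_image.1 hp
    exact hg v hv
  have hRc : r ≤ (P \ T.image g).card := by
    have h1 := Finset.card_sdiff_add_card_eq_card hSP
    have h2 : 3 * k * I.card = 3 * (4 * r) := by rw [hr]; ring
    omega
  obtain ⟨R, hR, hRr⟩ := Finset.exists_subset_card_eq hRc
  refine ⟨R, hR.trans Finset.sdiff_subset, hRr, fun p hp => ?_⟩
  have hpP : p ∈ P := (Finset.mem_sdiff.1 (hR hp)).1
  have hv : c p.1 p.2 ∈ T := Finset.mem_image.2 ⟨p, hpP, rfl⟩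
  refine ⟨g (c p.1 p.2), Finset.mem_sdiff.2 ⟨hg _ hv, fun h1 => ?_⟩, (hg' _ hv).symm⟩
  exact (Finset.mem_sdiff.1 (hR h1)).2 (Finset.mem_image.2 ⟨_, hv, rfl⟩)

/-- the number of configurations for which `I` does not expand -/
private lemma R6_bad {m k n : ℕ} (hn : 0 < n) (I : Finset (Fin m)) (r : ℕ)
    (hr : 4 * r = k * I.card) :
    (univ.filter fun c : Cfg m k n =>
      4 * (I.biUnion fun i => univ.image (c i)).card < 3 * k * I.card).card ≤
      (64 * r) ^ r * n ^ (m * k - r) := by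
  classical
  set P := I ×ˢ (univ : Finset (Fin k)) with hP
  have hPc : P.card = 4 * r := by
    rw [hP, Finset.card_product, Finset.card_univ, Fintype.card_fin, hr, mul_comm]
  have h1 : (univ.filter fun c : Cfg m k n =>
      4 * (I.biUnion fun i => univ.image (c i)).card < 3 * k * I.card) ⊆
      (P.powerset.filter fun R => R.card = r).biUnion fun R => univ.filter fun c : Cfg m k n =>
        ∀ p ∈ R, ∃ p' ∈ P \ R, c p.1 p.2 = c p'.1 p'.2 := by
    intro c hc
    obtain ⟨R, hR, hRr, hR'⟩ := R6_ex c I r hr (Finset.mem_filter.1 hc).2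
    exact Finset.mem_biUnion.2 ⟨R, Finset.mem_filter.2 ⟨Finset.mem_powerset.2 hR, hRr⟩,
      Finset.mem_filter.2 ⟨Finset.mem_univ _, hR'⟩⟩
  refine (Finset.card_le_card h1).trans ((Finset.card_biUnion_le_card_mul _ _
    (n ^ (m * k - r) * (4 * r) ^ r) fun R hR => ?_).trans ?_)
  · have h2 := (Finset.mem_filter.1 hR).2
    have h3 := R6_count (m := m) (k := k) hn P R
    rw [h2, hPc] at h3
    exact h3
  · have h2 : (P.powerset.filter fun R => R.card = r).card ≤ 2 ^ (4 * r) := by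
      refine (Finset.card_filter_le _ _).trans ?_
      rw [Finset.card_powerset, hPc]
    refine (Nat.mul_le_mul_right _ h2).trans (le_of_eq ?_)
    rw [pow_mul, show (64 * r) = 2 ^ 4 * (4 * r) by ring, mul_pow (2 ^ 4)]
    ring

private lemma R6_choose (m n s : ℕ) (hs : 1 ≤ s) (hm : 3 * m ≤ n) :
    m.choose s * s ^ s ≤ n ^ s := by
  have h1 : ((m.choose s : ℕ) : ℝ) ≤ (m : ℝ) ^ s / (s.factorial : ℝ) :=
    Nat.choose_le_pow_div s m
  have h2 : (s : ℝ) ^ s / (s.factorial : ℝ) ≤ Real.exp s :=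
    Real.pow_div_factorial_le_exp _ (Nat.cast_nonneg s) s
  have h3 : Real.exp s ≤ 3 ^ s := by
    rw [← Real.exp_one_pow]
    exact pow_le_pow_left₀ (Real.exp_pos 1).le Real.exp_one_lt_three.le s
  have h4 : ((m.choose s * s ^ s : ℕ) : ℝ) ≤ ((n ^ s : ℕ) : ℝ) := by
    push_cast
    calc ((m.choose s : ℕ) : ℝ) * (s : ℝ) ^ s ≤ (m : ℝ) ^ s / (s.factorial : ℝ) * (s : ℝ) ^ s :=
          mul_le_mul_of_nonneg_right h1 (by positivity)
      _ = (m : ℝ) ^ s * ((s : ℝ) ^ s / (s.factorial : ℝ)) := by ring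
      _ ≤ (m : ℝ) ^ s * 3 ^ s := mul_le_mul_of_nonneg_left (h2.trans h3) (by positivity)
      _ = (3 * (m : ℝ)) ^ s := by rw [mul_pow]; ring
      _ ≤ (n : ℝ) ^ s := pow_le_pow_left₀ (by positivity) (by exact_mod_cast hm) s
  exact_mod_cast h4

private lemma R6_num (m n s a : ℕ) (hs : 1 ≤ s) (ha : 2 ≤ a) (hm : 3 * m ≤ n)
    (hn : 512 * a * (64 * a) * s ≤ n) :
    m.choose s * 8 ^ s * (64 * (a * s)) ^ (a * s) ≤ n ^ (a * s) := by
  obtain ⟨b, rfl⟩ : ∃ b, a = b + 1 := ⟨a - 1, by omega⟩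
  set a := b + 1 with hab
  have hb : b ≠ 0 := by omega
  have h1 : 512 * a * (64 * (a * s)) ^ b ≤ n ^ b := by
    calc 512 * a * (64 * (a * s)) ^ b ≤ (512 * a) ^ b * (64 * (a * s)) ^ b :=
          Nat.mul_le_mul_right _ (Nat.le_self_pow hb _)
      _ = (512 * a * (64 * a) * s) ^ b := by rw [← mul_pow]; ring
      _ ≤ n ^ b := Nat.pow_le_pow_left hn b
  have h2 : 8 * n * (64 * (a * s)) ^ a ≤ s * n ^ a := by
    calc 8 * n * (64 * (a * s)) ^ a = n * s * (512 * a * (64 * (a * s)) ^ b) := by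
          rw [show (64 * (a * s)) ^ a = (64 * (a * s)) ^ b * (64 * (a * s)) from pow_succ _ _]
          ring
      _ ≤ n * s * n ^ b := Nat.mul_le_mul_left _ h1
      _ = s * n ^ a := by
          rw [show n ^ a = n ^ b * n from pow_succ _ _]
          ring
  have h3 := R6_choose m n s hs hm
  have h4 : s ^ s * (m.choose s * 8 ^ s * (64 * (a * s)) ^ (a * s)) ≤ s ^ s * n ^ (a * s) := by
    calc s ^ s * (m.choose s * 8 ^ s * (64 * (a * s)) ^ (a * s))
        = (m.choose s * s ^ s) * (8 * (64 * (a * s)) ^ a) ^ s := by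
          rw [mul_pow 8 _ s, ← pow_mul]; ring
      _ ≤ n ^ s * (8 * (64 * (a * s)) ^ a) ^ s := Nat.mul_le_mul_right _ h3
      _ = (8 * n * (64 * (a * s)) ^ a) ^ s := by rw [← mul_pow]; ring
      _ ≤ (s * n ^ a) ^ s := Nat.pow_le_pow_left h2 s
      _ = s ^ s * n ^ (a * s) := by rw [mul_pow, ← pow_mul]
  exact Nat.le_of_mul_le_mul_left h4 (by positivity)

private lemma R6_geom (m : ℕ) :
    ∑ s ∈ Finset.range (m + 1), (if s = 0 then (0 : ℝ) else (1 / 8) ^ s) =
      (1 - (1 / 8) ^ m) / 7 := by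
  induction m with
  | zero => simp
  | succ m ih =>
    rw [Finset.sum_range_succ, ih, if_neg (by omega)]
    rw [pow_succ]
    ring

theorem thm_R6 : St_R6 := by
  classical
  refine ⟨1, fun q hq => ⟨512 * (32 * q ^ 2) * (64 * (32 * q ^ 2)), 0, fun n _ => ?_⟩⟩
  set a : ℕ := 32 * q ^ 2 with ha
  set k : ℕ := 128 * q ^ 2 with hk
  set m : ℕ := n / (128 * q) with hm
  have hka : k = 4 * a := by rw [hk, ha]; ring
  have hq2 : 1 ≤ q ^ 2 := Nat.one_le_pow _ _ hq
  have ha2 : 2 ≤ a := by omega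
  have hm3 : 3 * m ≤ n := by
    have h1 : 128 * q * m ≤ n := Nat.mul_div_le n (128 * q)
    have h2 : 3 * m ≤ 128 * q * m := Nat.mul_le_mul_right _ (by omega)
    exact h2.trans h1
  intro Bad hBad
  -- the bad configurations for a set of clauses
  let G : Finset (Fin m) → Finset (Cfg m k n) := fun I => univ.filter fun c : Cfg m k n =>
    4 * (I.biUnion fun i => univ.image (c i)).card < 3 * k * I.card
  let J : Finset (Finset (Fin m)) := univ.filter fun I => I ≠ ∅ ∧ 512 * a * (64 * a) * I.card ≤ n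
  have h1 : Bad ⊆ J.biUnion G := by
    intro c hc
    have h2 := hBad c hc
    push Not at h2
    obtain ⟨I, hI, hI'⟩ := h2
    refine Finset.mem_biUnion.2 ⟨I, Finset.mem_filter.2 ⟨Finset.mem_univ _, ?_, hI⟩,
      Finset.mem_filter.2 ⟨Finset.mem_univ _, hI'⟩⟩
    rintro rfl
    rw [Finset.card_empty, mul_zero] at hI'
    exact absurd hI' (Nat.not_lt_zero _)
  have h2 : Bad.card ≤ ∑ I ∈ J, (G I).card :=
    (Finset.card_le_card h1).trans Finset.card_biUnion_le
  let g : ℕ → ℝ := fun s => if s = 0 ∨ n < 512 * a * (64 * a) * s then 0 else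
    (64 * ((a * s : ℕ) : ℝ)) ^ (a * s) * (n : ℝ) ^ (m * k - a * s)
  have hg0 : ∀ s, 0 ≤ g s := by
    intro s
    dsimp only [g]
    split_ifs
    · exact le_rfl
    · positivity
  have h3 : ∀ I ∈ J, ((G I).card : ℝ) ≤ g I.card := by
    intro I hI
    obtain ⟨hI1, hI2⟩ := (Finset.mem_filter.1 hI).2
    have hI3 : I.card ≠ 0 := fun h => hI1 (Finset.card_eq_zero.1 h)
    have hn : 0 < n := by
      have h4 : 0 < 512 * a * (64 * a) * I.card := by positivity
      omega
    have h5 := R6_bad (k := k) (n := n) hn I (a * I.card) (by rw [hka]; ring)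
    dsimp only [g]
    rw [if_neg (by push Not; exact ⟨hI3, hI2⟩)]
    exact_mod_cast h5
  have h4 : (Bad.card : ℝ) ≤ ∑ I : Finset (Fin m), g I.card := by
    calc (Bad.card : ℝ) ≤ ∑ I ∈ J, ((G I).card : ℝ) := by exact_mod_cast h2
      _ ≤ ∑ I ∈ J, g I.card := Finset.sum_le_sum h3
      _ ≤ ∑ I : Finset (Fin m), g I.card :=
          Finset.sum_le_sum_of_subset_of_nonneg (Finset.subset_univ _) fun _ _ _ => hg0 _
  have h5 : ∑ I : Finset (Fin m), g I.card =
      ∑ s ∈ Finset.range (m + 1), (m.choose s) • g s := by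
    have := Finset.sum_powerset_apply_card (x := (univ : Finset (Fin m))) g
    rw [Finset.powerset_univ, Finset.card_univ, Fintype.card_fin] at this
    exact this
  have h6 : ∀ s ∈ Finset.range (m + 1), (m.choose s) • g s ≤
      (n : ℝ) ^ (m * k) * (if s = 0 then (0 : ℝ) else (1 / 8) ^ s) := by
    intro s hs
    have hs' : s ≤ m := Nat.lt_succ_iff.1 (Finset.mem_range.1 hs)
    rw [nsmul_eq_mul]
    dsimp only [g]
    by_cases h0 : s = 0
    · rw [if_pos (Or.inl h0), if_pos h0, mul_zero, mul_zero]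
    · rw [if_neg h0]
      by_cases h7 : n < 512 * a * (64 * a) * s
      · rw [if_pos (Or.inr h7), mul_zero]
        positivity
      · rw [if_neg (by push Not; exact ⟨h0, not_lt.1 h7⟩)]
        have h8 := R6_num m n s a (by omega) ha2 hm3 (not_lt.1 h7)
        have h9 : ((m.choose s : ℕ) : ℝ) * 8 ^ s * (64 * ((a * s : ℕ) : ℝ)) ^ (a * s) ≤
            (n : ℝ) ^ (a * s) := by exact_mod_cast h8
        have h10 : a * s ≤ m * k := by
          rw [mul_comm a s]
          exact Nat.mul_le_mul hs' (by omega)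
        have h11 : (n : ℝ) ^ (m * k) = (n : ℝ) ^ (a * s) * (n : ℝ) ^ (m * k - a * s) := by
          rw [← pow_add, Nat.add_sub_cancel' h10]
        rw [h11, one_div, inv_pow, ← div_eq_mul_inv, le_div_iff₀ (by positivity)]
        calc ((m.choose s : ℕ) : ℝ) * ((64 * ((a * s : ℕ) : ℝ)) ^ (a * s) *
              (n : ℝ) ^ (m * k - a * s)) * 8 ^ s
            = (((m.choose s : ℕ) : ℝ) * 8 ^ s * (64 * ((a * s : ℕ) : ℝ)) ^ (a * s)) *
              (n : ℝ) ^ (m * k - a * s) := by ring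
          _ ≤ (n : ℝ) ^ (a * s) * (n : ℝ) ^ (m * k - a * s) :=
              mul_le_mul_of_nonneg_right h9 (by positivity)
  have h7 : (Bad.card : ℝ) ≤ (n : ℝ) ^ (m * k) * (1 / 7) := by
    refine h4.trans ?_
    rw [h5]
    refine (Finset.sum_le_sum h6).trans ?_
    rw [← Finset.mul_sum, R6_geom]
    refine mul_le_mul_of_nonneg_left ?_ (by positivity)
    have : (0 : ℝ) ≤ (1 / 8) ^ m := by positivity
    linarith
  have h8 : (7 * Bad.card : ℝ) ≤ ((n ^ k) ^ m : ℕ) := by
    push_cast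
    rw [← pow_mul, mul_comm k m]
    linarith
  exact_mod_cast h8

end Pool.Agent.SEL
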