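import Pool.Agent.SEL.Model

/-!
# SEL: signatures of the modules
-/

set_option autoImplicit false

namespace Pool.Agent.SEL

open Finset Pool.Agent.VD

/-! ### Signed local lemma -/

/-- average -/
noncomputable def av {Ω : Type} [Fintype Ω] (f : Ω → ℝ) : ℝ := (∑ ω, f ω) / Fintype.card Ω

/-- the average of the product of the `ψ i`, `i ∈ A`, and the `1 + ψ j`, `j ∈ J` -/
noncomputable def Xi {I Ω : Type} [Fintype Ω] (ψ : I → Ω → ℝ) (A J : Finset I) : ℝ :=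
  av fun ω => (∏ i ∈ A, ψ i ω) * ∏ j ∈ J, (1 + ψ j ω)

/-- [SLL] the signed local lemma -/
def St_SLL : Prop :=
  ∀ (I Ω : Type) [DecidableEq I] [Fintype Ω] [Nonempty Ω] (adj : I → I → Prop)
    [DecidableRel adj] (G : Finset I) (ψ : I → Ω → ℝ) (Δ : ℕ) (z ρ : ℝ),
    1 ≤ Δ → 0 ≤ z → 9 * Δ * z ≤ 1 → 0 ≤ ρ →
    (∀ i ∈ G, (G.filter (adj i)).card ≤ Δ) →
    (∀ A J, A ⊆ G → J ⊆ G → Disjoint A J → (∀ i ∈ A, ∀ j ∈ J, ¬ adj i j) →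
      Xi ψ A J = Xi ψ A ∅ * Xi ψ ∅ J) →
    (∀ A, A ⊆ G → A.Nonempty → |Xi ψ A ∅| ≤ z ^ A.card) →
    ∀ J, J ⊆ G → 0 < Xi ψ ∅ J ∧ ∀ i ∈ G, i ∉ J →
      |Xi ψ ∅ (insert i J) - Xi ψ ∅ J| ≤ 3 * z * Xi ψ ∅ J ∧
      ((∀ A, A ⊆ G → 2 ≤ A.card → |Xi ψ A ∅| ≤ ρ * z ^ A.card) →
        |Xi ψ ∅ (insert i J) - (1 + Xi ψ {i} ∅) * Xi ψ ∅ J| ≤
          (6 * Δ * z * |Xi ψ {i} ∅| + ρ) * Xi ψ ∅ J)

/-- A family of functions on `V → α`: `ψ i` depends only on the coordinates in `C i`, and if it is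
not zero then all coordinates in `D i` lie in the sets of one of the `N` patterns `Gd τ`, which
contain at most half of the letters. -/
structure Fam {V α I : Type} [Fintype V] [DecidableEq V] [Fintype α] [DecidableEq α]
    (G : Finset I) (C D : I → Finset V) (k d N : ℕ) (Gd : Fin N → V → Finset α)
    (ψ : I → (V → α) → ℝ) : Prop where
  sub : ∀ i ∈ G, D i ⊆ C i
  size : ∀ i ∈ G, (C i).card ≤ k
  deg : ∀ v, (G.filter fun i => v ∈ C i).card ≤ d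
  half : ∀ τ v, 2 * (Gd τ v).card ≤ Fintype.card α
  dep : ∀ i ∈ G, ∀ x y : V → α, (∀ v ∈ C i, x v = y v) → ψ i x = ψ i y
  bd : ∀ i ∈ G, ∀ x, |ψ i x| ≤ 2
  supp : ∀ i ∈ G, ∀ x, ψ i x ≠ 0 → ∃ τ, ∀ v ∈ D i, x v ∈ Gd τ v

/-- [GT] the signed local lemma for such families; `z = 2 N / 2 ^ κ` -/
def St_GT : Prop :=
  ∀ (V α I : Type) [Fintype V] [DecidableEq V] [Fintype α] [DecidableEq α] [Nonempty α]
    [DecidableEq I] (G : Finset I) (C D : I → Finset V) (k d N κ : ℕ)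
    (Gd : Fin N → V → Finset α) (ψ : I → (V → α) → ℝ) (z : ℝ),
    Fam G C D k d N Gd ψ → z = 2 * N / 2 ^ κ → 1 ≤ k * d → 9 * (k * d) * z ≤ 1 →
    (∀ i ∈ G, d * κ ≤ (D i).card) →
    (∀ J, J ⊆ G → 0 < Xi ψ ∅ J ∧ ∀ J', J' ⊆ J →
      (1 - 3 * z) ^ (J \ J').card * Xi ψ ∅ J' ≤ Xi ψ ∅ J) ∧
    ∀ l : ℕ, 2 ≤ l → (∀ i ∈ G, 4 * (d * κ) ≤ (D i).card) →
      (∀ i ∈ G, ∀ j ∈ G, i ≠ j → 4 * l ≤ 3 * (D i ∪ D j).card) →
      (∀ i ∈ G, |Xi ψ {i} ∅| ≤ 1 / 4) →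
      ∏ i ∈ G, (1 + Xi ψ {i} ∅ - (6 * (k * d) * z * |Xi ψ {i} ∅| + 1 / 2 ^ l)) ≤ Xi ψ ∅ G ∧
      Xi ψ ∅ G ≤ ∏ i ∈ G, (1 + Xi ψ {i} ∅ + (6 * (k * d) * z * |Xi ψ {i} ∅| + 1 / 2 ^ l))

/-! ### The test function -/

/-- the test function: the sign is changed for each clause in `A'` the variables of which outside
`Y` are all `false` -/
noncomputable def wt {n : ℕ} (A' : Finset (Finset (Fin n))) (Y : Finset (Fin n)) (x : Cube n) : ℝ :=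
  ∏ C ∈ A', (1 - if ∀ v ∈ C \ Y, x v = false then 2 else 0)

/-- the indicator function of the models of `A` -/
noncomputable def ind {n : ℕ} (A : Finset (Finset (Fin n))) (x : Cube n) : ℝ :=
  if ∀ C ∈ A, ∃ v ∈ C, x v = true then 1 else 0

/-- [LowA] the correlation of the test function and the partial count: the pinned variables `U`
and the clauses which contain some of them. The values of the pinned variables outside `Y` are given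
by `ζ`. -/
def St_LowA : Prop :=
  ∀ (n k d κ y : ℕ) (A : Finset (Finset (Fin n))) (Y U : Finset (Fin n)) (ζ : Cube n)
    (z : ℝ), z = 8 / 2 ^ κ → 1 ≤ k * d → 9 * (k * d) * z ≤ 1 → 8 * (d * κ) ≤ k → 2 * y ≤ k →
    (∀ C ∈ A, C.card = k) → (∀ v, (A.filter fun C => v ∈ C).card ≤ d) →
    (∀ C ∈ A, C ⊆ U ∨ 2 * (C ∩ U).card ≤ k) →
    (∀ C ∈ A, ∃ v ∈ C, v ∈ Y ∨ v ∉ U ∨ ζ v = true) →
    (1 / 2 : ℝ) ^ ((d + 1) * U.card) *
      (av fun x : Cube n => wt (A.filter fun C => Disjoint C U ∧ (C ∩ Y).card ≤ y) Y x *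
        ind (A.filter fun C => Disjoint C U) x) ≤
    av fun x : Cube n => wt (A.filter fun C => Disjoint C U ∧ (C ∩ Y).card ≤ y) Y x *
      ind A ((U \ Y).piecewise ζ x)

/-- [LowB] lower bounds for the correlation of the test function and the partial count, without
pinned variables -/
def St_LowB : Prop :=
  ∀ (n k d κ l y : ℕ) (A : Finset (Finset (Fin n))) (Y : Finset (Fin n))
    (z : ℝ), z = 8 / 2 ^ κ → 1 ≤ k * d → 9 * (k * d) * z ≤ 1 → 8 * (d * κ) ≤ k → 2 ≤ l →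
    2 * y ≤ k → 4 * l + 6 * y + 3 ≤ 6 * k → 2 ^ (y + 3) ≤ 2 ^ k →
    (∀ C ∈ A, C.card = k) → (∀ v, (A.filter fun C => v ∈ C).card ≤ d) →
    (∀ C ∈ A, ∀ C' ∈ A, C ≠ C' → (C ∩ C').card ≤ 1) →
    (∏ C ∈ A.filter fun C => (C ∩ Y).card ≤ y, ((1 : ℝ) - 2 / 2 ^ (C \ Y).card + 1 / 2 ^ k -
        (12 * (k * d) * z / 2 ^ (C \ Y).card + 1 / 2 ^ l))) *
      ((1 : ℝ) - 1 / 2 ^ k - (6 * (k * d) * z / 2 ^ k + 1 / 2 ^ l)) ^
        (A.filter fun C => y < (C ∩ Y).card).card ≤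
      (av fun x : Cube n => wt (A.filter fun C => (C ∩ Y).card ≤ y) Y x * ind A x) ∧
    (1 / 2 : ℝ) ^ Y.card * av (ind A) ≤
      av fun x : Cube n => wt (A.filter fun C => (C ∩ Y).card ≤ y) Y x * ind A x

/-- the fourth power of the box norm of `w` across `S` -/
noncomputable def box {n : ℕ} (w : Cube n → ℝ) (S : Finset (Fin n)) : ℝ :=
  av fun p : Cube n × Cube n =>
    w p.1 * w (S.piecewise p.1 p.2) * w (S.piecewise p.2 p.1) * w p.2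

/-- [Box] the correlation with functions of rank `W` -/
def St_Box : Prop :=
  ∀ (n W : ℕ) (w T : Cube n → ℝ) (S : Finset (Fin n)), RkLe S W T →
    (av fun x => w x * T x) ^ 4 ≤ W ^ 2 * box w S * (av fun x => T x ^ 2) ^ 2

/-- [Upp] upper bound for the box norm of the test function -/
def St_Upp : Prop :=
  ∀ (n k d κ l y : ℕ) (A' : Finset (Finset (Fin n))) (Y S : Finset (Fin n)) (z : ℝ),
    z = 8 / 2 ^ κ → 1 ≤ k * d → 9 * (k * d) * z ≤ 1 → 8 * (d * κ) ≤ k → 2 ≤ l →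
    2 * y ≤ k → 4 * l + 6 * y + 3 ≤ 6 * k → 2 ^ (y + 5) ≤ 2 ^ k →
    (∀ C ∈ A', C.card = k) → (∀ v, (A'.filter fun C => v ∈ C).card ≤ d) →
    (∀ C ∈ A', ∀ C' ∈ A', C ≠ C' → (C ∩ C').card ≤ 1) →
    (∀ C ∈ A', (C ∩ Y).card ≤ y) →
    box (wt A' Y) S ≤ ∏ C ∈ A',
      ((1 : ℝ) - 8 / 2 ^ (C \ Y).card * (1 - 1 / 2 ^ ((C \ Y) ∩ S).card) *
          (1 - 1 / 2 ^ ((C \ Y) \ S).card) +
        (48 * (k * d) * z / 2 ^ (C \ Y).card + 1 / 2 ^ l))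

/-- [Par] elimination of the sum in the partial count -/
def St_Par : Prop :=
  ∀ (n : ℕ) (A : Finset (Finset (Fin n))) (Y U : Finset (Fin n)) (ζ : Cube n) (g : Cube n → ℝ),
    Dep (Y ∪ U)ᶜ g →
    (av fun x => g x * (part A Y ((U \ Y).piecewise ζ x) : ℝ)) =
      2 ^ Y.card * av fun x => g x * ind A ((U \ Y).piecewise ζ x)

/-! ### The formula -/

/-- the required properties of the formula -/
structure HG (e₀ y L M k d N₁ N₂ n : ℕ) (E : Finset (Finset (Fin n))) : Prop where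
  size : ∀ C ∈ E, C.card = k
  deg : ∀ v, (E.filter fun C => v ∈ C).card ≤ d
  lin : ∀ C ∈ E, ∀ C' ∈ E, C ≠ C' → (C ∩ C').card ≤ 1
  many : n ≤ N₁ * E.card
  split : ∀ S : Finset (Fin n), n ≤ e₀ * S.card → n ≤ e₀ * Sᶜ.card →
    M * (E.filter fun C => (C ∩ S).card < L ∨ (C \ S).card < L).card ≤ E.card
  few : ∀ Y : Finset (Fin n), E.card ≤ e₀ * (E.filter fun C => Disjoint C Y).card →
    16 * e₀ * (E.filter fun C => y < (C ∩ Y).card).card ≤ E.card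
  clo : ∀ U₀ : Finset (Fin n), N₂ * U₀.card ≤ n → ∃ U, U₀ ⊆ U ∧ U.card ≤ 4 * U₀.card ∧
    ∀ C ∈ E, C ⊆ U ∨ 2 * (C ∩ U).card ≤ k

/-- [HG] existence of the formula -/
def St_HG : Prop :=
  ∀ e₀ : ℕ, 1 ≤ e₀ → ∃ y : ℕ, ∀ L M Z : ℕ, ∃ k d κ N₁ N₂ n₀ : ℕ, 1 ≤ d ∧ 8 * (d * κ) ≤ k ∧
    Z * (k * d) ≤ 2 ^ κ ∧ Z ≤ κ ∧ L ≤ k ∧ ∀ n ≥ n₀, ∃ E : Finset (Finset (Fin n)),
      HG e₀ y L M k d N₁ N₂ n E

/-! ### Random clauses

`m = n / (128 q)` random clauses of width `k = 128 q²`; the average degree is `q`. -/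

/-- the `m` clauses, with repetitions -/
abbrev Cfg (m k n : ℕ) : Type := Fin m → Fin k → Fin n

/-- the property `P` fails for at most one seventh of the configurations -/
def Typ (m k n : ℕ) (P : Cfg m k n → Prop) : Prop :=
  ∀ Bad : Finset (Cfg m k n), (∀ c ∈ Bad, ¬ P c) → 7 * Bad.card ≤ (n ^ k) ^ m

/-- [R1] most clauses have no repetitions -/
def St_R1 : Prop :=
  ∀ k q : ℕ, 1 ≤ q → ∃ n₀ : ℕ, ∀ n ≥ n₀, Typ (n / (128 * q)) k n fun c =>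
    ∀ B : Finset (Fin (n / (128 * q))), (∀ i ∈ B, ¬ Function.Injective (c i)) →
      16 * B.card ≤ n / (128 * q)

/-- [R2] most clauses do not share two variables with another clause -/
def St_R2 : Prop :=
  ∀ k q : ℕ, 1 ≤ q → ∃ n₀ : ℕ, ∀ n ≥ n₀, Typ (n / (128 * q)) k n fun c =>
    ∀ B : Finset (Fin (n / (128 * q))), (∀ i ∈ B, ∃ i', i' ≠ i ∧
      ∃ a b a' b', c i a ≠ c i b ∧ c i a = c i' a' ∧ c i b = c i' b') →
      16 * B.card ≤ n / (128 * q)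

/-- [R3] most clauses have no variable which occurs more than `16 q` times -/
def St_R3 : Prop :=
  ∀ q n : ℕ, 1 ≤ q → Typ (n / (128 * q)) (128 * q ^ 2) n fun c =>
    ∀ B : Finset (Fin (n / (128 * q))),
      (∀ i ∈ B, ∃ j, 16 * q < (univ.filter fun p : Fin (n / (128 * q)) × Fin (128 * q ^ 2) =>
        c p.1 p.2 = c i j).card) → 16 * B.card ≤ n / (128 * q)

/-- [R4] each balanced set splits most clauses -/
def St_R4 : Prop :=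
  ∀ e₀ L M : ℕ, 1 ≤ e₀ → ∃ q₀ : ℕ, ∀ q ≥ q₀, ∃ n₀ : ℕ, ∀ n ≥ n₀,
    Typ (n / (128 * q)) (128 * q ^ 2) n fun c =>
      ∀ S : Finset (Fin n), n ≤ e₀ * S.card → n ≤ e₀ * Sᶜ.card →
        2 * M * (univ.filter fun i => (univ.filter fun j => c i j ∈ S).card < L ∨
          (univ.filter fun j => c i j ∉ S).card < L).card ≤ n / (128 * q)

/-- [R5] a set of variables which is disjoint from many clauses is small -/
def St_R5 : Prop :=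
  ∀ e₀ : ℕ, 1 ≤ e₀ → ∃ q₀ : ℕ, ∀ q ≥ q₀, ∃ n₀ : ℕ, ∀ n ≥ n₀,
    Typ (n / (128 * q)) (128 * q ^ 2) n fun c =>
      ∀ Y : Finset (Fin n), n / (128 * q) ≤ 2 * e₀ * (univ.filter fun i => ∀ j, c i j ∉ Y).card →
        128 * q ^ 2 * Y.card ≤ 4 * e₀ * n

/-- [R6] small sets of clauses expand -/
def St_R6 : Prop :=
  ∃ q₀ : ℕ, ∀ q ≥ q₀, ∃ N₃ n₀ : ℕ, ∀ n ≥ n₀, Typ (n / (128 * q)) (128 * q ^ 2) n fun c =>
    ∀ I : Finset (Fin (n / (128 * q))), N₃ * I.card ≤ n →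
      3 * (128 * q ^ 2) * I.card ≤ 4 * (I.biUnion fun i => univ.image (c i)).card

/-- [Clo] closure of a small set of variables -/
def St_Clo : Prop :=
  ∀ k N₃ : ℕ, 1 ≤ k → ∃ N₂ : ℕ, ∀ (n : ℕ) (E : Finset (Finset (Fin n))), (∀ C ∈ E, C.card = k) →
    (∀ I, I ⊆ E → N₃ * I.card ≤ n → 3 * k * I.card ≤ 4 * (I.biUnion id).card) →
    ∀ U₀ : Finset (Fin n), N₂ * U₀.card ≤ n → ∃ U, U₀ ⊆ U ∧ U.card ≤ 4 * U₀.card ∧
      ∀ C ∈ E, C ⊆ U ∨ 2 * (C ∩ U).card ≤ k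

/-! ### Assembly -/

/-- [Cub] the fraction of the models in a cube -/
def St_Cub : Prop :=
  ∀ (n k d : ℕ) (E : Finset (Finset (Fin n))), (∀ C ∈ E, 2 ≤ C.card ∧ C.card ≤ k) →
    (∀ v, (E.filter fun C => v ∈ C).card ≤ d) → ∀ (F : Finset (Fin n)) (r : Cube n),
    ∃ m : ℕ, F.card ≤ (1 + d + d * k) * m ∧
      (2 ^ d + 1) ^ m * ((cube F r).filter fun x => ∀ C ∈ E, ∃ v ∈ C, x v = true).card ≤
        (2 ^ d) ^ m * (univ.filter fun x : Cube n => ∀ C ∈ E, ∃ v ∈ C, x v = true).card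

/-- [Dec] decomposition of a stable gate (large or not; if it is not large it is replaced by its
truncation to `[0, B]`) -/
def St_Dec : Prop :=
  ∀ (n : ℕ) (ε : ℝ) (W s : ℕ) (P : Arith n ε W s) (g : Fin s) (Q : Finset (Cube n)) (B : ℝ)
    (f : Cube n → ℝ),
    0 < ε → ε ≤ 1 / 3 → 2 ≤ n → 1 ≤ W → 0 ≤ B → StableOn P Q g B →
    (∀ x, 0 ≤ f x ∧ f x ≤ B) →
    ∃ (T : Fin P.size → Cube n → ℝ) (A : Fin P.size → Finset (Fin n)),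
      (∀ i, Bal ε (A i)) ∧ (∀ i, ∑ x ∈ Q, T i x ^ 2 ≤ B ^ 2 * Q.card) ∧
      (∀ i, RkLe (A i) W (T i)) ∧ ∀ x, |∑ i, T i x - f x| ≤ |P.f g x - f x|

/-- [Ins] deterministic circuits with few nested negations, and deterministic trees with negation,
are stable on each set of points -/
def St_Ins : Prop :=
  ∀ (n : ℕ) (ε : ℝ) (W s : ℕ) (P : Arith n ε W s) (g : Fin s) (Q : Finset (Cube n)),
    0 < ε → ε ≤ 1 / 3 → P.IsDD →
    (∀ t : ℕ, P.Nested g t → StableOn P Q g (∑ i ∈ Finset.range (t + 1), P.nots.choose i)) ∧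
    (P.Tree → StableOn P Q g 1)

/-- [Num] the numerical estimate: comparison of the bounds in `St_Low` and `St_Upp` -/
def St_Num : Prop :=
  ∀ e₀ y : ℕ, 1 ≤ e₀ → ∃ L M Z : ℕ, ∀ k d κ N₁ : ℕ, 1 ≤ d → 8 * (d * κ) ≤ k →
    Z * (k * d) ≤ 2 ^ κ → Z ≤ κ → L ≤ k → ∃ l : ℕ, 2 ≤ l ∧ 2 * y ≤ k ∧ 4 * l + 6 * y + 3 ≤ 6 * k ∧
      2 ^ (y + 5) ≤ 2 ^ k ∧ 9 * (k * d) * (8 / 2 ^ κ : ℝ) ≤ 1 ∧ ∃ c : ℝ, 0 < c ∧
    ∀ (n : ℕ) (E A : Finset (Finset (Fin n))) (Y U S : Finset (Fin n)),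
      (∀ C ∈ E, C.card = k) → (∀ v, (E.filter fun C => v ∈ C).card ≤ d) → n ≤ N₁ * E.card →
      M * (E.filter fun C => (C ∩ S).card < L ∨ (C \ S).card < L).card ≤ E.card →
      16 * e₀ * (E.filter fun C => y < (C ∩ Y).card).card ≤ E.card →
      A ⊆ E → E.card ≤ e₀ * A.card → (U.card : ℝ) ≤ 4 * (c * n) →
      (2 : ℝ) ^ (8 * (c * n)) *
        (∏ C ∈ A.filter fun C => Disjoint C U ∧ (C ∩ Y).card ≤ y,
          ((1 : ℝ) - 8 / 2 ^ (C \ Y).card * (1 - 1 / 2 ^ ((C \ Y) ∩ S).card) *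
              (1 - 1 / 2 ^ ((C \ Y) \ S).card) +
            (48 * (k * d) * (8 / 2 ^ κ) / 2 ^ (C \ Y).card + 1 / 2 ^ l))) ≤
      ((1 / 2 : ℝ) ^ ((d + 1) * U.card) *
        (∏ C ∈ A.filter fun C => Disjoint C U ∧ (C ∩ Y).card ≤ y,
          ((1 : ℝ) - 2 / 2 ^ (C \ Y).card + 1 / 2 ^ k -
            (12 * (k * d) * (8 / 2 ^ κ) / 2 ^ (C \ Y).card + 1 / 2 ^ l))) *
        ((1 : ℝ) - 1 / 2 ^ k - (6 * (k * d) * (8 / 2 ^ κ) / 2 ^ k + 1 / 2 ^ l)) ^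
          (A.filter fun C => Disjoint C U ∧ y < (C ∩ Y).card).card) ^ 4 *
        (1 / 2 : ℝ) ^ (2 * U.card)

/-- [Fin] hardness of the partial counts -/
def St_Fin : Prop :=
  ∀ e₀ : ℕ, 3 ≤ e₀ → ∃ c : ℝ, 0 < c ∧ ∃ b k d n₀ : ℕ, 2 ≤ k ∧ ∀ n ≥ n₀,
    ∃ E : Finset (Finset (Fin n)), (∀ C ∈ E, C.card = k) ∧
      (∀ v, (E.filter fun C => v ∈ C).card ≤ d) ∧ 0 < E.card ∧
      ∀ ε : ℝ, 1 ≤ e₀ * ε → ε ≤ 1 / 3 → ∀ (A : Finset (Finset (Fin n))) (Y : Finset (Fin n)),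
        Closed E A Y → E.card ≤ e₀ * A.card →
        (E.card ≤ e₀ * (E \ A).card ∨ (Y.card : ℝ) ≤ c * n) → Hard ε c b A Y

/-- [Main] the main theorem -/
def St_Main : Prop :=
  ∀ ε : ℝ, 0 < ε → ε ≤ 1 / 3 → ∀ t : ℕ, 1 ≤ t → ∃ c : ℝ, 0 < c ∧ ∃ C k : ℕ, 1 ≤ k ∧ ∀ n : ℕ,
    ∃ E : Finset (Finset (Fin n)), (∀ D ∈ E, D.card = k) ∧
      (∀ v, (E.filter fun D => v ∈ D).card ≤ C) ∧
      (∀ (A : Finset (Finset (Fin n))) (Y : Finset (Fin n)), Closed E A Y →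
        ε * E.card ≤ A.card → ((A.card : ℝ) ≤ (1 - ε) * E.card ∨ (Y.card : ℝ) ≤ c * n) →
        Hard ε c C A Y) ∧
      ∀ (N : ℕ) (A : Fin N → Finset (Finset (Fin n))) (Y F : Fin N → Finset (Fin n))
        (r : Fin N → Cube n), Run E t ((1 - ε) * E.card) (ε / 2 * E.card) A Y F r →
        (∃ i, A i = E ∧ F i = ∅) →
        (2 : ℝ) ^ (c * n) ≤ N ∨ ∃ i, HardOn ε c C (A i) (Y i) (F i) (r i)

end Pool.Agent.SEL
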